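import Pool.Agent.Work.MP_8a95ee_gt.Rk.Stmts
import Pool.Agent.Work.MP_8a95ee_gt.R.Bas

/-!
MP_8a95ee_gt, block Rk, item A1: coefficients of the boundary, and its square.
-/

set_option autoImplicit false

namespace MP8a95ee.Rk.A1P

open Ref RA

variable {W : Type} [DecidableEq W] {M : Type} [AddCommGroup M] [Module ℝ M]

theorem bdl_single (π : W → ℕ) (s : Finset W) (r : M) :
    bdl π (Finsupp.single s r) =
      ∑ a ∈ s, sg (π a) ((s.erase a).image π) • Finsupp.single (s.erase a) r := by
  unfold bdl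
  rw [Finsupp.lsum_apply, Finsupp.sum_single_index (by simp), LinearMap.sum_apply]
  rfl

theorem bdl_eq (π : W → ℕ) (c : Finset W →₀ M) :
    bdl π c = ∑ s ∈ c.support, ∑ a ∈ s, sg (π a) ((s.erase a).image π) •
      Finsupp.single (s.erase a) (c s) := by
  conv_lhs => rw [← Finsupp.sum_single c, Finsupp.sum, map_sum]
  exact Finset.sum_congr rfl fun s _ => bdl_single π s (c s)

theorem bdl_coeff (π : W → ℕ) (c : Finset W →₀ M) (t : Finset W) :
    bdl π c t = ∑ s ∈ c.support, ∑ a ∈ s,
      if s.erase a = t then sg (π a) (t.image π) • c s else 0 := by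
  rw [bdl_eq, Finsupp.finsetSum_apply]
  refine Finset.sum_congr rfl fun s _ => ?_
  rw [Finsupp.finsetSum_apply]
  refine Finset.sum_congr rfl fun a _ => ?_
  rw [Finsupp.smul_apply, Finsupp.single_apply]
  split_ifs with h
  · rw [h]
  · rw [smul_zero]

theorem part1 (π : W → ℕ) (c : Finset W →₀ M) (t S : Finset W)
    (hS : ∀ a, a ∉ t → c (insert a t) ≠ 0 → a ∈ S) :
    bdl π c t = ∑ a ∈ S \ t, sg (π a) (t.image π) • c (insert a t) := by
  have h1 : ∀ a ∈ S \ t, sg (π a) (t.image π) • c (insert a t) =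
      ∑ s ∈ c.support, if s = insert a t then sg (π a) (t.image π) • c s else 0 := by
    intro a _
    rw [Finset.sum_ite_eq']
    split_ifs with h
    · rfl
    · rw [Finsupp.notMem_support_iff.1 h, smul_zero]
  rw [bdl_coeff, Finset.sum_congr rfl h1, Finset.sum_comm]
  refine Finset.sum_congr rfl fun s hs => ?_
  rw [← Finset.sum_filter, ← Finset.sum_filter]
  refine Finset.sum_congr ?_ fun _ _ => rfl
  ext a
  rw [Finset.mem_filter, Finset.mem_filter, Finset.mem_sdiff]
  constructor
  · rintro ⟨ha, he⟩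
    have hat : a ∉ t := by rw [← he]; exact Finset.notMem_erase a s
    have hsi : s = insert a t := by rw [← he, Finset.insert_erase ha]
    refine ⟨⟨hS a hat ?_, hat⟩, hsi⟩
    rw [← hsi]
    exact Finsupp.mem_support_iff.1 hs
  · rintro ⟨⟨_, hat⟩, hsi⟩
    exact ⟨by rw [hsi]; exact Finset.mem_insert_self a t, by rw [hsi, Finset.erase_insert hat]⟩

theorem part2_single (π : W → ℕ) (s : Finset W) (r : M) (hs : Set.InjOn π (s : Set W)) :
    bdl π (bdl π (Finsupp.single s r)) = 0 := by
  rw [bdl_single, map_sum]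
  have h1 : ∀ a ∈ s, bdl π (sg (π a) ((s.erase a).image π) • Finsupp.single (s.erase a) r) =
      ∑ b ∈ s.erase a, (sg (π a) ((s.erase a).image π) *
        sg (π b) (((s.erase a).erase b).image π)) • Finsupp.single ((s.erase a).erase b) r := by
    intro a _
    rw [map_smul, bdl_single, Finset.smul_sum]
    exact Finset.sum_congr rfl fun b _ => smul_smul _ _ _
  rw [Finset.sum_congr rfl h1, Finset.sum_sigma']
  refine Finset.sum_involution (fun x _ => ⟨x.2, x.1⟩) ?_ ?_ ?_ ?_
  · rintro ⟨a, b⟩ hx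
    rw [Finset.mem_sigma] at hx
    obtain ⟨ha, hb⟩ := hx
    have hb2 := Finset.mem_erase.1 hb
    dsimp only at ha hb hb2 ⊢
    have hab : a ≠ b := hb2.1.symm
    have hbs : b ∈ s := hb2.2
    have hne : π a ≠ π b := fun h => hab (hs ha hbs h)
    have hcomm : (s.erase b).erase a = (s.erase a).erase b := Finset.erase_right_comm
    set u := (s.erase a).erase b with hu
    have hau : π a ∉ u.image π := by
      intro h
      obtain ⟨c, hc, hca⟩ := Finset.mem_image.1 h
      have hc2 := Finset.mem_erase.1 hc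
      have hc3 := Finset.mem_erase.1 hc2.2
      exact hc3.1 (hs hc3.2 ha hca)
    have hbu : π b ∉ u.image π := by
      intro h
      obtain ⟨c, hc, hca⟩ := Finset.mem_image.1 h
      have hc2 := Finset.mem_erase.1 hc
      have hc3 := Finset.mem_erase.1 hc2.2
      exact hc2.1 (hs hc3.2 hbs hca)
    have e1 : (s.erase a).image π = insert (π b) (u.image π) := by
      rw [← Finset.image_insert, hu, Finset.insert_erase hb]
    have e2 : (s.erase b).image π = insert (π a) (u.image π) := by
      rw [← Finset.image_insert, ← hcomm, Finset.insert_erase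
        (Finset.mem_erase.2 ⟨hab, ha⟩)]
    rw [hcomm, e1, e2, ← add_smul, sg_anti hau hbu hne, neg_add_cancel, zero_smul]
  · rintro ⟨a, b⟩ hx _ h
    rw [Finset.mem_sigma] at hx
    have hb2 := Finset.mem_erase.1 hx.2
    have h' : b = a := congrArg Sigma.fst h
    exact hb2.1 h'
  · rintro ⟨a, b⟩ hx
    rw [Finset.mem_sigma] at hx ⊢
    have hb2 := Finset.mem_erase.1 hx.2
    exact ⟨hb2.2, Finset.mem_erase.2 ⟨fun h => hb2.1 h.symm, hx.1⟩⟩
  · rintro ⟨a, b⟩ _
    rfl

theorem part2 (π : W → ℕ) (c : Finset W →₀ M)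
    (hc : ∀ t, c t ≠ 0 → Set.InjOn π (t : Set W)) : bdl π (bdl π c) = 0 := by
  conv_lhs => rw [← Finsupp.sum_single c, Finsupp.sum, map_sum, map_sum]
  exact Finset.sum_eq_zero fun s hs =>
    part2_single π s (c s) (hc s (Finsupp.mem_support_iff.1 hs))

theorem prf : S_A1 :=
  ⟨fun _ _ π _ _ _ c t S hS => part1 π c t S hS, fun _ _ π _ _ _ c hc => part2 π c hc⟩

end MP8a95ee.Rk.A1P
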