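import Pool.Agent.Work.MP_8a95ee_gt.Rk.Stmts

/-!
# MP_8a95ee_gt, block Rk, item A3: coefficients of `dT x`
-/

set_option autoImplicit false

namespace MP8a95ee.Rk.A3P

open MP8a95ee MP8a95ee.Rk Ref RA

section

variable {W : Type} [DecidableEq W]

lemma eq1 {s0 u0 s u : Finset W} (h0 : Disjoint s0 u0) (h : Disjoint s u) (a : W) :
    (a ∈ u0 ∧ (insert a s0, u0.erase a) = (s, u)) ↔
      (a ∈ s ∧ (s0, u0) = (s.erase a, insert a u)) := by
  rw [Finset.disjoint_left] at h0 h
  constructor
  · rintro ⟨ha, he⟩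
    rw [Prod.mk.injEq] at he
    obtain ⟨rfl, rfl⟩ := he
    refine ⟨Finset.mem_insert_self _ _, ?_⟩
    rw [Finset.erase_insert (fun h' => h0 h' ha), Finset.insert_erase ha]
  · rintro ⟨ha, he⟩
    rw [Prod.mk.injEq] at he
    obtain ⟨rfl, rfl⟩ := he
    refine ⟨Finset.mem_insert_self _ _, ?_⟩
    rw [Finset.insert_erase ha, Finset.erase_insert (h ha)]

lemma eq2 {s0 u0 s u : Finset W} (h0 : Disjoint s0 u0) (a : W) :
    (a ∈ u0 ∧ (s0, u0.erase a) = (s, u)) ↔
      (a ∉ s ∪ u ∧ (s0, u0) = (s, insert a u)) := by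
  rw [Finset.disjoint_left] at h0
  constructor
  · rintro ⟨ha, he⟩
    rw [Prod.mk.injEq] at he
    obtain ⟨rfl, rfl⟩ := he
    refine ⟨?_, ?_⟩
    · rw [Finset.mem_union]
      rintro (h' | h')
      · exact h0 h' ha
      · exact Finset.notMem_erase _ _ h'
    · rw [Finset.insert_erase ha]
  · rintro ⟨ha, he⟩
    rw [Prod.mk.injEq] at he
    obtain ⟨rfl, rfl⟩ := he
    rw [Finset.mem_union, not_or] at ha
    refine ⟨Finset.mem_insert_self _ _, ?_⟩
    rw [Finset.erase_insert ha.2]

variable (π : W → ℕ) {N : Type} [AddCommGroup N] [Module ℝ N] (ρ : ℕ → Finset ℕ → N →ₗ[ℝ] N)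

lemma dT_single (p : Finset W × Finset W) (n : N) (q : Finset W × Finset W) :
    dT π ρ (Finsupp.single p n) q = ∑ a ∈ p.2, sg (π a) ((p.2.erase a).image π) •
      ((if (insert a p.1, p.2.erase a) = q then ρ (π a) (p.1.image π) n else 0) -
        (if (p.1, p.2.erase a) = q then n else 0)) := by
  unfold dT
  rw [Finsupp.lsum_single, LinearMap.sum_apply, Finsupp.finsetSum_apply]
  refine Finset.sum_congr rfl fun a _ => ?_
  rw [LinearMap.smul_apply, Finsupp.smul_apply, LinearMap.sub_apply, Finsupp.sub_apply,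
    LinearMap.comp_apply, Finsupp.lsingle_apply, Finsupp.lsingle_apply, Finsupp.single_apply,
    Finsupp.single_apply]

lemma dT_single_not (p : Finset W × Finset W) (hp : Disjoint p.1 p.2) (n : N) (s u : Finset W)
    (h : ¬ Disjoint s u) : dT π ρ (Finsupp.single p n) (s, u) = 0 := by
  rw [dT_single]
  refine Finset.sum_eq_zero fun a ha => ?_
  rw [if_neg, if_neg, sub_zero, smul_zero]
  · intro he
    rw [Prod.mk.injEq] at he
    apply h
    rw [← he.1, ← he.2]
    exact hp.mono_right (Finset.erase_subset _ _)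
  · intro he
    rw [Prod.mk.injEq] at he
    apply h
    rw [← he.1, ← he.2, Finset.disjoint_insert_left]
    exact ⟨Finset.notMem_erase _ _, hp.mono_right (Finset.erase_subset _ _)⟩

lemma dT_single_eq (p : Finset W × Finset W) (hp : Disjoint p.1 p.2) (n : N) (s u : Finset W)
    (h : Disjoint s u) (S : Finset W) (hS : ∀ a, a ∉ s ∪ u → p = (s, insert a u) → a ∈ S) :
    dT π ρ (Finsupp.single p n) (s, u) =
      ∑ a ∈ s, sg (π a) (u.image π) •
        ρ (π a) ((s.erase a).image π) ((Finsupp.single p n : (Finset W × Finset W) →₀ N)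
          (s.erase a, insert a u)) -
      ∑ a ∈ S \ (s ∪ u), sg (π a) (u.image π) •
        (Finsupp.single p n : (Finset W × Finset W) →₀ N) (s, insert a u) := by
  obtain ⟨s0, u0⟩ := p
  rw [dT_single]
  simp only [smul_sub, Finset.sum_sub_distrib]
  congr 1
  · refine Finset.sum_congr_of_eq_on_inter ?_ ?_ ?_
    · intro a ha ha'
      rw [if_neg, smul_zero]
      intro he
      exact ha' ((eq1 hp h a).mp ⟨ha, he⟩).1
    · intro a ha ha'
      rw [Finsupp.single_apply, if_neg, map_zero, smul_zero]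
      intro he
      exact ha' ((eq1 hp h a).mpr ⟨ha, he⟩).1
    · intro a ha ha'
      rw [Finsupp.single_apply]
      by_cases he : (insert a s0, u0.erase a) = (s, u)
      · have he' := ((eq1 hp h a).mp ⟨ha, he⟩).2
        rw [if_pos he, if_pos he']
        rw [Prod.mk.injEq] at he he'
        simp only at he he' ⊢
        rw [he.2, he'.1]
      · rw [if_neg he, if_neg, map_zero, smul_zero, smul_zero]
        intro he'
        exact he ((eq1 hp h a).mpr ⟨ha', he'⟩).2
  · refine Finset.sum_congr_of_eq_on_inter ?_ ?_ ?_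
    · intro a ha ha'
      rw [if_neg, smul_zero]
      intro he
      have h' := (eq2 hp a).mp ⟨ha, he⟩
      exact ha' (Finset.mem_sdiff.mpr ⟨hS a h'.1 h'.2, h'.1⟩)
    · intro a ha ha'
      rw [Finsupp.single_apply, if_neg, smul_zero]
      intro he
      exact ha' ((eq2 hp a).mpr ⟨(Finset.mem_sdiff.mp ha).2, he⟩).1
    · intro a ha ha'
      rw [Finsupp.single_apply]
      by_cases he : (s0, u0.erase a) = (s, u)
      · have he' := ((eq2 hp a).mp ⟨ha, he⟩).2
        rw [if_pos he, if_pos he']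
        rw [Prod.mk.injEq] at he
        rw [he.2]
      · rw [if_neg he, if_neg, smul_zero, smul_zero]
        intro he'
        exact he ((eq2 hp a).mpr ⟨(Finset.mem_sdiff.mp ha').2, he'⟩).2

/-- linear maps agreeing on the singles of `x` agree on `x` -/
lemma lin_ext {A B : Type} [AddCommGroup B] [Module ℝ B] (f g : (A →₀ N) →ₗ[ℝ] B) (x : A →₀ N)
    (h : ∀ p, x p ≠ 0 → f (Finsupp.single p (x p)) = g (Finsupp.single p (x p))) : f x = g x := by
  have hx : x = ∑ p ∈ x.support, Finsupp.single p (x p) := by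
    conv_lhs => rw [← Finsupp.sum_single x]
    rfl
  rw [hx, map_sum, map_sum]
  refine Finset.sum_congr rfl fun p hp => ?_
  exact h p (Finsupp.mem_support_iff.mp hp)

end

theorem prf : S_A3 := by
  intro W _ π N _ _ ρ x hx s u
  refine ⟨fun h => ?_, fun h S hS => ?_⟩
  · have := lin_ext (Finsupp.lapply (s, u) ∘ₗ dT π ρ) (0 : _ →ₗ[ℝ] N) x (fun p hp => by
      rw [LinearMap.comp_apply, LinearMap.zero_apply]
      exact dT_single_not π ρ p (hx p hp) (x p) s u h)
    simpa using this
  · have := lin_ext (Finsupp.lapply (s, u) ∘ₗ dT π ρ)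
      (∑ a ∈ s, sg (π a) (u.image π) •
        (ρ (π a) ((s.erase a).image π) ∘ₗ Finsupp.lapply (s.erase a, insert a u)) -
      ∑ a ∈ S \ (s ∪ u), sg (π a) (u.image π) • Finsupp.lapply (s, insert a u)) x (fun p hp => by
        have h' := dT_single_eq π ρ p (hx p hp) (x p) s u h S (fun a ha he => hS a ha (by
          rw [← he]; exact hp))
        simp only [LinearMap.comp_apply, LinearMap.sub_apply, LinearMap.sum_apply,
          LinearMap.smul_apply, Finsupp.lapply_apply]
        exact h')
    simp only [LinearMap.comp_apply, LinearMap.sub_apply, LinearMap.sum_apply,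
      LinearMap.smul_apply, Finsupp.lapply_apply] at this
    exact this

end MP8a95ee.Rk.A3P
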