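import Pool.Agent.Work.MP_8a95ee_gt.Rk.Stmts
import Pool.Agent.Work.MP_8a95ee_gt.R.Bas

/-!
MP_8a95ee_gt, block Rk, item A4: the boundary operator on pairs maps chains of pairs to chains of
pairs, and its square is zero.
-/

set_option autoImplicit false

namespace MP8a95ee.Rk.A4P

open Ref RA

variable {W : Type} [DecidableEq W] {N : Type} [AddCommGroup N] [Module ℝ N]

theorem dT_single (π : W → ℕ) (ρ : ℕ → Finset ℕ → N →ₗ[ℝ] N) (s u : Finset W) (n : N) :
    dT π ρ (Finsupp.single (s, u) n) =
      ∑ a ∈ u, sg (π a) ((u.erase a).image π) •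
        (Finsupp.single (insert a s, u.erase a) (ρ (π a) (s.image π) n) -
          Finsupp.single (s, u.erase a) n) := by
  unfold dT
  rw [Finsupp.lsum_apply, Finsupp.sum_single_index (by simp), LinearMap.sum_apply]
  rfl

theorem dT_eq (π : W → ℕ) (ρ : ℕ → Finset ℕ → N →ₗ[ℝ] N) (x : (Finset W × Finset W) →₀ N) :
    dT π ρ x = ∑ p ∈ x.support, dT π ρ (Finsupp.single (p.1, p.2) (x p)) := by
  conv_lhs => rw [← Finsupp.sum_single x, Finsupp.sum, map_sum]

section closure

variable {Yt : Set (Finset W)} {π : W → ℕ} {F : Finset ℕ → Submodule ℝ N}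

theorem isDt_zero : IsDt Yt π F 0 := fun p => by
  refine ⟨fun h => absurd (Finsupp.zero_apply) h, ?_⟩
  rw [Finsupp.zero_apply]
  exact Submodule.zero_mem _

theorem isDt_add {x y : (Finset W × Finset W) →₀ N} (hx : IsDt Yt π F x) (hy : IsDt Yt π F y) :
    IsDt Yt π F (x + y) := by
  intro p
  rw [Finsupp.add_apply]
  refine ⟨fun h => ?_, Submodule.add_mem _ (hx p).2 (hy p).2⟩
  by_cases h1 : x p = 0
  · refine (hy p).1 fun h2 => h ?_
    rw [h1, h2, add_zero]
  · exact (hx p).1 h1

theorem isDt_smul (r : ℝ) {x : (Finset W × Finset W) →₀ N} (hx : IsDt Yt π F x) :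
    IsDt Yt π F (r • x) := by
  intro p
  rw [Finsupp.smul_apply]
  refine ⟨fun h => (hx p).1 fun h1 => h ?_, Submodule.smul_mem _ _ (hx p).2⟩
  rw [h1, smul_zero]

theorem isDt_sub {x y : (Finset W × Finset W) →₀ N} (hx : IsDt Yt π F x) (hy : IsDt Yt π F y) :
    IsDt Yt π F (x - y) := by
  intro p
  rw [Finsupp.sub_apply]
  refine ⟨fun h => ?_, Submodule.sub_mem _ (hx p).2 (hy p).2⟩
  by_cases h1 : x p = 0
  · refine (hy p).1 fun h2 => h ?_
    rw [h1, h2, sub_zero]
  · exact (hx p).1 h1

theorem isDt_sum {ι : Type} (T : Finset ι) (f : ι → (Finset W × Finset W) →₀ N)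
    (hf : ∀ i ∈ T, IsDt Yt π F (f i)) : IsDt Yt π F (∑ i ∈ T, f i) := by
  classical
  induction T using Finset.induction_on with
  | empty => rw [Finset.sum_empty]; exact isDt_zero
  | insert i T hi ih =>
    rw [Finset.sum_insert hi]
    exact isDt_add (hf i (Finset.mem_insert_self i T))
      (ih fun j hj => hf j (Finset.mem_insert_of_mem hj))

theorem isDt_single {s u : Finset W} {n : N} (h1 : Disjoint s u) (h2 : s ∪ u ∈ Yt)
    (h3 : n ∈ F (s.image π)) : IsDt Yt π F (Finsupp.single (s, u) n) := by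
  intro p
  rw [Finsupp.single_apply]
  split_ifs with h
  · subst h
    exact ⟨fun _ => ⟨h1, h2⟩, h3⟩
  · exact ⟨fun h' => absurd rfl h', Submodule.zero_mem _⟩

end closure

/-- the facts about a pair in `Yt` used below -/
theorem notMem_image {π : W → ℕ} {t : Finset W} (ht : Set.InjOn π (t : Set W)) {a : W}
    (ha : a ∈ t) {r : Finset W} (hr : r ⊆ t) (har : a ∉ r) : π a ∉ r.image π := by
  intro h
  obtain ⟨c, hc, hca⟩ := Finset.mem_image.1 h
  have : c = a := ht (hr hc) ha hca
  exact har (this ▸ hc)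

theorem part1_single {Y : Finset (Finset ℕ)} {π : W → ℕ} {Yt : Set (Finset W)}
    (hL : IsLab Y π Yt) {F : Finset ℕ → Submodule ℝ N} {ρ : ℕ → Finset ℕ → N →ₗ[ℝ] N}
    (hC : IsCS Y F ρ) {s u : Finset W} {n : N} (h1 : Disjoint s u) (h2 : s ∪ u ∈ Yt)
    (h3 : n ∈ F (s.image π)) : IsDt Yt π F (dT π ρ (Finsupp.single (s, u) n)) := by
  rw [dT_single]
  refine isDt_sum _ _ fun a ha => isDt_smul _ (isDt_sub ?_ ?_)
  · have has : a ∉ s := fun h => (Finset.disjoint_left.1 h1 h ha)
    refine isDt_single ?_ ?_ ?_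
    · rw [Finset.disjoint_insert_left]
      exact ⟨Finset.notMem_erase a u, h1.mono_right (Finset.erase_subset a u)⟩
    · have : insert a s ∪ u.erase a = s ∪ u := by
        rw [Finset.insert_union, ← Finset.union_insert, Finset.insert_erase ha]
      rw [this]
      exact h2
    · rw [Finset.image_insert]
      refine hC.map _ _ ?_ ?_ _ h3
      · exact notMem_image (hL.simp _ h2).2 (Finset.mem_union_right s ha)
          Finset.subset_union_left has
      · rw [← Finset.image_insert]
        refine (hL.simp _ (hL.down _ h2 (insert a s) ?_)).1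
        rw [Finset.insert_subset_iff]
        exact ⟨Finset.mem_union_right s ha, Finset.subset_union_left⟩
  · refine isDt_single (h1.mono_right (Finset.erase_subset a u)) ?_ h3
    exact hL.down _ h2 _ (Finset.union_subset_union_right (Finset.erase_subset a u))

/-- the symmetric vector belonging to a pair of elements of `u` -/
noncomputable def gg (π : W → ℕ) (ρ : ℕ → Finset ℕ → N →ₗ[ℝ] N) (s v : Finset W) (n : N)
    (a b : W) : (Finset W × Finset W) →₀ N :=
  (Finsupp.single (insert b (insert a s), v)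
      (ρ (π b) ((insert a s).image π) (ρ (π a) (s.image π) n)) -
    Finsupp.single (insert a s, v) (ρ (π a) (s.image π) n)) -
  (Finsupp.single (insert b s, v) (ρ (π b) (s.image π) n) - Finsupp.single (s, v) n)

theorem part2_single {Y : Finset (Finset ℕ)} {π : W → ℕ} {Yt : Set (Finset W)}
    (hL : IsLab Y π Yt) {F : Finset ℕ → Submodule ℝ N} {ρ : ℕ → Finset ℕ → N →ₗ[ℝ] N}
    (hC : IsCS Y F ρ) {s u : Finset W} {n : N} (h1 : Disjoint s u) (h2 : s ∪ u ∈ Yt)
    (h3 : n ∈ F (s.image π)) : dT π ρ (dT π ρ (Finsupp.single (s, u) n)) = 0 := by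
  have hinj := (hL.simp _ h2).2
  rw [dT_single, map_sum]
  have e1 : ∀ a ∈ u, dT π ρ (sg (π a) ((u.erase a).image π) •
        (Finsupp.single (insert a s, u.erase a) (ρ (π a) (s.image π) n) -
          Finsupp.single (s, u.erase a) n)) =
      ∑ b ∈ u.erase a, (sg (π a) ((u.erase a).image π) *
        sg (π b) (((u.erase a).erase b).image π)) • gg π ρ s ((u.erase a).erase b) n a b := by
    intro a _
    rw [map_smul, map_sub, dT_single, dT_single, ← Finset.sum_sub_distrib, Finset.smul_sum]
    refine Finset.sum_congr rfl fun b _ => ?_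
    rw [← smul_sub, smul_smul]
    rfl
  rw [Finset.sum_congr rfl e1, Finset.sum_sigma']
  refine Finset.sum_involution (fun x _ => ⟨x.2, x.1⟩) ?_ ?_ ?_ ?_
  · rintro ⟨a, b⟩ hx
    rw [Finset.mem_sigma] at hx
    obtain ⟨ha, hb⟩ := hx
    have hb2 := Finset.mem_erase.1 hb
    dsimp only at ha hb hb2 ⊢
    have hab : a ≠ b := hb2.1.symm
    have hbs : b ∈ u := hb2.2
    have hat : a ∈ s ∪ u := Finset.mem_union_right s ha
    have hbt : b ∈ s ∪ u := Finset.mem_union_right s hbs
    have hne : π a ≠ π b := fun h => hab (hinj hat hbt h)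
    have has : a ∉ s := fun h => (Finset.disjoint_left.1 h1 h ha)
    have hbs' : b ∉ s := fun h => (Finset.disjoint_left.1 h1 h hbs)
    have hcomm : (u.erase b).erase a = (u.erase a).erase b := Finset.erase_right_comm
    set v := (u.erase a).erase b with hv
    have hvt : v ⊆ s ∪ u := fun c hc => Finset.mem_union_right s
      (Finset.mem_of_mem_erase (Finset.mem_of_mem_erase hc))
    have hau : π a ∉ v.image π := notMem_image hinj hat hvt fun h =>
      (Finset.notMem_erase a u) (Finset.mem_of_mem_erase h)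
    have hbu : π b ∉ v.image π := notMem_image hinj hbt hvt fun h =>
      (Finset.notMem_erase b _) h
    have e1 : (u.erase a).image π = insert (π b) (v.image π) := by
      rw [← Finset.image_insert, hv, Finset.insert_erase hb]
    have e2 : (u.erase b).image π = insert (π a) (v.image π) := by
      rw [← Finset.image_insert, ← hcomm, Finset.insert_erase
        (Finset.mem_erase.2 ⟨hab, ha⟩)]
    have e3 : gg π ρ s v n b a = gg π ρ s v n a b := by
      have hY : insert (π a) (insert (π b) (s.image π)) ∈ Y := by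
        rw [← Finset.image_insert, ← Finset.image_insert]
        refine (hL.simp _ (hL.down _ h2 _ ?_)).1
        rw [Finset.insert_subset_iff, Finset.insert_subset_iff]
        exact ⟨hat, hbt, Finset.subset_union_left⟩
      have hc := hC.comm (π a) (π b) (s.image π) hne
        (notMem_image hinj hat Finset.subset_union_left has)
        (notMem_image hinj hbt Finset.subset_union_left hbs') hY n h3
      unfold gg
      rw [Finset.image_insert, Finset.image_insert, hc, Finset.insert_comm a b s]
      abel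
    rw [hcomm, e1, e2, e3, ← add_smul, sg_anti hau hbu hne, neg_add_cancel, zero_smul]
  · rintro ⟨a, b⟩ hx _ h
    rw [Finset.mem_sigma] at hx
    have hb2 := Finset.mem_erase.1 hx.2
    have h' : b = a := congrArg Sigma.fst h
    exact hb2.1 h'
  · rintro ⟨a, b⟩ hx
    rw [Finset.mem_sigma] at hx ⊢
    have hb2 := Finset.mem_erase.1 hx.2
    exact ⟨hb2.2, Finset.mem_erase.2 ⟨fun h => hb2.1 h.symm, hx.1⟩⟩
  · rintro ⟨a, b⟩ _
    rfl

theorem prf : S_A4 := by
  intro Y W _ π Yt hL N _ _ F ρ hC x hx
  have key : ∀ p ∈ x.support, Disjoint p.1 p.2 ∧ p.1 ∪ p.2 ∈ Yt ∧ x p ∈ F (p.1.image π) :=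
    fun p hp => ⟨((hx p).1 (Finsupp.mem_support_iff.1 hp)).1,
      ((hx p).1 (Finsupp.mem_support_iff.1 hp)).2, (hx p).2⟩
  constructor
  · rw [dT_eq]
    exact isDt_sum _ _ fun p hp =>
      part1_single hL hC (key p hp).1 (key p hp).2.1 (key p hp).2.2
  · rw [dT_eq π ρ x, map_sum]
    exact Finset.sum_eq_zero fun p hp =>
      part2_single hL hC (key p hp).1 (key p hp).2.1 (key p hp).2.2

end MP8a95ee.Rk.A4P
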