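import Pool.Agent.Work.MP_8a95ee_gt.Rk.Stmts
import Pool.Agent.Work.MP_8a95ee_gt.Rk.I_A1
import Pool.Agent.Work.MP_8a95ee_gt.Bd.B05

/-!
MP_8a95ee_gt, block Rk, item A5: cap product with a cocycle.
-/

set_option autoImplicit false

namespace MP8a95ee.Rk.A5P

open Ref RA

variable {W : Type} [DecidableEq W] {N : Type} [AddCommGroup N] [Module ℝ N]

/-! ### Coefficients of the cap product -/

theorem capT_coeff (π : W → ℕ) (φ : Finset ℕ → N) (c : Finset W →₀ ℝ) (s u : Finset W) :
    capT π φ c (s, u) = if Disjoint s u then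
      ((-1 : ℝ) ^ ((s.card + 1) * u.card) * sgg (s.image π) (u.image π) * c (s ∪ u)) •
        φ (s.image π) else 0 := by
  have h1 : capT π φ c (s, u) = ∑ t ∈ c.support, ∑ s' ∈ t.powerset,
      if (s', t \ s') = (s, u) then
        (c t * ((-1 : ℝ) ^ ((s.card + 1) * u.card) * sgg (s.image π) (u.image π))) •
          φ (s.image π) else 0 := by
    unfold capT
    rw [Finsupp.linearCombination_apply, Finsupp.sum, Finsupp.finsetSum_apply]
    refine Finset.sum_congr rfl fun t _ => ?_
    rw [Finsupp.smul_apply, Finsupp.finsetSum_apply, Finset.smul_sum]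
    refine Finset.sum_congr rfl fun s' _ => ?_
    rw [Finsupp.single_apply]
    split_ifs with h
    · obtain ⟨h2, h3⟩ := Prod.mk.inj h
      rw [h2] at h3
      rw [h2, h3, smul_smul]
    · rw [smul_zero]
  rw [h1]
  by_cases hd : Disjoint s u
  · rw [if_pos hd]
    have h2 : ∀ t ∈ c.support, (∑ s' ∈ t.powerset, if (s', t \ s') = (s, u) then
        (c t * ((-1 : ℝ) ^ ((s.card + 1) * u.card) * sgg (s.image π) (u.image π))) •
          φ (s.image π) else 0) = if t = s ∪ u then
        (c t * ((-1 : ℝ) ^ ((s.card + 1) * u.card) * sgg (s.image π) (u.image π))) •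
          φ (s.image π) else 0 := by
      intro t _
      by_cases ht : t = s ∪ u
      · rw [if_pos ht, Finset.sum_eq_single s]
        · rw [if_pos]
          rw [ht, Finset.union_sdiff_left, Finset.sdiff_eq_self_of_disjoint hd.symm]
        · intro s' _ hs'
          rw [if_neg]
          intro h
          exact hs' (Prod.mk.inj h).1
        · intro h
          exact absurd (Finset.mem_powerset.2 (by rw [ht]; exact Finset.subset_union_left)) h
      · rw [if_neg ht]
        refine Finset.sum_eq_zero fun s' hs' => ?_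
        rw [if_neg]
        intro h
        obtain ⟨h3, h4⟩ := Prod.mk.inj h
        apply ht
        rw [← h4, ← h3, Finset.union_sdiff_of_subset (Finset.mem_powerset.1 hs')]
    rw [Finset.sum_congr rfl h2, Finset.sum_ite_eq']
    split_ifs with h3
    · congr 1
      ring
    · rw [Finsupp.notMem_support_iff.1 h3, mul_zero, zero_smul]
  · rw [if_neg hd]
    refine Finset.sum_eq_zero fun t _ => Finset.sum_eq_zero fun s' _ => ?_
    rw [if_neg]
    intro h
    obtain ⟨h3, h4⟩ := Prod.mk.inj h
    apply hd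
    rw [← h4, ← h3]
    exact Finset.disjoint_sdiff

/-! ### Coefficients of `dT` -/

theorem dT_single (π : W → ℕ) (ρ : ℕ → Finset ℕ → N →ₗ[ℝ] N) (p : Finset W × Finset W) (n : N) :
    dT π ρ (Finsupp.single p n) = ∑ a ∈ p.2, sg (π a) ((p.2.erase a).image π) •
      (Finsupp.single (insert a p.1, p.2.erase a) (ρ (π a) (p.1.image π) n) -
        Finsupp.single (p.1, p.2.erase a) n) := by
  unfold dT
  rw [Finsupp.lsum_apply, Finsupp.sum_single_index (by simp), LinearMap.sum_apply]
  rfl

theorem dT_coeff (π : W → ℕ) (ρ : ℕ → Finset ℕ → N →ₗ[ℝ] N) (x : (Finset W × Finset W) →₀ N)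
    (q : Finset W × Finset W) :
    dT π ρ x q = (∑ p ∈ x.support, ∑ a ∈ p.2, if (insert a p.1, p.2.erase a) = q then
        sg (π a) (q.2.image π) • ρ (π a) (p.1.image π) (x p) else 0) -
      ∑ p ∈ x.support, ∑ a ∈ p.2, if (p.1, p.2.erase a) = q then
        sg (π a) (q.2.image π) • x p else 0 := by
  have h0 : dT π ρ x = ∑ p ∈ x.support, dT π ρ (Finsupp.single p (x p)) := by
    conv_lhs => rw [← Finsupp.sum_single x, Finsupp.sum, map_sum]
  rw [h0, Finsupp.finsetSum_apply, ← Finset.sum_sub_distrib]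
  refine Finset.sum_congr rfl fun p _ => ?_
  rw [dT_single, Finsupp.finsetSum_apply, ← Finset.sum_sub_distrib]
  refine Finset.sum_congr rfl fun a _ => ?_
  rw [Finsupp.smul_apply, Finsupp.sub_apply, Finsupp.single_apply, Finsupp.single_apply, smul_sub]
  congr 1
  · split_ifs with h
    · rw [← h]
    · rw [smul_zero]
  · split_ifs with h
    · rw [← h]
    · rw [smul_zero]

theorem dT_neg (π : W → ℕ) (ρ : ℕ → Finset ℕ → N →ₗ[ℝ] N) (x : (Finset W × Finset W) →₀ N)
    (hx : ∀ p, x p ≠ 0 → Disjoint p.1 p.2) (s u : Finset W) (hd : ¬ Disjoint s u) :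
    dT π ρ x (s, u) = 0 := by
  rw [dT_coeff]
  have h1 : (∑ p ∈ x.support, ∑ a ∈ p.2, if (insert a p.1, p.2.erase a) = (s, u) then
      sg (π a) ((s, u).2.image π) • ρ (π a) (p.1.image π) (x p) else 0) = 0 := by
    refine Finset.sum_eq_zero fun p hp => Finset.sum_eq_zero fun a ha => ?_
    rw [if_neg]
    intro h
    obtain ⟨h3, h4⟩ := Prod.mk.inj h
    apply hd
    have hp' := hx p (Finsupp.mem_support_iff.1 hp)
    rw [← h3, ← h4, Finset.disjoint_insert_left]
    exact ⟨Finset.notMem_erase a _, hp'.mono_right (Finset.erase_subset _ _)⟩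
  have h2 : (∑ p ∈ x.support, ∑ a ∈ p.2, if (p.1, p.2.erase a) = (s, u) then
      sg (π a) ((s, u).2.image π) • x p else 0) = 0 := by
    refine Finset.sum_eq_zero fun p hp => Finset.sum_eq_zero fun a ha => ?_
    rw [if_neg]
    intro h
    obtain ⟨h3, h4⟩ := Prod.mk.inj h
    apply hd
    have hp' := hx p (Finsupp.mem_support_iff.1 hp)
    rw [← h3, ← h4]
    exact hp'.mono_right (Finset.erase_subset _ _)
  rw [h1, h2, sub_zero]

theorem dT_pos (π : W → ℕ) (ρ : ℕ → Finset ℕ → N →ₗ[ℝ] N) (x : (Finset W × Finset W) →₀ N)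
    (hx : ∀ p, x p ≠ 0 → Disjoint p.1 p.2) (s u : Finset W) (hd : Disjoint s u) (T : Finset W)
    (hT : ∀ a, a ∉ s ∪ u → x (s, insert a u) ≠ 0 → a ∈ T) :
    dT π ρ x (s, u) =
      ∑ a ∈ s, sg (π a) (u.image π) •
        ρ (π a) ((s.erase a).image π) (x (s.erase a, insert a u)) -
      ∑ a ∈ T \ (s ∪ u), sg (π a) (u.image π) • x (s, insert a u) := by
  rw [dT_coeff]
  congr 1
  · have h1 : ∀ a ∈ s, sg (π a) (u.image π) •
        ρ (π a) ((s.erase a).image π) (x (s.erase a, insert a u)) =
        ∑ p ∈ x.support, if p = (s.erase a, insert a u) then sg (π a) (u.image π) •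
          ρ (π a) (p.1.image π) (x p) else 0 := by
      intro a _
      rw [Finset.sum_ite_eq']
      split_ifs with h
      · rfl
      · rw [Finsupp.notMem_support_iff.1 h, map_zero, smul_zero]
    rw [Finset.sum_congr rfl h1, Finset.sum_comm (s := s)]
    refine Finset.sum_congr rfl fun p hp => ?_
    have hp' := hx p (Finsupp.mem_support_iff.1 hp)
    rw [← Finset.sum_filter, ← Finset.sum_filter]
    refine Finset.sum_congr ?_ fun _ _ => rfl
    ext a
    rw [Finset.mem_filter, Finset.mem_filter]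
    constructor
    · rintro ⟨ha, he⟩
      obtain ⟨h3, h4⟩ := Prod.mk.inj he
      have hap : a ∉ p.1 := fun h => Finset.disjoint_left.1 hp' h ha
      refine ⟨by rw [← h3]; exact Finset.mem_insert_self a _, ?_⟩
      apply Prod.ext
      · rw [← h3, Finset.erase_insert hap]
      · rw [← h4, Finset.insert_erase ha]
    · rintro ⟨ha, he⟩
      have hau : a ∉ u := fun h => Finset.disjoint_left.1 hd ha h
      rw [he]
      refine ⟨Finset.mem_insert_self a u, ?_⟩
      apply Prod.ext
      · exact Finset.insert_erase ha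
      · exact Finset.erase_insert hau
  · have h1 : ∀ a ∈ T \ (s ∪ u), sg (π a) (u.image π) • x (s, insert a u) =
        ∑ p ∈ x.support, if p = (s, insert a u) then sg (π a) (u.image π) • x p else 0 := by
      intro a _
      rw [Finset.sum_ite_eq']
      split_ifs with h
      · rfl
      · rw [Finsupp.notMem_support_iff.1 h, smul_zero]
    rw [Finset.sum_congr rfl h1, Finset.sum_comm (s := T \ (s ∪ u))]
    refine Finset.sum_congr rfl fun p hp => ?_
    have hp' := hx p (Finsupp.mem_support_iff.1 hp)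
    rw [← Finset.sum_filter, ← Finset.sum_filter]
    refine Finset.sum_congr ?_ fun _ _ => rfl
    ext a
    rw [Finset.mem_filter, Finset.mem_filter, Finset.mem_sdiff]
    constructor
    · rintro ⟨ha, he⟩
      obtain ⟨h3, h4⟩ := Prod.mk.inj he
      have hps : p = (s, insert a u) := by
        apply Prod.ext
        · exact h3
        · rw [← h4, Finset.insert_erase ha]
      have has : a ∉ s := by
        rw [← h3]
        exact fun h => Finset.disjoint_left.1 hp' h ha
      have hau : a ∉ u := by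
        rw [← h4]
        exact Finset.notMem_erase a _
      have hasu : a ∉ s ∪ u := by
        rw [Finset.mem_union]
        rintro (h | h)
        · exact has h
        · exact hau h
      refine ⟨⟨hT a hasu ?_, hasu⟩, hps⟩
      rw [← hps]
      exact Finsupp.mem_support_iff.1 hp
    · rintro ⟨⟨_, hasu⟩, he⟩
      have hau : a ∉ u := fun h => hasu (Finset.mem_union_right _ h)
      rw [he]
      refine ⟨Finset.mem_insert_self a u, ?_⟩
      apply Prod.ext
      · rfl
      · exact Finset.erase_insert hau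

/-! ### The chain map -/

theorem isDt_cap {Y : Finset (Finset ℕ)} (π : W → ℕ) {Yt : Set (Finset W)}
    {F : Finset ℕ → Submodule ℝ N} {φ : Finset ℕ → N} (hφ : IsCF Y F φ) {c : Finset W →₀ ℝ}
    (hc : ∀ t, c t ≠ 0 → t ∈ Yt) : IsDt Yt π F (capT π φ c) := by
  rintro ⟨s, u⟩
  rw [capT_coeff]
  by_cases hd : Disjoint s u
  · rw [if_pos hd]
    refine ⟨fun h => ⟨hd, hc _ fun h0 => h ?_⟩, Submodule.smul_mem _ _ (hφ _).2⟩
    rw [h0, mul_zero, zero_smul]
  · rw [if_neg hd]
    exact ⟨fun h => absurd rfl h, Submodule.zero_mem _⟩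

theorem image_erase {π : W → ℕ} {s : Finset W} (hs : Set.InjOn π (s : Set W)) {a : W}
    (ha : a ∈ s) : (s.erase a).image π = (s.image π).erase (π a) := by
  ext b
  simp only [Finset.mem_image, Finset.mem_erase]
  constructor
  · rintro ⟨x, ⟨hxa, hxs⟩, rfl⟩
    exact ⟨fun h => hxa (hs hxs ha h), x, hxs, rfl⟩
  · rintro ⟨hb, x, hxs, rfl⟩
    exact ⟨x, ⟨fun h => hb (by rw [h]), hxs⟩, rfl⟩

theorem disjoint_image {π : W → ℕ} {s u : Finset W} (hd : Disjoint s u)
    (hs : Set.InjOn π ((s ∪ u : Finset W) : Set W)) : Disjoint (s.image π) (u.image π) := by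
  rw [Finset.disjoint_left]
  intro b hb hb'
  obtain ⟨x, hx, rfl⟩ := Finset.mem_image.1 hb
  obtain ⟨y, hy, hxy⟩ := Finset.mem_image.1 hb'
  have : y = x := hs (Finset.mem_coe.2 (Finset.mem_union_right _ hy))
    (Finset.mem_coe.2 (Finset.mem_union_left _ hx)) hxy
  rw [this] at hy
  exact Finset.disjoint_left.1 hd hx hy

theorem notMem_image {π : W → ℕ} {s t : Finset W} {a : W} (ha : a ∉ t) (hts : insert a t ⊆ s)
    (hs : Set.InjOn π (s : Set W)) : π a ∉ t.image π := by
  intro h
  obtain ⟨x, hx, hxa⟩ := Finset.mem_image.1 h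
  have : x = a := hs (Finset.mem_coe.2 (hts (Finset.mem_insert_of_mem hx)))
    (Finset.mem_coe.2 (hts (Finset.mem_insert_self a t))) hxa
  rw [this] at hx
  exact ha hx

theorem first {Y : Finset (Finset ℕ)} (π : W → ℕ) {Yt : Set (Finset W)} (hY : IsLab Y π Yt)
    (ρ : ℕ → Finset ℕ → N →ₗ[ℝ] N) {φ : Finset ℕ → N}
    (hdφ : dF Y ρ φ = 0) {c : Finset W →₀ ℝ} (hc : ∀ t, c t ≠ 0 → t ∈ Yt)
    (s u : Finset W) (hd : Disjoint s u) :
    ∑ a ∈ s, sg (π a) (u.image π) •
        ρ (π a) ((s.erase a).image π) (capT π φ c (s.erase a, insert a u)) = 0 := by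
  by_cases h0 : c (s ∪ u) = 0
  · refine Finset.sum_eq_zero fun a ha => ?_
    have hau : a ∉ u := fun h => (Finset.disjoint_left.1 hd ha) h
    have h1 : s.erase a ∪ insert a u = s ∪ u := by
      rw [Finset.union_insert, ← Finset.insert_union, Finset.insert_erase ha]
    rw [capT_coeff]
    split_ifs
    · rw [h1, h0, mul_zero, zero_smul, map_zero, smul_zero]
    · rw [map_zero, smul_zero]
  · have ht := hc _ h0
    obtain ⟨htY, hinj⟩ := hY.simp _ ht
    have hsY : s.image π ∈ Y := (hY.simp s (hY.down _ ht s Finset.subset_union_left)).1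
    have hinjs : Set.InjOn π (s : Set W) :=
      hinj.mono (Finset.coe_subset.2 Finset.subset_union_left)
    have hD := disjoint_image hd hinj
    have hterm : ∀ a ∈ s, sg (π a) (u.image π) •
        ρ (π a) ((s.erase a).image π) (capT π φ c (s.erase a, insert a u)) =
        ((-1 : ℝ) ^ (s.card * (u.card + 1)) * ((-1) ^ ((s.image π).card - 1) *
          (sgg (s.image π) (u.image π) * c (s ∪ u)))) •
        (sg (π a) ((s.image π).erase (π a)) •
          ρ (π a) ((s.image π).erase (π a)) (φ ((s.image π).erase (π a)))) := by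
      intro a ha
      have hau : a ∉ u := fun h => (Finset.disjoint_left.1 hd ha) h
      have h1 : s.erase a ∪ insert a u = s ∪ u := by
        rw [Finset.union_insert, ← Finset.insert_union, Finset.insert_erase ha]
      have h2 : Disjoint (s.erase a) (insert a u) := by
        rw [Finset.disjoint_insert_right]
        exact ⟨Finset.notMem_erase a s, hd.mono_left (Finset.erase_subset _ _)⟩
      rw [capT_coeff, if_pos h2, h1, Finset.card_erase_of_mem ha,
        Finset.card_insert_of_notMem hau, Nat.sub_add_cancel (Finset.card_pos.2 ⟨a, ha⟩),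
        image_erase hinjs ha, Finset.image_insert, map_smul, smul_smul, smul_smul]
      congr 1
      have h3 := h61_sign1 (a := π a) (Finset.mem_image_of_mem π ha) hD
      calc sg (π a) (u.image π) * ((-1 : ℝ) ^ (s.card * (u.card + 1)) *
            sgg ((s.image π).erase (π a)) (insert (π a) (u.image π)) * c (s ∪ u))
          = (-1 : ℝ) ^ (s.card * (u.card + 1)) * (sg (π a) (u.image π) *
            sgg ((s.image π).erase (π a)) (insert (π a) (u.image π))) * c (s ∪ u) := by ring
        _ = _ := by rw [h3]; ring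
    rw [Finset.sum_congr rfl hterm, ← Finset.smul_sum]
    have h4 : ∑ a ∈ s, (sg (π a) ((s.image π).erase (π a)) •
          ρ (π a) ((s.image π).erase (π a)) (φ ((s.image π).erase (π a)))) = 0 := by
      have h5 := congrFun hdφ (s.image π)
      unfold dF at h5
      rw [if_pos hsY, Finset.sum_image (fun x hx y hy h => hinjs hx hy h)] at h5
      exact h5
    rw [h4, smul_zero]

theorem chain {Y : Finset (Finset ℕ)} (π : W → ℕ) {Yt : Set (Finset W)} (hY : IsLab Y π Yt)
    (ρ : ℕ → Finset ℕ → N →ₗ[ℝ] N) {φ : Finset ℕ → N}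
    (hdφ : dF Y ρ φ = 0) {c : Finset W →₀ ℝ} (hc : ∀ t, c t ≠ 0 → t ∈ Yt) :
    dT π ρ (capT π φ c) = capT π φ (bdl π c) := by
  have hsup : ∀ p, capT π φ c p ≠ 0 → Disjoint p.1 p.2 := by
    rintro ⟨s, u⟩ h
    by_contra hd
    apply h
    rw [capT_coeff, if_neg hd]
  apply Finsupp.ext
  rintro ⟨s, u⟩
  by_cases hd : Disjoint s u
  swap
  · rw [dT_neg π ρ _ hsup s u hd, capT_coeff, if_neg hd]
  have hT : ∀ (t : Finset W) (a : W), a ∉ t → c (insert a t) ≠ 0 → a ∈ c.support.biUnion id := by
    intro t a _ h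
    rw [Finset.mem_biUnion]
    exact ⟨insert a t, Finsupp.mem_support_iff.2 h, Finset.mem_insert_self a t⟩
  have hT' : ∀ a, a ∉ s ∪ u → capT π φ c (s, insert a u) ≠ 0 → a ∈ c.support.biUnion id := by
    intro a ha h
    apply hT (s ∪ u) a ha
    intro h0
    apply h
    rw [capT_coeff, Finset.union_insert, h0]
    split_ifs
    · rw [mul_zero, zero_smul]
    · rfl
  rw [dT_pos π ρ _ hsup s u hd _ hT', first π hY ρ hdφ hc s u hd, zero_sub, capT_coeff,
    if_pos hd, A1P.part1 π c (s ∪ u) (c.support.biUnion id) (fun a => hT (s ∪ u) a),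
    Finset.mul_sum, Finset.sum_smul, ← Finset.sum_neg_distrib]
  refine Finset.sum_congr rfl fun a ha => ?_
  have hasu : a ∉ s ∪ u := (Finset.mem_sdiff.1 ha).2
  have has : a ∉ s := fun h => hasu (Finset.mem_union_left _ h)
  have hau : a ∉ u := fun h => hasu (Finset.mem_union_right _ h)
  have hd' : Disjoint s (insert a u) := by
    rw [Finset.disjoint_insert_right]
    exact ⟨has, hd⟩
  rw [capT_coeff, if_pos hd', Finset.union_insert, Finset.card_insert_of_notMem hau]
  by_cases h0 : c (insert a (s ∪ u)) = 0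
  · rw [h0]
    simp
  · obtain ⟨_, hinj⟩ := hY.simp _ (hc _ h0)
    have hsub : (s ∪ u : Finset W) ⊆ insert a (s ∪ u) := Finset.subset_insert _ _
    have hD := disjoint_image hd (hinj.mono (Finset.coe_subset.2 hsub))
    have has' : π a ∉ s.image π := notMem_image has
      (Finset.insert_subset_insert a Finset.subset_union_left) hinj
    have hau' : π a ∉ u.image π := notMem_image hau
      (Finset.insert_subset_insert a Finset.subset_union_right) hinj
    have hinjs : Set.InjOn π (s : Set W) := hinj.mono (Finset.coe_subset.2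
      (Finset.subset_union_left.trans hsub))
    have h5 := h61_sign2 has' hau' hD
    rw [Finset.card_image_of_injOn hinjs] at h5
    have h6 : (-1 : ℝ) ^ ((s.card + 1) * (u.card + 1)) * (-1) ^ s.card =
        -(-1 : ℝ) ^ ((s.card + 1) * u.card) := by
      rw [mul_add, mul_one, pow_add, pow_succ (-1 : ℝ) s.card]
      have h7 : (-1 : ℝ) ^ s.card * (-1) ^ s.card = 1 := by
        rw [← pow_add, ← two_mul, pow_mul]
        norm_num
      linear_combination (-(-1 : ℝ) ^ ((s.card + 1) * u.card)) * h7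
    rw [smul_smul, ← neg_smul, Finset.image_insert, Finset.image_union, smul_eq_mul]
    congr 1
    calc -(sg (π a) (u.image π) * ((-1 : ℝ) ^ ((s.card + 1) * (u.card + 1)) *
          sgg (s.image π) (insert (π a) (u.image π)) * c (insert a (s ∪ u))))
        = -((-1 : ℝ) ^ ((s.card + 1) * (u.card + 1)) * (sg (π a) (u.image π) *
          sgg (s.image π) (insert (π a) (u.image π))) * c (insert a (s ∪ u))) := by ring
      _ = -(((-1 : ℝ) ^ ((s.card + 1) * (u.card + 1)) * (-1) ^ s.card) *
          (sg (π a) (s.image π ∪ u.image π) * sgg (s.image π) (u.image π)) *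
          c (insert a (s ∪ u))) := by rw [h5]; ring
      _ = _ := by rw [h6]; ring

theorem prf : S_A5 := fun _ _ π _ _ _ φ c =>
  ⟨capT_coeff π φ c, fun _ _ hY _ ρ _ hφ hdφ hc => ⟨isDt_cap π hφ hc, chain π hY ρ hdφ hc⟩⟩

end MP8a95ee.Rk.A5P
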