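import Pool.Agent.Work.MP_8a95ee_gt.Rk.Stmts
import Pool.Agent.Work.MP_8a95ee_gt.R.Bas

set_option autoImplicit false

namespace MP8a95ee.Rk.A6B

open Ref RA MP8a95ee.Rk

variable {W : Type} [DecidableEq W] (π : W → ℕ) (g : W → W)

theorem erase_image (hg : Function.Injective g) (s : Finset W) (a : W) :
    (s.image g).erase (g a) = (s.erase a).image g := (Finset.image_erase hg s a).symm

theorem lab (hπ : ∀ w, π (g w) = π w) (s : Finset W) : (s.image g).image π = s.image π := by
  rw [Finset.image_image]
  exact Finset.image_congr fun w _ => hπ w

theorem bdl_single {M : Type} [AddCommGroup M] [Module ℝ M] (s : Finset W) (r : M) :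
    bdl π (Finsupp.single s r) = ∑ a ∈ s, sg (π a) ((s.erase a).image π) •
      Finsupp.single (s.erase a) r := by
  simp [bdl, Finsupp.lsum_single, LinearMap.sum_apply]

theorem dT_single {N : Type} [AddCommGroup N] [Module ℝ N] (ρ : ℕ → Finset ℕ → N →ₗ[ℝ] N)
    (p : Finset W × Finset W) (r : N) :
    dT π ρ (Finsupp.single p r) = ∑ a ∈ p.2, sg (π a) ((p.2.erase a).image π) •
      (Finsupp.single (insert a p.1, p.2.erase a) (ρ (π a) (p.1.image π) r) -
        Finsupp.single (p.1, p.2.erase a) r) := by
  simp [dT, Finsupp.lsum_single, LinearMap.sum_apply]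

theorem coneT_single {M : Type} [AddCommGroup M] [Module ℝ M] (zz : W) (s : Finset W) (r : M) :
    coneT π zz (Finsupp.single s r) = sg (π zz) (s.image π) • Finsupp.single (insert zz s) r := by
  simp [coneT, Finsupp.lsum_single]

theorem prf : S_A6 := by
  intro W _ π g hg hπ M _ _
  refine ⟨?_, ?_, ?_, ?_⟩
  · intro c
    induction c using Finsupp.induction_linear with
    | zero => simp
    | add a b ha hb => rw [Finsupp.mapDomain_add, map_add, ha, hb, map_add, Finsupp.mapDomain_add]
    | single s r =>
      rw [Finsupp.mapDomain_single, bdl_single, bdl_single, Finsupp.mapDomain_finsetSum,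
        Finset.sum_image fun a _ b _ h => hg h]
      refine Finset.sum_congr rfl fun a _ => ?_
      rw [erase_image g hg, lab π g hπ, hπ, Finsupp.mapDomain_smul, Finsupp.mapDomain_single]
  · intro ρ x
    induction x using Finsupp.induction_linear with
    | zero => simp
    | add a b ha hb => rw [Finsupp.mapDomain_add, map_add, ha, hb, map_add, Finsupp.mapDomain_add]
    | single p r =>
      rw [Finsupp.mapDomain_single, dT_single, dT_single, Finsupp.mapDomain_finsetSum,
        Finset.sum_image fun a _ b _ h => hg h]
      refine Finset.sum_congr rfl fun a _ => ?_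
      rw [erase_image g hg, lab π g hπ, hπ, lab π g hπ, Finsupp.mapDomain_smul,
        sub_eq_add_neg, sub_eq_add_neg, Finsupp.mapDomain_add, Finsupp.mapDomain_single,
        ← Finsupp.single_neg, ← Finsupp.single_neg, Finsupp.mapDomain_single, Finset.image_insert]
  · intro φ c
    induction c using Finsupp.induction_linear with
    | zero => simp
    | add a b ha hb => rw [Finsupp.mapDomain_add, map_add, ha, hb, map_add, Finsupp.mapDomain_add]
    | single t r =>
      have hpow : (t.image g).powerset = t.powerset.image (fun s => s.image g) := by
        ext u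
        rw [Finset.mem_powerset, Finset.mem_image]
        constructor
        · intro hu
          obtain ⟨v, hv, rfl⟩ := Finset.subset_image_iff.1 hu
          exact ⟨v, Finset.mem_powerset.2 (by exact_mod_cast hv), rfl⟩
        · rintro ⟨v, hv, rfl⟩
          exact Finset.image_subset_image (Finset.mem_powerset.1 hv)
      rw [Finsupp.mapDomain_single, capT, Finsupp.linearCombination_single,
        Finsupp.linearCombination_single, Finsupp.mapDomain_smul, Finsupp.mapDomain_finsetSum, hpow,
        Finset.sum_image fun a _ b _ h => Finset.image_injective hg h]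
      congr 1
      refine Finset.sum_congr rfl fun s _ => ?_
      rw [Finsupp.mapDomain_single, ← Finset.image_sdiff _ _ hg, lab π g hπ, lab π g hπ,
        Finset.card_image_of_injective _ hg, Finset.card_image_of_injective _ hg]
  · intro zz hzz c
    induction c using Finsupp.induction_linear with
    | zero => simp
    | add a b ha hb => rw [Finsupp.mapDomain_add, map_add, ha, hb, map_add, Finsupp.mapDomain_add]
    | single s r =>
      rw [Finsupp.mapDomain_single, coneT_single, coneT_single, Finsupp.mapDomain_smul,
        Finsupp.mapDomain_single, lab π g hπ, Finset.image_insert, hzz]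

end MP8a95ee.Rk.A6B
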