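import Pool.Agent.Work.MP_8a95ee_gt.Rk.Stmts
import Pool.Agent.Work.MP_8a95ee_gt.R.Bas

/-!
Item A7 of the block Rk of MP_8a95ee_gt: the boundary of a cone.
-/

set_option autoImplicit false

namespace MP8a95ee.Rk.A7P

open Ref RA

variable {W : Type} [DecidableEq W] (π : W → ℕ) {M : Type} [AddCommGroup M] [Module ℝ M]

theorem bdl_single (t : Finset W) (r : M) : bdl π (Finsupp.single t r) =
    ∑ a ∈ t, sg (π a) ((t.erase a).image π) • Finsupp.single (t.erase a) r := by
  unfold bdl
  rw [Finsupp.lsum_single, LinearMap.sum_apply]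
  rfl

theorem coneT_single (zz : W) (t : Finset W) (r : M) : coneT π zz (Finsupp.single t r) =
    sg (π zz) (t.image π) • Finsupp.single (insert zz t) r := by
  unfold coneT
  rw [Finsupp.lsum_single]
  rfl

theorem single_case (zz : W) (t : Finset W) (r : M) (hz : zz ∉ t)
    (hi : Set.InjOn π ((insert zz t : Finset W) : Set W)) :
    bdl π (coneT π zz (Finsupp.single t r)) =
      Finsupp.single t r - coneT π zz (bdl π (Finsupp.single t r)) := by
  rw [coneT_single, map_smul, bdl_single, bdl_single, Finset.sum_insert hz, map_sum, smul_add,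
    Finset.erase_insert hz, smul_smul, sg_sq, one_smul, sub_eq_add_neg, add_right_inj,
    Finset.smul_sum, ← Finset.sum_neg_distrib]
  refine Finset.sum_congr rfl fun a ha => ?_
  have haz : a ≠ zz := by
    rintro rfl
    exact hz ha
  rw [map_smul, coneT_single, Finset.erase_insert_of_ne haz.symm, smul_smul, smul_smul, ← neg_smul]
  congr 1
  have hmem : ∀ b ∈ t, b ∈ ((insert zz t : Finset W) : Set W) := fun b hb =>
    Finset.mem_coe.2 (Finset.mem_insert_of_mem hb)
  have hzm : zz ∈ ((insert zz t : Finset W) : Set W) := Finset.mem_coe.2 (Finset.mem_insert_self _ _)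
  have h1 : π a ∉ (t.erase a).image π := by
    intro h
    obtain ⟨b, hb, hba⟩ := Finset.mem_image.1 h
    have := hi (hmem b (Finset.mem_of_mem_erase hb)) (hmem a ha) hba
    exact Finset.ne_of_mem_erase hb this
  have h2 : π zz ∉ (t.erase a).image π := by
    intro h
    obtain ⟨b, hb, hba⟩ := Finset.mem_image.1 h
    have := hi (hmem b (Finset.mem_of_mem_erase hb)) hzm hba
    exact hz (this ▸ Finset.mem_of_mem_erase hb)
  have h3 : π a ≠ π zz := fun h => haz (hi (hmem a ha) hzm h)
  have h4 : t.image π = insert (π a) ((t.erase a).image π) := by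
    rw [← Finset.image_insert, Finset.insert_erase ha]
  rw [h4, Finset.image_insert, sg_anti' h1 h2 h3]
  ring

omit [DecidableEq W] [Module ℝ M] in
theorem eq_sum (c : Finset W →₀ M) : c = ∑ t ∈ c.support, Finsupp.single t (c t) :=
  (Finsupp.sum_single c).symm

theorem coneT_apply (zz : W) (c : Finset W →₀ M) (w : Finset W) : coneT π zz c w =
    ∑ t ∈ c.support, sg (π zz) (t.image π) • (Finsupp.single (insert zz t) (c t)) w := by
  conv_lhs => rw [eq_sum c]
  rw [map_sum, Finsupp.finsetSum_apply]
  refine Finset.sum_congr rfl fun t _ => ?_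
  rw [coneT_single]
  rfl

theorem prf : S_A7 := by
  intro W _ π zz M _ _ c hc
  have hs : ∀ t ∈ c.support, zz ∉ t ∧ Set.InjOn π ((insert zz t : Finset W) : Set W) := fun t ht =>
    hc t (Finsupp.mem_support_iff.1 ht)
  refine ⟨?_, ?_, ?_⟩
  · have key : ∀ s : Finset (Finset W), (∀ t ∈ s, zz ∉ t ∧
        Set.InjOn π ((insert zz t : Finset W) : Set W)) →
        bdl π (coneT π zz (∑ t ∈ s, Finsupp.single t (c t))) =
          ∑ t ∈ s, Finsupp.single t (c t) - coneT π zz (bdl π (∑ t ∈ s, Finsupp.single t (c t))) := by
      intro s h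
      rw [map_sum, map_sum, map_sum, map_sum, ← Finset.sum_sub_distrib]
      exact Finset.sum_congr rfl fun t ht => single_case π zz t (c t) (h t ht).1 (h t ht).2
    have h1 := key c.support hs
    rwa [← eq_sum c] at h1
  · intro t ht
    rw [coneT_apply]
    by_cases hct : c t = 0
    · rw [hct, smul_zero]
      refine Finset.sum_eq_zero fun s hs' => ?_
      rw [Finsupp.single_apply, if_neg, smul_zero]
      intro h
      have h2 : s = t := by
        rw [← Finset.erase_insert (hs s hs').1, h, Finset.erase_insert ht]
      rw [h2] at hs'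
      exact (Finsupp.mem_support_iff.1 hs') hct
    · rw [Finset.sum_eq_single t]
      · rw [Finsupp.single_eq_same]
      · intro s hs' hne
        rw [Finsupp.single_apply, if_neg, smul_zero]
        intro h
        apply hne
        rw [← Finset.erase_insert (hs s hs').1, h, Finset.erase_insert ht]
      · intro h
        exact absurd (Finsupp.mem_support_iff.2 hct) h
  · intro t ht
    rw [coneT_apply]
    refine Finset.sum_eq_zero fun s _ => ?_
    rw [Finsupp.single_apply, if_neg, smul_zero]
    intro h
    apply ht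
    rw [← h]
    exact Finset.mem_insert_self _ _

end MP8a95ee.Rk.A7P
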