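import Pool.Agent.Work.MP_8a95ee_gt.Rk.Stmts

set_option autoImplicit false

namespace MP8a95ee.Rk.C1P

open Ref RA

variable {N : Type} [AddCommGroup N] [Module ℝ N]

/-- the product along a list -/
noncomputable def fo (e : ℕ → N →ₗ[ℝ] N) (l : List ℕ) : N →ₗ[ℝ] N :=
  l.foldr (fun a f => (e a).comp f) LinearMap.id

lemma fo_cons (e : ℕ → N →ₗ[ℝ] N) (a : ℕ) (l : List ℕ) (x : N) :
    fo e (a :: l) x = e a (fo e l x) := rfl

lemma fo_nil (e : ℕ → N →ₗ[ℝ] N) (x : N) : fo e [] x = x := rfl

lemma fo_comm (e : ℕ → N →ₗ[ℝ] N) (a : ℕ) (l : List ℕ)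
    (h : ∀ b ∈ l, ∀ x, e a (e b x) = e b (e a x)) (x : N) :
    e a (fo e l x) = fo e l (e a x) := by
  induction l with
  | nil => rfl
  | cons b l ih =>
    rw [fo_cons, fo_cons, h b (by simp), ih (fun c hc => h c (by simp [hc]))]

lemma fo_mem (e : ℕ → N →ₗ[ℝ] N) (hid : ∀ a x, e a (e a x) = e a x) (a : ℕ) (l : List ℕ)
    (h : ∀ b ∈ l, ∀ x, e a (e b x) = e b (e a x)) (ha : a ∈ l) (x : N) :
    e a (fo e l x) = fo e l x := by
  induction l with
  | nil => simp at ha
  | cons b l ih =>
    rw [fo_cons]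
    by_cases hab : a = b
    · subst hab
      exact hid _ _
    · have ha' : a ∈ l := by
        rcases List.mem_cons.1 ha with h1 | h1
        · exact absurd h1 hab
        · exact h1
      rw [h b (by simp), ih (fun c hc => h c (by simp [hc])) ha']

lemma fo_fix (e : ℕ → N →ₗ[ℝ] N) (l : List ℕ) (x : N) (h : ∀ b ∈ l, e b x = x) :
    fo e l x = x := by
  induction l with
  | nil => rfl
  | cons b l ih =>
    rw [fo_cons, ih (fun c hc => h c (by simp [hc])), h b (by simp)]

lemma fo_perm (e : ℕ → N →ₗ[ℝ] N) (l l' : List ℕ) (hp : l.Perm l')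
    (h : ∀ a ∈ l, ∀ b ∈ l, ∀ x, e a (e b x) = e b (e a x)) (x : N) :
    fo e l x = fo e l' x := by
  induction hp generalizing x with
  | nil => rfl
  | cons a hp ih =>
    rw [fo_cons, fo_cons, ih (fun c hc d hd => h c (by simp [hc]) d (by simp [hd]))]
  | swap a b l =>
    rw [fo_cons, fo_cons, fo_cons, fo_cons, h b (by simp) a (by simp)]
  | trans h1 h2 ih1 ih2 =>
    rw [ih1 h, ih2 (fun c hc d hd => h c (h1.mem_iff.2 hc) d (h1.mem_iff.2 hd))]

lemma face_comm {L : Finset (Finset ℕ)} (hL : FlagC L) {e : ℕ → N →ₗ[ℝ] N}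
    (he : IdemSys L N e) {s : Finset ℕ} (hs : s ∈ L) :
    ∀ a ∈ s, ∀ b ∈ s, ∀ x, e a (e b x) = e b (e a x) := by
  intro a ha b hb x
  by_cases hab : a = b
  · subst hab; rfl
  · exact he.comm a b ⟨hab, (hL s).1 hs a ha b hb⟩ x

theorem prf : S_C1 := by
  intro L hL N _ _ e he s hs
  have hc := face_comm hL he hs
  have hE : ∀ (t : Finset ℕ) (x : N), eP e t x = fo e (t.sort (· ≤ ·)) x := fun _ _ => rfl
  refine ⟨?_, ?_, ?_⟩
  · intro x a ha
    rw [hE]
    exact fo_mem e he.idem a _ (fun b hb => hc a ha b (by simpa using hb)) (by simpa using ha) x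
  · intro x hx
    rw [hE]
    exact fo_fix e _ x (fun b hb => hx b (by simpa using hb))
  · intro a ha hi x
    have hc' := face_comm hL he hi
    constructor
    · rw [hE, hE, ← fo_cons]
      apply fo_perm
      · apply (List.perm_ext_iff_of_nodup _ _).2
        · intro b
          simp
        · exact Finset.sort_nodup _ _
        · rw [List.nodup_cons]
          exact ⟨by simpa using ha, Finset.sort_nodup _ _⟩
      · intro b hb c hc2
        exact hc' b (by simpa using hb) c (by simpa using hc2)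
    · rw [hE, hE]
      exact fo_comm e a _ (fun b hb => hc' a (by simp) b (by
        have : b ∈ s := by simpa using hb
        simp [this])) x

end MP8a95ee.Rk.C1P
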