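import Pool.Agent.Work.MP_8a95ee_gt.Rk.Stmts2
import Pool.Agent.Work.MP_8a95ee_gt.R.Bas

/-!
# Item D1 of the block Rk: the links of the complex with the cone
-/

set_option autoImplicit false

namespace MP8a95ee.Rk.D1P

open Ref RA

theorem bdS_add' (L : Finset (Finset ℕ)) (x y : Finset ℕ → ℝ) :
    bdS L (x + y) = bdS L x + bdS L y := by
  funext t
  simp only [bdS, Pi.add_apply, mul_add, Finset.sum_add_distrib]

theorem bdS_smul' (L : Finset (Finset ℕ)) (r : ℝ) (x : Finset ℕ → ℝ) :
    bdS L (r • x) = r • bdS L x := by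
  funext t
  simp only [bdS, Pi.smul_apply, smul_eq_mul, Finset.mul_sum]
  exact Finset.sum_congr rfl fun a _ => by ring

theorem bdS_neg' (L : Finset (Finset ℕ)) (x : Finset ℕ → ℝ) :
    bdS L (-x) = - bdS L x := by
  have := bdS_smul' L (-1) x
  simpa using this

theorem bdS_sub' (L : Finset (Finset ℕ)) (x y : Finset ℕ → ℝ) :
    bdS L (x - y) = bdS L x - bdS L y := by
  rw [sub_eq_add_neg, bdS_add', bdS_neg', ← sub_eq_add_neg]

theorem bdS_zero' (L : Finset (Finset ℕ)) : bdS L 0 = 0 := by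
  funext t
  simp [bdS]

theorem mem_verts {L : Finset (Finset ℕ)} {a : ℕ} : a ∈ verts L ↔ ∃ s ∈ L, a ∈ s := by
  simp [verts]

/-- the boundary in a subcomplex which contains the support -/
theorem bdS_mono {M Y : Finset (Finset ℕ)} (hv : verts M ⊆ verts Y) {c : Finset ℕ → ℝ}
    (hc : ∀ u, c u ≠ 0 → u ∈ M) : bdS Y c = bdS M c := by
  funext t
  unfold bdS
  symm
  refine Finset.sum_subset (Finset.sdiff_subset_sdiff hv (le_refl t)) fun a ha ha' => ?_
  rw [Finset.mem_sdiff] at ha ha'
  have h0 : c (insert a t) = 0 := by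
    by_contra h
    exact ha' ⟨mem_verts.2 ⟨_, hc _ h, Finset.mem_insert_self a t⟩, ha.2⟩
  rw [h0, mul_zero]

section

variable {K : Finset (Finset ℕ)} {V : Finset ℕ} {z : ℕ}

theorem mem_sub {t : Finset ℕ} : t ∈ sub K V ↔ t ∈ K ∧ t ⊆ V := by
  simp [sub]

theorem mem_Kp {t : Finset ℕ} : t ∈ Kp K V z ↔ t ∈ K ∨ ∃ u ∈ sub K V, insert z u = t := by
  unfold Kp
  rw [Finset.mem_union, Finset.mem_image]

theorem nz (hz : z ∉ verts K) {t : Finset ℕ} (ht : t ∈ K) : z ∉ t :=
  fun h => hz (mem_verts.2 ⟨t, ht, h⟩)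

theorem Kp_of_notMem {t : Finset ℕ} (ht : t ∈ Kp K V z) (h : z ∉ t) : t ∈ K := by
  rcases mem_Kp.1 ht with h1 | ⟨u, _, h1⟩
  · exact h1
  · exact absurd (h1 ▸ Finset.mem_insert_self z u) h

theorem Kp_insert (hz : z ∉ verts K) {t : Finset ℕ} (h : z ∉ t) (ht : insert z t ∈ Kp K V z) :
    t ∈ sub K V := by
  rcases mem_Kp.1 ht with h1 | ⟨u, hu, h1⟩
  · exact absurd (Finset.mem_insert_self z t) (nz hz h1)
  · have hzu : z ∉ u := nz hz (mem_sub.1 hu).1
    have : t = u := by
      rw [← Finset.erase_insert h, ← Finset.erase_insert hzu, h1]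
    rw [this]
    exact hu

theorem sub_le : sub K V ⊆ K := Finset.filter_subset _ _

theorem K_le : K ⊆ Kp K V z := fun _ h => mem_Kp.2 (Or.inl h)

theorem ins_mem {t : Finset ℕ} (h : t ∈ sub K V) : insert z t ∈ Kp K V z :=
  mem_Kp.2 (Or.inr ⟨t, h, rfl⟩)

theorem verts_mono {M Y : Finset (Finset ℕ)} (h : M ⊆ Y) : verts M ⊆ verts Y := by
  intro a ha
  obtain ⟨s, hs, has⟩ := mem_verts.1 ha
  exact mem_verts.2 ⟨s, h hs, has⟩

theorem z_mem (hK : IsCx K) : z ∈ verts (Kp K V z) :=
  mem_verts.2 ⟨insert z ∅, ins_mem (mem_sub.2 ⟨hK.1, Finset.empty_subset _⟩),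
    Finset.mem_insert_self _ _⟩

/-- transfer of the sphere property -/
theorem sph_of {M Y : Finset (Finset ℕ)} {s u : Finset ℕ} {m n : ℕ}
    (hmn : ∀ k, s.card + k = n ↔ u.card + k = m)
    (hc : ∀ k c, LkChain Y s k c ↔ LkChain M u k c)
    (hb : ∀ k c, LkChain Y s k c → bdS Y c = bdS M c)
    (h : IsSph M m u) : IsSph Y n s := by
  refine ⟨fun k hk c h1 h2 => ?_, fun k hk => ?_⟩
  · obtain ⟨c', h3, h4⟩ := h.1 k (fun h' => hk ((hmn k).2 h')) c ((hc k c).1 h1)
      (by rw [← hb k c h1]; exact h2)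
    have h5 := (hc (k + 1) c').2 h3
    exact ⟨c', h5, by rw [hb _ _ h5]; exact h4⟩
  · obtain ⟨g, h1, h2, h3, h4⟩ := h.2 k ((hmn k).1 hk)
    have h1' := (hc k g).2 h1
    refine ⟨g, h1', by rw [hb _ _ h1']; exact h2, ?_, ?_⟩
    · rintro ⟨c', h5, h6⟩
      exact h3 ⟨c', (hc _ _).1 h5, by rw [← hb _ _ h5]; exact h6⟩
    · intro c h5 h6
      obtain ⟨lam, c', h7, h8⟩ := h4 c ((hc _ _).1 h5) (by rw [← hb _ _ h5]; exact h6)
      have h7' := (hc _ _).2 h7
      exact ⟨lam, c', h7', by rw [hb _ _ h7']; exact h8⟩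

/-- the part without `z` -/
noncomputable def pa (z : ℕ) (c : Finset ℕ → ℝ) (w : Finset ℕ) : ℝ := if z ∈ w then 0 else c w

/-- the part with `z` -/
noncomputable def pb (z : ℕ) (c : Finset ℕ → ℝ) (t : Finset ℕ) : ℝ :=
  if z ∈ t then 0 else sg z t * c (insert z t)

theorem decomp (c : Finset ℕ → ℝ) : c = pa z c + coneS z (pb z c) := by
  funext w
  rw [Pi.add_apply]
  unfold pa coneS
  by_cases h : z ∈ w
  · rw [if_pos h, if_pos h, zero_add]
    unfold pb
    rw [if_neg (Finset.notMem_erase z w), Finset.insert_erase h, ← mul_assoc, sg_sq, one_mul]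
  · rw [if_neg h, if_neg h, add_zero]

theorem cone_inj {x y : Finset ℕ → ℝ} (hx : ∀ t, z ∈ t → x t = 0) (hy : ∀ t, z ∈ t → y t = 0)
    (h : ∀ w, z ∈ w → coneS z x w = coneS z y w) : x = y := by
  funext t
  by_cases ht : z ∈ t
  · rw [hx t ht, hy t ht]
  · have h1 := h (insert z t) (Finset.mem_insert_self z t)
    unfold coneS at h1
    rw [if_pos (Finset.mem_insert_self z t), if_pos (Finset.mem_insert_self z t),
      Finset.erase_insert ht] at h1
    have h2 := sg_sq z t
    calc x t = sg z t * sg z t * x t := by rw [h2, one_mul]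
      _ = sg z t * (sg z t * x t) := by ring
      _ = sg z t * (sg z t * y t) := by rw [h1]
      _ = y t := by rw [← mul_assoc, h2, one_mul]

theorem coneS_zero : coneS z 0 = 0 := by
  funext w
  simp [coneS]

theorem coneS_add (x y : Finset ℕ → ℝ) : coneS z (x + y) = coneS z x + coneS z y := by
  funext w
  simp only [coneS, Pi.add_apply]
  split_ifs <;> ring

theorem coneS_smul (r : ℝ) (x : Finset ℕ → ℝ) : coneS z (r • x) = r • coneS z x := by
  funext w
  simp only [coneS, Pi.smul_apply, smul_eq_mul]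
  split_ifs <;> ring

theorem coneS_neg (x : Finset ℕ → ℝ) : coneS z (-x) = - coneS z x := by
  have := coneS_smul (z := z) (-1) x
  simpa using this

theorem lk_pa (hz : z ∉ verts K) {s : Finset ℕ} (hs : s ∈ K) {k : ℕ} {c : Finset ℕ → ℝ}
    (hc : LkChain (Kp K V z) s k c) : LkChain K s k (pa z c) := by
  intro t ht
  unfold pa at ht
  by_cases h : z ∈ t
  · rw [if_pos h] at ht
    exact absurd rfl ht
  · rw [if_neg h] at ht
    obtain ⟨h1, h2, h3, h4⟩ := hc t ht
    refine ⟨Kp_of_notMem h1 h, h2, Kp_of_notMem h3 ?_, h4⟩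
    rw [Finset.mem_union, not_or]
    exact ⟨nz hz hs, h⟩

theorem lk_pb (hz : z ∉ verts K) {s : Finset ℕ} (hs : s ∈ K) {k : ℕ} {c : Finset ℕ → ℝ}
    (hc : LkChain (Kp K V z) s (k + 1) c) : LkChain (sub K V) s k (pb z c) := by
  intro t ht
  unfold pb at ht
  by_cases h : z ∈ t
  · rw [if_pos h] at ht
    exact absurd rfl ht
  · rw [if_neg h] at ht
    obtain ⟨h1, h2, h3, h4⟩ := hc _ (right_ne_zero_of_mul ht)
    rw [Finset.card_insert_of_notMem h] at h4
    refine ⟨Kp_insert hz h h1, ?_, ?_, by omega⟩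
    · exact Finset.disjoint_of_subset_right (Finset.subset_insert z t) h2
    · refine Kp_insert hz ?_ (by rw [← Finset.union_insert]; exact h3)
      rw [Finset.mem_union, not_or]
      exact ⟨nz hz hs, h⟩

theorem pb_zero {s : Finset ℕ} {c : Finset ℕ → ℝ}
    (hc : LkChain (Kp K V z) s 0 c) : pb z c = 0 := by
  funext t
  unfold pb
  split_ifs with h
  · rfl
  · have h0 : c (insert z t) = 0 := by
      by_contra h'
      have := (hc _ h').2.2.2
      rw [Finset.card_insert_of_notMem h] at this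
      omega
    rw [h0, mul_zero]
    rfl

theorem lk_up (hK : IsCx K) {s : Finset ℕ} {k : ℕ} {c : Finset ℕ → ℝ}
    (hc : LkChain K s k c) : LkChain (Kp K V z) s k c := by
  intro t ht
  obtain ⟨h1, h2, h3, h4⟩ := hc t ht
  exact ⟨K_le h1, h2, K_le h3, h4⟩

theorem lk_sub {s : Finset ℕ} {k : ℕ} {c : Finset ℕ → ℝ}
    (hc : LkChain (sub K V) s k c) : LkChain K s k c := by
  intro t ht
  obtain ⟨h1, h2, h3, h4⟩ := hc t ht
  exact ⟨sub_le h1, h2, sub_le h3, h4⟩

theorem lk_cone (hz : z ∉ verts K) {s : Finset ℕ} (hs : s ∈ K) {k : ℕ} {c : Finset ℕ → ℝ}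
    (hc : LkChain (sub K V) s k c) : LkChain (Kp K V z) s (k + 1) (coneS z c) := by
  intro t ht
  unfold coneS at ht
  by_cases h : z ∈ t
  · rw [if_pos h] at ht
    obtain ⟨h1, h2, h3, h4⟩ := hc _ (right_ne_zero_of_mul ht)
    have h5 : insert z (t.erase z) = t := Finset.insert_erase h
    refine ⟨?_, ?_, ?_, ?_⟩
    · rw [← h5]; exact ins_mem h1
    · rw [← h5, Finset.disjoint_insert_right]; exact ⟨nz hz hs, h2⟩
    · rw [← h5, Finset.union_insert]; exact ins_mem h3
    · rw [← h5, Finset.card_insert_of_notMem (Finset.notMem_erase z t), h4]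
  · rw [if_neg h] at ht
    exact absurd rfl ht

theorem lk_add {L : Finset (Finset ℕ)} {s : Finset ℕ} {k : ℕ} {c d : Finset ℕ → ℝ}
    (hc : LkChain L s k c) (hd : LkChain L s k d) : LkChain L s k (c + d) := by
  intro t ht
  by_cases h : c t = 0
  · refine hd t fun h' => ht ?_
    rw [Pi.add_apply, h, h', add_zero]
  · exact hc t h

theorem lk_smul {L : Finset (Finset ℕ)} {s : Finset ℕ} {k : ℕ} {c : Finset ℕ → ℝ} (r : ℝ)
    (hc : LkChain L s k c) : LkChain L s k (r • c) := by
  intro t ht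
  exact hc t fun h => ht (by rw [Pi.smul_apply, h, smul_zero])

theorem lk_neg {L : Finset (Finset ℕ)} {s : Finset ℕ} {k : ℕ} {c : Finset ℕ → ℝ}
    (hc : LkChain L s k c) : LkChain L s k (-c) := by
  intro t ht
  exact hc t fun h => ht (by rw [Pi.neg_apply, h, neg_zero])

theorem lk_zero {L : Finset (Finset ℕ)} {s : Finset ℕ} {k : ℕ} : LkChain L s k 0 :=
  fun _ ht => absurd rfl ht

/-- the boundary of a decomposed chain -/
theorem bd_dec (hK : IsCx K) (hz : z ∉ verts K) {a b : Finset ℕ → ℝ}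
    (ha : ∀ u, a u ≠ 0 → u ∈ K) (hb : ∀ u, b u ≠ 0 → u ∈ sub K V) :
    bdS (Kp K V z) (a + coneS z b) = (bdS K a + b) - coneS z (bdS (sub K V) b) := by
  rw [bdS_add', bdS_coneS (z_mem hK), bdS_mono (verts_mono K_le) ha,
    bdS_mono (verts_mono (sub_le.trans K_le)) hb]
  funext w
  simp only [Pi.add_apply, Pi.sub_apply]
  ring

theorem bdS_z {a : Finset ℕ → ℝ} {L : Finset (Finset ℕ)} (ha : ∀ t, z ∈ t → a t = 0) :
    ∀ t, z ∈ t → bdS L a t = 0 := by
  intro t ht
  unfold bdS
  refine Finset.sum_eq_zero fun x _ => ?_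
  rw [ha _ (Finset.mem_insert_of_mem ht), mul_zero]

theorem supp_z (hz : z ∉ verts K) {a : Finset ℕ → ℝ} (ha : ∀ u, a u ≠ 0 → u ∈ K) :
    ∀ t, z ∈ t → a t = 0 := by
  intro t ht
  by_contra h
  exact nz hz (ha t h) ht

/-- a decomposed chain is closed if and only if ... -/
theorem bd_dec_zero (hK : IsCx K) (hz : z ∉ verts K) {a b e : Finset ℕ → ℝ}
    (ha : ∀ u, a u ≠ 0 → u ∈ K) (hb : ∀ u, b u ≠ 0 → u ∈ sub K V)
    {f : Finset ℕ → ℝ} (he : ∀ u, e u ≠ 0 → u ∈ K) (hf : ∀ u, f u ≠ 0 → u ∈ sub K V)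
    (h : bdS (Kp K V z) (a + coneS z b) = e + coneS z f) :
    bdS K a + b = e ∧ bdS (sub K V) b = -f := by
  rw [bd_dec hK hz ha hb] at h
  have ha0 := supp_z hz ha
  have hb0 := supp_z hz (fun u hu => sub_le (hb u hu))
  have he0 := supp_z hz he
  have hf0 := supp_z hz (fun u hu => sub_le (hf u hu))
  have h1 : bdS (sub K V) b = -f := by
    refine cone_inj (z := z) (bdS_z hb0) (fun t ht => by rw [Pi.neg_apply, hf0 t ht, neg_zero])
      fun w hw => ?_
    have h2 := congrFun h w
    rw [Pi.sub_apply, Pi.add_apply, Pi.add_apply, bdS_z ha0 w hw, hb0 w hw, he0 w hw] at h2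
    rw [coneS_neg, Pi.neg_apply]
    linarith
  refine ⟨?_, h1⟩
  funext w
  have h2 := congrFun h w
  rw [Pi.sub_apply, Pi.add_apply, h1, coneS_neg, Pi.neg_apply] at h2
  rw [Pi.add_apply] at h2 ⊢
  linarith

end

theorem prf (hD2 : S_D2) : S_D1 := by
  intro K hK V hV z hz n hM s hs hne hsz
  by_cases hzs : z ∈ s
  · -- case (ii)
    set u := s.erase z with hu
    have hzu : z ∉ u := Finset.notMem_erase z s
    have hsu : insert z u = s := Finset.insert_erase hzs
    have huL : u ∈ sub K V := Kp_insert hz hzu (by rw [hsu]; exact hs)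
    have hune : u.Nonempty := by
      rw [Finset.nonempty_iff_ne_empty]
      intro h
      refine hsz ?_
      rw [← hsu, h]
      rfl
    have hcard : s.card = u.card + 1 := by
      rw [← hsu, Finset.card_insert_of_notMem hzu]
    refine sph_of (M := sub K V) (u := u) (m := n) (fun k => by omega) (fun k c => ⟨?_, ?_⟩)
      (fun k c hc => ?_) ?_
    · intro hc t ht
      obtain ⟨h1, h2, h3, h4⟩ := hc t ht
      have hzt : z ∉ t := Finset.disjoint_left.1 h2 hzs
      have hut : u ∪ t ∈ sub K V := by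
        refine Kp_insert hz ?_ (by rw [← Finset.insert_union, hsu]; exact h3)
        rw [Finset.mem_union, not_or]
        exact ⟨hzu, hzt⟩
      refine ⟨?_, Finset.disjoint_of_subset_left (Finset.erase_subset z s) h2, hut, h4⟩
      rw [mem_sub] at hut ⊢
      exact ⟨hK.2 _ hut.1 _ Finset.subset_union_right,
        Finset.subset_union_right.trans hut.2⟩
    · intro hc t ht
      obtain ⟨h1, h2, h3, h4⟩ := hc t ht
      have hzt : z ∉ t := nz hz (sub_le h1)
      refine ⟨K_le (sub_le h1), ?_, ?_, h4⟩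
      · rw [← hsu, Finset.disjoint_insert_left]
        exact ⟨hzt, h2⟩
      · rw [← hsu, Finset.insert_union]
        exact ins_mem h3
    · refine bdS_mono (verts_mono (sub_le.trans K_le)) fun t ht => ?_
      obtain ⟨h1, h2, h3, h4⟩ := hc t ht
      have hzt : z ∉ t := Finset.disjoint_left.1 h2 hzs
      have hut : u ∪ t ∈ sub K V := by
        refine Kp_insert hz ?_ (by rw [← Finset.insert_union, hsu]; exact h3)
        rw [Finset.mem_union, not_or]
        exact ⟨hzu, hzt⟩
      rw [mem_sub] at hut ⊢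
      exact ⟨hK.2 _ hut.1 _ Finset.subset_union_right,
        Finset.subset_union_right.trans hut.2⟩
    · exact hM.bd u huL hune
  · have hsK : s ∈ K := Kp_of_notMem hs hzs
    by_cases hsV : s ⊆ V
    · -- case (iii)
      have hsL : s ∈ sub K V := mem_sub.2 ⟨hsK, hsV⟩
      have hbdy := hM.bdy s hsK hne hsV
      have hL := hM.bd s hsL hne
      have hcxL : IsCx (sub K V) := by
        refine ⟨mem_sub.2 ⟨hK.1, Finset.empty_subset _⟩, fun σ hσ τ hτ => ?_⟩
        rw [mem_sub] at hσ ⊢
        exact ⟨hK.2 _ hσ.1 _ hτ, hτ.trans hσ.2⟩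
      have hsn : s.card ≤ n := by
        refine (hD2 (sub K V) hcxL n s hsL fun t ht hst => ?_).1
        exact hM.bd t ht (hne.mono hst)
      -- supports
      have suppK : ∀ {k : ℕ} {c : Finset ℕ → ℝ}, LkChain K s k c → ∀ u, c u ≠ 0 → u ∈ K :=
        fun hc u hu => (hc u hu).1
      have suppL : ∀ {k : ℕ} {c : Finset ℕ → ℝ}, LkChain (sub K V) s k c →
          ∀ u, c u ≠ 0 → u ∈ sub K V := fun hc u hu => (hc u hu).1
      -- the last step
      have key : ∀ (k : ℕ) (c0 c1 d : Finset ℕ → ℝ), LkChain K s k c0 → bdS K c0 + c1 = 0 →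
          LkChain (sub K V) s k d → bdS (sub K V) d = c1 →
          ∃ c', LkChain (Kp K V z) s (k + 1) c' ∧ bdS (Kp K V z) c' = c0 + coneS z c1 := by
        intro k c0 c1 d h0 h1 hd hd1
        obtain ⟨e, he, he1⟩ := hbdy k (c0 + d) (lk_add h0 (lk_sub hd)) (by
          rw [bdS_add', bdS_mono (verts_mono sub_le) (suppL hd), hd1, h1])
        refine ⟨e + coneS z (-d), lk_add (lk_up hK he) (lk_cone hz hsK (lk_neg hd)), ?_⟩
        rw [bd_dec hK hz (suppK he) (suppL (lk_neg hd)), he1, bdS_neg', hd1, coneS_neg]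
        funext w
        simp only [Pi.add_apply, Pi.sub_apply, Pi.neg_apply]
        ring
      refine ⟨fun k hk c hc hc0 => ?_, fun k hk => ?_⟩
      · have hdec := decomp (z := z) c
        have ha := lk_pa hz hsK hc
        have hbs : ∀ u, pb z c u ≠ 0 → u ∈ sub K V := by
          rcases k with - | k
          · intro u hu
            rw [pb_zero hc] at hu
            exact absurd rfl hu
          · exact suppL (lk_pb hz hsK hc)
        have h1 := bd_dec_zero hK hz (a := pa z c) (b := pb z c) (e := 0) (f := 0) (suppK ha) hbs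
          (fun u hu => absurd rfl hu) (fun u hu => absurd rfl hu) (by
            rw [← hdec, hc0, coneS_zero, add_zero])
        obtain ⟨d, hd, hd1⟩ : ∃ d, LkChain (sub K V) s k d ∧ bdS (sub K V) d = pb z c := by
          rcases k with - | k
          · exact ⟨0, lk_zero, by rw [pb_zero hc, bdS_zero']⟩
          · exact hL.1 k (by omega) _ (lk_pb hz hsK hc) (by rw [h1.2, neg_zero])
        obtain ⟨c', h2, h3⟩ := key k _ _ d ha h1.1 hd hd1
        exact ⟨c', h2, by rw [h3, ← hdec]⟩
      · obtain ⟨k, rfl⟩ : ∃ k', k = k' + 1 := ⟨k - 1, by omega⟩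
        obtain ⟨z1, hz1, hz2, hz3, hz4⟩ := hL.2 k (by omega)
        obtain ⟨g0, hg0, hg1⟩ := hbdy k z1 (lk_sub hz1) (by
          rw [bdS_mono (verts_mono sub_le) (suppL hz1), hz2])
        have hg := lk_neg hg0
        refine ⟨-g0 + coneS z z1, lk_add (lk_up hK hg) (lk_cone hz hsK hz1), ?_, ?_, ?_⟩
        · rw [bd_dec hK hz (suppK hg) (suppL hz1), bdS_neg', hg1, hz2, coneS_zero]
          simp
        · rintro ⟨c', hc', hc1⟩
          refine hz3 ⟨-pb z c', lk_neg (lk_pb hz hsK hc'), ?_⟩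
          have h1 := bd_dec_zero hK hz (a := pa z c') (b := pb z c') (e := -g0) (f := z1)
            (suppK (lk_pa hz hsK hc')) (suppL (lk_pb hz hsK hc')) (suppK hg) (suppL hz1) (by
              rw [← decomp, hc1])
          rw [bdS_neg', h1.2, neg_neg]
        · intro c hc hc0
          have hdec := decomp (z := z) c
          have ha := lk_pa hz hsK hc
          have hb := lk_pb hz hsK hc
          have h1 := bd_dec_zero hK hz (a := pa z c) (b := pb z c) (e := 0) (f := 0) (suppK ha)
            (suppL hb) (fun u hu => absurd rfl hu) (fun u hu => absurd rfl hu) (by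
              rw [← hdec, hc0, coneS_zero, add_zero])
          obtain ⟨lam, d, hd, hd1⟩ := hz4 _ hb (by rw [h1.2, neg_zero])
          obtain ⟨c', h2, h3⟩ := key (k + 1) (pa z c + lam • g0) (pb z c + (-lam) • z1) d
            (lk_add ha (lk_smul lam hg0)) (by
              rw [bdS_add', bdS_smul', hg1]
              have h4 := h1.1
              funext w
              have h5 := congrFun h4 w
              simp only [Pi.add_apply, Pi.smul_apply, smul_eq_mul, Pi.zero_apply] at h5 ⊢
              linarith) hd (by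
              rw [hd1]
              funext w
              simp only [Pi.add_apply, Pi.smul_apply, smul_eq_mul]
              ring)
          refine ⟨lam, c', h2, ?_⟩
          rw [h3, coneS_add, coneS_smul]
          funext w
          have h4 := congrFun hdec w
          simp only [Pi.add_apply, Pi.smul_apply, smul_eq_mul, Pi.neg_apply] at h4 ⊢
          linarith
    · -- case (i)
      have up : ∀ t, s ∪ t ∈ Kp K V z → s ∪ t ∈ K := by
        intro t ht
        rcases mem_Kp.1 ht with h | ⟨u, hu, h⟩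
        · exact h
        · exfalso
          refine hsV fun a ha => ?_
          have h1 : a ∈ insert z u := by
            rw [h]; exact Finset.mem_union_left _ ha
          rcases Finset.mem_insert.1 h1 with rfl | h2
          · exact absurd ha hzs
          · exact (mem_sub.1 hu).2 h2
      refine sph_of (M := K) (u := s) (m := n + 1) (fun k => Iff.rfl) (fun k c => ⟨?_, ?_⟩)
        (fun k c hc => ?_) ?_
      · intro hc t ht
        obtain ⟨h1, h2, h3, h4⟩ := hc t ht
        have h5 := up t h3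
        exact ⟨hK.2 _ h5 _ Finset.subset_union_right, h2, h5, h4⟩
      · exact fun hc => lk_up hK hc
      · refine bdS_mono (verts_mono K_le) fun t ht => ?_
        obtain ⟨h1, h2, h3, h4⟩ := hc t ht
        exact hK.2 _ (up t h3) _ Finset.subset_union_right
      · exact hM.int s hsK hne hsV

end MP8a95ee.Rk.D1P
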