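import Pool.Agent.Work.MP_8a95ee_gt.Rk.Stmts2

/-!
# Item D2 of the block Rk: purity (helper73)
-/

set_option autoImplicit false

namespace MP8a95ee.Rk.D2P

open Ref RA

/-- a maximal face has `n` vertices -/
theorem aux (Y : Finset (Finset ℕ)) (hempty : (∅ : Finset ℕ) ∈ Y) (n : ℕ)
    (t : Finset ℕ) (ht : t ∈ Y) (hS : IsSph Y n t) (hmax : ∀ u ∈ Y, t ⊆ u → u = t) :
    t.card = n := by
  by_contra hne
  obtain ⟨c', hc', hb⟩ := hS.1 0 (by simpa using hne)
    (fun u => if u = ∅ then 1 else 0) (by
      intro u hu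
      have : u = ∅ := by
        by_contra h
        exact hu (if_neg h)
      subst this
      exact ⟨hempty, Finset.disjoint_empty_right _, by simpa using ht, rfl⟩) (by
      funext u
      unfold bdS
      apply Finset.sum_eq_zero
      intro a _
      simp only [Finset.insert_ne_empty, if_false, mul_zero])
  have h0 : ∀ u, c' u = 0 := by
    intro u
    by_contra hu
    obtain ⟨_, hd, hu2, hcard⟩ := hc' u hu
    have h1 := hmax _ hu2 Finset.subset_union_left
    have h2 : u ⊆ t := by
      rw [← h1]; exact Finset.subset_union_right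
    have h3 : u = ∅ := by
      rw [← Finset.disjoint_self_iff_empty]
      exact hd.mono_left h2
    rw [h3] at hcard
    simp at hcard
  have h1 := congrFun hb ∅
  simp only [bdS, h0, mul_zero, Finset.sum_const_zero, if_true] at h1
  exact zero_ne_one h1

/-- D2: purity -/
theorem prf : S_D2 := by
  intro Y hY n s hs hS
  have hempty : (∅ : Finset ℕ) ∈ Y := hY.1
  obtain ⟨t, hst, htmax⟩ := (Y.filter fun u => s ⊆ u).exists_le_maximal
    (Finset.mem_filter.2 ⟨hs, Finset.Subset.refl s⟩)
  have ht := Finset.mem_filter.1 htmax.prop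
  have hcard := aux Y hempty n t ht.1 (hS t ht.1 ht.2) (by
    intro u hu htu
    exact le_antisymm (htmax.le_of_ge (Finset.mem_filter.2 ⟨hu, ht.2.trans htu⟩) htu) htu)
  exact ⟨hcard ▸ Finset.card_le_card ht.2, t, ht.1, ht.2, hcard⟩

end MP8a95ee.Rk.D2P
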