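import Pool.Agent.Work.MP_8a95ee_gt.Rk.Stmts2
import Pool.Agent.Work.MP_8a95ee_gt.Bd.B12

/-!
Block Rk, item D4 (helper92): exactness with coefficients, adapted from `MP8a95ee.Ref.A2P`.
-/

set_option autoImplicit false

namespace MP8a95ee.Rk.D4P

open MP8a95ee MP8a95ee.RA MP8a95ee.Ref MP8a95ee.Rk

theorem prf : S_D4 := by
  intro L hf s hs k hk N _ _ E x hx hbx
  obtain ⟨h, h1, h2⟩ := h61_fill L s k hk
  -- real chains obtained from functionals
  have hfx : ∀ f : Module.Dual ℝ N, LkChain L s k (fun u => f (x u)) := by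
    intro f t ht
    refine (hx t).1 fun h0 => ht ?_
    change f (x t) = 0
    rw [h0, map_zero]
  have hfb : ∀ f : Module.Dual ℝ N, bdS L (fun u => f (x u)) = 0 := by
    intro f
    funext u
    rw [h61_bdlink (hfx f)]
    have h3 := congrFun hbx u
    unfold bdN at h3
    have h4 := congrArg f h3
    rw [map_sum] at h4
    rw [Pi.zero_apply] at h4
    rw [map_zero] at h4
    rw [Pi.zero_apply, ← h4]
    exact Finset.sum_congr rfl fun a _ => by rw [map_smul, smul_eq_mul]
  set y : Finset ℕ → N := fun u => ∑ w ∈ L, (h (Pi.single w 1) u) • x w with hy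
  -- functionals of `y`
  have hfy : ∀ (f : Module.Dual ℝ N) (u : Finset ℕ), f (y u) = h (fun u => f (x u)) u := by
    intro f u
    have h3 : (fun u => f (x u)) = ∑ w ∈ L, f (x w) • (Pi.single w 1 : Finset ℕ → ℝ) := by
      funext t
      rw [Finset.sum_apply]
      by_cases ht : t ∈ L
      · rw [Finset.sum_eq_single t]
        · simp
        · intro b _ hb
          simp [hb.symm]
        · intro h; exact absurd ht h
      · have : x t = 0 := by
          by_contra h0
          exact ht ((hx t).1 h0).1
        rw [this, map_zero]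
        symm
        refine Finset.sum_eq_zero fun b hb => ?_
        have : t ≠ b := fun h => ht (h ▸ hb)
        simp [this]
    have h4 : h (fun u => f (x u)) u = ∑ w ∈ L, f (x w) * h (Pi.single w 1) u := by
      rw [h3, map_sum, Finset.sum_apply]
      exact Finset.sum_congr rfl fun w _ => by rw [map_smul, Pi.smul_apply, smul_eq_mul]
    rw [h4, hy]
    change f (∑ w ∈ L, (h (Pi.single w 1) u) • x w) = _
    rw [map_sum]
    exact Finset.sum_congr rfl fun w _ => by rw [map_smul, smul_eq_mul, mul_comm]
  refine ⟨y, ?_, ?_⟩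
  · intro u
    refine ⟨?_, Submodule.sum_mem _ fun w _ => Submodule.smul_mem _ _ (hx w).2⟩
    intro hne
    by_contra hcon
    apply hne
    refine Finset.sum_eq_zero fun w _ => ?_
    have h3 : h (Pi.single w 1) u = 0 := by
      by_contra h4
      exact hcon (h1 _ u h4)
    rw [h3, zero_smul]
  · funext u
    rw [← sub_eq_zero]
    refine h61_dual fun f => ?_
    have h3 := congrFun (h2 _ (hfx f) (hfb f)) u
    rw [h61_bdlink (h1 _)] at h3
    rw [map_sub, sub_eq_zero, ← h3]
    unfold bdN
    rw [map_sum]
    exact Finset.sum_congr rfl fun a _ => by rw [map_smul, hfy, smul_eq_mul]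

end MP8a95ee.Rk.D4P
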