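import Pool.Agent.Work.MP_8a95ee_gt.Rk.Stmts2
import Pool.Agent.Work.MP_8a95ee_gt.Bd.B05

/-!
# Block Rk, item D5: the top cycles of the links
-/

set_option autoImplicit false

namespace MP8a95ee.Rk.D5P

open RA Ref

/-- D5 -/
theorem prf : S_D5 := by
  intro L hf n cpt hcyc hsupp hne hcard s hs hS htop N _ _ E k hk x hx hbx
  -- the restricted chain
  have hoL : LkChain L s k (cLk cpt s) := by
    intro u hu
    have hd : Disjoint s u := by
      by_contra h
      apply hu
      unfold cLk
      rw [if_neg h]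
    have h1 : cpt (s ∪ u) ≠ 0 := by
      intro h
      apply hu
      unfold cLk
      rw [if_pos hd, h, mul_zero]
    obtain ⟨h3, h2⟩ := hsupp _ h1
    refine ⟨hf.2 _ h3 _ Finset.subset_union_right, hd, h3, ?_⟩
    rw [Finset.card_union_of_disjoint hd] at h2
    omega
  have hoC : bdS L (cLk cpt s) = 0 := by
    funext u
    rw [h61_bdlink hoL]
    by_cases hd : Disjoint s u
    · have h1 : ∀ a ∈ verts L \ (s ∪ u), sg a u * cLk cpt s (insert a u) =
          ((-1) ^ s.card * sgg s u) * (sg a (s ∪ u) * cpt (insert a (s ∪ u))) := by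
        intro a ha
        obtain ⟨has, hau⟩ := h61_out ha
        unfold cLk
        rw [if_pos (h61_di hd has), Finset.union_insert, ← mul_assoc, h61_sign2 has hau hd]
        ring
      rw [Finset.sum_congr rfl h1, ← Finset.mul_sum]
      have h2 := congrFun hcyc (s ∪ u)
      unfold bdS at h2
      rw [h2]
      simp
    · refine Finset.sum_eq_zero fun a ha => ?_
      unfold cLk
      rw [if_neg (fun h => hd (h.mono_right (Finset.subset_insert _ _))), mul_zero]
  obtain ⟨t, ht, hst, htn⟩ := htop
  set u0 := t \ s with hu0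
  have hd0 : Disjoint s u0 := Finset.disjoint_sdiff
  have ho0 : cLk cpt s u0 ≠ 0 := by
    unfold cLk
    rw [if_pos hd0, Finset.union_sdiff_of_subset hst]
    exact mul_ne_zero (h61_sgg_ne _ _) (hne t ht htn)
  obtain ⟨z, -, -, -, hz⟩ := hS.2 k hk
  have hone : ∀ c, LkChain L s k c → bdS L c = 0 → ∃ lam : ℝ, c = lam • z := by
    intro c hc hbc
    obtain ⟨lam, c', hc', he⟩ := hz c hc hbc
    have h1 : c' = 0 := by
      funext w
      by_contra h0
      obtain ⟨-, h2, h3, h4⟩ := hc' w h0
      have h5 := hcard _ h3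
      rw [Finset.card_union_of_disjoint h2] at h5
      omega
    have h2 : bdS L (0 : Finset ℕ → ℝ) = 0 := by
      funext w
      unfold bdS
      simp
    rw [h1, h2, add_zero] at he
    exact ⟨lam, he⟩
  obtain ⟨l0, hl0⟩ := hone _ hoL hoC
  have hl0' : l0 ≠ 0 := by
    intro h
    apply ho0
    rw [hl0, h, zero_smul]
    rfl
  refine ⟨(cLk cpt s u0)⁻¹ • x u0, Submodule.smul_mem _ _ (hx u0).2, fun u => ?_⟩
  rw [← sub_eq_zero]
  refine h61_dual fun f => ?_
  have hfx : LkChain L s k (fun u => f (x u)) := by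
    intro t' ht'
    refine (hx t').1 fun h0 => ht' ?_
    change f (x t') = 0
    rw [h0, map_zero]
  have hfb : bdS L (fun u => f (x u)) = 0 := by
    funext u
    rw [h61_bdlink hfx]
    have h3 := congrFun hbx u
    unfold bdN at h3
    have h4 := congrArg f h3
    rw [map_sum, Pi.zero_apply, map_zero] at h4
    rw [Pi.zero_apply, ← h4]
    exact Finset.sum_congr rfl fun a _ => by rw [map_smul, smul_eq_mul]
  obtain ⟨l, hl⟩ := hone _ hfx hfb
  have hv : ∀ w, f (x w) = l * z w := fun w => congrFun hl w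
  have hw : ∀ w, cLk cpt s w = l0 * z w := fun w => congrFun hl0 w
  have hz0 : z u0 ≠ 0 := by
    intro h
    apply ho0
    rw [hw, h, mul_zero]
  rw [map_sub, map_smul, map_smul, smul_eq_mul, smul_eq_mul, hv, hv, hw, hw]
  field_simp
  ring

end MP8a95ee.Rk.D5P
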