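import Pool.Agent.Work.MP_8a95ee_gt.Rk.Stmts2

/-!
# Block Rk, item D6: moving a filling to the top size
-/

set_option autoImplicit false

namespace MP8a95ee.Rk.D6P

open Ref RA

lemma dDF_add (Y : Finset (Finset ℕ)) {N : Type} [AddCommGroup N] [Module ℝ N]
    (ρ : ℕ → Finset ℕ → N →ₗ[ℝ] N) (x z : Finset ℕ → Finset ℕ → N) :
    dDF Y ρ (fun s u => x s u + z s u) = fun s u => dDF Y ρ x s u + dDF Y ρ z s u := by
  funext s u
  unfold dDF
  by_cases h : Disjoint s u
  · rw [if_pos h, if_pos h, if_pos h]
    simp only [map_add, smul_add, Finset.sum_add_distrib]
    abel
  · rw [if_neg h, if_neg h, if_neg h, add_zero]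

lemma level (Y : Finset (Finset ℕ)) {N : Type} [AddCommGroup N] [Module ℝ N]
    (ρ : ℕ → Finset ℕ → N →ₗ[ℝ] N) (y : Finset ℕ → Finset ℕ → N) (q : ℕ)
    (hy : ∀ s u, y s u ≠ 0 → (s ∪ u).card = q + 1) (s u : Finset ℕ) (hsu : (s ∪ u).card ≤ q)
    (hd : Disjoint s u) : dDF Y ρ y s u = - bdN Y s (y s) u := by
  unfold dDF bdN
  rw [if_pos hd]
  have h1 : ∑ a ∈ s, sg a u • ρ a (s.erase a) (y (s.erase a) (insert a u)) = 0 := by
    apply Finset.sum_eq_zero
    intro a ha
    have h2 : y (s.erase a) (insert a u) = 0 := by
      by_contra hne
      have h3 := hy _ _ hne
      have h4 : s.erase a ∪ insert a u = s ∪ u := by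
        ext b
        simp only [Finset.mem_union, Finset.mem_erase, Finset.mem_insert]
        constructor
        · rintro (h | h | h)
          · exact Or.inl h.2
          · exact Or.inl (h ▸ ha)
          · exact Or.inr h
        · rintro (h | h)
          · by_cases hb : b = a
            · exact Or.inr (Or.inl hb)
            · exact Or.inl ⟨hb, h⟩
          · exact Or.inr (Or.inr h)
      rw [h4] at h3
      omega
    rw [h2, map_zero, smul_zero]
  rw [h1, zero_sub]

theorem prf (h4 : S_D4) (h6a : S_D6a) : S_D6 := by
  intro Y hY n N _ _ F ρ hF hF0 hS hcard x hx hdx
  have down : ∀ s t : Finset ℕ, s ⊆ t → t ∈ Y → s ∈ Y := fun s t hst ht => hY.2 t ht s hst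
  have key : ∀ q ≤ n, ∃ x' : Finset ℕ → Finset ℕ → N, IsDF Y F x' ∧
      dDF Y ρ x' = dDF Y ρ x ∧ ∀ s u, (s ∪ u).card < q → x' s u = 0 := by
    intro q
    induction q with
    | zero => intro _; exact ⟨x, hx, rfl, fun s u h => absurd h (Nat.not_lt_zero _)⟩
    | succ q ih =>
      intro hq
      obtain ⟨x', hx', hdx', hlow⟩ := ih (by omega)
      have hex : ∀ s : Finset ℕ, ∃ y : Finset ℕ → N,
          (∀ u, (y u ≠ 0 → Disjoint s u ∧ s ∪ u ∈ Y ∧ (s ∪ u).card = q + 1) ∧ y u ∈ F s) ∧
          (∀ u, Disjoint s u → (s ∪ u).card = q → bdN Y s y u = x' s u) := by
        intro s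
        by_cases hs : s ∈ Y ∧ s.card ≤ q ∧ F s ≠ ⊥
        · obtain ⟨hsL, hsq, hsne⟩ := hs
          obtain ⟨k, hk⟩ := Nat.exists_eq_add_of_le hsq
          set xs : Finset ℕ → N := fun u => if (s ∪ u).card = q then x' s u else 0 with hxs
          have hne : ∀ u, xs u ≠ 0 → (s ∪ u).card = q ∧ x' s u ≠ 0 := by
            intro u hu
            rw [hxs] at hu
            simp only at hu
            split_ifs at hu with hc
            · exact ⟨hc, hu⟩
            · exact absurd rfl hu
          have hlk : LkN Y (F s) s k xs := by
            intro u
            refine ⟨fun hu => ?_, ?_⟩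
            · obtain ⟨hc, hu'⟩ := hne u hu
              obtain ⟨h2, h3⟩ := (hx' s u).1 hu'
              refine ⟨down _ _ Finset.subset_union_right h3, h2, h3, ?_⟩
              rw [Finset.card_union_of_disjoint h2] at hc
              omega
            · rw [hxs]
              simp only
              split_ifs
              · exact (hx' s u).2
              · exact Submodule.zero_mem _
          have hbd : bdN Y s xs = 0 := by
            funext u
            rw [Pi.zero_apply]
            by_cases hd : Disjoint s u
            · by_cases hc : (s ∪ u).card + 1 = q
              · have h2 : dDF Y ρ x' s u = 0 := by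
                  rw [hdx']
                  by_contra hcon
                  have := hdx s u hcon
                  omega
                have h3 : bdN Y s xs u = bdN Y s (x' s) u := by
                  unfold bdN
                  apply Finset.sum_congr rfl
                  intro a ha
                  have ha' : a ∉ s ∪ u := (Finset.mem_sdiff.1 ha).2
                  have h4 : (s ∪ insert a u).card = q := by
                    rw [Finset.union_insert, Finset.card_insert_of_notMem ha']
                    exact hc
                  rw [hxs]
                  simp only [h4, if_true]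
                rw [h3]
                have h5 : dDF Y ρ x' s u = - bdN Y s (x' s) u := by
                  unfold dDF bdN
                  rw [if_pos hd]
                  have h6 : ∑ a ∈ s, sg a u • ρ a (s.erase a) (x' (s.erase a) (insert a u)) = 0 := by
                    apply Finset.sum_eq_zero
                    intro a ha
                    have h7 : x' (s.erase a) (insert a u) = 0 := by
                      apply hlow
                      have h8 : s.erase a ∪ insert a u ⊆ s ∪ u := by
                        intro b hb
                        simp only [Finset.mem_union, Finset.mem_erase, Finset.mem_insert] at hb ⊢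
                        rcases hb with h | h | h
                        · exact Or.inl h.2
                        · exact Or.inl (h ▸ ha)
                        · exact Or.inr h
                      have := Finset.card_le_card h8
                      omega
                    rw [h7, map_zero, smul_zero]
                  rw [h6, zero_sub]
                rw [h2] at h5
                exact (neg_eq_zero.1 h5.symm)
              · unfold bdN
                apply Finset.sum_eq_zero
                intro a ha
                have ha' : a ∉ s ∪ u := (Finset.mem_sdiff.1 ha).2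
                have h4 : (s ∪ insert a u).card = (s ∪ u).card + 1 := by
                  rw [Finset.union_insert, Finset.card_insert_of_notMem ha']
                rw [hxs]
                simp only [h4, if_neg hc, smul_zero]
            · unfold bdN
              apply Finset.sum_eq_zero
              intro a ha
              have h4 : xs (insert a u) = 0 := by
                by_contra hcon
                have h5 := ((hx' s (insert a u)).1 (hne _ hcon).2).1
                exact hd (Finset.disjoint_of_subset_right (Finset.subset_insert a u) h5)
              rw [h4, smul_zero]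
          obtain ⟨y, hy1, hy2⟩ := h4 Y hY s hsL k ((hS s hsL hsne).1 k (by omega)) N (F s) xs hlk hbd
          refine ⟨y, fun u => ⟨fun hu => ?_, (hy1 u).2⟩, ?_⟩
          · obtain ⟨h2, h3, h4, h5⟩ := (hy1 u).1 hu
            refine ⟨h3, h4, ?_⟩
            rw [Finset.card_union_of_disjoint h3]
            omega
          · intro u _ hc
            rw [hy2, hxs]
            simp only [hc, if_true]
        · refine ⟨fun _ => 0, fun u => ⟨fun h => absurd rfl h, Submodule.zero_mem _⟩, ?_⟩
          intro u hd hc
          have h2 : bdN Y s (fun _ => (0 : N)) u = 0 := by
            unfold bdN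
            simp
          rw [h2]
          by_contra hcon
          have h3 := ((hx' s u).1 (Ne.symm hcon)).2
          apply hs
          refine ⟨down _ _ Finset.subset_union_left h3, ?_, ?_⟩
          · rw [← hc]
            exact Finset.card_le_card Finset.subset_union_left
          · intro h0
            have h5 := (hx' s u).2
            rw [h0, Submodule.mem_bot] at h5
            exact hcon h5.symm
      choose y hy1 hy2 using hex
      have hyDD : IsDF Y F y := by
        intro s u
        refine ⟨fun hu => ?_, (hy1 s u).2⟩
        obtain ⟨h2, h3, _⟩ := (hy1 s u).1 hu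
        exact ⟨h2, h3⟩
      obtain ⟨hB1, hB2⟩ := h6a Y hY N F ρ hF y hyDD
      refine ⟨fun s u => x' s u + dDF Y ρ y s u, ?_, ?_, ?_⟩
      · intro s u
        refine ⟨fun hu => ?_, Submodule.add_mem _ (hx' s u).2 (hB1 s u).2⟩
        by_cases h2 : x' s u = 0
        · by_cases h3 : dDF Y ρ y s u = 0
          · exact absurd (show x' s u + dDF Y ρ y s u = 0 by rw [h2, h3, add_zero]) hu
          · exact (hB1 s u).1 h3
        · exact (hx' s u).1 h2
      · rw [dDF_add, hB2, hdx']
        funext s u
        simp
      · intro s u hlt
        have hyl : ∀ s u, y s u ≠ 0 → (s ∪ u).card = q + 1 := fun s u h => ((hy1 s u).1 h).2.2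
        show x' s u + dDF Y ρ y s u = 0
        by_cases hd : Disjoint s u
        · rw [level Y ρ y q hyl s u (by omega) hd]
          rcases Nat.lt_or_ge (s ∪ u).card q with hc | hc
          · rw [hlow s u hc, zero_add, neg_eq_zero]
            unfold bdN
            apply Finset.sum_eq_zero
            intro a ha
            have ha' : a ∉ s ∪ u := (Finset.mem_sdiff.1 ha).2
            have h4 : (s ∪ insert a u).card = (s ∪ u).card + 1 := by
              rw [Finset.union_insert, Finset.card_insert_of_notMem ha']
            have h5 : y s (insert a u) = 0 := by
              by_contra hcon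
              have := hyl _ _ hcon
              omega
            rw [h5, smul_zero]
          · rw [hy2 s u hd (by omega), add_neg_cancel]
        · have h2 : x' s u = 0 := by
            by_contra hcon
            exact hd ((hx' s u).1 hcon).1
          rw [h2, zero_add]
          unfold dDF
          rw [if_neg hd]
  obtain ⟨x', hx', hdx', hlow⟩ := key n le_rfl
  refine ⟨x', hx', hdx', fun s u hne => ?_⟩
  have h2 := ((hx' s u).1 hne).2
  have h3 : (s ∪ u).card ≤ n := hcard _ h2
  by_contra hcon
  exact hne (hlow s u (lt_of_le_of_ne h3 hcon))

end MP8a95ee.Rk.D6P
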