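import Pool.Agent.Work.MP_8a95ee_gt.Rk.Stmts2
import Pool.Agent.Work.MP_8a95ee_gt.Bd.B12

/-!
# D7: duality downstairs with coefficients in a coefficient system
-/

set_option autoImplicit false

namespace MP8a95ee.Rk.D7P

open Ref RA

theorem dDFpos {Y : Finset (Finset ℕ)} {N : Type} [AddCommGroup N] [Module ℝ N]
    (ρ : ℕ → Finset ℕ → N →ₗ[ℝ] N) (x : Finset ℕ → Finset ℕ → N) {s u : Finset ℕ}
    (h : Disjoint s u) : dDF Y ρ x s u =
      (∑ a ∈ s, sg a u • ρ a (s.erase a) (x (s.erase a) (insert a u)))
      - ∑ a ∈ verts Y \ (s ∪ u), sg a u • x s (insert a u) := by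
  unfold dDF
  rw [if_pos h]

theorem prf (h5a : S_D5) (h6a : S_D6) : S_D7 := by
  intro Y hY n cpt hc0 hcs hcn hle hpure N _ _ F ρ hcs' hFe hSph φ hφ hdφ x hx hdx
  obtain ⟨x', hx', hdx', hlev⟩ := h6a Y hY n N F ρ hcs' hFe hSph hle x hx (by
    intro s u h
    rw [hdx] at h
    by_contra hc
    apply h
    unfold capU
    by_cases hd : Disjoint s u
    · rw [if_pos hd]
      have : cpt (s ∪ u) = 0 := by
        by_contra h0
        exact hc (hcs _ h0).2
      rw [this, mul_zero, zero_smul]
    · rw [if_neg hd])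
  rw [hdx] at hdx'
  have hlev0 : ∀ s u, (s ∪ u).card ≠ n → x' s u = 0 := by
    intro s u h
    by_contra h0
    exact h (hlev s u h0)
  have hcard : ∀ s u : Finset ℕ, Disjoint s u → (s ∪ u).card = s.card + u.card :=
    fun s u h => Finset.card_union_of_disjoint h
  have hA : ∀ s, s ∈ Y → ∃ y ∈ F s, ∀ u, x' s u = cLk cpt s u • y := by
    intro s hs
    have hsn := hle s hs
    by_cases hFs : F s = ⊥
    · refine ⟨0, Submodule.zero_mem _, fun u => ?_⟩
      have := (hx' s u).2
      rw [hFs, Submodule.mem_bot] at this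
      rw [this, smul_zero]
    refine h5a Y hY n cpt hc0 hcs hcn hle s hs (hSph s hs hFs) (hpure s hs) N (F s)
      (n - s.card) (by omega) (x' s) ?_ ?_
    · intro u
      refine ⟨?_, (hx' s u).2⟩
      intro h0
      obtain ⟨h1, h2⟩ := (hx' s u).1 h0
      have h3 := hlev s u h0
      rw [hcard s u h1] at h3
      exact ⟨hY.2 _ h2 _ Finset.subset_union_right, h1, h2, by omega⟩
    · funext u
      change bdN Y s (x' s) u = 0
      unfold bdN
      by_cases hd : Disjoint s u
      · by_cases hc : (s ∪ u).card + 1 = n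
        · have h1 := congrFun (congrFun hdx' s) u
          rw [dDFpos ρ x' hd] at h1
          have h2 : ∑ a ∈ s, sg a u • ρ a (s.erase a) (x' (s.erase a) (insert a u)) = 0 := by
            refine Finset.sum_eq_zero fun a ha => ?_
            rw [hlev0 _ _ (by rw [h61_eui ha]; omega), map_zero, smul_zero]
          have h3 : capU φ cpt s u = 0 := by
            unfold capU
            rw [if_pos hd]
            have : cpt (s ∪ u) = 0 := by
              by_contra h0
              have := (hcs _ h0).2
              omega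
            rw [this, mul_zero, zero_smul]
          rw [h2, h3, zero_sub, neg_eq_zero] at h1
          exact h1
        · refine Finset.sum_eq_zero fun a ha => ?_
          obtain ⟨has, hau⟩ := h61_out ha
          rw [hlev0, smul_zero]
          rw [Finset.union_insert, Finset.card_insert_of_notMem (by
            rw [Finset.mem_union, not_or]; exact ⟨has, hau⟩)]
          exact hc
      · refine Finset.sum_eq_zero fun a ha => ?_
        have : x' s (insert a u) = 0 := by
          by_contra h0
          exact hd (((hx' _ _).1 h0).1.mono_right (Finset.subset_insert _ _))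
        rw [this, smul_zero]
  choose! ψ0 hψE hψ using hA
  set σ : ℕ → ℝ := fun p => (-1) ^ ((p + 1) * (n - p)) * (-1) ^ (p - 1) with hσ
  classical
  set ψ : Finset ℕ → N := fun s => if s ∈ Y then σ (s.card + 1) • ψ0 s else 0 with hψdef
  refine ⟨ψ, ?_, ?_⟩
  · intro s
    by_cases hs : s ∈ Y
    · refine ⟨fun _ => hs, ?_⟩
      rw [hψdef]
      simp only [if_pos hs]
      exact Submodule.smul_mem _ _ (hψE s hs)
    · rw [hψdef]
      simp only [if_neg hs]
      exact ⟨fun h => absurd rfl h, Submodule.zero_mem _⟩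
  · funext s
    by_cases hs : s ∈ Y
    swap
    · unfold dF
      rw [if_neg hs]
      by_contra h0
      exact hs ((hφ s).1 fun h => h0 h.symm)
    -- a facet containing `s`
    obtain ⟨t, ht, hst, htn⟩ := hpure s hs
    have hsn := hle s hs
    set u := t \ s with hu
    have hd : Disjoint s u := Finset.disjoint_sdiff
    have hsu : s ∪ u = t := Finset.union_sdiff_of_subset hst
    have huc : u.card = n - s.card := by
      have := hcard s u hd
      rw [hsu, htn] at this
      omega
    have hne : cpt t ≠ 0 := hcn t ht htn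
    have h1 := congrFun (congrFun hdx' s) u
    rw [dDFpos ρ x' hd] at h1
    have h2 : ∑ a ∈ verts Y \ (s ∪ u), sg a u • x' s (insert a u) = 0 := by
      refine Finset.sum_eq_zero fun a ha => ?_
      obtain ⟨has, hau⟩ := h61_out ha
      rw [hlev0, smul_zero]
      rw [Finset.union_insert, Finset.card_insert_of_notMem (by
        rw [Finset.mem_union, not_or]; exact ⟨has, hau⟩), hsu, htn]
      omega
    have h3 : ∑ a ∈ s, sg a u • ρ a (s.erase a) (x' (s.erase a) (insert a u)) =
        ((-1 : ℝ) ^ (s.card - 1) * (sgg s u * cpt t)) •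
          ∑ a ∈ s, sg a (s.erase a) • ρ a (s.erase a) (ψ0 (s.erase a)) := by
      rw [Finset.smul_sum]
      refine Finset.sum_congr rfl fun a ha => ?_
      rw [hψ (s.erase a) (hY.2 s hs _ (Finset.erase_subset _ _))]
      unfold cLk
      rw [if_pos (h61_dei hd), h61_eui ha, hsu, map_smul, smul_smul, smul_smul, ← mul_assoc,
        h61_sign1 ha hd]
      congr 1
      ring
    have h4 : capU φ cpt s u =
        ((-1 : ℝ) ^ ((s.card + 1) * u.card) * sgg s u * cpt t) • φ s := by
      unfold capU
      rw [if_pos hd, hsu]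
    rw [h2, h3, h4, sub_zero] at h1
    have h5 : dF Y ρ ψ s = σ s.card • ∑ a ∈ s, sg a (s.erase a) •
        ρ a (s.erase a) (ψ0 (s.erase a)) := by
      unfold dF
      rw [if_pos hs, Finset.smul_sum]
      refine Finset.sum_congr rfl fun a ha => ?_
      have h6 : ψ (s.erase a) = σ s.card • ψ0 (s.erase a) := by
        rw [hψdef]
        simp only [if_pos (hY.2 s hs _ (Finset.erase_subset a s))]
        rw [Finset.card_erase_of_mem ha, Nat.sub_add_cancel (Finset.card_pos.2 ⟨a, ha⟩)]
      rw [h6, map_smul, smul_smul, smul_smul, mul_comm]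
    rw [h5]
    -- cancel the nonzero factor
    have hk : sgg s u * cpt t ≠ 0 := mul_ne_zero (h61_sgg_ne s u) hne
    set w := ∑ a ∈ s, sg a (s.erase a) • ρ a (s.erase a) (ψ0 (s.erase a)) with hw
    have hq : ∀ q : ℕ, ((-1 : ℝ) ^ q) * (-1) ^ q = 1 := by
      intro q
      rw [← pow_add, ← two_mul, pow_mul]
      norm_num
    have h7 : (sgg s u * cpt t) • (((-1 : ℝ) ^ (s.card - 1)) • w -
        ((-1 : ℝ) ^ ((s.card + 1) * u.card)) • φ s) = 0 := by
      rw [smul_sub, smul_smul, smul_smul, sub_eq_zero]
      rw [← mul_comm ((-1 : ℝ) ^ (s.card - 1)), h1]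
      congr 1
      ring
    have h8 := (smul_eq_zero.1 h7).resolve_left hk
    rw [sub_eq_zero] at h8
    have h9 : φ s = ((-1 : ℝ) ^ ((s.card + 1) * u.card)) •
        (((-1 : ℝ) ^ ((s.card + 1) * u.card)) • φ s) := by
      rw [smul_smul, hq, one_smul]
    rw [h9, ← h8, smul_smul, hσ, huc]

end MP8a95ee.Rk.D7P
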