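import Pool.Agent.Work.MP_8a95ee_gt.Rk.Stmts2

/-!
# Item D8 of the block Rk: Euler characteristic of an exact complex
-/

set_option autoImplicit false

namespace MP8a95ee.Rk.D8P

open Ref RA

variable (Y : Finset (Finset ℕ)) {N : Type} [AddCommGroup N] [Module ℝ N]
  (F : Finset ℕ → Submodule ℝ N) (ρ : ℕ → Finset ℕ → N →ₗ[ℝ] N)

/-- cochains concentrated in one parity -/
def CCp (p : ℕ) : Submodule ℝ (Finset ℕ → N) where
  carrier := {φ | IsCF Y F φ ∧ ∀ s, s.card % 2 ≠ p → φ s = 0}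
  add_mem' := by
    rintro φ ψ ⟨h1, h2⟩ ⟨h3, h4⟩
    refine ⟨fun s => ⟨fun h => ?_, (F s).add_mem (h1 s).2 (h3 s).2⟩, fun s hs => ?_⟩
    · by_cases h5 : φ s = 0
      · refine (h3 s).1 fun h6 => h ?_
        rw [Pi.add_apply, h5, h6, add_zero]
      · exact (h1 s).1 h5
    · rw [Pi.add_apply, h2 s hs, h4 s hs, add_zero]
  zero_mem' := ⟨fun s => ⟨fun h => absurd rfl h, (F s).zero_mem⟩, fun s _ => rfl⟩
  smul_mem' := by
    rintro c φ ⟨h1, h2⟩
    refine ⟨fun s => ⟨fun h => (h1 s).1 fun h5 => h ?_, (F s).smul_mem c (h1 s).2⟩,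
      fun s hs => ?_⟩
    · rw [Pi.smul_apply, h5, smul_zero]
    · rw [Pi.smul_apply, h2 s hs, smul_zero]

/-- the coboundary as a linear map -/
def dL : (Finset ℕ → N) →ₗ[ℝ] (Finset ℕ → N) where
  toFun := dF Y ρ
  map_add' := by
    intro φ ψ
    funext s
    rw [Pi.add_apply]
    unfold dF
    split
    · rw [← Finset.sum_add_distrib]
      refine Finset.sum_congr rfl fun a _ => ?_
      rw [Pi.add_apply, map_add, smul_add]
    · rw [add_zero]
  map_smul' := by
    intro c φ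
    funext s
    rw [Pi.smul_apply, RingHom.id_apply]
    unfold dF
    split
    · rw [Finset.smul_sum]
      refine Finset.sum_congr rfl fun a _ => ?_
      rw [Pi.smul_apply, map_smul, smul_comm]
    · rw [smul_zero]

theorem dF_par {p q : ℕ} (hpq : ∀ n : ℕ, 0 < n → n % 2 ≠ q → (n - 1) % 2 ≠ p)
    {φ : Finset ℕ → N} (h : ∀ s, s.card % 2 ≠ p → φ s = 0) :
    ∀ s, s.card % 2 ≠ q → dF Y ρ φ s = 0 := by
  intro s hs
  unfold dF
  split
  · refine Finset.sum_eq_zero fun a ha => ?_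
    rw [h (s.erase a) ?_, map_zero, smul_zero]
    rw [Finset.card_erase_of_mem ha]
    exact hpq _ (Finset.card_pos.mpr ⟨a, ha⟩) hs
  · rfl

theorem exact_par {p q : ℕ} (hpq : ∀ n : ℕ, 0 < n → n % 2 = q → (n - 1) % 2 = p)
    (hpq' : ∀ n : ℕ, 0 < n → n % 2 ≠ q → (n - 1) % 2 ≠ p)
    (hex : ∀ φ : Finset ℕ → N, IsCF Y F φ → dF Y ρ φ = 0 → ∃ ψ, IsCF Y F ψ ∧ dF Y ρ ψ = φ)
    (φ : Finset ℕ → N) (hφ : φ ∈ CCp Y F q) (h0 : dF Y ρ φ = 0) :
    ∃ ψ ∈ CCp Y F p, dF Y ρ ψ = φ := by
  classical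
  obtain ⟨ψ0, h1, h2⟩ := hex φ hφ.1 h0
  have hpar : ∀ s : Finset ℕ, s.card % 2 ≠ p →
      (fun s : Finset ℕ => if s.card % 2 = p then ψ0 s else 0) s = 0 := by
    intro s hs
    exact if_neg hs
  refine ⟨fun s => if s.card % 2 = p then ψ0 s else 0, ⟨fun s => ⟨fun h => ?_, ?_⟩, hpar⟩, ?_⟩
  · refine (h1 s).1 fun h3 => h ?_
    show (if s.card % 2 = p then ψ0 s else 0) = 0
    rw [h3]; split <;> rfl
  · show (if s.card % 2 = p then ψ0 s else 0) ∈ F s
    split
    · exact (h1 s).2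
    · exact (F s).zero_mem
  · funext s
    by_cases hs : s.card % 2 = q
    · rw [← h2]
      unfold dF
      split
      · refine Finset.sum_congr rfl fun a ha => ?_
        show sg a (s.erase a) • ρ a (s.erase a)
          (if (s.erase a).card % 2 = p then ψ0 (s.erase a) else 0) = _
        rw [if_pos]
        rw [Finset.card_erase_of_mem ha]
        exact hpq _ (Finset.card_pos.mpr ⟨a, ha⟩) hs
      · rfl
    · rw [dF_par Y ρ hpq' hpar s hs, hφ.2 s hs]

/-- cochains concentrated in one parity are families -/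
noncomputable def eqv (p : ℕ) : CCp Y F p ≃ₗ[ℝ]
    ((s : {s // s ∈ Y.filter fun s => s.card % 2 = p}) → F s.1) where
  toFun φ := fun s => ⟨φ.1 s.1, (φ.2.1 s.1).2⟩
  map_add' _ _ := rfl
  map_smul' _ _ := rfl
  invFun x := ⟨fun s => if h : s ∈ Y.filter fun s => s.card % 2 = p then (x ⟨s, h⟩).1 else 0, by
    refine ⟨fun s => ⟨fun h => ?_, ?_⟩, fun s hs => ?_⟩
    · by_contra h1
      refine h (dif_neg fun h2 => h1 ?_)
      exact (Finset.mem_filter.mp h2).1
    · show (if h : s ∈ Y.filter fun s => s.card % 2 = p then (x ⟨s, h⟩).1 else 0) ∈ F s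
      split
      · rename_i h4
        exact (x ⟨s, h4⟩).2
      · exact (F s).zero_mem
    · show (if h : s ∈ Y.filter fun s => s.card % 2 = p then (x ⟨s, h⟩).1 else 0) = 0
      have h5 : s ∉ Y.filter fun s => s.card % 2 = p := fun h2 =>
        hs (Finset.mem_filter.mp h2).2
      rw [dif_neg h5]⟩
  left_inv φ := by
    apply Subtype.ext
    funext s
    show (if h : s ∈ Y.filter fun s => s.card % 2 = p then φ.1 s else 0) = φ.1 s
    split
    · rfl
    · rename_i h
      rw [Finset.mem_filter, not_and_or] at h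
      rcases h with h | h
      · by_contra h1
        exact h ((φ.2.1 s).1 (Ne.symm h1))
      · exact (φ.2.2 s h).symm
  right_inv x := by
    funext s
    apply Subtype.ext
    show (if h : s.1 ∈ Y.filter fun s => s.card % 2 = p then (x ⟨s.1, h⟩).1 else 0) = _
    rw [dif_pos s.2]

theorem finrank_CCp [FiniteDimensional ℝ N] (p : ℕ) :
    FiniteDimensional ℝ (CCp Y F p) ∧
    Module.finrank ℝ (CCp Y F p) =
      ∑ s ∈ Y.filter (fun s => s.card % 2 = p), Module.finrank ℝ (F s) := by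
  refine ⟨Module.Finite.equiv (eqv Y F p).symm, ?_⟩
  rw [(eqv Y F p).finrank_eq, Module.finrank_pi_fintype]
  exact Finset.sum_coe_sort (Y.filter fun s => s.card % 2 = p) fun s => Module.finrank ℝ (F s)

/-- the square of the coboundary vanishes -/
theorem sq (hY : IsCx Y) (hc : IsCS Y F ρ) (φ : Finset ℕ → N) (hφ : IsCF Y F φ) :
    IsCF Y F (dF Y ρ φ) ∧ dF Y ρ (dF Y ρ φ) = 0 := by
  refine ⟨?_, ?_⟩
  · intro s
    by_cases hs : s ∈ Y
    · refine ⟨fun _ => hs, ?_⟩
      unfold dF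
      rw [if_pos hs]
      refine Submodule.sum_mem _ fun a ha => Submodule.smul_mem _ _ ?_
      have h1 := hc.map a (s.erase a) (Finset.notMem_erase a s)
        (by rw [Finset.insert_erase ha]; exact hs) _ (hφ (s.erase a)).2
      rwa [Finset.insert_erase ha] at h1
    · have h0 : dF Y ρ φ s = 0 := by
        unfold dF
        rw [if_neg hs]
      refine ⟨fun h => absurd h0 h, ?_⟩
      rw [h0]
      exact Submodule.zero_mem _
  · funext s
    change dF Y ρ (dF Y ρ φ) s = 0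
    by_cases hs : s ∈ Y
    swap
    · unfold dF
      rw [if_neg hs]
    have h1 : dF Y ρ (dF Y ρ φ) s = ∑ a ∈ s, ∑ b ∈ s.erase a,
        (sg a (s.erase a) * sg b ((s.erase a).erase b)) •
          ρ a (s.erase a) (ρ b ((s.erase a).erase b) (φ ((s.erase a).erase b))) := by
      have h2 : dF Y ρ (dF Y ρ φ) s = ∑ a ∈ s, sg a (s.erase a) •
          ρ a (s.erase a) (dF Y ρ φ (s.erase a)) := by
        conv_lhs => unfold dF
        rw [if_pos hs]
        rfl
      rw [h2]
      refine Finset.sum_congr rfl fun a _ => ?_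
      have h3 : dF Y ρ φ (s.erase a) = ∑ b ∈ s.erase a, sg b ((s.erase a).erase b) •
          ρ b ((s.erase a).erase b) (φ ((s.erase a).erase b)) := by
        unfold dF
        rw [if_pos (hY.2 s hs _ (Finset.erase_subset _ _))]
      rw [h3, map_sum, Finset.smul_sum]
      refine Finset.sum_congr rfl fun b _ => ?_
      rw [map_smul, smul_smul]
    rw [h1]
    refine h61_anti s _ fun a ha b hb hab => ?_
    have e1 : s.erase a = insert b ((s.erase a).erase b) :=
      (Finset.insert_erase (Finset.mem_erase.2 ⟨hab.symm, hb⟩)).symm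
    have e2 : s.erase b = insert a ((s.erase a).erase b) := by
      rw [Finset.erase_right_comm]
      exact (Finset.insert_erase (Finset.mem_erase.2 ⟨hab, ha⟩)).symm
    have hat : a ∉ (s.erase a).erase b := fun h =>
      (Finset.mem_erase.1 (Finset.mem_of_mem_erase h)).1 rfl
    have hbt : b ∉ (s.erase a).erase b := Finset.notMem_erase b _
    have h4 : sg a (s.erase a) * sg b ((s.erase a).erase b) =
        -(sg b (s.erase b) * sg a ((s.erase b).erase a)) := by
      rw [Finset.erase_right_comm (a := b) (b := a), e2]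
      conv_lhs => rw [e1]
      rw [Finset.erase_insert (Finset.notMem_erase b _)]
      exact sg_anti hat hbt hab
    have h5 : ρ a (s.erase a) (ρ b ((s.erase a).erase b) (φ ((s.erase a).erase b))) =
        ρ b (s.erase b) (ρ a ((s.erase b).erase a) (φ ((s.erase b).erase a))) := by
      rw [Finset.erase_right_comm (a := b) (b := a), e2]
      conv_lhs => rw [e1, Finset.erase_insert hbt]
      refine (hc.comm a b _ hab hat hbt ?_ _ (hφ _).2).symm
      rw [← e1, Finset.insert_erase ha]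
      exact hs
    rw [h4, neg_smul, h5]

theorem prf : S_D8 := by
  intro Y hY N _ _ _ F ρ hc hex
  have h01 : ∀ φ ∈ CCp Y F 0, dL Y ρ φ ∈ CCp Y F 1 := fun φ hφ =>
    ⟨(sq Y F ρ hY hc φ hφ.1).1, dF_par Y ρ (by omega) hφ.2⟩
  have h10 : ∀ φ ∈ CCp Y F 1, dL Y ρ φ ∈ CCp Y F 0 := fun φ hφ =>
    ⟨(sq Y F ρ hY hc φ hφ.1).1, dF_par Y ρ (by omega) hφ.2⟩
  obtain ⟨hf0, hr0⟩ := finrank_CCp Y F 0
  obtain ⟨hf1, hr1⟩ := finrank_CCp Y F 1
  have e1 : LinearMap.range ((dL Y ρ).restrict h01) = LinearMap.ker ((dL Y ρ).restrict h10) := by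
    ext φ
    rw [LinearMap.mem_range, LinearMap.mem_ker]
    constructor
    · rintro ⟨ψ, rfl⟩
      apply Subtype.ext
      exact (sq Y F ρ hY hc ψ.1 ψ.2.1).2
    · intro h
      obtain ⟨ψ, h3, h4⟩ := exact_par Y F ρ (p := 0) (q := 1) (by omega) (by omega) hex φ.1 φ.2
        (congrArg Subtype.val h)
      exact ⟨⟨ψ, h3⟩, Subtype.ext h4⟩
  have e2 : LinearMap.range ((dL Y ρ).restrict h10) = LinearMap.ker ((dL Y ρ).restrict h01) := by
    ext φ
    rw [LinearMap.mem_range, LinearMap.mem_ker]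
    constructor
    · rintro ⟨ψ, rfl⟩
      apply Subtype.ext
      exact (sq Y F ρ hY hc ψ.1 ψ.2.1).2
    · intro h
      obtain ⟨ψ, h3, h4⟩ := exact_par Y F ρ (p := 1) (q := 0) (by omega) (by omega) hex φ.1 φ.2
        (congrArg Subtype.val h)
      exact ⟨⟨ψ, h3⟩, Subtype.ext h4⟩
  have r1 := LinearMap.finrank_range_add_finrank_ker ((dL Y ρ).restrict h01)
  have r2 := LinearMap.finrank_range_add_finrank_ker ((dL Y ρ).restrict h10)
  rw [e1] at r1
  rw [e2] at r2
  have key : ∑ s ∈ Y.filter (fun s => s.card % 2 = 0), Module.finrank ℝ (F s) =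
      ∑ s ∈ Y.filter (fun s => s.card % 2 = 1), Module.finrank ℝ (F s) := by
    rw [← hr0, ← hr1]
    omega
  rw [← Finset.sum_filter_add_sum_filter_not Y (fun s => s.card % 2 = 0)]
  have a1 : ∑ s ∈ Y.filter (fun s => s.card % 2 = 0),
      (-1 : ℤ) ^ s.card * (Module.finrank ℝ (F s) : ℤ) =
      ((∑ s ∈ Y.filter (fun s => s.card % 2 = 0), Module.finrank ℝ (F s) : ℕ) : ℤ) := by
    rw [Nat.cast_sum]
    refine Finset.sum_congr rfl fun s hs => ?_
    rw [Even.neg_one_pow (Nat.even_iff.mpr (Finset.mem_filter.mp hs).2), one_mul]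
  have a2 : ∑ s ∈ Y.filter (fun s => ¬ s.card % 2 = 0),
      (-1 : ℤ) ^ s.card * (Module.finrank ℝ (F s) : ℤ) =
      -((∑ s ∈ Y.filter (fun s => s.card % 2 = 1), Module.finrank ℝ (F s) : ℕ) : ℤ) := by
    have : Y.filter (fun s => ¬ s.card % 2 = 0) = Y.filter (fun s => s.card % 2 = 1) := by
      refine Finset.filter_congr fun s _ => ?_
      omega
    rw [this, Nat.cast_sum, ← Finset.sum_neg_distrib]
    refine Finset.sum_congr rfl fun s hs => ?_
    rw [Odd.neg_one_pow (Nat.odd_iff.mpr (Finset.mem_filter.mp hs).2), neg_one_mul]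
  rw [a1, a2, key]
  ring

end MP8a95ee.Rk.D8P
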