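import Pool.Agent.Work.MP_8a95ee_gt.Rk.Stmts2
import Pool.Agent.Work.MP_8a95ee_gt.Ref.I_B6

/-!
# Item D9 of the block Rk (helper25): the Euler characteristic of the coefficient system
-/

set_option autoImplicit false

namespace MP8a95ee.Rk.D9P

open Ref RA Finset

theorem z_notMem {K : Finset (Finset ℕ)} {z : ℕ} (hz : z ∉ verts K) {s : Finset ℕ}
    (hs : s ∈ K) : z ∉ s := by
  intro h
  apply hz
  unfold verts
  exact Finset.mem_biUnion.mpr ⟨s, hs, h⟩

theorem prf : S_D9 := by
  classical
  intro K hK V hV z hz N _ _ _ e he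
  have hzs : ∀ s ∈ K, z ∉ s := fun s hs => z_notMem hz hs
  have hsub : ∀ s ∈ sub K V, s ∈ K := fun s hs => (Finset.mem_filter.mp hs).1
  have hsV : ∀ s ∈ sub K V, s ⊆ V := fun s hs => (Finset.mem_filter.mp hs).2
  have hemp : ∅ ∈ sub K V := Finset.mem_filter.mpr ⟨hK.1, Finset.empty_subset _⟩
  -- the dimension of N
  have hN : Module.finrank ℝ N = 2 ^ V.card := by
    have h1 := he ∅ hemp
    have h2 : Es e ∅ = ⊤ := by
      ext x
      simp [Es]
    rw [h2, finrank_top] at h1
    simpa using h1
  -- disjointness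
  have hdisj : Disjoint K ((sub K V).image (insert z)) := by
    rw [Finset.disjoint_left]
    intro s hs hs'
    obtain ⟨t, ht, rfl⟩ := Finset.mem_image.mp hs'
    exact hzs _ hs (Finset.mem_insert_self _ _)
  have hinj : Set.InjOn (insert z) (↑(sub K V) : Set (Finset ℕ)) := by
    intro s hs t ht hst
    have h1 := hzs s (hsub s hs)
    have h2 := hzs t (hsub t ht)
    have : (insert z s).erase z = (insert z t).erase z := by rw [hst]
    rwa [Finset.erase_insert h1, Finset.erase_insert h2] at this
  have hsum : ∑ s ∈ Kp K V z, (-1 : ℤ) ^ s.card * (Module.finrank ℝ (FF z e s) : ℤ) =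
      ∑ s ∈ K, (-1 : ℤ) ^ s.card * (Module.finrank ℝ (FF z e s) : ℤ) +
      ∑ s ∈ sub K V, (-1 : ℤ) ^ (insert z s).card *
        (Module.finrank ℝ (FF z e (insert z s)) : ℤ) := by
    unfold Kp
    rw [Finset.sum_union hdisj, Finset.sum_image hinj]
  have hA : ∀ s ∈ K, (-1 : ℤ) ^ s.card * (Module.finrank ℝ (FF z e s) : ℤ) =
      (if s.Nonempty then (-1 : ℤ) ^ s.card * 2 ^ V.card else 0) := by
    intro s hs
    by_cases h0 : s = ∅
    · subst h0
      have hb : FF z e ∅ = ⊥ := by
        unfold FF
        rw [if_pos (Or.inl rfl)]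
      rw [hb, finrank_bot, if_neg Finset.not_nonempty_empty]
      simp
    · have hne : s.Nonempty := Finset.nonempty_iff_ne_empty.mpr h0
      have hsz : s ≠ {z} := by
        rintro rfl
        exact hzs _ hs (Finset.mem_singleton_self z)
      have : FF z e s = ⊤ := by
        unfold FF
        rw [if_neg (by simp [h0, hsz]), if_neg (hzs s hs)]
      rw [this, finrank_top, hN, if_pos hne]
      push_cast
      ring
  have hB : ∀ s ∈ sub K V, (-1 : ℤ) ^ (insert z s).card *
        (Module.finrank ℝ (FF z e (insert z s)) : ℤ) =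
      (if s.Nonempty then (-1 : ℤ) ^ (s.card + 1) * 2 ^ (V.card - s.card) else 0) := by
    intro s hs
    have hzn := hzs s (hsub s hs)
    by_cases h0 : s = ∅
    · subst h0
      have hb : FF z e (insert z ∅) = ⊥ := by
        unfold FF
        rw [if_pos (Or.inr (by simp))]
      rw [hb, finrank_bot, if_neg Finset.not_nonempty_empty]
      simp
    · have hne : s.Nonempty := Finset.nonempty_iff_ne_empty.mpr h0
      have h1 : insert z s ≠ ∅ := (Finset.insert_nonempty _ _).ne_empty
      have h2 : insert z s ≠ {z} := by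
        intro h
        apply h0
        have : (insert z s).erase z = ({z} : Finset ℕ).erase z := by rw [h]
        rw [Finset.erase_insert hzn] at this
        rw [this]
        simp
      have : FF z e (insert z s) = Es e s := by
        unfold FF
        rw [if_neg (by simp [h1, h2]), if_pos (Finset.mem_insert_self _ _),
          Finset.erase_insert hzn]
      rw [this, he s hs, if_pos hne, Finset.card_insert_of_notMem hzn]
      push_cast
      ring
  have hmain := B6P.prf K V hK hV
  have hfin : ((∑ s ∈ Kp K V z, (-1 : ℤ) ^ s.card * (Module.finrank ℝ (FF z e s) : ℤ) : ℤ) : ℚ) =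
      ((- chiM K V : ℤ) : ℚ) := by
    rw [hsum, Finset.sum_congr rfl hA, Finset.sum_congr rfl hB]
    push_cast
    rw [hmain]
    unfold chiK
    push_cast
    rw [Finset.sum_filter]
    have e1 : ∑ s ∈ K, (if s.Nonempty then (-1 : ℚ) ^ s.card * 2 ^ V.card else 0) =
        - 2 ^ V.card * ∑ s ∈ K, (if s.Nonempty then (-1 : ℚ) ^ (s.card + 1) else 0) := by
      rw [Finset.mul_sum]
      apply Finset.sum_congr rfl
      intro s hs
      split_ifs
      · ring
      · ring
    have e2 : ∑ s ∈ sub K V, (if s.Nonempty then (-1 : ℚ) ^ (s.card + 1) * 2 ^ (V.card - s.card)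
        else 0) = - 2 ^ V.card * (∑ s ∈ sub K V, (-1 / 2 : ℚ) ^ s.card - 1) := by
      have h3 : ∑ s ∈ sub K V, (-1 / 2 : ℚ) ^ s.card =
          1 + ∑ s ∈ sub K V, (if s.Nonempty then (-1 / 2 : ℚ) ^ s.card else 0) := by
        rw [← Finset.sum_erase_add _ _ hemp, ← Finset.sum_erase_add (sub K V)
          (fun s => if s.Nonempty then (-1 / 2 : ℚ) ^ s.card else 0) hemp]
        simp only [Finset.card_empty, pow_zero, Finset.not_nonempty_empty, if_false, add_zero]
        rw [add_comm]
        congr 1
        apply Finset.sum_congr rfl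
        intro s hs
        rw [if_pos (Finset.nonempty_iff_ne_empty.mpr (Finset.mem_erase.mp hs).1)]
      rw [h3, add_sub_cancel_left, Finset.mul_sum]
      apply Finset.sum_congr rfl
      intro s hs
      split_ifs
      · have hc : s.card ≤ V.card := Finset.card_le_card (hsV s hs)
        have h4 : (2 : ℚ) ^ V.card = 2 ^ (V.card - s.card) * 2 ^ s.card := by
          rw [← pow_add, Nat.sub_add_cancel hc]
        rw [h4, show (-1 / 2 : ℚ) = (-1) * (1 / 2) by norm_num, mul_pow, one_div, inv_pow]
        have h5 : (2 : ℚ) ^ s.card ≠ 0 := by positivity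
        field_simp
        ring
      · ring
    rw [e1, e2]
    ring
  exact_mod_cast hfin

end MP8a95ee.Rk.D9P
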