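import Pool.Agent.Work.MP_8a95ee_gt.Rk.Stmts

/-!
# Item [8a95ee RK E1]: descending induction
-/

set_option autoImplicit false

namespace MP8a95ee.Rk.E1P

open MP8a95ee.Rk

section

variable {A M G : Type} [Group G] [AddCommGroup M] [Module ℝ M]

/-- the orbit relation -/
def orb (act : G → A → A) (h1 : ∀ a, act 1 a = a)
    (h2 : ∀ g h a, act (g * h) a = act g (act h a)) : Setoid A where
  r a b := ∃ g, act g a = b
  iseqv := by
    refine ⟨fun a => ⟨1, h1 a⟩, ?_, ?_⟩
    · rintro a b ⟨g, rfl⟩
      exact ⟨g⁻¹, by rw [← h2, inv_mul_cancel, h1]⟩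
    · rintro a b c ⟨g, rfl⟩ ⟨h, rfl⟩
      exact ⟨h * g, h2 h g a⟩

/-- representatives of the orbits -/
theorem reps (act : G → A → A) (h1 : ∀ a, act 1 a = a)
    (h2 : ∀ g h a, act (g * h) a = act g (act h a)) :
    ∃ (rep : A → A) (γ : A → G), (∀ a, act (γ a) (rep a) = a) ∧
      ∀ g a, rep (act g a) = rep a := by
  let s := orb act h1 h2
  have h3 : ∀ a, ∃ g, act g (Quotient.out (Quotient.mk s a)) = a := fun a =>
    Quotient.exact (Quotient.out_eq (Quotient.mk s a))
  choose γ hγ using h3
  refine ⟨fun a => Quotient.out (Quotient.mk s a), γ, hγ, ?_⟩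
  intro g a
  have h5 : s.r a (act g a) := ⟨g, rfl⟩
  have h4 : Quotient.mk s (act g a) = Quotient.mk s a := (Quotient.sound h5).symm
  show Quotient.out (Quotient.mk s (act g a)) = Quotient.out (Quotient.mk s a)
  rw [h4]

end

theorem prf : S_E1 := by
  intro A M G _ _ _ act h1 h2 τ t1 t2 Om hOm hfree deg hdeg R hR cov hcov hcovg inc hinc hinc0 D hD
    S S' hS hSS hacyc ε y hy hyS hyD
  obtain ⟨rep, γ, hγ, hrep⟩ := reps act h1 h2
  have key : ∀ j : ℕ, ∃ x : A → M, (∀ g a, Om a → x (act g a) = τ g (x a)) ∧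
      (∀ a, Om a → x a ∈ S a) ∧
      ∀ a, Om a → R < deg a + j → D (x a) = y a - ε • ∑ b ∈ cov a, inc a b • x b := by
    intro j
    induction j with
    | zero =>
      refine ⟨fun _ => 0, fun g a _ => (map_zero _).symm, fun a _ => (S a).zero_mem, ?_⟩
      intro a ha h
      exact absurd (hR a ha) (by omega)
    | succ j ih =>
      obtain ⟨x, hx1, hx2, hx3⟩ := ih
      obtain ⟨w, hw⟩ : ∃ w : A → M, ∀ a, w a = y a - ε • ∑ b ∈ cov a, inc a b • x b :=
        ⟨_, fun a => rfl⟩
      have hwg : ∀ g a, Om a → w (act g a) = τ g (w a) := by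
        intro g a ha
        rw [hw, hw, hy g a ha, map_sub, map_smul, map_sum]
        congr 2
        refine Finset.sum_nbij' (fun b => act g⁻¹ b) (fun b => act g b) ?_ ?_ ?_ ?_ ?_
        · intro b hb
          have h3 : b = act g (act g⁻¹ b) := by rw [← h2, mul_inv_cancel, h1]
          rw [h3] at hb
          exact (hcovg g a _ ha).1 hb
        · intro b hb
          exact (hcovg g a b ha).2 hb
        · intro b _
          show act g (act g⁻¹ b) = b
          rw [← h2, mul_inv_cancel, h1]
        · intro b _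
          show act g⁻¹ (act g b) = b
          rw [← h2, inv_mul_cancel, h1]
        · intro b hb
          have h3 : b = act g (act g⁻¹ b) := by rw [← h2, mul_inv_cancel, h1]
          have hb' : act g⁻¹ b ∈ cov a := by
            rw [h3] at hb
            exact (hcovg g a _ ha).1 hb
          rw [map_smul, ← hx1 g _ (hcov a ha _ hb').1, ← h3, ← hinc g a _ ha, ← h3]
      have hwS : ∀ a, Om a → w a ∈ S' a := by
        intro a ha
        rw [hw]
        refine (S' a).sub_mem (hyS a ha) ((S' a).smul_mem _ ((S' a).sum_mem fun b hb => ?_))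
        exact (S' a).smul_mem _ (hSS a ha b hb (hx2 b (hcov a ha b hb).1))
      have hwD : ∀ a, Om a → deg a + j = R → D (w a) = 0 := by
        intro a ha hj
        rw [hw, map_sub, map_smul, map_sum, hyD a ha]
        have h3 : ∑ b ∈ cov a, D (inc a b • x b) = ∑ b ∈ cov a, inc a b • y b -
            ε • ∑ b ∈ cov a, inc a b • ∑ c ∈ cov b, inc b c • x c := by
          rw [Finset.smul_sum, ← Finset.sum_sub_distrib]
          refine Finset.sum_congr rfl fun b hb => ?_
          obtain ⟨hb1, hb2⟩ := hcov a ha b hb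
          rw [map_smul, hx3 b hb1 (by omega), smul_sub, smul_comm]
        rw [h3, hinc0 a ha, smul_zero, sub_zero, sub_self]
      have hu : ∀ a, ∃ u : M, Om a → deg a + j = R → u ∈ S a ∧ D u = w a := by
        intro a
        by_cases h3 : Om a ∧ deg a + j = R
        · obtain ⟨u, hu1, hu2⟩ := hacyc a h3.1 (w a) (hwS a h3.1) (hwD a h3.1 h3.2)
          exact ⟨u, fun _ _ => ⟨hu1, hu2⟩⟩
        · exact ⟨0, fun h4 h5 => absurd ⟨h4, h5⟩ h3⟩
      choose u hu using hu
      have hrO : ∀ a, Om a → Om (rep a) := by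
        intro a ha
        have h3 : act (γ a)⁻¹ a = rep a := by
          have h4 := congrArg (act (γ a)⁻¹) (hγ a)
          rw [← h2, inv_mul_cancel, h1] at h4
          exact h4.symm
        rw [← h3]
        exact hOm _ _ ha
      have hrd : ∀ a, Om a → deg (rep a) = deg a := by
        intro a ha
        have h4 := hdeg (γ a) (rep a) (hrO a ha)
        rw [hγ a] at h4
        exact h4.symm
      have hγg : ∀ g a, Om a → γ (act g a) = g * γ a := by
        intro g a ha
        have h4 : act (γ (act g a)) (rep a) = act (g * γ a) (rep a) := by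
          rw [h2, hγ a, ← hrep g a, hγ (act g a)]
        have h5 : act ((g * γ a)⁻¹ * γ (act g a)) (rep a) = rep a := by
          rw [h2, h4, ← h2, inv_mul_cancel, h1]
        exact (inv_mul_eq_one.1 (hfree _ _ (hrO a ha) h5)).symm
      classical
      obtain ⟨x', hx'⟩ : ∃ x' : A → M, ∀ a, x' a =
          if Om a ∧ deg a + j = R then τ (γ a) (u (rep a)) else x a := ⟨_, fun _ => rfl⟩
      refine ⟨x', ?_, ?_, ?_⟩
      · intro g a ha
        rw [hx', hx']
        by_cases h4 : deg a + j = R
        · rw [if_pos ⟨hOm g a ha, by rw [hdeg g a ha]; exact h4⟩, if_pos ⟨ha, h4⟩, hrep,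
            hγg g a ha, t2]
        · rw [if_neg (fun h => h4 (by rw [← hdeg g a ha]; exact h.2)),
            if_neg (fun h => h4 h.2), hx1 g a ha]
      · intro a ha
        rw [hx']
        by_cases h4 : deg a + j = R
        · rw [if_pos ⟨ha, h4⟩]
          have h5 := hS (γ a) (rep a) (u (rep a)) (hrO a ha)
            (hu _ (hrO a ha) (by rw [hrd a ha]; exact h4)).1
          rw [hγ a] at h5
          exact h5
        · rw [if_neg (fun h => h4 h.2)]
          exact hx2 a ha
      · intro a ha hj
        have h6 : ∑ b ∈ cov a, inc a b • x' b = ∑ b ∈ cov a, inc a b • x b := by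
          refine Finset.sum_congr rfl fun b hb => ?_
          rw [hx', if_neg (fun h => by have := (hcov a ha b hb).2; omega)]
        rw [h6, ← hw a, hx']
        by_cases h4 : deg a + j = R
        · rw [if_pos ⟨ha, h4⟩, hD, (hu _ (hrO a ha) (by rw [hrd a ha]; exact h4)).2,
            ← hwg _ _ (hrO a ha), hγ a]
        · rw [if_neg (fun h => h4 h.2), hw a]
          exact hx3 a ha (by omega)
  obtain ⟨x, hx1, hx2, hx3⟩ := key (R + 1)
  exact ⟨x, hx1, hx2, fun a ha => hx3 a ha (by omega)⟩

end MP8a95ee.Rk.E1P
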