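import Pool.Agent.Work.MP_8a95ee_gt.Rk.I_T4

set_option autoImplicit false

namespace MP8a95ee.Rk.E2B

open Ref RA MP8a95ee.Rk

theorem prf (h4 : S_T4) (h8 : S_T8) : S_E2 := by
  classical
  intro X M P _ sm sm1 smm x hx hfin p hp
  obtain ⟨R, hR⟩ := h8 X
  -- set of values
  let U : Set P := ⋃ r ∈ (R.filter fun r => X.Om r), {q | x r q ≠ 0}
  have hU : U.Finite := by
    refine Set.Finite.biUnion (Finset.finite_toSet _) ?_
    intro r hr
    exact hfin r (Finset.mem_filter.1 hr).2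
  -- group elements
  let G : Set X.Γ := {γ | sm γ p ∈ U}
  have hG : G.Finite := by
    refine Set.Finite.of_finite_image (f := fun γ => sm γ p) (hU.subset ?_) ?_
    · rintro _ ⟨γ, hγ, rfl⟩
      exact hγ
    · intro γ _ δ _ he
      have he' : sm γ p = sm δ p := he
      have h1 : sm (δ⁻¹ * γ) p = p := by
        rw [smm, he', ← smm, inv_mul_cancel, sm1]
      have h2 := hp _ h1
      exact (inv_mul_eq_one.1 h2).symm
  have hI : ((fun q : X.Γ × Finset (X.W × X.W) => X.tA q.1⁻¹ q.2) '' (G ×ˢ (R : Set _))).Finite :=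
    (hG.prod R.finite_toSet).image _
  refine hI.subset ?_
  rintro α ⟨hα, hxα⟩
  obtain ⟨γ, hγ⟩ := hR α hα
  refine ⟨(γ, X.tA γ α), ⟨?_, hγ⟩, T4P.tA_inv X γ α⟩
  show sm γ p ∈ U
  refine Set.mem_iUnion₂.2 ⟨X.tA γ α, Finset.mem_filter.2 ⟨hγ, (h4 X γ α hα).1⟩, ?_⟩
  exact (hx γ α p hα).2 hxα

end MP8a95ee.Rk.E2B
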