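import Pool.Agent.Work.MP_8a95ee_gt.Rk.Stmts2

/-!
# Block Rk, item F1 (helper46): the chains `T α`
-/

set_option autoImplicit false

namespace MP8a95ee.Rk.F1P

open Ref RA MP8a95ee.Rk

theorem tS_inv (X : Cov) (γ : X.Γ) (t : Finset X.W) : X.tS γ (X.tS γ⁻¹ t) = t := by
  unfold Cov.tS
  rw [Finset.image_image]
  have : ((fun w : X.W => γ • w) ∘ fun w => γ⁻¹ • w) = id := by
    funext w
    simp
  rw [this, Finset.image_id]

theorem tS_inj (X : Cov) (γ : X.Γ) : Function.Injective (X.tS γ) := by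
  unfold Cov.tS
  exact Finset.image_injective (MulAction.injective γ)

theorem prf (h1 : S_T1) (h2 : S_T2) (h4 : S_T4) (h5 : S_T5) (hA : S_A1) : S_F1 := by
  intro X m o c b hd α hα
  have T2α := h2 X m b hd.supp α hα
  constructor
  · ext t
    set S : Finset X.W := (X.T b α).support.biUnion id with hS
    have hmem : ∀ a, a ∉ t → X.T b α (insert a t) ≠ 0 → a ∈ S := by
      intro a _ ha
      rw [hS, Finset.mem_biUnion]
      exact ⟨insert a t, Finsupp.mem_support_iff.2 ha, Finset.mem_insert_self a t⟩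
    rw [hA.1 X.W X.π ℝ (X.T b α) t S hmem]
    have e1 : ∑ a ∈ S \ t, sg (X.π a) (t.image X.π) • X.T b α (insert a t) =
        ∑ x ∈ S \ t, sg (X.π x) (t.image X.π) * X.Tc b α (insert x t) := by
      refine Finset.sum_congr rfl ?_
      intro a _
      rw [T2α.2.1, smul_eq_mul]
    rw [e1, h1 X m hd.hm hd.odd o hd.ori b hd.supp hd.bdb α hα t S (fun x hx hx' =>
      hmem x hx (by rw [T2α.2.1]; exact hx'))]
    rw [Finsupp.neg_apply, Finsupp.finsetSum_apply]
    congr 1
    refine Finset.sum_congr rfl ?_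
    intro β hβ
    have hOm : X.Om β := (((h5 X α hα).2.1 β).1 hβ).1
    rw [Finsupp.smul_apply, smul_eq_mul, (h2 X m b hd.supp β hOm).2.1]
  · intro γ
    have hT4 := h4 X γ α hα
    ext t
    obtain ⟨s, rfl⟩ : ∃ s, t = X.tS γ s := ⟨X.tS γ⁻¹ t, (tS_inv X γ t).symm⟩
    rw [Finsupp.mapDomain_apply (tS_inj X γ), (h2 X m b hd.supp _ hT4.1).2.1, T2α.2.1]
    exact hT4.2.2.2.2.1 b s

end MP8a95ee.Rk.F1P
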