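import Pool.Agent.Work.MP_8a95ee_gt.Rk.Stmts2

/-!
MP_8a95ee_gt, block Rk, item F2: existence of the family `Th`.
-/

set_option autoImplicit false

namespace MP8a95ee.Rk.F2P

open Ref RA

/-- chains supported on the faces `t` of `Kt` with `|t| + j = n` -/
def Sub {W : Type} (Kt : Set (Finset W)) (j n : ℕ) : Submodule ℝ (Finset W →₀ ℝ) where
  carrier := {x | ∀ t, x t ≠ 0 → t ∈ Kt ∧ t.card + j = n}
  add_mem' := by
    intro x y hx hy t ht
    by_cases h : x t = 0
    · apply hy t
      intro h2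
      apply ht
      rw [Finsupp.add_apply, h, h2, add_zero]
    · exact hx t h
  zero_mem' := by
    intro t ht
    exact absurd rfl ht
  smul_mem' := by
    intro r x hx t ht
    apply hx t
    intro h2
    apply ht
    rw [Finsupp.smul_apply, h2, smul_zero]

theorem mem_Sub {W : Type} {Kt : Set (Finset W)} {j n : ℕ} {x : Finset W →₀ ℝ} :
    x ∈ Sub Kt j n ↔ ∀ t, x t ≠ 0 → t ∈ Kt ∧ t.card + j = n := Iff.rfl

/-- acyclicity with control of the sizes -/
theorem acyc {W : Type} [DecidableEq W] (π : W → ℕ) (Kt : Set (Finset W)) (a1 : S_A1)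
    (hac : IsAcyclic π Kt) (j n : ℕ) (x : Finset W →₀ ℝ) (hx : x ∈ Sub Kt j n)
    (hd : bdl π x = 0) : ∃ y ∈ Sub Kt j (n + 1), bdl π y = x := by
  classical
  obtain ⟨c, hc, hcx⟩ := hac x (fun t ht => (hx t ht).1) hd
  let y : Finset W →₀ ℝ := c.filter fun t => t.card + j = n + 1
  have hy1 : ∀ t : Finset W, t.card + j = n + 1 → y t = c t := fun t ht =>
    Finsupp.filter_apply_pos _ _ ht
  have hy2 : ∀ t : Finset W, t.card + j ≠ n + 1 → y t = 0 := fun t ht =>
    Finsupp.filter_apply_neg _ _ ht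
  refine ⟨y, ?_, ?_⟩
  · intro t ht
    have h1 : t.card + j = n + 1 := by
      by_contra h
      exact ht (hy2 t h)
    exact ⟨hc t (by rw [← hy1 t h1]; exact ht), h1⟩
  · ext t
    let S : Finset W := c.support.biUnion id
    have hS : ∀ a, a ∉ t → c (insert a t) ≠ 0 → a ∈ S := by
      intro a _ h
      exact Finset.mem_biUnion.2 ⟨insert a t, Finsupp.mem_support_iff.2 h,
        Finset.mem_insert_self a t⟩
    have hSy : ∀ a, a ∉ t → y (insert a t) ≠ 0 → a ∈ S := by
      intro a ha h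
      have h1 : (insert a t).card + j = n + 1 := by
        by_contra h1
        exact h (hy2 _ h1)
      exact hS a ha (by rw [← hy1 _ h1]; exact h)
    rw [a1.1 W π ℝ y t S hSy]
    by_cases ht : t.card + j = n
    · rw [← hcx, a1.1 W π ℝ c t S hS]
      refine Finset.sum_congr rfl fun a ha => ?_
      rw [hy1]
      rw [Finset.card_insert_of_notMem (Finset.mem_sdiff.1 ha).2]
      omega
    · have hxt : x t = 0 := by
        by_contra h
        exact ht (hx t h).2
      rw [hxt]
      refine Finset.sum_eq_zero fun a ha => ?_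
      rw [hy2, smul_zero]
      rw [Finset.card_insert_of_notMem (Finset.mem_sdiff.1 ha).2]
      omega

theorem tA_one (X : Cov) (α : Finset (X.W × X.W)) : X.tA 1 α = α := by
  unfold Cov.tA
  simp

theorem tA_mul (X : Cov) (g h : X.Γ) (α : Finset (X.W × X.W)) :
    X.tA (g * h) α = X.tA g (X.tA h α) := by
  unfold Cov.tA
  rw [Finset.image_image]
  refine Finset.image_congr fun p _ => ?_
  simp [mul_smul]

theorem tS_one (X : Cov) : X.tS 1 = id := by
  funext t
  unfold Cov.tS
  simp

theorem tS_mul (X : Cov) (g h : X.Γ) : X.tS (g * h) = X.tS g ∘ X.tS h := by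
  funext t
  simp only [Cov.tS, Function.comp_apply, Finset.image_image]
  refine Finset.image_congr fun p _ => ?_
  simp [mul_smul]

theorem tS_card (X : Cov) (g : X.Γ) (t : Finset X.W) : (X.tS g t).card = t.card :=
  Finset.card_image_of_injective _ (MulAction.injective g)

theorem prf (e1 : S_E1) (t2 : S_T2) (t4 : S_T4) (t5 : S_T5) (t6 : S_T6) (a1 : S_A1)
    (a6 : S_A6) (f1 : S_F1) : S_F2 := by
  intro X m o c b dat
  have h := e1 (Finset (X.W × X.W)) (Finset X.W →₀ ℝ) X.Γ X.tA (tA_one X) (tA_mul X)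
    (fun γ => Finsupp.lmapDomain ℝ ℝ (X.tS γ))
    (fun x => by
      rw [Finsupp.lmapDomain_apply, tS_one, Finsupp.mapDomain_id])
    (fun g h x => by
      rw [Finsupp.lmapDomain_apply, Finsupp.lmapDomain_apply, Finsupp.lmapDomain_apply,
        tS_mul, Finsupp.mapDomain_comp])
    X.Om (fun g a ha => (t4 X g a ha).1) (fun g a ha => (t4 X g a ha).2.2.2.2.2.1)
    Finset.card (fun g a ha => (t4 X g a ha).2.2.2.2.2.2) X.V.card
    (fun a ha => (t5 X a ha).2.2.2.1) X.cov
    (fun a ha β hβ => ⟨(((t5 X a ha).2.1 β).1 hβ).1, ((t5 X a ha).2.2.1 β hβ).1⟩)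
    (fun g a β ha => (t4 X g a ha).2.2.1 β) X.inc
    (fun g a β ha => (t4 X g a ha).2.2.2.1 β)
    (fun a ha h => t6 X a ha _ h) (bdl X.π)
    (fun g x => by
      rw [Finsupp.lmapDomain_apply, Finsupp.lmapDomain_apply]
      exact (a6 X.W X.π (fun w => g • w) (MulAction.injective g) (X.lab g) ℝ).1 x)
    (fun α => Sub X.Kt α.card (m + 3)) (fun α => Sub X.Kt α.card (m + 2))
    (fun g a x ha hx => by
      intro t ht
      rw [Finsupp.lmapDomain_apply] at ht
      have h1 := Finsupp.mapDomain_support (Finsupp.mem_support_iff.2 ht)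
      obtain ⟨s, hs, hst⟩ := Finset.mem_image.1 h1
      have h2 := hx s (Finsupp.mem_support_iff.1 hs)
      have h3 : (X.tA g a).card = a.card := (t4 X g a ha).2.2.2.2.2.2
      rw [← hst, tS_card, h3]
      exact ⟨X.smK g s h2.1, h2.2⟩)
    (fun a ha β hβ x hx => by
      intro t ht
      have h1 := hx t ht
      have h2 : β.card = a.card + 1 := ((t5 X a ha).2.2.1 β hβ).1
      refine ⟨h1.1, ?_⟩
      have h3 := h1.2
      omega)
    (fun a _ x hx hd => by
      obtain ⟨y, hy, hyx⟩ := acyc X.π X.Kt a1 dat.acy a.card (m + 2) x hx hd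
      exact ⟨y, hy, hyx⟩)
    (-1) (X.T b) (fun g a ha => by
      rw [Finsupp.lmapDomain_apply]
      exact (f1 X m o c b dat a ha).2 g)
    (fun a ha => by
      intro t ht
      have h1 := t2 X m b dat.supp a ha
      rw [h1.2.1 t] at ht
      have h2 := h1.2.2 t ht
      exact ⟨h2.1, h2.2.2⟩)
    (fun a ha => by
      rw [(f1 X m o c b dat a ha).1, neg_one_smul])
  obtain ⟨Th, h1, h2, h3⟩ := h
  refine ⟨Th, fun γ α hα => ?_, fun α hα => h2 α hα, fun α hα => ?_⟩
  · have := h1 γ α hα
    rwa [Finsupp.lmapDomain_apply] at this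
  · rw [h3 α hα, neg_one_smul, sub_neg_eq_add]

end MP8a95ee.Rk.F2P
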