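import Pool.Agent.Work.MP_8a95ee_gt.Rk.Stmts2

/-!
# Item F3 of the block Rk: the sum of the `Th α` over all pairs is the lift of `c`
-/

set_option autoImplicit false

namespace MP8a95ee.Rk.F3P

open Ref RA

section

variable (X : Cov)

theorem tS_one (t : Finset X.W) : X.tS 1 t = t := by
  unfold Cov.tS
  simp

theorem tS_mul (g h : X.Γ) (t : Finset X.W) : X.tS (g * h) t = X.tS g (X.tS h t) := by
  unfold Cov.tS
  rw [Finset.image_image]
  congr 1
  funext w
  simp [mul_smul]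

theorem tA_one (α : Finset (X.W × X.W)) : X.tA 1 α = α := by
  unfold Cov.tA
  simp

theorem tA_mul (g h : X.Γ) (α : Finset (X.W × X.W)) :
    X.tA (g * h) α = X.tA g (X.tA h α) := by
  unfold Cov.tA
  rw [Finset.image_image]
  congr 1
  funext w
  simp [mul_smul]

theorem tS_inj (γ : X.Γ) : Function.Injective (X.tS γ) := by
  intro s t h
  have h1 := congrArg (X.tS γ⁻¹) h
  rwa [← tS_mul, ← tS_mul, inv_mul_cancel, tS_one, tS_one] at h1

/-- the action on families as a bijection -/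
def eA (γ : X.Γ) : Finset (X.W × X.W) ≃ Finset (X.W × X.W) where
  toFun := X.tA γ
  invFun := X.tA γ⁻¹
  left_inv := fun α => by rw [← tA_mul, inv_mul_cancel, tA_one]
  right_inv := fun α => by rw [← tA_mul, mul_inv_cancel, tA_one]

open Classical in
/-- `f` on the families with one pair, zero otherwise -/
noncomputable def ind (f : Finset (X.W × X.W) → ℝ) (α : Finset (X.W × X.W)) : ℝ :=
  if X.Om1 α then f α else 0

theorem ind_pos (f : Finset (X.W × X.W) → ℝ) {α : Finset (X.W × X.W)} (h : X.Om1 α) :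
    ind X f α = f α := by
  unfold ind
  rw [if_pos h]

theorem ind_neg (f : Finset (X.W × X.W) → ℝ) {α : Finset (X.W × X.W)} (h : ¬ X.Om1 α) :
    ind X f α = 0 := by
  unfold ind
  rw [if_neg h]

theorem sum_ind (f : Finset (X.W × X.W) → ℝ) :
    ∑ᶠ (α : Finset (X.W × X.W)) (_ : X.Om1 α), f α = ∑ᶠ α, ind X f α := by
  congr 1
  funext α
  by_cases h : X.Om1 α
  · rw [ind_pos X f h]
    exact finsum_eq_single _ h (fun h' h'' => absurd rfl h'') |>.trans rfl
  · rw [ind_neg X f h]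
    have : IsEmpty (X.Om1 α) := ⟨h⟩
    exact finsum_of_isEmpty _

theorem supp_ind (f : Finset (X.W × X.W) → ℝ) :
    Function.support (ind X f) = {α | X.Om1 α ∧ f α ≠ 0} := by
  ext α
  rw [Function.mem_support]
  by_cases h : X.Om1 α
  · rw [ind_pos X f h]
    exact ⟨fun h' => ⟨h, h'⟩, fun h' => h'.2⟩
  · rw [ind_neg X f h]
    exact ⟨fun h' => absurd rfl h', fun h' => absurd h'.1 h⟩

/-- the sum of all `Th α t` over the families with one pair -/
noncomputable def CC (Th : Finset (X.W × X.W) → (Finset X.W →₀ ℝ)) (t : Finset X.W) : ℝ :=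
  ∑ᶠ α, ind X (fun α => Th α t) α

end

section

variable {X : Cov} {m : ℕ} {o : (Fin (m + 1) → ℕ) → ℤ} {c : (Fin (m + 2) → ℕ) → ℤ}
  {b : Finset ℕ → ℝ} {Th : Finset (X.W × X.W) → (Finset X.W →₀ ℝ)}

theorem Th_eq (hTh : IsTh X m b Th) (γ : X.Γ) {α : Finset (X.W × X.W)} (hα : X.Om α)
    (t : Finset X.W) : Th (X.tA γ α) (X.tS γ t) = Th α t := by
  rw [hTh.1 γ α hα, Finsupp.mapDomain_apply (tS_inj X γ)]

theorem mem_Xf {t : Finset X.W} (ht : t ∈ X.Kt) : t ∈ X.Xf {x | X.π x ∈ X.V} := Or.inl ht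

theorem ne_zz (u1 : S_U1) {t : Finset X.W} (ht : t ∈ X.Kt) : t ≠ {X.zz} := by
  intro h
  refine (u1 X).2.2.2.2.2.2 t ht ?_
  rw [h]
  exact Finset.mem_singleton_self _

theorem fin_Th (e2 : S_E2) (u1 : S_U1) (l1 : S_L1) (hTh : IsTh X m b Th) {t : Finset X.W}
    (ht : t ∈ X.Kt) (h0 : t ≠ ∅) : {α | X.Om α ∧ Th α t ≠ 0}.Finite :=
  e2 X ℝ (Finset X.W) X.tS (tS_one X) (tS_mul X) (fun α p => Th α p)
    (fun γ α p hα => by
      show Th (X.tA γ α) (X.tS γ p) ≠ 0 ↔ Th α p ≠ 0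
      rw [Th_eq hTh γ hα])
    (fun α _ => (Th α).hasFiniteSupport) t
    ((l1 X).2.2.2.1 t (mem_Xf ht) h0 (ne_zz u1 ht))

theorem fin_Th1 (e2 : S_E2) (u1 : S_U1) (l1 : S_L1) (hTh : IsTh X m b Th) {t : Finset X.W}
    (ht : t ∈ X.Kt) (h0 : t ≠ ∅) : {α | X.Om1 α ∧ Th α t ≠ 0}.Finite :=
  (fin_Th e2 u1 l1 hTh ht h0).subset fun _ h => ⟨h.1.1, h.2⟩

theorem Om1_tA (t4 : S_T4) (γ : X.Γ) (α : Finset (X.W × X.W)) :
    X.Om1 (X.tA γ α) ↔ X.Om1 α := by
  have key : ∀ (γ : X.Γ) (α : Finset (X.W × X.W)), X.Om1 α → X.Om1 (X.tA γ α) := fun γ α h =>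
    ⟨(t4 X γ α h.1).1, by rw [(t4 X γ α h.1).2.2.2.2.2.2, h.2]⟩
  refine ⟨fun h => ?_, key γ α⟩
  have h1 := key γ⁻¹ _ h
  rwa [← tA_mul, inv_mul_cancel, tA_one] at h1

theorem CC_tS (t4 : S_T4) (hTh : IsTh X m b Th) (γ : X.Γ) (t : Finset X.W) :
    CC X Th (X.tS γ t) = CC X Th t := by
  unfold CC
  rw [← finsum_comp_equiv (eA X γ)]
  congr 1
  funext α
  show ind X (fun α => Th α (X.tS γ t)) (X.tA γ α) = _
  by_cases h : X.Om1 α
  · rw [ind_pos X _ h, ind_pos X _ ((Om1_tA t4 γ α).2 h)]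
    exact Th_eq hTh γ h.1 t
  · rw [ind_neg X _ h, ind_neg X _ (fun h' => h ((Om1_tA t4 γ α).1 h'))]

/-- the faces of the boundary have at most `m + 1` vertices -/
theorem card_L (d2 : S_D2) (hd : Dat X m o c b) : ∀ s ∈ X.L, s.card ≤ m + 1 := by
  intro s hs
  by_cases h0 : s.Nonempty
  · have hcx : IsCx X.L := by
      refine ⟨?_, ?_⟩
      · exact Finset.mem_filter.2 ⟨X.cx.1, Finset.empty_subset _⟩
      · intro σ hσ τ hτ
        have h1 := Finset.mem_filter.1 hσ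
        exact Finset.mem_filter.2 ⟨X.cx.2 σ h1.1 τ hτ, hτ.trans h1.2⟩
    exact (d2 X.L hcx (m + 1) s hs fun t ht hst => hd.mfd.bd t ht (h0.mono hst)).1
  · rw [Finset.not_nonempty_iff_eq_empty.1 h0, Finset.card_empty]
    exact Nat.zero_le _

theorem sum_T (t2 : S_T2) (t3 : S_T3) (d2 : S_D2)
    (hd : Dat X m o c b) (ho : ∀ t, oF o t ≠ 0 → t ∈ sub X.K X.V ∧ t.card = m + 1)
    {t : Finset X.W} (ht : t ∈ X.Kt) (hc : t.card = m + 1) :
    {α | X.Om1 α ∧ X.T b α t ≠ 0}.Finite ∧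
    ∑ᶠ α, ind X (fun α => X.T b α t) α = oF o (t.image X.π) := by
  have hT : ∀ α, X.Om1 α → X.T b α t = X.Tc b α t := fun α hα =>
    (t2 X m b hd.supp α hα.1).2.1 t
  by_cases hV : ∀ x ∈ t, X.π x ∈ X.V
  · obtain ⟨h1, h2⟩ := t3 X m hd.hm hd.odd o hd.ori b hd.supp hd.bdb (card_L d2 hd) t ht hV hc
    constructor
    · refine h1.subset fun α hα => ⟨hα.1, ?_⟩
      rw [← hT α hα.1]
      exact hα.2
    · rw [← h2, sum_ind]
      congr 1
      funext α
      by_cases h : X.Om1 α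
      · rw [ind_pos X _ h, ind_pos X _ h]
        exact hT α h
      · rw [ind_neg X _ h, ind_neg X _ h]
  · have h0 : ∀ α, X.Om1 α → X.T b α t = 0 := by
      intro α hα
      rw [hT α hα]
      by_contra hne
      refine hV fun x hx => ?_
      exact (((t2 X m b hd.supp α hα.1).2.2 t hne).2.1 x hx).1
    constructor
    · refine Set.Finite.subset Set.finite_empty fun α hα => ?_
      exact absurd (h0 α hα.1) hα.2
    · have h1 : ∀ α, ind X (fun α => X.T b α t) α = 0 := by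
        intro α
        by_cases h : X.Om1 α
        · rw [ind_pos X _ h]
          exact h0 α h
        · rw [ind_neg X _ h]
      rw [finsum_congr h1, finsum_zero]
      by_contra hne
      have h2 := (ho _ (Ne.symm hne)).1
      refine hV fun x hx => ?_
      exact (Finset.mem_filter.1 h2).2 (Finset.mem_image_of_mem _ hx)

theorem bd_CC (u1 : S_U1) (e2 : S_E2) (t2 : S_T2) (t3 : S_T3) (t9 : S_T9) (a1 : S_A1)
    (d2 : S_D2) (l1 : S_L1) (hd : Dat X m o c b)
    (ho : ∀ t, oF o t ≠ 0 → t ∈ sub X.K X.V ∧ t.card = m + 1) (hTh : IsTh X m b Th)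
    {t : Finset X.W} (ht : t ∈ X.Kt) (hc : t.card = m + 1) (S : Finset X.W)
    (hS : ∀ x, x ∈ S ↔ x ∉ t ∧ insert x t ∈ X.Kt) :
    ∑ x ∈ S, sg (X.π x) (t.image X.π) * CC X Th (insert x t) = oF o (t.image X.π) := by
  have ht0 : t ≠ ∅ := by
    rintro rfl
    rw [Finset.card_empty] at hc
    omega
  have hfin : ∀ x ∈ S, {α | X.Om1 α ∧ Th α (insert x t) ≠ 0}.Finite := fun x hx =>
    fin_Th1 e2 u1 l1 hTh ((hS x).1 hx).2 (Finset.insert_ne_empty _ _)
  have h1 : ∀ x ∈ S, sg (X.π x) (t.image X.π) * CC X Th (insert x t) =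
      ∑ᶠ α, sg (X.π x) (t.image X.π) * ind X (fun α => Th α (insert x t)) α := by
    intro x hx
    unfold CC
    exact mul_finsum _ _
  rw [Finset.sum_congr rfl h1, ← finsum_sum_comm]
  · have h2 : ∀ α, ∑ x ∈ S, sg (X.π x) (t.image X.π) * ind X (fun α => Th α (insert x t)) α =
        ind X (fun α => X.T b α t) α +
        ind X (fun α => ∑ β ∈ X.cov α, X.inc α β • Th β t) α := by
      intro α
      by_cases h : X.Om1 α
      · rw [ind_pos X _ h, ind_pos X _ h]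
        have h3 : bdl X.π (Th α) t = ∑ a ∈ S \ t, sg (X.π a) (t.image X.π) •
            Th α (insert a t) := by
          refine a1.1 X.W X.π ℝ (Th α) t S fun a ha hne => ?_
          exact (hS a).2 ⟨ha, (hTh.2.1 α h.1 _ hne).1⟩
        have h4 : S \ t = S := by
          rw [Finset.sdiff_eq_self_iff_disjoint, Finset.disjoint_left]
          exact fun x hx => ((hS x).1 hx).1
        rw [h4, hTh.2.2 α h.1] at h3
        have h5 : (X.T b α + ∑ β ∈ X.cov α, X.inc α β • Th β) t =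
            X.T b α t + ∑ β ∈ X.cov α, X.inc α β • Th β t := by
          rw [Finsupp.add_apply, Finsupp.finsetSum_apply]
          rfl
        rw [← h5, h3]
        refine Finset.sum_congr rfl fun x _ => ?_
        rw [ind_pos X _ h, smul_eq_mul]
      · rw [ind_neg X _ h, ind_neg X _ h, add_zero]
        refine Finset.sum_eq_zero fun x _ => ?_
        rw [ind_neg X _ h, mul_zero]
    obtain ⟨h6, h7⟩ := sum_T t2 t3 d2 hd ho ht hc
    obtain ⟨h8, h9⟩ := t9 X ℝ (fun β => Th β t) (fin_Th e2 u1 l1 hTh ht ht0)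
    rw [finsum_congr h2, finsum_add_distrib, h7]
    · rw [sum_ind] at h9
      rw [h9, add_zero]
    · show (Function.support _).Finite
      rw [supp_ind]
      exact h6
    · show (Function.support _).Finite
      rw [supp_ind]
      exact h8
  · intro x hx
    refine (hfin x hx).subset fun α hα => ?_
    rw [← supp_ind, Function.mem_support]
    intro h3
    rw [Function.mem_support] at hα
    exact hα (by rw [h3, mul_zero])

/-- a face over `K` in `Xf` is in `Kt` -/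
theorem Kt_of_Xf {t : Finset X.W} (ht : t ∈ X.Xf {x | X.π x ∈ X.V})
    (h : t.image X.π ∈ X.K) : t ∈ X.Kt := by
  rcases ht with ht | ⟨s, _, _, rfl⟩
  · exact ht
  · exfalso
    refine X.hz ?_
    refine Finset.mem_biUnion.2 ⟨_, h, ?_⟩
    refine Finset.mem_image.2 ⟨X.zz, Finset.mem_insert_self _ _, X.pz⟩

theorem bdS_lift (u1 : S_U1) (l1 : S_L1) {t : Finset X.W} (ht : t ∈ X.Kt) (h0 : t ≠ ∅)
    (S : Finset X.W) (hS : ∀ x, x ∈ S ↔ x ∉ t ∧ insert x t ∈ X.Kt) (F : Finset ℕ → ℝ)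
    (hF : ∀ τ, F τ ≠ 0 → τ ∈ X.K) :
    bdS X.K F (t.image X.π) =
      ∑ x ∈ S, sg (X.π x) (t.image X.π) * F ((insert x t).image X.π) := by
  have hnot : ∀ x ∈ S, X.π x ∉ t.image X.π := by
    intro x hx h
    obtain ⟨y, hy, hyx⟩ := Finset.mem_image.1 h
    have h1 := (X.simp _ ((hS x).1 hx).2).2 (Finset.mem_coe.2 (Finset.mem_insert_of_mem hy))
      (Finset.mem_coe.2 (Finset.mem_insert_self x t)) hyx
    exact ((hS x).1 hx).1 (h1 ▸ hy)
  have hins : ∀ x ∈ S, insert (X.π x) (t.image X.π) ∈ X.K := by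
    intro x hx
    have h1 := (X.simp _ ((hS x).1 hx).2).1
    rwa [Finset.image_insert] at h1
  have huniq : ∀ a, a ∉ t.image X.π → insert a (t.image X.π) ∈ X.K →
      ∃! y, X.π y = a ∧ insert y t ∈ X.Xf {x | X.π x ∈ X.V} := fun a ha hK =>
    (l1 X).2.2.1 t (mem_Xf ht) h0 (ne_zz u1 ht) a ha (Finset.mem_union_left _ hK)
  have hinj : ∀ x ∈ S, ∀ y ∈ S, X.π x = X.π y → x = y := by
    intro x hx y hy hxy
    exact (huniq (X.π x) (hnot x hx) (hins x hx)).unique ⟨rfl, mem_Xf ((hS x).1 hx).2⟩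
      ⟨hxy.symm, mem_Xf ((hS y).1 hy).2⟩
  have h1 : ∑ x ∈ S, sg (X.π x) (t.image X.π) * F ((insert x t).image X.π) =
      ∑ a ∈ S.image X.π, sg a (t.image X.π) * F (insert a (t.image X.π)) := by
    rw [Finset.sum_image hinj]
    refine Finset.sum_congr rfl fun x _ => ?_
    rw [Finset.image_insert]
  rw [h1]
  unfold bdS
  symm
  refine Finset.sum_subset ?_ ?_
  · intro a ha
    obtain ⟨x, hx, rfl⟩ := Finset.mem_image.1 ha
    refine Finset.mem_sdiff.2 ⟨?_, hnot x hx⟩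
    exact Finset.mem_biUnion.2 ⟨_, hins x hx, Finset.mem_insert_self _ _⟩
  · intro a ha hna
    have ha' := (Finset.mem_sdiff.1 ha).2
    by_cases hne : F (insert a (t.image X.π)) = 0
    · rw [hne, mul_zero]
    · exfalso
      have hK := hF _ hne
      obtain ⟨y, ⟨hy1, hy2⟩, _⟩ := huniq a ha' hK
      refine hna (Finset.mem_image.2 ⟨y, (hS y).2 ⟨?_, ?_⟩, hy1⟩)
      · intro hyt
        exact ha' (Finset.mem_image.2 ⟨y, hyt, hy1⟩)
      · refine Kt_of_Xf hy2 ?_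
        rw [Finset.image_insert, hy1]
        exact hK

end

theorem prf (u1 : S_U1) (e2 : S_E2) (t2 : S_T2) (t3 : S_T3) (t4 : S_T4) (t9 : S_T9)
    (a1 : S_A1) (d2 : S_D2) (d3 : S_D3) (f3a : S_F3a) (l1 : S_L1) : S_F3 := by
  intro X m o c b hd Th hTh t ht hcard
  have ht0 : t ≠ ∅ := by
    rintro rfl
    rw [Finset.card_empty] at hcard
    omega
  refine ⟨fin_Th1 e2 u1 l1 hTh ht ht0, ?_⟩
  obtain ⟨d31, -, -, -, d35, -, d37⟩ := d3 X.K X.cx X.V X.VK X.z X.hz m hd.odd o hd.ori c hd.rel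
    hd.nz
  rw [sum_ind]
  show CC X Th t = _
  -- the lift
  have hlift : ∀ τ ∈ X.K, ∃ s ∈ X.Kt, s.image X.π = τ := by
    intro τ hτ
    obtain ⟨s, hs, hsτ⟩ := (l1 X).1 τ (Finset.mem_union_left _ hτ)
    exact ⟨s, Kt_of_Xf hs (hsτ.symm ▸ hτ), hsτ⟩
  choose! lf hlf1 hlf2 using hlift
  classical
  let w : Finset ℕ → ℝ := fun τ =>
    if τ ∈ X.K ∧ τ.card = m + 2 then CC X Th (lf τ) - oF c τ else 0
  have hw0 : ∀ τ, w τ ≠ 0 → τ ∈ X.K ∧ τ.card = m + 2 := by
    intro τ hτ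
    by_contra h
    exact hτ (if_neg h)
  have hcI : ∀ s ∈ X.Kt, (s.image X.π).card = s.card := fun s hs =>
    Finset.card_image_of_injOn (X.simp s hs).2
  have hw : ∀ s ∈ X.Kt, s.card = m + 2 →
      w (s.image X.π) = CC X Th s - oF c (s.image X.π) := by
    intro s hs hsc
    have hs0 : s ≠ ∅ := by
      rintro rfl
      rw [Finset.card_empty] at hsc
      omega
    have hK : s.image X.π ∈ X.K := (X.simp s hs).1
    have h1 : w (s.image X.π) = CC X Th (lf (s.image X.π)) - oF c (s.image X.π) :=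
      if_pos ⟨hK, by rw [hcI s hs, hsc]⟩
    obtain ⟨γ, hγ⟩ := (l1 X).2.1 s (mem_Xf hs) (lf (s.image X.π)) (mem_Xf (hlf1 _ hK)) hs0
      (ne_zz u1 hs) (hlf2 _ hK).symm
    rw [h1, ← hγ, CC_tS t4 hTh γ s]
  have hbd : bdS X.K w = 0 := by
    funext ρ
    show bdS X.K w ρ = 0
    by_cases hρ : ρ ∈ X.K ∧ ρ.card = m + 1
    · obtain ⟨hρK, hρc⟩ := hρ
      have hs := hlf1 ρ hρK
      have hsρ := hlf2 ρ hρK
      have hsc : (lf ρ).card = m + 1 := by rw [← hcI _ hs, hsρ, hρc]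
      have hs0 : lf ρ ≠ ∅ := by
        intro h
        rw [h, Finset.card_empty] at hsc
        omega
      have hfin : {y | y ∉ lf ρ ∧ insert y (lf ρ) ∈ X.Kt}.Finite :=
        ((l1 X).2.2.2.2.2.1 (lf ρ) (mem_Xf hs) hs0 (ne_zz u1 hs)).subset
          fun y hy => ⟨hy.1, mem_Xf hy.2⟩
      have hS : ∀ x, x ∈ hfin.toFinset ↔ x ∉ lf ρ ∧ insert x (lf ρ) ∈ X.Kt := fun x => by
        rw [Set.Finite.mem_toFinset]
        rfl
      have h1 := bdS_lift u1 l1 hs hs0 hfin.toFinset hS w (fun τ hτ => (hw0 τ hτ).1)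
      have h2 := bdS_lift u1 l1 hs hs0 hfin.toFinset hS (oF c) (fun τ hτ => (d35 τ hτ).1)
      have h3 := bd_CC u1 e2 t2 t3 t9 a1 d2 l1 hd d37 hTh hs hsc hfin.toFinset hS
      have h4 : ∀ x ∈ hfin.toFinset, sg (X.π x) ((lf ρ).image X.π) *
          w ((insert x (lf ρ)).image X.π) = sg (X.π x) ((lf ρ).image X.π) *
          CC X Th (insert x (lf ρ)) - sg (X.π x) ((lf ρ).image X.π) *
          oF c ((insert x (lf ρ)).image X.π) := by
        intro x hx
        have hx' := (hS x).1 hx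
        rw [hw _ hx'.2 (by rw [Finset.card_insert_of_notMem hx'.1, hsc]), mul_sub]
      rw [Finset.sum_congr rfl h4, Finset.sum_sub_distrib, h3, ← h2, d31, sub_self, hsρ] at h1
      exact h1
    · unfold bdS
      refine Finset.sum_eq_zero fun a ha => ?_
      by_cases hne : w (insert a ρ) = 0
      · rw [hne, mul_zero]
      · exfalso
        obtain ⟨h1, h2⟩ := hw0 _ hne
        refine hρ ⟨X.cx.2 _ h1 _ (Finset.subset_insert _ _), ?_⟩
        rw [Finset.card_insert_of_notMem (Finset.mem_sdiff.1 ha).2] at h2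
        omega
  have hz := f3a X m o c b hd w hw0 hbd
  have h1 := hw t ht hcard
  rw [hz] at h1
  have h2 : CC X Th t - oF c (t.image X.π) = 0 := h1.symm
  linarith

end MP8a95ee.Rk.F3P
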