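import Pool.Agent.Work.MP_8a95ee_gt.Rk.Stmts2
import Pool.Agent.Work.MP_8a95ee_gt.Rk.I_D1
import Pool.Agent.Work.MP_8a95ee_gt.Bd.B05

/-!
# Item F3a of the block Rk: `K` has no top cycles
-/

set_option autoImplicit false

namespace MP8a95ee.Rk.F3aP

open Ref RA

theorem isCx_Kp {K : Finset (Finset ℕ)} {V : Finset ℕ} {z : ℕ} (hK : IsCx K) :
    IsCx (Kp K V z) := by
  refine ⟨D1P.K_le hK.1, fun σ hσ τ hτ => ?_⟩
  rcases D1P.mem_Kp.1 hσ with h | ⟨u, hu, rfl⟩
  · exact D1P.K_le (hK.2 σ h τ hτ)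
  · have h1 : τ.erase z ⊆ u := by
      intro a ha
      have h2 := hτ (Finset.mem_of_mem_erase ha)
      exact (Finset.mem_insert.1 h2).resolve_left (Finset.ne_of_mem_erase ha)
    obtain ⟨huK, huV⟩ := D1P.mem_sub.1 hu
    have h2 : τ.erase z ∈ K := hK.2 u huK _ h1
    by_cases hz : z ∈ τ
    · refine D1P.mem_Kp.2 (Or.inr ⟨τ.erase z, D1P.mem_sub.2 ⟨h2, h1.trans huV⟩, ?_⟩)
      exact Finset.insert_erase hz
    · rw [Finset.erase_eq_of_notMem hz] at h2
      exact D1P.K_le h2

/-- the restriction of a top cycle to the link of a vertex -/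
theorem link_closed {L : Finset (Finset ℕ)} (hL : IsCx L) {w : Finset ℕ → ℝ} {n : ℕ}
    (hw : ∀ t, w t ≠ 0 → t ∈ L ∧ t.card = n + 1) (hb : bdS L w = 0) (v : ℕ) :
    LkChain L {v} n (cLk w {v}) ∧ bdS L (cLk w {v}) = 0 := by
  have hoL : LkChain L {v} n (cLk w {v}) := by
    intro u hu
    have hd : Disjoint {v} u := by
      by_contra h
      apply hu
      unfold cLk
      rw [if_neg h]
    have h1 : w ({v} ∪ u) ≠ 0 := by
      intro h
      apply hu
      unfold cLk
      rw [if_pos hd, h, mul_zero]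
    obtain ⟨h3, h2⟩ := hw _ h1
    refine ⟨hL.2 _ h3 _ Finset.subset_union_right, hd, h3, ?_⟩
    rw [Finset.card_union_of_disjoint hd, Finset.card_singleton] at h2
    omega
  refine ⟨hoL, ?_⟩
  funext u
  rw [h61_bdlink hoL]
  by_cases hd : Disjoint {v} u
  · have h1 : ∀ a ∈ verts L \ ({v} ∪ u), sg a u * cLk w {v} (insert a u) =
        ((-1) ^ ({v} : Finset ℕ).card * sgg {v} u) *
          (sg a ({v} ∪ u) * w (insert a ({v} ∪ u))) := by
      intro a ha
      obtain ⟨has, hau⟩ := h61_out ha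
      unfold cLk
      rw [if_pos (h61_di hd has), Finset.union_insert, ← mul_assoc, h61_sign2 has hau hd]
      ring
    rw [Finset.sum_congr rfl h1, ← Finset.mul_sum]
    have h2 := congrFun hb ({v} ∪ u)
    unfold bdS at h2
    rw [h2]
    simp
  · refine Finset.sum_eq_zero fun a ha => ?_
    unfold cLk
    rw [if_neg (fun h => hd (h.mono_right (Finset.subset_insert _ _))), mul_zero]

theorem cLk_erase (w : Finset ℕ → ℝ) {v : ℕ} {t : Finset ℕ} (hv : v ∈ t) :
    cLk w {v} (t.erase v) = sgg {v} (t.erase v) * w t := by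
  unfold cLk
  rw [if_pos (Finset.disjoint_singleton_left.2 (Finset.notMem_erase v t)), ← Finset.insert_eq,
    Finset.insert_erase hv]

theorem bdl_single {W : Type} [DecidableEq W] (π : W → ℕ) (w : Finset W) (n : ℝ) :
    bdl π (Finsupp.single w n) = ∑ a ∈ w, sg (π a) ((w.erase a).image π) •
      Finsupp.single (w.erase a) n := by
  unfold bdl
  rw [Finsupp.lsum_single, LinearMap.sum_apply]
  rfl

theorem conn (X : Cov) (hac : IsAcyclic X.π X.Kt) (P : X.W → Prop)
    (hP : ∀ x y, P x → ({x, y} : Finset X.W) ∈ X.Kt → P y) (w0 w1 : X.W) (h0 : w0 ≠ X.zz)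
    (h1 : w1 ≠ X.zz) (hw : P w0) : P w1 := by
  classical
  by_contra hn
  have hne : w0 ≠ w1 := by
    rintro rfl
    exact hn hw
  obtain ⟨c', hc', hb⟩ := hac (Finsupp.single {w1} 1 - Finsupp.single {w0} 1) (by
    intro σ hσ
    rw [Finsupp.sub_apply] at hσ
    by_cases e1 : σ = {w1}
    · rw [e1]; exact X.vert w1 h1
    · by_cases e0 : σ = {w0}
      · rw [e0]; exact X.vert w0 h0
      · rw [Finsupp.single_eq_of_ne e1, Finsupp.single_eq_of_ne e0, sub_zero] at hσ
        exact absurd rfl hσ) (by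
    rw [map_sub, bdl_single, bdl_single, Finset.sum_singleton, Finset.sum_singleton]
    simp [sg])
  set l : (Finset X.W →₀ ℝ) →ₗ[ℝ] ℝ :=
    Finsupp.linearCombination ℝ (fun t => if ∃ w, t = {w} ∧ P w then (1 : ℝ) else 0) with hl
  have hls : ∀ t : Finset X.W, l (Finsupp.single t 1) = if ∃ w, t = {w} ∧ P w then (1 : ℝ) else 0 := by
    intro t
    rw [hl, Finsupp.linearCombination_single, one_smul]
  have hlsing : ∀ w : X.W, l (Finsupp.single {w} 1) = if P w then (1 : ℝ) else 0 := by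
    intro w
    rw [hls]
    by_cases h : P w
    · rw [if_pos ⟨w, rfl, h⟩, if_pos h]
    · rw [if_neg, if_neg h]
      rintro ⟨w', h2, h3⟩
      rw [Finset.singleton_inj] at h2
      exact h (h2 ▸ h3)
  have hz : ∀ t ∈ X.Kt, l (bdl X.π (Finsupp.single t 1)) = 0 := by
    intro t ht
    rw [bdl_single, map_sum]
    by_cases h2 : ∃ x y, x ≠ y ∧ t = {x, y}
    · obtain ⟨x, y, hxy, rfl⟩ := h2
      have e3 : ({x, y} : Finset X.W).erase x = {y} := by
        rw [Finset.erase_insert]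
        simpa using hxy
      have e4 : ({x, y} : Finset X.W).erase y = {x} := by
        rw [Finset.pair_comm, Finset.erase_insert]
        simpa using fun h2 => hxy h2.symm
      rw [Finset.sum_pair hxy, e3, e4, map_smul, map_smul, hlsing, hlsing]
      have hPP : P x ↔ P y := by
        constructor
        · intro h; exact hP x y h ht
        · intro h
          refine hP y x h ?_
          rw [Finset.pair_comm]
          exact ht
      have hinj := (X.simp _ ht).2
      have hpi : X.π x ≠ X.π y := fun h => hxy (hinj (by simp) (by simp) h)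
      have hsg : sg (X.π x) (({y} : Finset X.W).image X.π) +
          sg (X.π y) (({x} : Finset X.W).image X.π) = 0 := by
        rw [Finset.image_singleton, Finset.image_singleton]
        have e1 := sg_insert (a := X.π x) (c := X.π y) (u := ∅) (by simp)
        have e2 := sg_insert (a := X.π y) (c := X.π x) (u := ∅) (by simp)
        have e5 : sg (X.π x) ∅ = 1 := by simp [sg]
        have e6 : sg (X.π y) ∅ = 1 := by simp [sg]
        rw [insert_empty_eq] at e1 e2
        rw [e1, e2, e5, e6]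
        rcases lt_or_gt_of_ne hpi with h | h
        · rw [if_neg (not_lt.2 h.le), if_pos h]; ring
        · rw [if_pos h, if_neg (not_lt.2 h.le)]; ring
      by_cases h : P x
      · rw [if_pos h, if_pos (hPP.1 h), smul_eq_mul, smul_eq_mul, mul_one, mul_one, hsg]
      · rw [if_neg h, if_neg (fun h' => h (hPP.2 h')), smul_zero, smul_zero, add_zero]
    · refine Finset.sum_eq_zero fun a ha => ?_
      rw [map_smul, hls, if_neg, smul_zero]
      rintro ⟨w, h3, h4⟩
      apply h2
      refine ⟨a, w, ?_, ?_⟩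
      · rintro rfl
        have : a ∈ t.erase a := by rw [h3]; simp
        simp at this
      · rw [← h3, Finset.insert_erase ha]
  have hsum : l (bdl X.π c') = 0 := by
    have h : c' = ∑ t ∈ c'.support, c' t • Finsupp.single t 1 := by
      conv_lhs => rw [← Finsupp.sum_single c']
      refine Finset.sum_congr rfl fun t _ => ?_
      rw [Finsupp.smul_single, smul_eq_mul, mul_one]
    rw [h, map_sum, map_sum]
    refine Finset.sum_eq_zero fun t ht => ?_
    rw [map_smul, map_smul, hz t (hc' t (Finsupp.mem_support_iff.1 ht)), smul_zero]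
  rw [hb, map_sub, hlsing, hlsing, if_neg hn, if_pos hw] at hsum
  norm_num at hsum

theorem prf (d1 : S_D1) (d2 : S_D2) (d3 : S_D3) (d5 : S_D5) : S_F3a := by
  intro X m o c b hD w hw hbw
  obtain ⟨-, hcp, hcps, hcpn, -, -, -⟩ := d3 X.K X.cx X.V X.VK X.z X.hz m hD.odd o hD.ori c hD.rel
    hD.nz
  set Y := Kp X.K X.V X.z with hY
  have hYcx : IsCx Y := isCx_Kp X.cx
  have hSph : ∀ s ∈ Y, s.Nonempty → s ≠ {X.z} → IsSph Y (m + 2) s := fun s hs h1 h2 =>
    d1 X.K X.cx X.V X.VK X.z X.hz (m + 1) hD.mfd s hs h1 h2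
  have hD2 : ∀ s ∈ Y, s.Nonempty → s ≠ {X.z} → s.card ≤ m + 2 ∧ ∃ t ∈ Y, s ⊆ t ∧ t.card = m + 2 := by
    intro s hs h1 h2
    refine d2 Y hYcx (m + 2) s hs fun t ht hst => hSph t ht (h1.mono hst) ?_
    rintro rfl
    rcases Finset.subset_singleton_iff.1 hst with h3 | h3
    · exact h1.ne_empty h3
    · exact h2 h3
  have hcard : ∀ t ∈ Y, t.card ≤ m + 2 := by
    intro t ht
    by_cases h1 : t.Nonempty
    · by_cases h2 : t = {X.z}
      · rw [h2, Finset.card_singleton]; omega
      · exact (hD2 t ht h1 h2).1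
    · rw [Finset.not_nonempty_iff_eq_empty.1 h1, Finset.card_empty]; omega
  have hKY : X.K ⊆ Y := D1P.K_le
  have hvert : ∀ v ∈ verts X.K, ({v} : Finset ℕ) ∈ X.K := by
    intro v hv
    obtain ⟨σ, hσ, hvσ⟩ := D1P.mem_verts.1 hv
    exact X.cx.2 σ hσ _ (Finset.singleton_subset_iff.2 hvσ)
  have hnz : ∀ t ∈ X.K, X.z ∉ t := fun t ht h => X.hz (D1P.mem_verts.2 ⟨t, ht, h⟩)
  -- `w` as a chain of `Y`
  have hwY : ∀ t, w t ≠ 0 → t ∈ Y ∧ t.card = (m + 1) + 1 := fun t ht =>
    ⟨hKY (hw t ht).1, (hw t ht).2⟩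
  have hbY : bdS Y w = 0 := by
    rw [D1P.bdS_mono (D1P.verts_mono hKY) (fun u hu => (hw u hu).1), hbw]
  -- facets
  have hfac : ∀ s ∈ X.K, s.Nonempty → ∃ t, s ⊆ t ∧ cp X.z o c t ≠ 0 := by
    intro s hs h1
    have h2 : s ≠ {X.z} := by
      rintro rfl
      exact hnz _ hs (Finset.mem_singleton_self _)
    obtain ⟨t, ht, hst, htc⟩ := (hD2 s (hKY hs) h1 h2).2
    exact ⟨t, hst, hcpn t ht htc⟩
  -- vertices of the boundary
  have hV : ∀ v ∈ X.V, ∀ t, v ∈ t → w t = 0 := by
    intro v hv t hvt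
    obtain ⟨h1, h2⟩ := link_closed (n := m + 1) X.cx (fun t ht => hw t ht) hbw v
    obtain ⟨c', hc', hbc⟩ := hD.mfd.bdy {v} (hvert v (X.VK hv)) (Finset.singleton_nonempty v)
      (Finset.singleton_subset_iff.2 hv) (m + 1) _ h1 h2
    have h3 : c' = 0 := by
      funext u
      by_contra h4
      obtain ⟨-, h5, h6, h7⟩ := hc' u h4
      have h8 := hcard _ (hKY h6)
      rw [Finset.card_union_of_disjoint h5, Finset.card_singleton] at h8
      omega
    have h4 : cLk w {v} (t.erase v) = 0 := by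
      rw [← hbc, h3]
      unfold bdS
      simp
    rw [cLk_erase w hvt] at h4
    exact (mul_eq_zero.1 h4).resolve_left (h61_sgg_ne _ _)
  -- all vertices
  have hlam : ∀ v ∈ verts X.K, ∃ l : ℝ, ∀ t, v ∈ t → w t = cp X.z o c t * l := by
    intro v hv
    obtain ⟨h1, h2⟩ := link_closed (n := m + 1) hYcx hwY hbY v
    have hvY : ({v} : Finset ℕ) ∈ Y := hKY (hvert v hv)
    have hvz : ({v} : Finset ℕ) ≠ {X.z} := by
      intro h
      rw [Finset.singleton_inj] at h
      exact X.hz (h ▸ hv)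
    have h3 : bdN Y {v} (cLk w {v}) = 0 := by
      funext u
      have h4 := congrFun h2 u
      rw [h61_bdlink h1] at h4
      exact h4
    obtain ⟨y, -, hy⟩ := d5 Y hYcx (m + 2) (cp X.z o c) hcp hcps hcpn hcard {v} hvY
      (hSph _ hvY (Finset.singleton_nonempty v) hvz)
      (hD2 _ hvY (Finset.singleton_nonempty v) hvz).2 ℝ ⊤ (m + 1)
      (by rw [Finset.card_singleton]; omega) (cLk w {v})
      (fun u => ⟨fun hu => h1 u hu, Submodule.mem_top⟩) h3
    refine ⟨y, fun t hvt => ?_⟩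
    have h5 := hy (t.erase v)
    rw [cLk_erase w hvt, cLk_erase _ hvt, smul_eq_mul, mul_assoc] at h5
    exact mul_left_cancel₀ (h61_sgg_ne _ _) h5
  -- connectedness
  obtain ⟨v0, hv0⟩ := X.Vne
  obtain ⟨x0, hx0⟩ := X.surj v0 (X.VK hv0)
  have hzz : ∀ x, X.π x ∈ verts X.K → x ≠ X.zz := by
    rintro x hx rfl
    rw [X.pz] at hx
    exact X.hz hx
  have key : ∀ x, x ≠ X.zz → ∀ t, X.π x ∈ t → w t = 0 := by
    intro x hx
    refine conn X hD.acy (fun x => ∀ t, X.π x ∈ t → w t = 0) ?_ x0 x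
      (hzz x0 (by rw [hx0]; exact X.VK hv0)) hx (by rw [hx0]; exact hV v0 hv0)
    intro x y hPx hxy t ht
    have h1 := (X.simp _ hxy).1
    rw [Finset.image_insert, Finset.image_singleton] at h1
    obtain ⟨t0, ht0, hne⟩ := hfac _ h1 (Finset.insert_nonempty _ _)
    obtain ⟨l, hl⟩ := hlam (X.π y) (D1P.mem_verts.2 ⟨_, h1, by simp⟩)
    have h2 := hPx t0 (ht0 (by simp))
    rw [hl t0 (ht0 (by simp))] at h2
    have h3 := (mul_eq_zero.1 h2).resolve_left hne
    rw [hl t ht, h3, mul_zero]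
  funext t
  by_contra hne
  obtain ⟨h1, h2⟩ := hw t hne
  have h3 : t.Nonempty := by
    rw [← Finset.card_pos, h2]
    omega
  obtain ⟨v, hv⟩ := h3
  have hvK : v ∈ verts X.K := D1P.mem_verts.2 ⟨t, h1, hv⟩
  obtain ⟨x, hx⟩ := X.surj v hvK
  exact hne (key x (hzz x (by rw [hx]; exact hvK)) t (by rw [hx]; exact hv))

end MP8a95ee.Rk.F3aP
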