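import Pool.Agent.Work.MP_8a95ee_gt.Rk.Stmts2

/-!
MP_8a95ee_gt, block Rk, item F4: the family with the cone point.
-/

set_option autoImplicit false

namespace MP8a95ee.Rk.F4P

open Ref RA

theorem zz_ne (X : Cov) (u1 : S_U1) {x : X.W} (hx : x ≠ X.zz) : X.π x ≠ X.z := by
  intro h
  have h1 := (u1 X).2.2.2.2.2.1 x hx
  rw [h] at h1
  exact X.hz h1

theorem zz_notMem (X : Cov) (u1 : S_U1) {t : Finset X.W} (ht : t ∈ X.Kt) : X.zz ∉ t :=
  (u1 X).2.2.2.2.2.2 t ht

theorem z_notMem (X : Cov) (u1 : S_U1) {t : Finset X.W} (ht : t ∈ X.Kt) : X.z ∉ t.image X.π := by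
  intro h
  obtain ⟨x, hx, hxz⟩ := Finset.mem_image.1 h
  refine zz_ne X u1 ?_ hxz
  intro h2
  rw [h2] at hx
  exact zz_notMem X u1 ht hx

theorem inj_zz (X : Cov) (u1 : S_U1) {t : Finset X.W} (ht : t ∈ X.Kt) :
    Set.InjOn X.π ((insert X.zz t : Finset X.W) : Set X.W) := by
  rw [Finset.coe_insert, Set.injOn_insert]
  · refine ⟨(X.simp t ht).2, ?_⟩
    rintro ⟨x, hx, hxz⟩
    apply z_notMem X u1 ht
    rw [← X.pz, ← hxz]
    exact Finset.mem_image_of_mem _ hx
  · exact zz_notMem X u1 ht

theorem card_im (X : Cov) {t : Finset X.W} (ht : t ∈ X.Kt) : (t.image X.π).card = t.card :=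
  Finset.card_image_of_injOn (X.simp t ht).2

theorem oF_card {n : ℕ} (o : (Fin n → ℕ) → ℤ) {t : Finset ℕ} (h : t.card ≠ n) : oF o t = 0 := by
  unfold oF
  rw [dif_neg h]

theorem finsum_zero' {A : Type} {p : A → Prop} {f : A → ℝ} (h : ∀ a, p a → f a = 0) :
    ∑ᶠ (a : A) (_ : p a), f a = 0 := by
  refine (finsum_congr fun a => finsum_congr fun ha => h a ha).trans ?_
  simp

theorem dim_le (X : Cov) (d2 : S_D2) (m : ℕ) (h : IsHMfdB X.K X.V (m + 1)) :
    ∀ s ∈ X.L, s.card ≤ m + 1 := by
  intro s hs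
  by_cases hne : s.Nonempty
  · have hcx : IsCx X.L := by
      refine ⟨Finset.mem_filter.2 ⟨X.cx.1, Finset.empty_subset _⟩, fun σ hσ τ hτ => ?_⟩
      have h1 := Finset.mem_filter.1 hσ
      exact Finset.mem_filter.2 ⟨X.cx.2 σ h1.1 τ hτ, hτ.trans h1.2⟩
    refine (d2 X.L hcx (m + 1) s hs ?_).1
    intro t ht hst
    exact h.bd t ht (hne.mono hst)
  · rw [Finset.not_nonempty_iff_eq_empty.1 hne]
    exact Nat.zero_le _

theorem prf (u1 : S_U1) (t2 : S_T2) (t3 : S_T3) (a6 : S_A6) (a7 : S_A7) (d2 : S_D2)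
    (f1 : S_F1) (f2 : S_F2) (f3 : S_F3) : S_F4 := by
  classical
  intro X m o c b dat
  obtain ⟨Th, hTh⟩ := f2 X m o c b dat
  obtain ⟨h1, h2, h3⟩ := hTh
  have hT : ∀ α, X.Om α → ∀ t, X.T b α t ≠ 0 →
      t ∈ X.Kt ∧ (∀ x ∈ t, x ∈ X.nb α) ∧ t.card + α.card = m + 2 := by
    intro α hα t ht
    have h := t2 X m b dat.supp α hα
    rw [h.2.1 t] at ht
    exact h.2.2 t ht
  have hTc : ∀ α, X.Om α → ∀ t, X.T b α t ≠ 0 →
      X.zz ∉ t ∧ Set.InjOn X.π ((insert X.zz t : Finset X.W) : Set X.W) := by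
    intro α hα t ht
    have h := (hT α hα t ht).1
    exact ⟨zz_notMem X u1 h, inj_zz X u1 h⟩
  have hA7 : ∀ α, X.Om α → _ := fun α hα => a7 X.W X.π X.zz ℝ (X.T b α) (hTc α hα)
  refine ⟨fun α => Th α - coneT X.π X.zz (X.T b α), ?_, ?_, ?_, ?_⟩
  · intro γ α hα
    have e1 := h1 γ α hα
    have e2 := (f1 X m o c b dat α hα).2 γ
    have e3 := (a6 X.W X.π (fun w => γ • w) (MulAction.injective γ) (X.lab γ) ℝ).2.2.2 X.zz
      (X.smz γ) (X.T b α)
    have e4 : (Th α - coneT X.π X.zz (X.T b α)).mapDomain (X.tS γ) =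
        (Th α).mapDomain (X.tS γ) - (coneT X.π X.zz (X.T b α)).mapDomain (X.tS γ) := by
      have := map_sub (Finsupp.lmapDomain ℝ ℝ (X.tS γ)) (Th α) (coneT X.π X.zz (X.T b α))
      rwa [Finsupp.lmapDomain_apply, Finsupp.lmapDomain_apply, Finsupp.lmapDomain_apply] at this
    change Th (X.tA γ α) - coneT X.π X.zz (X.T b (X.tA γ α)) = _
    rw [e4, e1, e2]
    exact congrArg _ e3
  · intro α hα t ht
    have ht' : Th α t - coneT X.π X.zz (X.T b α) t ≠ 0 := ht
    by_cases hTt : Th α t = 0
    · rw [hTt, zero_sub, neg_ne_zero] at ht'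
      have hzt : X.zz ∈ t := by
        by_contra hzt
        exact ht' ((hA7 α hα).2.2 t hzt)
      have hzs : X.zz ∉ t.erase X.zz := Finset.notMem_erase _ _
      have e : insert X.zz (t.erase X.zz) = t := Finset.insert_erase hzt
      rw [← e, (hA7 α hα).2.1 _ hzs] at ht'
      have hs : X.T b α (t.erase X.zz) ≠ 0 := fun h => ht' (by rw [h, smul_zero])
      have h := hT α hα _ hs
      exact Or.inr ⟨t.erase X.zz, h.1, h.2.1, e.symm⟩
    · exact Or.inl (h2 α hα t hTt).1
  · intro α hα
    have e1 := (f1 X m o c b dat α hα).1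
    rw [map_sub, h3 α hα, (hA7 α hα).1, e1, map_neg, map_sum]
    simp only [map_smul]
    rw [sub_neg_eq_add, add_sub_add_left_eq_sub, ← Finset.sum_sub_distrib]
    exact Finset.sum_congr rfl fun β _ => (smul_sub _ _ _).symm
  · intro t ht
    rcases ht with ht | ⟨s, hs, hsV, rfl⟩
    · -- faces of `Kt`
      have hz := zz_notMem X u1 ht
      have hval : ∀ α, X.Om1 α → Th α t - coneT X.π X.zz (X.T b α) t = Th α t := by
        intro α hα
        rw [(hA7 α hα.1).2.2 t hz, sub_zero]
      have hset : {α | X.Om1 α ∧ (Th α - coneT X.π X.zz (X.T b α)) t ≠ 0} ⊆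
          {α | X.Om1 α ∧ Th α t ≠ 0} := by
        rintro α ⟨hα, hne⟩
        refine ⟨hα, ?_⟩
        rw [← hval α hα]
        exact hne
      have hsum : ∑ᶠ (α : Finset (X.W × X.W)) (_ : X.Om1 α),
          (Th α - coneT X.π X.zz (X.T b α)) t =
          ∑ᶠ (α : Finset (X.W × X.W)) (_ : X.Om1 α), Th α t :=
        finsum_congr fun α => finsum_congr fun hα => hval α hα
      have hcp : cp X.z o c (t.image X.π) = oF c (t.image X.π) := by
        unfold cp
        rw [if_neg (z_notMem X u1 ht)]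
      rw [hcp]
      by_cases hc : t.card = m + 2
      · have h := f3 X m o c b dat Th ⟨h1, h2, h3⟩ t ht hc
        exact ⟨h.1.subset hset, by rw [← h.2]; exact hsum⟩
      · have hzero : ∀ α, X.Om1 α → Th α t = 0 := by
          intro α hα
          by_contra hne
          have h := (h2 α hα.1 t hne).2
          rw [hα.2] at h
          omega
        constructor
        · refine Set.Finite.subset Set.finite_empty ?_
          intro α hα
          have h := hset hα
          exact h.2 (hzero α h.1)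
        · refine Eq.trans hsum ?_
          rw [oF_card c (by rw [card_im X ht]; exact hc)]
          exact finsum_zero' hzero
    · -- faces with the cone point
      have hz := zz_notMem X u1 hs
      have hzt : insert X.zz s ∉ X.Kt := fun h =>
        zz_notMem X u1 h (Finset.mem_insert_self _ _)
      have hzs : X.z ∉ s.image X.π := z_notMem X u1 hs
      have hval : ∀ α, X.Om α → (Th α - coneT X.π X.zz (X.T b α)) (insert X.zz s) =
          (-sg X.z (s.image X.π)) * X.Tc b α s := by
        intro α hα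
        have hTh0 : Th α (insert X.zz s) = 0 := by
          by_contra hne
          exact hzt (h2 α hα _ hne).1
        change Th α (insert X.zz s) - coneT X.π X.zz (X.T b α) (insert X.zz s) = _
        rw [hTh0, (hA7 α hα).2.1 s hz, (t2 X m b dat.supp α hα).2.1 s, X.pz, smul_eq_mul]
        ring
      have hset : {α | X.Om1 α ∧ (Th α - coneT X.π X.zz (X.T b α)) (insert X.zz s) ≠ 0} ⊆
          {α | X.Om1 α ∧ X.Tc b α s ≠ 0} := by
        rintro α ⟨hα, hne⟩
        refine ⟨hα, fun h => hne ?_⟩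
        rw [hval α hα.1, h, mul_zero]
      have hsum : ∑ᶠ (α : Finset (X.W × X.W)) (_ : X.Om1 α),
          (Th α - coneT X.π X.zz (X.T b α)) (insert X.zz s) =
          (-sg X.z (s.image X.π)) *
            ∑ᶠ (α : Finset (X.W × X.W)) (_ : X.Om1 α), X.Tc b α s := by
        have e : (-sg X.z (s.image X.π)) *
            ∑ᶠ (α : Finset (X.W × X.W)) (_ : α ∈ {α | X.Om1 α}), X.Tc b α s =
            ∑ᶠ (α : Finset (X.W × X.W)) (_ : α ∈ {α | X.Om1 α}),
              (-sg X.z (s.image X.π)) * X.Tc b α s := mul_finsum_mem _ _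
        refine Eq.trans ?_ e.symm
        exact finsum_congr fun α => finsum_congr fun hα => hval α hα.1
      have hcp : cp X.z o c ((insert X.zz s).image X.π) =
          (-sg X.z (s.image X.π)) * oF o (s.image X.π) := by
        rw [Finset.image_insert, X.pz]
        unfold cp
        rw [if_pos (Finset.mem_insert_self _ _), Finset.erase_insert hzs]
        ring
      rw [hcp]
      by_cases hc : s.card = m + 1
      · have h := t3 X m dat.hm dat.odd o dat.ori b dat.supp dat.bdb
          (dim_le X d2 m dat.mfd) s hs (fun x hx => hsV x hx) hc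
        exact ⟨h.1.subset hset, by rw [← h.2]; exact hsum⟩
      · have hzero : ∀ α, X.Om1 α → X.Tc b α s = 0 := by
          intro α hα
          by_contra hne
          have h := ((t2 X m b dat.supp α hα.1).2.2 s hne).2.2
          rw [hα.2] at h
          omega
        constructor
        · refine Set.Finite.subset Set.finite_empty ?_
          intro α hα
          have h := hset hα
          exact h.2 (hzero α h.1)
        · refine Eq.trans hsum ?_
          rw [oF_card o (by rw [card_im X hs]; exact hc), mul_zero]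
          rw [finsum_zero' hzero, mul_zero]

end MP8a95ee.Rk.F4P
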