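import Pool.Agent.Work.MP_8a95ee_gt.Rk.Stmts2

/-!
# Item F5 of the block Rk: the fillings `x α`
-/

set_option autoImplicit false

namespace MP8a95ee.Rk.F5P

open Ref RA

/-- the submodule of chains of pairs -/
def sDt {W : Type} [DecidableEq W] (Yt : Set (Finset W)) (π : W → ℕ) {N : Type}
    [AddCommGroup N] [Module ℝ N] (F : Finset ℕ → Submodule ℝ N) :
    Submodule ℝ ((Finset W × Finset W) →₀ N) where
  carrier := {x | IsDt Yt π F x}
  zero_mem' := by
    intro p
    refine ⟨fun h => ?_, ?_⟩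
    · exact absurd (Finsupp.zero_apply) h
    · rw [Finsupp.zero_apply]
      exact Submodule.zero_mem _
  add_mem' := by
    intro x y hx hy p
    refine ⟨fun h => ?_, ?_⟩
    · by_cases h1 : x p = 0
      · by_cases h2 : y p = 0
        · exfalso
          apply h
          rw [Finsupp.add_apply, h1, h2, add_zero]
        · exact (hy p).1 h2
      · exact (hx p).1 h1
    · rw [Finsupp.add_apply]
      exact Submodule.add_mem _ (hx p).2 (hy p).2
  smul_mem' := by
    intro c x hx p
    refine ⟨fun h => ?_, ?_⟩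
    · apply (hx p).1
      intro h1
      apply h
      rw [Finsupp.smul_apply, h1, smul_zero]
    · rw [Finsupp.smul_apply]
      exact Submodule.smul_mem _ _ (hx p).2

theorem mem_sDt {W : Type} [DecidableEq W] {Yt : Set (Finset W)} {π : W → ℕ} {N : Type}
    [AddCommGroup N] [Module ℝ N] {F : Finset ℕ → Submodule ℝ N}
    {x : (Finset W × Finset W) →₀ N} : x ∈ sDt Yt π F ↔ IsDt Yt π F x := Iff.rfl

theorem isDt_mono {W : Type} [DecidableEq W] {Yt Yt' : Set (Finset W)} (h : Yt ⊆ Yt')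
    {π : W → ℕ} {N : Type} [AddCommGroup N] [Module ℝ N] {F : Finset ℕ → Submodule ℝ N}
    {x : (Finset W × Finset W) →₀ N} (hx : IsDt Yt π F x) : IsDt Yt' π F x :=
  fun p => ⟨fun hp => ⟨((hx p).1 hp).1, h ((hx p).1 hp).2⟩, (hx p).2⟩

theorem xf_mono (X : Cov) {B B' : Set X.W} (h : B ⊆ B') : X.Xf B ⊆ X.Xf B' := by
  intro t ht
  rcases ht with ht | ⟨s, hs, hB, rfl⟩
  · exact Or.inl ht
  · exact Or.inr ⟨s, hs, fun x hx => h (hB x hx), rfl⟩

theorem tS_inj (X : Cov) (γ : X.Γ) : Function.Injective (X.tS γ) :=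
  Finset.image_injective (MulAction.injective γ)

theorem tS_xf (X : Cov) (γ : X.Γ) {B B' : Set X.W} (h : ∀ x ∈ B, γ • x ∈ B') {t : Finset X.W}
    (ht : t ∈ X.Xf B) : X.tS γ t ∈ X.Xf B' := by
  rcases ht with ht | ⟨s, hs, hB, rfl⟩
  · exact Or.inl (X.smK γ t ht)
  · refine Or.inr ⟨X.tS γ s, X.smK γ s hs, ?_, ?_⟩
    · intro x hx
      obtain ⟨y, hy, rfl⟩ := Finset.mem_image.1 hx
      exact h y (hB y hy)
    · unfold Cov.tS
      rw [Finset.image_insert, X.smz γ]

theorem tS_lab (X : Cov) (γ : X.Γ) (t : Finset X.W) : (X.tS γ t).image X.π = t.image X.π := by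
  unfold Cov.tS
  rw [Finset.image_image]
  apply Finset.image_congr
  intro x _
  exact X.lab γ x

theorem isDt_map (X : Cov) (γ : X.Γ) {B B' : Set X.W} (h : ∀ x ∈ B, γ • x ∈ B') {N : Type}
    [AddCommGroup N] [Module ℝ N] {F : Finset ℕ → Submodule ℝ N}
    {x : (Finset X.W × Finset X.W) →₀ N} (hx : IsDt (X.Xf B) X.π F x) :
    IsDt (X.Xf B') X.π F (x.mapDomain fun p => (X.tS γ p.1, X.tS γ p.2)) := by
  have hinj : Function.Injective
      (fun p : Finset X.W × Finset X.W => (X.tS γ p.1, X.tS γ p.2)) := by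
    intro p q hpq
    have h1 := congrArg Prod.fst hpq
    have h2 := congrArg Prod.snd hpq
    exact Prod.ext (tS_inj X γ h1) (tS_inj X γ h2)
  intro q
  by_cases hq : q ∈ Set.range
      (fun p : Finset X.W × Finset X.W => (X.tS γ p.1, X.tS γ p.2))
  · obtain ⟨p, rfl⟩ := hq
    rw [Finsupp.mapDomain_apply hinj]
    refine ⟨fun hp => ⟨?_, ?_⟩, ?_⟩
    · have h1 := ((hx p).1 hp).1
      show Disjoint (X.tS γ p.1) (X.tS γ p.2)
      unfold Cov.tS
      rw [Finset.disjoint_image (MulAction.injective γ)]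
      exact h1
    · have h1 := ((hx p).1 hp).2
      show X.tS γ p.1 ∪ X.tS γ p.2 ∈ X.Xf B'
      have h2 := tS_xf X γ h h1
      unfold Cov.tS at h2 ⊢
      rw [← Finset.image_union]
      exact h2
    · show x p ∈ F ((X.tS γ p.1).image X.π)
      rw [tS_lab]
      exact (hx p).2
  · rw [Finsupp.mapDomain_of_notMem_range _ _ hq]
    exact ⟨fun h0 => absurd rfl h0, Submodule.zero_mem _⟩

theorem prf (hE1 : S_E1) (hQ5 : S_Q5) (hA5 : S_A5) (hA6 : S_A6) (hC2 : S_C2) (hT4 : S_T4)
    (hT5 : S_T5) (hT6 : S_T6) (hL1 : S_L1) : S_F5 := by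
  intro X m o c hac Tp hTp N _ _ e he φ hφ hdφ
  obtain ⟨hTp1, hTp2, hTp3, -⟩ := hTp
  have hcs : IsCS (Kp X.K X.V X.z) (FF X.z e) (rr X.z e) :=
    hC2 X.K X.V X.z X.cx X.VK X.flag X.hz N e he
  have hlab := (hL1 X).2.2.2.2.2.2.1
  have hnbV : ∀ (α : Finset (X.W × X.W)), ∀ x ∈ X.nb α, X.π x ∈ X.V := fun α x hx => hx.1
  have hcap : ∀ α, X.Om α → IsDt (X.Xf (X.nb α)) X.π (FF X.z e) (capT X.π φ (Tp α)) ∧
      dT X.π (rr X.z e) (capT X.π φ (Tp α)) = capT X.π φ (bdl X.π (Tp α)) := by
    intro α hα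
    exact (hA5 X.W X.π N φ (Tp α)).2 (Kp X.K X.V X.z) (X.Xf (X.nb α)) (hlab _ (hnbV α))
      (FF X.z e) (rr X.z e) hcs hφ hdφ (hTp2 α hα)
  have hA6' := fun (γ : X.Γ) => hA6 X.W X.π (fun w => γ • w) (MulAction.injective γ)
    (fun w => X.lab γ w) N
  obtain ⟨x, hx1, hx2, hx3⟩ := hE1 (Finset (X.W × X.W)) ((Finset X.W × Finset X.W) →₀ N) X.Γ
    X.tA
    (by
      intro a
      unfold Cov.tA
      simp)
    (by
      intro g h a
      unfold Cov.tA
      rw [Finset.image_image]
      apply Finset.image_congr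
      intro p _
      simp [mul_smul])
    (fun γ => Finsupp.lmapDomain N ℝ
      (fun p : Finset X.W × Finset X.W => (X.tS γ p.1, X.tS γ p.2)))
    (by
      intro x
      have h0 : (fun p : Finset X.W × Finset X.W => (X.tS (1 : X.Γ) p.1, X.tS (1 : X.Γ) p.2))
          = id := by
        funext p
        unfold Cov.tS
        simp
      rw [Finsupp.lmapDomain_apply, h0, Finsupp.mapDomain_id])
    (by
      intro g h x
      rw [Finsupp.lmapDomain_apply, Finsupp.lmapDomain_apply, Finsupp.lmapDomain_apply,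
        ← Finsupp.mapDomain_comp]
      congr 1
      funext p
      unfold Cov.tS
      simp only [Function.comp, Finset.image_image, mul_smul]
      rfl)
    X.Om
    (fun g a ha => (hT4 X g a ha).1)
    (fun g a ha hg => (hT4 X g a ha).2.2.2.2.2.1 hg)
    Finset.card
    (fun g a ha => (hT4 X g a ha).2.2.2.2.2.2)
    X.V.card
    (fun a ha => (hT5 X a ha).2.2.2.1)
    X.cov
    (fun a ha b hb => ⟨(((hT5 X a ha).2.1 b).1 hb).1, ((hT5 X a ha).2.2.1 b hb).1⟩)
    (fun g a b ha => (hT4 X g a ha).2.2.1 b)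
    X.inc
    (fun g a b ha => (hT4 X g a ha).2.2.2.1 b)
    (fun a ha h => hT6 X a ha _ h)
    (dT X.π (rr X.z e))
    (by
      intro g x
      rw [Finsupp.lmapDomain_apply, Finsupp.lmapDomain_apply]
      exact (hA6' g).2.1 (rr X.z e) x)
    (fun α => sDt (X.Xf (X.nb α)) X.π (FF X.z e))
    (fun α => sDt (X.Xf (X.nb α)) X.π (FF X.z e))
    (by
      intro g a x ha hx
      rw [Finsupp.lmapDomain_apply]
      exact isDt_map X g (fun y hy => ((hT4 X g a ha).2.1 y).2 hy) hx)
    (by
      intro a ha b hb x hx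
      exact isDt_mono (xf_mono X ((hT5 X a ha).2.2.1 b hb).2) hx)
    (by
      intro a ha x hx hdx
      obtain ⟨hne, hpr, hort, -⟩ := ha
      obtain ⟨p, hp⟩ := hne
      have hp1 : p.1 ∈ vs a := by
        unfold vs
        exact Finset.mem_union_left _ (Finset.mem_image_of_mem _ hp)
      have hp2 : p.2 ∈ vs a := by
        unfold vs
        exact Finset.mem_union_right _ (Finset.mem_image_of_mem _ hp)
      obtain ⟨y, hy1, hy2⟩ := hQ5 X hac N e he (X.nb a) (hnbV a) p.1 p.2
        ⟨(hpr p hp).2.1, Or.inl hp1⟩ ⟨(hpr p hp).2.2.1, Or.inl hp2⟩ (hpr p hp).1.ne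
        (hpr p hp).2.2.2
        (by
          intro w hw hw1 hw2
          rcases hw.2 with hv | hv
          · unfold vs at hv
            rcases Finset.mem_union.1 hv with h | h
            · obtain ⟨q, hq, rfl⟩ := Finset.mem_image.1 h
              have hqp : q ≠ p := by
                rintro rfl
                exact hw1 rfl
              have h3 := hort q hq p hp hqp
              exact ⟨h3.1, h3.2.1⟩
            · obtain ⟨q, hq, rfl⟩ := Finset.mem_image.1 h
              have hqp : q ≠ p := by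
                rintro rfl
                exact hw2 rfl
              have h3 := hort q hq p hp hqp
              exact ⟨h3.2.2.1, h3.2.2.2⟩
          · exact ⟨hv p.1 hp1, hv p.2 hp2⟩)
        x hx hdx
      exact ⟨y, hy1, hy2⟩)
    1
    (fun α => capT X.π φ (Tp α))
    (by
      intro g a ha
      rw [Finsupp.lmapDomain_apply]
      show capT X.π φ (Tp (X.tA g a)) = _
      rw [hTp1 g a ha]
      exact (hA6' g).2.2.1 φ (Tp a))
    (fun a ha => (hcap a ha).1)
    (by
      intro a ha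
      show dT X.π (rr X.z e) (capT X.π φ (Tp a)) = _
      rw [(hcap a ha).2, hTp3 a ha, map_sum, one_smul]
      apply Finset.sum_congr rfl
      intro b _
      rw [map_smul])
  refine ⟨x, ?_, fun α hα => hx2 α hα, ?_⟩
  · intro γ α hα
    rw [hx1 γ α hα, Finsupp.lmapDomain_apply]
  · intro α hα
    have h := hx3 α hα
    rw [one_smul] at h
    exact h

end MP8a95ee.Rk.F5P
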