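import Pool.Agent.Work.MP_8a95ee_gt.Rk.Stmts2

set_option autoImplicit false

namespace MP8a95ee.Rk.L1P

open Ref RA

lemma mem_verts {K : Finset (Finset ℕ)} {v : ℕ} {s : Finset ℕ} (hs : s ∈ K) (hv : v ∈ s) :
    v ∈ verts K := by
  unfold verts
  exact Finset.mem_biUnion.mpr ⟨s, hs, hv⟩

lemma mem_Kp {K : Finset (Finset ℕ)} {V : Finset ℕ} {z : ℕ} {w : Finset ℕ} :
    w ∈ Kp K V z ↔ w ∈ K ∨ ∃ s, s ∈ K ∧ s ⊆ V ∧ insert z s = w := by
  unfold Kp sub
  simp only [Finset.mem_union, Finset.mem_image, Finset.mem_filter]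
  constructor
  · rintro (h | ⟨s, ⟨h1, h2⟩, h3⟩)
    · exact Or.inl h
    · exact Or.inr ⟨s, h1, h2, h3⟩
  · rintro (h | ⟨s, h1, h2, h3⟩)
    · exact Or.inl h
    · exact Or.inr ⟨s, ⟨h1, h2⟩, h3⟩

lemma lab_ne (X : Cov) {w : X.W} (hw : w ≠ X.zz) : X.π w ∈ verts X.K := by
  have h1 := X.simp _ (X.vert w hw)
  exact mem_verts h1.1 (Finset.mem_image_of_mem _ (Finset.mem_singleton_self w))

lemma lab_z (X : Cov) {w : X.W} (hw : X.π w = X.z) : w = X.zz := by
  by_contra h
  exact X.hz (hw ▸ lab_ne X h)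

lemma zz_notin (X : Cov) {t : Finset X.W} (ht : t ∈ X.Kt) : X.zz ∉ t := by
  intro h
  have h1 := (X.simp t ht).1
  have h2 : X.z ∈ t.image X.π := by
    rw [← X.pz]
    exact Finset.mem_image_of_mem _ h
  exact X.hz (mem_verts h1 h2)

lemma z_notin_V (X : Cov) : X.z ∉ X.V := fun h => X.hz (X.VK h)

/-- structure of the faces -/
lemma st (X : Cov) {B : Set X.W} {t : Finset X.W} (ht : t ∈ X.Xf B) :
    t.erase X.zz ∈ X.Kt ∧ (X.zz ∈ t → ∀ x ∈ t.erase X.zz, x ∈ B) := by
  rcases ht with h | ⟨s, h1, h2, h3⟩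
  · have h4 := zz_notin X h
    rw [Finset.erase_eq_of_notMem h4]
    exact ⟨h, fun h5 => absurd h5 h4⟩
  · have h4 := zz_notin X h1
    subst h3
    rw [Finset.erase_insert h4]
    exact ⟨h1, fun _ => h2⟩

lemma st_mk (X : Cov) {B : Set X.W} {t : Finset X.W} (h1 : t.erase X.zz ∈ X.Kt)
    (h2 : X.zz ∈ t → ∀ x ∈ t.erase X.zz, x ∈ B) : t ∈ X.Xf B := by
  by_cases h : X.zz ∈ t
  · exact Or.inr ⟨t.erase X.zz, h1, h2 h, (Finset.insert_erase h).symm⟩
  · rw [Finset.erase_eq_of_notMem h] at h1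
    exact Or.inl h1

lemma img_erase (X : Cov) (t : Finset X.W) :
    (t.erase X.zz).image X.π = (t.image X.π).erase X.z := by
  ext a
  simp only [Finset.mem_image, Finset.mem_erase]
  constructor
  · rintro ⟨x, ⟨h1, h2⟩, h3⟩
    refine ⟨?_, x, h2, h3⟩
    rintro rfl
    exact h1 (lab_z X h3)
  · rintro ⟨h1, x, h2, h3⟩
    refine ⟨x, ⟨?_, h2⟩, h3⟩
    rintro rfl
    exact h1 (h3.symm.trans X.pz)

lemma zz_mem (X : Cov) (t : Finset X.W) : X.zz ∈ t ↔ X.z ∈ t.image X.π := by
  constructor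
  · intro h
    rw [← X.pz]
    exact Finset.mem_image_of_mem _ h
  · intro h
    obtain ⟨x, h1, h2⟩ := Finset.mem_image.mp h
    rw [← lab_z X h2]
    exact h1

lemma inj (X : Cov) {B : Set X.W} {t : Finset X.W} (ht : t ∈ X.Xf B) :
    Set.InjOn X.π (t : Set X.W) := by
  have h1 := (X.simp _ (st X ht).1).2
  intro x hx y hy hxy
  by_cases hxz : x = X.zz
  · rw [hxz]
    have : X.π y = X.z := by rw [← hxy, hxz, X.pz]
    exact (lab_z X this).symm
  · by_cases hyz : y = X.zz
    · rw [hyz]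
      have : X.π x = X.z := by rw [hxy, hyz, X.pz]
      exact lab_z X this
    · exact h1 (Finset.mem_coe.mpr (Finset.mem_erase.mpr ⟨hxz, Finset.mem_coe.mp hx⟩))
        (Finset.mem_coe.mpr (Finset.mem_erase.mpr ⟨hyz, Finset.mem_coe.mp hy⟩)) hxy

lemma lift_ex (X : Cov) {w : Finset ℕ} (hw : w ∈ X.K) : ∃ t ∈ X.Kt, t.image X.π = w := by
  rcases w.eq_empty_or_nonempty with h | ⟨v, hv⟩
  · exact ⟨∅, X.emp, by rw [h]; exact Finset.image_empty _⟩
  · obtain ⟨x, hx⟩ := X.surj v (mem_verts hw hv)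
    have hxz : x ≠ X.zz := by
      rintro rfl
      exact X.hz (by rw [← X.pz, hx]; exact mem_verts hw hv)
    obtain ⟨t, ⟨h1, _, h3⟩, _⟩ := X.lift x hxz w hw (by rw [hx]; exact hv)
    exact ⟨t, h1, h3⟩

lemma ne_zz (X : Cov) {t : Finset X.W} (ht : t ∈ X.Kt) {x : X.W} (hx : x ∈ t) : x ≠ X.zz := by
  rintro rfl
  exact zz_notin X ht hx

/-- two lifts of the same face at a vertex are equal -/
lemma lift_uniq (X : Cov) {s t : Finset X.W} (hs : s ∈ X.Kt) (ht : t ∈ X.Kt) {x : X.W}
    (hxs : x ∈ s) (hxt : x ∈ t) (h : s.image X.π = t.image X.π) : s = t := by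
  have h1 := X.lift x (ne_zz X hs hxs) (t.image X.π) (X.simp t ht).1
    (Finset.mem_image_of_mem _ hxt)
  exact h1.unique ⟨hs, hxs, h⟩ ⟨ht, hxt, rfl⟩

lemma core_nonempty (X : Cov) {t : Finset X.W} (h0 : t ≠ ∅) (h1 : t ≠ {X.zz}) :
    (t.erase X.zz).Nonempty := by
  rw [Finset.nonempty_iff_ne_empty]
  intro h
  rw [Finset.erase_eq_empty_iff] at h
  rcases h with h | h
  · exact h0 h
  · exact h1 h

lemma img_tS (X : Cov) (γ : X.Γ) (t : Finset X.W) : (X.tS γ t).image X.π = t.image X.π := by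
  unfold Cov.tS
  rw [Finset.image_image]
  apply Finset.image_congr
  intro x _
  exact X.lab γ x

lemma tS_erase (X : Cov) (γ : X.Γ) (t : Finset X.W) :
    (X.tS γ t).erase X.zz = X.tS γ (t.erase X.zz) := by
  unfold Cov.tS
  ext y
  simp only [Finset.mem_erase, Finset.mem_image]
  constructor
  · rintro ⟨h1, x, h2, h3⟩
    refine ⟨x, ⟨?_, h2⟩, h3⟩
    rintro rfl
    exact h1 (h3.symm.trans (X.smz γ))
  · rintro ⟨x, ⟨h1, h2⟩, h3⟩
    refine ⟨?_, x, h2, h3⟩
    rintro rfl
    apply h1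
    have h4 : X.π x = X.z := by rw [← X.lab γ x, h3, X.pz]
    exact lab_z X h4

lemma lab7 (X : Cov) (B : Set X.W) (hB : ∀ x ∈ B, X.π x ∈ X.V) :
    IsLab (Kp X.K X.V X.z) X.π (X.Xf B) := by
  constructor
  · intro t ht
    refine ⟨?_, inj X ht⟩
    rw [mem_Kp]
    have h1 := st X ht
    by_cases hz : X.zz ∈ t
    · refine Or.inr ⟨(t.erase X.zz).image X.π, (X.simp _ h1.1).1, ?_, ?_⟩
      · intro a ha
        obtain ⟨x, hx, rfl⟩ := Finset.mem_image.mp ha
        exact hB x (h1.2 hz x hx)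
      · rw [img_erase]
        exact Finset.insert_erase ((zz_mem X t).mp hz)
    · rw [Finset.erase_eq_of_notMem hz] at h1
      exact Or.inl (X.simp _ h1.1).1
  · intro t ht s hs
    have h1 := st X ht
    refine st_mk X (X.down _ h1.1 _ (Finset.erase_subset_erase _ hs)) ?_
    intro hz x hx
    exact h1.2 (hs hz) x (Finset.erase_subset_erase _ hs hx)

lemma mono8 (X : Cov) (B : Set X.W) (hB : ∀ x ∈ B, X.π x ∈ X.V) :
    X.Xf B ⊆ X.Xf {x | X.π x ∈ X.V} := by
  intro t ht
  have h1 := st X ht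
  exact st_mk X h1.1 fun hz x hx => hB x (h1.2 hz x hx)

/-- the label `a` can be added to the core -/
lemma core_insert (X : Cov) {t : Finset X.W} {a : ℕ} (haz : a ≠ X.z)
    (h : insert a (t.image X.π) ∈ Kp X.K X.V X.z) :
    insert a ((t.erase X.zz).image X.π) ∈ X.K ∧
      (X.zz ∈ t → insert a ((t.erase X.zz).image X.π) ⊆ X.V) := by
  rw [img_erase]
  have he : insert a ((t.image X.π).erase X.z) = (insert a (t.image X.π)).erase X.z := by
    rw [Finset.erase_insert_of_ne haz]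
  rcases mem_Kp.mp h with h1 | ⟨s, h1, h2, h3⟩
  · have h4 : X.z ∉ insert a (t.image X.π) := fun h5 => X.hz (mem_verts h1 h5)
    rw [he, Finset.erase_eq_of_notMem h4]
    refine ⟨h1, fun hz => ?_⟩
    exact absurd (Finset.mem_insert_of_mem ((zz_mem X t).mp hz)) h4
  · have h4 : X.z ∉ s := fun h5 => X.hz (mem_verts h1 h5)
    rw [he, ← h3, Finset.erase_insert h4]
    exact ⟨h1, fun _ => h2⟩

lemma ext3 (X : Cov) {t : Finset X.W} (ht : t ∈ X.Xf {x | X.π x ∈ X.V}) (h0 : t ≠ ∅)
    (hzz : t ≠ {X.zz}) {a : ℕ} (ha : a ∉ t.image X.π)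
    (h : insert a (t.image X.π) ∈ Kp X.K X.V X.z) :
    ∃! y, X.π y = a ∧ insert y t ∈ X.Xf {x | X.π x ∈ X.V} := by
  have hs := st X ht
  by_cases haz : a = X.z
  · subst haz
    have hzt : X.zz ∉ t := fun h1 => ha ((zz_mem X t).mp h1)
    have htK : t ∈ X.Kt := by
      have := hs.1
      rwa [Finset.erase_eq_of_notMem hzt] at this
    have hV : t.image X.π ⊆ X.V := by
      rcases mem_Kp.mp h with h1 | ⟨s, h1, h2, h3⟩
      · exact absurd (mem_verts h1 (Finset.mem_insert_self _ _)) X.hz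
      · have h4 : X.z ∉ s := fun h5 => X.hz (mem_verts h1 h5)
        have h5 : t.image X.π = s := by
          have := congrArg (fun u => u.erase X.z) h3
          simp only [Finset.erase_insert h4, Finset.erase_insert ha] at this
          exact this.symm
        rw [h5]
        exact h2
    refine ⟨X.zz, ⟨X.pz, ?_⟩, fun y hy => lab_z X hy.1⟩
    refine Or.inr ⟨t, htK, ?_, rfl⟩
    intro x hx
    exact hV (Finset.mem_image_of_mem _ hx)
  · obtain ⟨x, hx⟩ := core_nonempty X h0 hzz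
    have hc := core_insert X haz h
    have hxz : x ≠ X.zz := ne_zz X hs.1 hx
    have hxa : X.π x ∈ insert a ((t.erase X.zz).image X.π) :=
      Finset.mem_insert_of_mem (Finset.mem_image_of_mem _ hx)
    obtain ⟨σ, ⟨hσ1, hσ2, hσ3⟩, hσ4⟩ := X.lift x hxz _ hc.1 hxa
    have hinjσ := (X.simp σ hσ1).2
    have hay : a ∈ σ.image X.π := by rw [hσ3]; exact Finset.mem_insert_self _ _
    obtain ⟨y, hy1, hy2⟩ := Finset.mem_image.mp hay
    have hanc : a ∉ (t.erase X.zz).image X.π := by
      rw [img_erase]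
      intro h1
      exact ha (Finset.mem_of_mem_erase h1)
    -- the part of σ over the core
    have hfil : σ.filter (fun u => X.π u ∈ (t.erase X.zz).image X.π) = t.erase X.zz := by
      apply lift_uniq X (x := x)
      · exact X.down _ hσ1 _ (Finset.filter_subset _ _)
      · exact hs.1
      · exact Finset.mem_filter.mpr ⟨hσ2, Finset.mem_image_of_mem _ hx⟩
      · exact hx
      · ext b
        simp only [Finset.mem_image, Finset.mem_filter]
        constructor
        · rintro ⟨u, ⟨_, h2⟩, h3⟩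
          rw [← h3]
          exact h2
        · rintro ⟨u, h1, h2⟩
          have h3 : b ∈ σ.image X.π := by
            rw [hσ3, ← h2]
            exact Finset.mem_insert_of_mem (Finset.mem_image_of_mem _ h1)
          obtain ⟨w, hw1, hw2⟩ := Finset.mem_image.mp h3
          exact ⟨w, ⟨hw1, u, h1, h2.trans hw2.symm⟩, hw2⟩
    have hσeq : σ = insert y (t.erase X.zz) := by
      ext u
      rw [Finset.mem_insert]
      constructor
      · intro hu
        have h1 : X.π u ∈ insert a ((t.erase X.zz).image X.π) := by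
          rw [← hσ3]
          exact Finset.mem_image_of_mem _ hu
        rcases Finset.mem_insert.mp h1 with h2 | h2
        · exact Or.inl (hinjσ hu hy1 (h2.trans hy2.symm))
        · right
          rw [← hfil]
          exact Finset.mem_filter.mpr ⟨hu, h2⟩
      · rintro (h1 | h1)
        · rw [h1]
          exact hy1
        · rw [← hfil] at h1
          exact (Finset.mem_filter.mp h1).1
    have hyz : y ≠ X.zz := ne_zz X hσ1 hy1
    refine ⟨y, ⟨hy2, ?_⟩, ?_⟩
    · apply st_mk X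
      · rw [Finset.erase_insert_of_ne hyz, ← hσeq]
        exact hσ1
      · intro h1 u hu
        rw [Finset.erase_insert_of_ne hyz, ← hσeq] at hu
        have h2 : X.zz ∈ t := by
          rcases Finset.mem_insert.mp h1 with h3 | h3
          · exact absurd h3.symm hyz
          · exact h3
        have h3 := hc.2 h2
        rw [← hσ3] at h3
        exact h3 (Finset.mem_image_of_mem _ hu)
    · rintro y' ⟨hy1', hy2'⟩
      have hyz' : y' ≠ X.zz := by
        rintro rfl
        exact haz (hy1'.symm.trans X.pz)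
      have h1 := (st X hy2').1
      rw [Finset.erase_insert_of_ne hyz'] at h1
      have h2 : insert y' (t.erase X.zz) = σ := by
        apply hσ4
        refine ⟨h1, Finset.mem_insert_of_mem hx, ?_⟩
        rw [Finset.image_insert, hy1']
      have h3 : y' ∈ σ := by
        rw [← h2]
        exact Finset.mem_insert_self _ _
      exact hinjσ h3 hy1 (hy1'.trans hy2.symm)

theorem prf : S_L1 := by
  intro X
  refine ⟨?_, ?_, ?_, ?_, ?_, ?_, ?_, ?_⟩
  · intro w hw
    rcases mem_Kp.mp hw with h | ⟨s, h1, h2, h3⟩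
    · obtain ⟨t, ht1, ht2⟩ := lift_ex X h
      exact ⟨t, Or.inl ht1, ht2⟩
    · obtain ⟨t, ht1, ht2⟩ := lift_ex X h1
      refine ⟨insert X.zz t, Or.inr ⟨t, ht1, ?_, rfl⟩, ?_⟩
      · intro x hx
        apply h2
        rw [← ht2]
        exact Finset.mem_image_of_mem _ hx
      · rw [Finset.image_insert, ht2, X.pz, h3]
  · intro t ht t' ht' h0 hzz himg
    have hs := st X ht
    have hs' := st X ht'
    obtain ⟨x, hx⟩ := core_nonempty X h0 hzz
    have hi : (t.erase X.zz).image X.π = (t'.erase X.zz).image X.π := by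
      rw [img_erase, img_erase, himg]
    have hx1 : X.π x ∈ (t'.erase X.zz).image X.π := by
      rw [← hi]
      exact Finset.mem_image_of_mem _ hx
    obtain ⟨x', hx', hxx⟩ := Finset.mem_image.mp hx1
    obtain ⟨γ, hγ⟩ := X.trans x x' hxx.symm
    refine ⟨γ, ?_⟩
    have h1 : X.tS γ (t.erase X.zz) = t'.erase X.zz := by
      apply lift_uniq X (x := x')
      · exact X.smK γ _ hs.1
      · exact hs'.1
      · unfold Cov.tS
        exact Finset.mem_image.mpr ⟨x, hx, hγ⟩
      · exact hx'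
      · rw [img_tS, hi]
    rw [← tS_erase] at h1
    have h2 : X.zz ∈ X.tS γ t ↔ X.zz ∈ t' := by
      rw [zz_mem, zz_mem, img_tS, himg]
    by_cases h3 : X.zz ∈ t'
    · rw [← Finset.insert_erase (h2.mpr h3), h1, Finset.insert_erase h3]
    · have h4 : X.zz ∉ X.tS γ t := fun h5 => h3 (h2.mp h5)
      rw [Finset.erase_eq_of_notMem h3, Finset.erase_eq_of_notMem h4] at h1
      exact h1
  · intro t ht h0 hzz a ha h
    exact ext3 X ht h0 hzz ha h
  · intro t ht h0 hzz γ hγ
    obtain ⟨x, hx⟩ := core_nonempty X h0 hzz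
    have hs := st X ht
    have hxt : x ∈ t := Finset.mem_of_mem_erase hx
    have h1 : γ • x ∈ t := by
      rw [← hγ]
      unfold Cov.tS
      exact Finset.mem_image.mpr ⟨x, hxt, rfl⟩
    have h2 : γ • x = x := inj X ht h1 hxt (X.lab γ x)
    exact X.free γ x (ne_zz X hs.1 hx) h2
  · intro t ht γ
    have hs := st X ht
    apply st_mk X
    · rw [tS_erase]
      exact X.smK γ _ hs.1
    · intro hz y hy
      rw [tS_erase] at hy
      unfold Cov.tS at hy
      obtain ⟨x, hx, rfl⟩ := Finset.mem_image.mp hy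
      have h1 : X.zz ∈ t := by
        rw [zz_mem, img_tS] at hz
        exact (zz_mem X t).mpr hz
      have h2 := hs.2 h1 x hx
      show X.π (γ • x) ∈ X.V
      rw [X.lab]
      exact h2
  · intro t ht h0 hzz
    have hL := lab7 X {x | X.π x ∈ X.V} (fun x hx => hx)
    apply Set.Finite.of_finite_image (f := X.π)
    · apply (verts (Kp X.K X.V X.z)).finite_toSet.subset
      rintro a ⟨y, ⟨_, hy2⟩, rfl⟩
      have h1 := (hL.simp _ hy2).1
      exact mem_verts h1 (Finset.mem_image_of_mem _ (Finset.mem_insert_self _ _))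
    · rintro y ⟨hy1, hy2⟩ y' ⟨hy1', hy2'⟩ hyy
      have h1 := hL.simp _ hy2
      have h2 : X.π y ∉ t.image X.π := by
        intro h3
        obtain ⟨x, hx, hxy⟩ := Finset.mem_image.mp h3
        have h4 : x = y := h1.2 (by simp [hx]) (by simp) hxy
        exact hy1 (h4 ▸ hx)
      have h3 := h1.1
      rw [Finset.image_insert] at h3
      exact (ext3 X ht h0 hzz h2 h3).unique ⟨rfl, hy2⟩ ⟨hyy.symm, hy2'⟩
  · intro B hB
    exact lab7 X B hB
  · intro B hB
    exact mono8 X B hB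

end MP8a95ee.Rk.L1P
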