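import Pool.Agent.Work.MP_8a95ee_gt.Rk.Stmts2

/-!
Block Rk, item O1: adding the cone point to a regular covering.
-/

set_option autoImplicit false

namespace MP8a95ee.Rk.O1P

open MP8a95ee.Ref MP8a95ee.RA

/-- the image of a finite set in `Option W` -/
def J {W : Type} [DecidableEq W] (σ : Finset W) : Finset (Option W) := σ.image some

theorem J_inj {W : Type} [DecidableEq W] : Function.Injective (J : Finset W → Finset (Option W)) :=
  Finset.image_injective (Option.some_injective W)

/-- the labels -/
def pi' {W : Type} (z : ℕ) (π : W → ℕ) (o : Option W) : ℕ := o.elim z π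

theorem J_image {W : Type} [DecidableEq W] (z : ℕ) (π : W → ℕ) (σ : Finset W) :
    (J σ).image (pi' z π) = σ.image π := by
  unfold J
  rw [Finset.image_image]
  rfl

theorem J_erase {W : Type} [DecidableEq W] (σ : Finset W) (a : W) :
    (J σ).erase (some a) = J (σ.erase a) := by
  unfold J
  rw [Finset.image_erase (Option.some_injective W)]

theorem bdl_J {W : Type} [DecidableEq W] (z : ℕ) (π : W → ℕ) (c : Finset W →₀ ℝ) :
    bdl (pi' z π) (c.mapDomain J) = (bdl π c).mapDomain J := by
  have h : (bdl (M := ℝ) (pi' z π)).comp (Finsupp.lmapDomain ℝ ℝ J) =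
      (Finsupp.lmapDomain ℝ ℝ J).comp (bdl (M := ℝ) π) := by
    apply Finsupp.lhom_ext
    intro σ m
    simp only [LinearMap.comp_apply, Finsupp.lmapDomain_apply, Finsupp.mapDomain_single]
    unfold bdl
    simp only [Finsupp.lsum_single, LinearMap.sum_apply, LinearMap.smul_apply,
      Finsupp.lsingle_apply]
    rw [← Finsupp.lmapDomain_apply ℝ ℝ, map_sum]
    have hJ : J σ = σ.image some := rfl
    rw [hJ, Finset.sum_image (fun a _ b _ hab => Option.some_injective W hab), ← hJ]
    apply Finset.sum_congr rfl
    intro a _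
    rw [map_smul, Finsupp.lmapDomain_apply, Finsupp.mapDomain_single, J_erase, J_image]
    rfl
  have h1 := LinearMap.congr_fun h c
  simpa only [LinearMap.comp_apply, Finsupp.lmapDomain_apply] using h1

theorem acyc {W : Type} [DecidableEq W] (z : ℕ) (π : W → ℕ) (Kt : Set (Finset W))
    (h : IsAcyclic π Kt) : IsAcyclic (pi' z π) {σ | ∃ τ ∈ Kt, σ = J τ} := by
  intro c hc hb
  set c0 : Finset W →₀ ℝ := c.comapDomain J J_inj.injOn with hc0
  have h1 : c0.mapDomain J = c := by
    rw [hc0]
    apply Finsupp.mapDomain_comapDomain _ J_inj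
    intro σ hσ
    obtain ⟨τ, _, rfl⟩ := hc σ (Finsupp.mem_support_iff.mp hσ)
    exact ⟨τ, rfl⟩
  have h2 : ∀ σ, c0 σ ≠ 0 → σ ∈ Kt := by
    intro σ hσ
    rw [hc0, Finsupp.comapDomain_apply] at hσ
    obtain ⟨τ, hτ, hτ'⟩ := hc _ hσ
    rw [J_inj hτ']
    exact hτ
  have h3 : bdl π c0 = 0 := by
    apply Finsupp.mapDomain_injective J_inj
    rw [← bdl_J z, h1, hb, Finsupp.mapDomain_zero]
  obtain ⟨c', hc', hbc'⟩ := h c0 h2 h3
  refine ⟨c'.mapDomain J, ?_, ?_⟩
  · intro σ hσ
    have h4 := Finsupp.mapDomain_support (Finsupp.mem_support_iff.mpr hσ)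
    obtain ⟨τ, hτ, rfl⟩ := Finset.mem_image.mp h4
    exact ⟨τ, hc' τ (Finsupp.mem_support_iff.mp hτ), rfl⟩
  · rw [bdl_J, hbc', h1]

theorem prf : S_O1 := by
  intro K hK V hVne hV hfl W Γ iW iG iA π Kt hcov hac
  have hz : (verts K).sup id + 1 ∉ verts K := by
    intro h
    have := Finset.le_sup (f := id) h
    simp only [id] at this
    omega
  have hpv : ∀ w, π w ∈ verts K := by
    intro w
    have h1 := (hcov.simp _ (hcov.vert w)).1
    rw [Finset.image_singleton] at h1
    exact Finset.mem_biUnion.mpr ⟨_, h1, Finset.mem_singleton_self _⟩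
  have hemp : (∅ : Finset W) ∈ Kt := by
    obtain ⟨v, hv⟩ := hVne
    obtain ⟨w, _⟩ := hcov.surj v (hV hv)
    exact hcov.down _ (hcov.vert w) _ (Finset.empty_subset _)
  have hsm : ∀ (γ : Γ) (τ : Finset W),
      (J τ).image (fun w => γ • w) = J (τ.image fun w => γ • w) := by
    intro γ τ
    unfold J
    rw [Finset.image_image, Finset.image_image]
    rfl
  let X : Cov :=
    { K := K
      V := V
      z := (verts K).sup id + 1
      W := Option W
      Γ := Γ
      π := pi' ((verts K).sup id + 1) π
      zz := none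
      Kt := {σ | ∃ τ ∈ Kt, σ = J τ}
      cx := hK
      VK := hV
      Vne := hVne
      flag := hfl
      hz := hz
      pz := rfl
      down := by
        rintro σ ⟨τ, hτ, rfl⟩ ρ hρ
        refine ⟨τ.filter fun x => some x ∈ ρ, hcov.down τ hτ _ (Finset.filter_subset _ _), ?_⟩
        ext o
        unfold J
        rw [Finset.mem_image]
        constructor
        · intro ho
          obtain ⟨x, hx, rfl⟩ := Finset.mem_image.mp (hρ ho)
          exact ⟨x, Finset.mem_filter.mpr ⟨hx, ho⟩, rfl⟩
        · rintro ⟨x, hx, rfl⟩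
          exact (Finset.mem_filter.mp hx).2
      emp := ⟨∅, hemp, rfl⟩
      vert := by
        intro w hw
        obtain ⟨x, rfl⟩ := Option.ne_none_iff_exists'.mp hw
        exact ⟨{x}, hcov.vert x, rfl⟩
      simp := by
        rintro σ ⟨τ, hτ, rfl⟩
        refine ⟨?_, ?_⟩
        · rw [J_image]
          exact (hcov.simp τ hτ).1
        · intro a ha b hb hab
          obtain ⟨x, hx, rfl⟩ := Finset.mem_image.mp (Finset.mem_coe.mp ha)
          obtain ⟨y, hy, rfl⟩ := Finset.mem_image.mp (Finset.mem_coe.mp hb)
          rw [(hcov.simp τ hτ).2 (Finset.mem_coe.mpr hx) (Finset.mem_coe.mpr hy) hab]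
      surj := by
        intro v hv
        obtain ⟨w, hw⟩ := hcov.surj v hv
        exact ⟨some w, hw⟩
      lift := by
        intro w hw σ hσ hwσ
        obtain ⟨x, rfl⟩ := Option.ne_none_iff_exists'.mp hw
        obtain ⟨τ, ⟨h1, h2, h3⟩, h4⟩ := hcov.lift x σ hσ hwσ
        refine ⟨J τ, ⟨⟨τ, h1, rfl⟩, Finset.mem_image_of_mem _ h2, ?_⟩, ?_⟩
        · rw [J_image]
          exact h3
        · rintro ρ ⟨⟨τ', h5, rfl⟩, h6, h7⟩
          rw [J_image] at h7
          obtain ⟨y, hy, hxy⟩ := Finset.mem_image.mp h6
          rw [Option.some_injective W hxy] at hy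
          rw [h4 τ' ⟨h5, hy, h7⟩]
      smz := fun γ => rfl
      smK := by
        rintro γ σ ⟨τ, hτ, rfl⟩
        exact ⟨_, hcov.act γ τ hτ, hsm γ τ⟩
      lab := by
        intro γ w
        cases w with
        | none => rfl
        | some x => exact hcov.lab γ x
      trans := by
        intro w w' hww
        cases w with
        | none =>
          cases w' with
          | none => exact ⟨1, rfl⟩
          | some y => exact absurd (show π y ∈ verts K from hpv y) (fun h => hz (by
              have : (verts K).sup id + 1 = π y := hww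
              rw [this]
              exact h))
        | some x =>
          cases w' with
          | none => exact absurd (show π x ∈ verts K from hpv x) (fun h => hz (by
              have : π x = (verts K).sup id + 1 := hww
              rw [← this]
              exact h))
          | some y =>
            obtain ⟨γ, hγ⟩ := hcov.trans x y hww
            exact ⟨γ, congrArg some hγ⟩
      free := by
        intro γ w hw h
        obtain ⟨x, rfl⟩ := Option.ne_none_iff_exists'.mp hw
        exact hcov.free γ x (Option.some_injective W h) }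
  exact ⟨X, rfl, rfl, acyc _ π Kt hac⟩

end MP8a95ee.Rk.O1P
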