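import Pool.Agent.Work.MP_8a95ee_gt.Rk.Stmts
import Pool.Agent.Work.MP_8a95ee_gt.R.ItemB5

/-!
# Item P1 of the block Rk: extension of the map `ψ` to tuples of pair type
-/

set_option autoImplicit false

namespace MP8a95ee.Rk.P1P

open Ref RA

/-- the property of the cone vertex -/
def IsAp (L : Finset (Finset ℕ)) (X : Finset ℕ) (u : ℕ) : Prop :=
  u ∈ X ∧ ∃ v, ∀ w ∈ X, w ≠ u → w ≠ v → Adj L w u ∧ Adj L w v

open Classical in
/-- the cone vertex -/
noncomputable def ap (L : Finset (Finset ℕ)) (X : Finset ℕ) : ℕ :=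
  if h : ∃ u, IsAp L X u then Classical.choose h else 0

theorem ap_spec {L : Finset (Finset ℕ)} {X : Finset ℕ} (h : ∃ u, IsAp L X u) :
    IsAp L X (ap L X) := by
  unfold ap
  rw [dif_pos h]
  exact Classical.choose_spec h

/-- a tuple of pair type has a cone vertex -/
theorem exists_ap {L : Finset (Finset ℕ)} {k : ℕ} {T : Fin (k + 1) → Finset ℕ}
    (h : KG L (fun p => TrivP L p ∨ PairP L p) T) (h' : ¬ KG L (TrivP L) T) :
    ∃ u, IsAp L (Wt T) u := by
  obtain ⟨h1, h2⟩ := h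
  rcases h2 with h2 | ⟨p, hg, hp, hF⟩
  · exact absurd ⟨h1, Or.inl h2⟩ h'
  · rcases hp with hp | ⟨a, b, hab, -, rfl⟩
    · exact absurd ⟨h1, Or.inr ⟨p, hg, hp, hF⟩⟩ h'
    · have hadj : ∀ w ∈ Wt T, w ≠ a → w ≠ b → Adj L w a ∧ Adj L w b := by
        intro w hw hwa hwb
        obtain ⟨i, hi⟩ := mem_Wt.1 hw
        have h3 : w ∉ ({a} : Finset ℕ) ∪ {b} := by
          simp only [Finset.mem_union, Finset.mem_singleton]
          rintro (h | h)
          · exact hwa h
          · exact hwb h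
        exact ⟨(hF i).2 w hi h3 a (by simp), (hF i).2 w hi h3 b (by simp)⟩
      rcases (hF 0).1 with h3 | h3
      · refine ⟨a, mem_Wt.2 ⟨0, h3.1 (Finset.mem_singleton_self a)⟩, b, fun w hw hwa hwb => ?_⟩
        exact hadj w hw hwa hwb
      · refine ⟨b, mem_Wt.2 ⟨0, h3.1 (Finset.mem_singleton_self b)⟩, a, fun w hw hwb hwa => ?_⟩
        exact (hadj w hw hwa hwb).symm

open Classical in
/-- the extension of `ψ` -/
noncomputable def psi' (L : Finset (Finset ℕ)) (ψ : ∀ k, (Fin k → Finset ℕ) → Finset ℕ → ℝ) :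
    ∀ k, (Fin k → Finset ℕ) → Finset ℕ → ℝ
  | 0, T => ψ 0 T
  | k + 1, T => if KG L (TrivP L) T then ψ (k + 1) T else coneS (ap L (Wt T))
      (∑ i : Fin (k + 1), ((-1 : ℝ) ^ (i : ℕ)) • psi' L ψ k fun j => T (i.succAbove j))

theorem psi'_triv {L : Finset (Finset ℕ)} {ψ : ∀ k, (Fin k → Finset ℕ) → Finset ℕ → ℝ} :
    ∀ k (T : Fin k → Finset ℕ), KG L (TrivP L) T → psi' L ψ k T = ψ k T
  | 0, _, _ => rfl
  | k + 1, T, hT => by
    unfold psi'
    rw [if_pos hT]

theorem mem_KK_of_mem {L : Finset (Finset ℕ)} (hf : FlagC L) {t : Finset ℕ} (ht : t ∈ L) :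
    t ∈ KK L := by
  unfold KK
  rw [Finset.mem_filter, Finset.mem_powerset]
  refine ⟨fun a ha => ?_, fun a ha => ?_⟩
  · unfold verts
    rw [Finset.mem_biUnion]
    exact ⟨t, ht, ha⟩
  · rw [Finset.filter_false_of_mem, Finset.card_empty]
    · exact Nat.zero_le 1
    · intro b hb h
      exact h.2 (adj_of_mem hf ht ha hb h.1.symm).2

theorem insert_mem_KK {L : Finset (Finset ℕ)} {X t : Finset ℕ} {u : ℕ} (hu : IsAp L X u)
    (huL : u ∈ verts L) (ht : t ∈ KK L) (htX : t ⊆ X) : insert u t ∈ KK L := by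
  obtain ⟨-, v, hv⟩ := hu
  unfold KK at ht ⊢
  rw [Finset.mem_filter, Finset.mem_powerset] at ht ⊢
  obtain ⟨ht1, ht2⟩ := ht
  refine ⟨Finset.insert_subset huL ht1, fun a ha => ?_⟩
  by_cases hau : a = u
  · subst hau
    have h1 : ((insert a t).filter fun b => b ≠ a ∧ ({a, b} : Finset ℕ) ∉ L) ⊆ {v} := by
      intro b hb
      rw [Finset.mem_filter, Finset.mem_insert] at hb
      obtain ⟨hb1, hb2, hb3⟩ := hb
      rw [Finset.mem_singleton]
      by_contra hbv
      have h2 := (hv b (htX (hb1.resolve_left hb2)) hb2 hbv).1.2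
      rw [Finset.pair_comm] at h2
      exact hb3 h2
    exact (Finset.card_le_card h1).trans (by rw [Finset.card_singleton])
  · have hat : a ∈ t := (Finset.mem_insert.1 ha).resolve_left hau
    by_cases hav : a = v
    · subst hav
      have h1 : ((insert u t).filter fun b => b ≠ a ∧ ({a, b} : Finset ℕ) ∉ L) ⊆ {u} := by
        intro b hb
        rw [Finset.mem_filter, Finset.mem_insert] at hb
        obtain ⟨hb1, hb2, hb3⟩ := hb
        rw [Finset.mem_singleton]
        by_contra hbu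
        have h2 := (hv b (htX (hb1.resolve_left hbu)) hbu hb2).2.2
        rw [Finset.pair_comm] at h2
        exact hb3 h2
      exact (Finset.card_le_card h1).trans (by rw [Finset.card_singleton])
    · refine le_trans (Finset.card_le_card ?_) (ht2 a hat)
      intro b hb
      rw [Finset.mem_filter, Finset.mem_insert] at hb
      obtain ⟨hb1, hb2, hb3⟩ := hb
      rw [Finset.mem_filter]
      refine ⟨hb1.resolve_left fun hbu => ?_, hb2, hb3⟩
      subst hbu
      exact hb3 (hv a (htX hat) hau hav).1.2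

theorem verts_of_Wt {L : Finset (Finset ℕ)} {G : Finset ℕ × Finset ℕ → Prop} {k : ℕ}
    {T : Fin k → Finset ℕ} (hT : KG L G T) {u : ℕ} (hu : u ∈ Wt T) : u ∈ verts L := by
  obtain ⟨j, hj⟩ := mem_Wt.1 hu
  unfold verts
  rw [Finset.mem_biUnion]
  exact ⟨T j, (hT.1 j).1, hj⟩

theorem psi'_support {L : Finset (Finset ℕ)} (hf : FlagC L)
    {ψ : ∀ k, (Fin k → Finset ℕ) → Finset ℕ → ℝ} (hψ : IsPsi L ψ) :
    ∀ k (T : Fin k → Finset ℕ), KG L (fun p => TrivP L p ∨ PairP L p) T →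
      ∀ t, psi' L ψ k T t ≠ 0 → t ∈ KK L ∧ t ⊆ Wt T ∧ t.card = k
  | 0, T, _, t, ht => by
    have h : t = ∅ := by
      by_contra h
      apply ht
      unfold psi'
      rw [hψ.1 T]
      exact if_neg h
    subst h
    exact ⟨mem_KK_of_mem hf hf.empty_mem, Finset.empty_subset _, Finset.card_empty⟩
  | k + 1, T, hT, t, ht => by
    by_cases hTr : KG L (TrivP L) T
    · rw [psi'_triv _ T hTr] at ht
      obtain ⟨h1, h2, h3⟩ := hψ.2.1 _ T hTr t ht
      exact ⟨mem_KK_of_mem hf h1, h2, h3⟩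
    · have hap := ap_spec (exists_ap hT hTr)
      unfold psi' at ht
      rw [if_neg hTr] at ht
      unfold coneS at ht
      split_ifs at ht with hvt
      · have h1 := right_ne_zero_of_mul ht
        rw [Finset.sum_apply] at h1
        obtain ⟨i, -, hi⟩ := Finset.exists_ne_zero_of_sum_ne_zero h1
        rw [Pi.smul_apply, smul_eq_mul] at hi
        obtain ⟨h2, h3, h4⟩ := psi'_support hf hψ k _ (KG_comp hT i.succAbove) _
          (right_ne_zero_of_mul hi)
        have h3' := h3.trans (Wt_comp T i.succAbove)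
        refine ⟨?_, ?_, ?_⟩
        · rw [← Finset.insert_erase hvt]
          exact insert_mem_KK hap (verts_of_Wt hT hap.1) h2 h3'
        · rw [← Finset.insert_erase hvt]
          exact Finset.insert_subset hap.1 h3'
        · rw [← Finset.insert_erase hvt,
            Finset.card_insert_of_notMem (Finset.notMem_erase _ _), h4]
      · exact absurd rfl ht

theorem bdS_psi0 {L : Finset (Finset ℕ)} {ψ : ∀ k, (Fin k → Finset ℕ) → Finset ℕ → ℝ}
    (hψ : IsPsi L ψ) (T : Fin 0 → Finset ℕ) : bdS L (psi' L ψ 0 T) = 0 := by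
  funext t
  unfold bdS
  refine Finset.sum_eq_zero fun a _ => ?_
  have h : psi' L ψ 0 T (insert a t) = 0 := by
    unfold psi'
    rw [hψ.1 T]
    exact if_neg (Finset.insert_ne_empty _ _)
  rw [h, mul_zero]

/-- the step for tuples which are not of trivial type -/
theorem cone_step {L : Finset (Finset ℕ)} {ψ : ∀ k, (Fin k → Finset ℕ) → Finset ℕ → ℝ} {k : ℕ}
    {T : Fin (k + 1) → Finset ℕ} (hT : KG L (fun p => TrivP L p ∨ PairP L p) T)
    (hTr : ¬ KG L (TrivP L) T)
    (h0 : ∑ i : Fin (k + 1), ((-1 : ℝ) ^ (i : ℕ)) •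
      bdS L (psi' L ψ k fun j => T (i.succAbove j)) = 0) :
    bdS L (psi' L ψ (k + 1) T) =
      ∑ i : Fin (k + 1), ((-1 : ℝ) ^ (i : ℕ)) • psi' L ψ k fun j => T (i.succAbove j) := by
  have hap := ap_spec (exists_ap hT hTr)
  have e : psi' L ψ (k + 1) T = coneS (ap L (Wt T))
      (∑ i : Fin (k + 1), ((-1 : ℝ) ^ (i : ℕ)) • psi' L ψ k fun j => T (i.succAbove j)) := by
    rw [psi', if_neg hTr]
  rw [e, bdS_coneS (verts_of_Wt hT hap.1), bdS_sum, h0]
  funext w
  unfold coneS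
  simp

theorem triv_step {L : Finset (Finset ℕ)} {ψ : ∀ k, (Fin k → Finset ℕ) → Finset ℕ → ℝ}
    (hψ : IsPsi L ψ) {k : ℕ} {T : Fin (k + 1) → Finset ℕ} (hTr : KG L (TrivP L) T) :
    bdS L (psi' L ψ (k + 1) T) =
      ∑ i : Fin (k + 1), ((-1 : ℝ) ^ (i : ℕ)) • psi' L ψ k fun j => T (i.succAbove j) := by
  rw [psi'_triv _ T hTr, hψ.2.2 k T hTr]
  refine Finset.sum_congr rfl fun i _ => ?_
  rw [psi'_triv _ _ (KG_comp hTr i.succAbove)]

theorem psi'_bd {L : Finset (Finset ℕ)}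
    {ψ : ∀ k, (Fin k → Finset ℕ) → Finset ℕ → ℝ} (hψ : IsPsi L ψ) :
    ∀ k (T : Fin (k + 1) → Finset ℕ), KG L (fun p => TrivP L p ∨ PairP L p) T →
      bdS L (psi' L ψ (k + 1) T) =
        ∑ i : Fin (k + 1), ((-1 : ℝ) ^ (i : ℕ)) • psi' L ψ k fun j => T (i.succAbove j) := by
  intro k
  induction k with
  | zero =>
    intro T hT
    by_cases hTr : KG L (TrivP L) T
    · exact triv_step hψ hTr
    · refine cone_step hT hTr ?_
      refine Finset.sum_eq_zero fun i _ => ?_
      rw [bdS_psi0 hψ, smul_zero]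
  | succ k ih =>
    intro T hT
    by_cases hTr : KG L (TrivP L) T
    · exact triv_step hψ hTr
    · refine cone_step hT hTr ?_
      rw [← dsum (psi' L ψ k) T]
      refine Finset.sum_congr rfl fun i _ => ?_
      rw [ih _ (KG_comp hT i.succAbove)]

theorem prf : S_P1 := fun L hf ψ hψ =>
  ⟨psi' L ψ, psi'_triv, psi'_support hf hψ, psi'_bd hψ⟩

end MP8a95ee.Rk.P1P
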