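import Pool.Agent.Work.MP_8a95ee_gt.Rk.Stmts
import Pool.Agent.Work.MP_8a95ee_gt.R.ItemB9

/-!
# Item P2 of the block Rk: the orientation bounds a chain of `KK L`
-/

set_option autoImplicit false

namespace MP8a95ee.Rk.P2P

open Ref RA

/-- `bdS` as a linear map -/
noncomputable def bdl0 (L : Finset (Finset ℕ)) : (Finset ℕ → ℝ) →ₗ[ℝ] (Finset ℕ → ℝ) where
  toFun := bdS L
  map_add' := fun x y => by
    funext t
    simp only [bdS, Pi.add_apply, mul_add, Finset.sum_add_distrib]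
  map_smul' := fun c x => by
    funext t
    simp only [bdS, Pi.smul_apply, smul_eq_mul, RingHom.id_apply, Finset.mul_sum]
    exact Finset.sum_congr rfl fun a _ => by ring

theorem prf (hP1 : Rk.S_P1) (h6 : RA.S_A6) (h5 : RA.S_B5) (h7 : RA.S_B7) : Rk.S_P2 := by
  intro L hf m o ho hB
  obtain ⟨ψ, hψ⟩ := h5 L hf
  obtain ⟨ψ', h1', h2', h3'⟩ := hP1 L hf ψ hψ
  obtain ⟨x, hx, hxd⟩ := h6 L hf m o ho hB
  set y : Finset ℕ → ℝ := Finsupp.linearCombination ℝ (ψ' (m + 2)) x with hy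
  have hne : ((-2 : ℝ) ^ m) ≠ 0 := pow_ne_zero _ (by norm_num)
  have hyd : bdS L y = (-2 : ℝ) ^ m • oF o := by
    have e1 : bdS L y = Finsupp.linearCombination ℝ (ψ' (m + 1)) (bdT x) := by
      rw [B9.lin_bdT, hy]
      change bdl0 L (Finsupp.linearCombination ℝ (ψ' (m + 2)) x) = _
      rw [Finsupp.linearCombination_apply, map_finsuppSum]
      refine Finsupp.sum_congr fun T hT => ?_
      rw [map_smul]
      congr 1
      exact h3' _ T (hx T hT)
    rw [e1, hxd, ← h7 L hf m o ho ψ hψ]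
    simp only [zeta, map_sum, Finsupp.linearCombination_single]
    refine Finset.sum_congr rfl fun s _ => Finset.sum_congr rfl fun B hB => ?_
    by_cases hos : o s = 0
    · simp [hos]
    · congr 1
      exact h1' _ _ (B9.kg_zt hf (ho.2.1 s hos) (Finset.mem_powerset.1 hB) _)
  refine ⟨((-2 : ℝ) ^ m)⁻¹ • y, fun s hs => ?_, ?_⟩
  · have hys : y s ≠ 0 := by
      intro h0
      exact hs (by simp [h0])
    rw [hy, Finsupp.linearCombination_apply, Finsupp.sum, Finset.sum_apply] at hys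
    obtain ⟨T, hT, hTs⟩ := Finset.exists_ne_zero_of_sum_ne_zero hys
    have hne' : ψ' (m + 2) T s ≠ 0 := by
      intro h0
      exact hTs (by simp [h0])
    obtain ⟨hk, -, hc⟩ := h2' _ T (hx T hT) s hne'
    exact ⟨hk, hc⟩
  · change bdl0 L (((-2 : ℝ) ^ m)⁻¹ • y) = oF o
    rw [map_smul]
    change ((-2 : ℝ) ^ m)⁻¹ • bdS L y = oF o
    rw [hyd, smul_smul, inv_mul_cancel₀ hne, one_smul]

end MP8a95ee.Rk.P2P
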