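import Pool.Agent.Work.MP_8a95ee_gt.Rk.Stmts
import Pool.Agent.Work.MP_8a95ee_gt.R.Bas

/-!
# Q1: the complex of a suspension is acyclic (transport to `RA.S_B4`)
-/

set_option autoImplicit false

namespace MP8a95ee.Rk.Q1P

open Ref RA

section

variable {X : Cov} {N : Type} [AddCommGroup N] [Module ℝ N] {e : ℕ → N →ₗ[ℝ] N}

theorem ne_zz {w : X.W} (h : X.π w ∈ X.V) : w ≠ X.zz := by
  rintro rfl
  rw [X.pz] at h
  exact X.hz (X.VK h)

theorem Ad_symm {x y : X.W} (h : X.Ad x y) : X.Ad y x :=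
  ⟨h.1.symm, by rw [Finset.pair_comm]; exact h.2⟩

variable {B : Set X.W} {a b : X.W}

theorem injB (hU : S_U1) (hV : ∀ x ∈ B, X.π x ∈ X.V) (ha : a ∈ B) (hab : X.π a ≠ X.π b)
    (hc : ∀ c ∈ B, c ≠ a → c ≠ b → X.Ad c a ∧ X.Ad c b) : Set.InjOn X.π B := by
  obtain ⟨u1, -, -, u4, -, -, -⟩ := hU X
  have key : ∀ c ∈ B, ∀ d ∈ B, c ≠ a → c ≠ b → X.π c = X.π d → c = d := by
    intro c hcB d hdB hca hcb hcd
    obtain ⟨h1, h2⟩ := hc c hcB hca hcb
    by_cases hda : d = a
    · exact absurd (hcd.trans (by rw [hda])) (u4 c a h1).1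
    by_cases hdb : d = b
    · exact absurd (hcd.trans (by rw [hdb])) (u4 c b h2).1
    obtain ⟨h3, -⟩ := hc d hdB hda hdb
    have h5 : ({X.π a, X.π c} : Finset ℕ) ∈ X.K := by
      rw [Finset.pair_comm]
      exact (u4 c a h1).2.1
    obtain ⟨y, -, hy⟩ := u1 a (ne_zz (hV a ha)) (X.π c) h5
    have h6 : c = y := hy c ⟨rfl, (Ad_symm h1).2⟩
    have h7 : d = y := hy d ⟨hcd.symm, (Ad_symm h3).2⟩
    rw [h6, h7]
  intro c hcB d hdB hcd
  by_cases hc' : c ≠ a ∧ c ≠ b
  · exact key c hcB d hdB hc'.1 hc'.2 hcd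
  by_cases hd' : d ≠ a ∧ d ≠ b
  · exact (key d hdB c hcB hd'.1 hd'.2 hcd.symm).symm
  have h1 : c = a ∨ c = b := by
    by_contra h
    rw [not_or] at h
    exact hc' h
  have h2 : d = a ∨ d = b := by
    by_contra h
    rw [not_or] at h
    exact hd' h
  rcases h1 with h1 | h1 <;> rcases h2 with h2 | h2
  · rw [h1, h2]
  · rw [h1, h2] at hcd
    exact absurd hcd hab
  · rw [h1, h2] at hcd
    exact absurd hcd.symm hab
  · rw [h1, h2]

theorem face (hU : S_U1) (hV : ∀ x ∈ B, X.π x ∈ X.V) (ha : a ∈ B)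
    (hab : X.π a ≠ X.π b) (hadj : ¬ Adj X.L (X.π a) (X.π b))
    (hc : ∀ c ∈ B, c ≠ a → c ≠ b → X.Ad c a ∧ X.Ad c b) {t : Finset X.W}
    (ht : ∀ y ∈ t, y ∈ B) : t ∈ X.Kt ↔ t.image X.π ∈ X.L := by
  have hinj := injB hU hV ha hab hc
  obtain ⟨-, u2, u3, u4, u5, -, -⟩ := hU X
  have hmono : ∀ s ∈ X.L, ∀ r ⊆ s, r ∈ X.L := by
    intro s hs r hr
    exact X.flag.mono hs hr
  constructor
  · intro h
    refine Finset.mem_filter.2 ⟨(X.simp t h).1, ?_⟩
    intro n hn
    obtain ⟨y, hy, rfl⟩ := Finset.mem_image.1 hn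
    exact hV y (ht y hy)
  · intro h
    refine u3 t (fun x hx => hV x (ht x hx)) ?_
    intro x hx y hy hxy
    have hpi : X.π x ≠ X.π y := fun h' => hxy (hinj (ht x hx) (ht y hy) h')
    have hL : Adj X.L (X.π x) (X.π y) := by
      refine ⟨hpi, hmono _ h _ ?_⟩
      exact pair_sub (Finset.mem_image_of_mem _ hx) (Finset.mem_image_of_mem _ hy)
    by_cases hxa : x = a
    · by_cases hyb : y = b
      · rw [hxa, hyb] at hL
        exact absurd hL hadj
      · have hya : y ≠ a := fun h' => hxy (hxa.trans h'.symm)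
        rw [hxa]
        exact Ad_symm (hc y (ht y hy) hya hyb).1
    by_cases hxb : x = b
    · by_cases hya : y = a
      · rw [hxb, hya] at hL
        exact absurd (adj_symm hL) hadj
      · have hyb : y ≠ b := fun h' => hxy (hxb.trans h'.symm)
        rw [hxb]
        exact Ad_symm (hc y (ht y hy) hya hyb).2
    obtain ⟨hx1, hx2⟩ := hc x (ht x hx) hxa hxb
    by_cases hya : y = a
    · rw [hya]
      exact hx1
    by_cases hyb : y = b
    · rw [hyb]
      exact hx2
    obtain ⟨hy1, -⟩ := hc y (ht y hy) hya hyb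
    have haV := hV a ha
    have hxL : Adj X.L (X.π x) (X.π a) := (u4 x a hx1).2.2 (hV x (ht x hx)) haV
    have hyL : Adj X.L (X.π y) (X.π a) := (u4 y a hy1).2.2 (hV y (ht y hy)) haV
    have h3 : ({X.π a, X.π x, X.π y} : Finset ℕ) ∈ X.L := by
      refine insert_mem X.flag (s := {X.π x, X.π y}) hL.2 ?_ ?_
      · change X.π a ∈ verts X.L
        rw [u5]
        exact haV
      · intro n hn _
        rw [Finset.mem_insert, Finset.mem_singleton] at hn
        rcases hn with rfl | rfl
        · exact hxL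
        · exact hyL
    have h4 : ({a, x, y} : Finset X.W) ∈ X.Kt :=
      u2 a x y (Ad_symm hx1).2 (Ad_symm hy1).2 (Finset.mem_filter.1 h3).1
    exact ⟨hxy, X.down _ h4 _ (Finset.subset_insert _ _)⟩

/-- chains upstairs and downstairs which correspond to each other -/
def Rel (B0 : Finset X.W) (x : (Finset X.W × Finset X.W) →₀ N)
    (x' : Finset ℕ → Finset ℕ → N) : Prop :=
  (∀ s u, s ∪ u ⊆ B0 → x (s, u) = x' (s.image X.π) (u.image X.π)) ∧
  (∀ s u, ¬ s ∪ u ⊆ B0 → x (s, u) = 0) ∧
  (∀ s u, ¬ s ∪ u ⊆ B0.image X.π → x' s u = 0)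

theorem erase_image {W : Type} [DecidableEq W] {π : W → ℕ} {s : Finset W} {c : W}
    (hs : Set.InjOn π (s : Set W)) (hc : c ∈ s) :
    (s.erase c).image π = (s.image π).erase (π c) := by
  ext n
  simp only [Finset.mem_image, Finset.mem_erase]
  constructor
  · rintro ⟨d, ⟨h1, h2⟩, rfl⟩
    exact ⟨fun h => h1 (hs h2 hc h), d, h2, rfl⟩
  · rintro ⟨h1, d, h2, rfl⟩
    exact ⟨d, ⟨fun h => h1 (by rw [h]), h2⟩, rfl⟩

theorem disj_image {W : Type} [DecidableEq W] {π : W → ℕ} {s u B0 : Finset W}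
    (hB : Set.InjOn π (B0 : Set W)) (hsu : s ∪ u ⊆ B0) :
    Disjoint (s.image π) (u.image π) ↔ Disjoint s u := by
  rw [Finset.disjoint_left, Finset.disjoint_left]
  constructor
  · intro h c hc hc'
    exact h (Finset.mem_image_of_mem _ hc) (Finset.mem_image_of_mem _ hc')
  · intro h n hn hn'
    obtain ⟨c, hc, rfl⟩ := Finset.mem_image.1 hn
    obtain ⟨d, hd, hdc⟩ := Finset.mem_image.1 hn'
    have h1 : d = c := hB (Finset.mem_coe.2 (hsu (Finset.mem_union_right _ hd)))
      (Finset.mem_coe.2 (hsu (Finset.mem_union_left _ hc))) hdc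
    exact h hc (h1 ▸ hd)

theorem rel_d (hA3 : S_A3) {B0 : Finset X.W} (hB : Set.InjOn X.π (B0 : Set X.W))
    (hBV : B0.image X.π ⊆ verts X.L) {x : (Finset X.W × Finset X.W) →₀ N}
    {x' : Finset ℕ → Finset ℕ → N} (hx : Rel B0 x x')
    (hd : ∀ p, x p ≠ 0 → Disjoint p.1 p.2) :
    Rel B0 (dT X.π (fun a _ => e a) x) (dD X.L e x') := by
  obtain ⟨h1, h2, h3⟩ := hx
  refine ⟨?_, ?_, ?_⟩
  · intro s u hsu
    have hA := hA3 X.W X.π N (fun a _ => e a) x hd s u
    by_cases hdis : Disjoint s u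
    · have hdis' : Disjoint (s.image X.π) (u.image X.π) := (disj_image hB hsu).2 hdis
      have hs : s ⊆ B0 := Finset.union_subset_left hsu
      have hu : u ⊆ B0 := Finset.union_subset_right hsu
      have hsi : Set.InjOn X.π (s : Set X.W) := hB.mono (Finset.coe_subset.2 hs)
      rw [hA.2 hdis B0 (fun c _ hc => by
        by_contra h
        exact hc (h2 _ _ fun h' => h (h' (Finset.mem_union_right _
          (Finset.mem_insert_self _ _)))))]
      unfold dD
      rw [if_pos hdis', Finset.sum_image (fun c hc d hd h => hsi hc hd h)]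
      congr 1
      · refine Finset.sum_congr rfl fun c hc => ?_
        rw [← erase_image hsi hc, ← Finset.image_insert, h1]
        intro w hw
        rw [Finset.mem_union, Finset.mem_insert] at hw
        rcases hw with hw | rfl | hw
        · exact hs (Finset.mem_of_mem_erase hw)
        · exact hs hc
        · exact hu hw
      · have h4 : ∑ n ∈ verts X.L \ (s.image X.π ∪ u.image X.π),
            sg n (u.image X.π) • x' (s.image X.π) (insert n (u.image X.π)) =
            ∑ n ∈ (B0 \ (s ∪ u)).image X.π,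
            sg n (u.image X.π) • x' (s.image X.π) (insert n (u.image X.π)) := by
          symm
          refine Finset.sum_subset ?_ ?_
          · intro n hn
            obtain ⟨c, hc, rfl⟩ := Finset.mem_image.1 hn
            rw [Finset.mem_sdiff] at hc
            refine Finset.mem_sdiff.2 ⟨hBV (Finset.mem_image_of_mem _ hc.1), ?_⟩
            rw [← Finset.image_union]
            intro h
            obtain ⟨d, hd', hdc⟩ := Finset.mem_image.1 h
            have : d = c := hB (Finset.mem_coe.2 (hsu hd')) (Finset.mem_coe.2 hc.1) hdc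
            exact hc.2 (this ▸ hd')
          · intro n hn hn'
            rw [Finset.mem_sdiff, ← Finset.image_union] at hn
            rw [h3 _ _ (fun h => ?_), smul_zero]
            have h5 : n ∈ B0.image X.π := h (Finset.mem_union_right _
              (Finset.mem_insert_self _ _))
            obtain ⟨c, hc, rfl⟩ := Finset.mem_image.1 h5
            refine hn' (Finset.mem_image_of_mem _ (Finset.mem_sdiff.2 ⟨hc, fun h6 => ?_⟩))
            exact hn.2 (Finset.mem_image_of_mem _ h6)
        rw [h4, Finset.sum_image (fun c hc d hd h => hB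
          (Finset.mem_coe.2 (Finset.mem_sdiff.1 hc).1)
          (Finset.mem_coe.2 (Finset.mem_sdiff.1 hd).1) h)]
        refine Finset.sum_congr rfl fun c hc => ?_
        rw [← Finset.image_insert, h1]
        intro w hw
        rw [Finset.mem_union, Finset.mem_insert] at hw
        rcases hw with hw | rfl | hw
        · exact hs hw
        · exact (Finset.mem_sdiff.1 hc).1
        · exact hu hw
    · rw [hA.1 hdis]
      unfold dD
      rw [if_neg (fun h => hdis ((disj_image hB hsu).1 h))]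
  · intro s u hsu
    have hA := hA3 X.W X.π N (fun a _ => e a) x hd s u
    by_cases hdis : Disjoint s u
    · have h4 : ∀ c, x (s, insert c u) = 0 := by
        intro c
        refine h2 _ _ fun h => hsu fun w hw => h ?_
        rw [Finset.mem_union] at hw ⊢
        exact hw.imp id (Finset.mem_insert_of_mem)
      rw [hA.2 hdis ∅ (fun c _ hc => absurd (h4 c) hc), Finset.sum_eq_zero, zero_sub,
        Finset.empty_sdiff, Finset.sum_empty, neg_zero]
      intro c hc
      rw [h2, map_zero, smul_zero]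
      intro h
      refine hsu fun w hw => h ?_
      rw [Finset.mem_union] at hw ⊢
      rcases hw with hw | hw
      · by_cases hwc : w = c
        · exact Or.inr (by rw [hwc]; exact Finset.mem_insert_self _ _)
        · exact Or.inl (Finset.mem_erase.2 ⟨hwc, hw⟩)
      · exact Or.inr (Finset.mem_insert_of_mem hw)
    · exact hA.1 hdis
  · intro s u hsu
    unfold dD
    by_cases hdis : Disjoint s u
    · rw [if_pos hdis, Finset.sum_eq_zero, Finset.sum_eq_zero, sub_zero]
      · intro n _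
        rw [h3, smul_zero]
        intro h
        refine hsu fun w hw => h ?_
        rw [Finset.mem_union] at hw ⊢
        exact hw.imp id (Finset.mem_insert_of_mem)
      · intro n _
        rw [h3, map_zero, smul_zero]
        intro h
        refine hsu fun w hw => h ?_
        rw [Finset.mem_union] at hw ⊢
        rcases hw with hw | hw
        · by_cases hwc : w = n
          · exact Or.inr (by rw [hwc]; exact Finset.mem_insert_self _ _)
          · exact Or.inl (Finset.mem_erase.2 ⟨hwc, hw⟩)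
        · exact Or.inr (Finset.mem_insert_of_mem hw)
    · rw [if_neg hdis]

end

/-- Q1. -/
theorem prf (hU : S_U1) (hA3 : S_A3) (hB4 : RA.S_B4) : S_Q1 := by
  classical
  intro X N _ _ e he B hV a b ha hb hab hadj hc x hx hdx
  have hinj := injB hU hV ha hab hc
  have hface := fun (t : Finset X.W) (ht : ∀ y ∈ t, y ∈ B) => face hU hV ha hab hadj hc ht
  have hfin : B.Finite := by
    refine Set.Finite.of_finite_image ?_ hinj
    refine (Finset.finite_toSet X.V).subset ?_
    rintro _ ⟨w, hw, rfl⟩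
    exact hV w hw
  obtain ⟨B0, hB0⟩ : ∃ B0 : Finset X.W, ∀ w, w ∈ B0 ↔ w ∈ B :=
    ⟨hfin.toFinset, fun w => hfin.mem_toFinset⟩
  have hinj0 : Set.InjOn X.π (B0 : Set X.W) := fun c hc d hd h =>
    hinj ((hB0 c).1 hc) ((hB0 d).1 hd) h
  obtain ⟨u1, u2, u3, u4, u5, u6, u7⟩ := hU X
  have hBV : B0.image X.π ⊆ verts X.L := by
    intro n hn
    obtain ⟨w, hw, rfl⟩ := Finset.mem_image.1 hn
    rw [u5]
    exact hV w ((hB0 w).1 hw)
  -- a section
  obtain ⟨g, hg⟩ : ∃ g : ℕ → X.W, ∀ w ∈ B0, g (X.π w) = w := by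
    refine ⟨fun n => if h : ∃ w ∈ B0, X.π w = n then h.choose else a, ?_⟩
    intro w hw
    have h : ∃ w' ∈ B0, X.π w' = X.π w := ⟨w, hw, rfl⟩
    change (if h : ∃ w' ∈ B0, X.π w' = X.π w then h.choose else a) = w
    rw [dif_pos h]
    exact hinj0 (Finset.mem_coe.2 h.choose_spec.1) (Finset.mem_coe.2 hw) h.choose_spec.2
  have hgi : ∀ s ⊆ B0, (s.image X.π).image g = s := by
    intro s hs
    rw [Finset.image_image]
    ext w
    simp only [Finset.mem_image, Function.comp_apply]
    constructor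
    · rintro ⟨v, hv, rfl⟩
      rw [hg v (hs hv)]
      exact hv
    · intro hw
      exact ⟨w, hw, hg w (hs hw)⟩
  have hig : ∀ s ⊆ B0.image X.π, (s.image g).image X.π = s ∧ s.image g ⊆ B0 := by
    intro s hs
    obtain ⟨r, hr, rfl⟩ := Finset.subset_image_iff.1 hs
    rw [hgi r (Finset.coe_subset.1 hr)]
    exact ⟨rfl, Finset.coe_subset.1 hr⟩
  -- the chain downstairs
  set x' : Finset ℕ → Finset ℕ → N := fun s u =>
    if s ∪ u ⊆ B0.image X.π then x (s.image g, u.image g) else 0 with hx'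
  have hrel : Rel B0 x x' := by
    refine ⟨?_, ?_, ?_⟩
    · intro s u hsu
      have h : s.image X.π ∪ u.image X.π ⊆ B0.image X.π := by
        rw [← Finset.image_union]
        exact Finset.image_subset_image hsu
      rw [hx']
      simp only
      rw [if_pos h, hgi s (Finset.union_subset_left hsu), hgi u (Finset.union_subset_right hsu)]
    · intro s u hsu
      by_contra h
      refine hsu fun w hw => (hB0 w).2 (((hx (s, u)).1 h).2.2 w hw)
    · intro s u hsu
      rw [hx']
      simp only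
      rw [if_neg hsu]
  have hIx : IsDD X.L e (B0.image X.π) x' := by
    intro s u
    by_cases hsu : s ∪ u ⊆ B0.image X.π
    · obtain ⟨hs1, hs2⟩ := hig s (Finset.union_subset_left hsu)
      obtain ⟨hu1, hu2⟩ := hig u (Finset.union_subset_right hsu)
      have h1 : x' s u = x (s.image g, u.image g) := by
        rw [hx']
        simp only
        rw [if_pos hsu]
      rw [h1]
      obtain ⟨h2, h3⟩ := hx (s.image g, u.image g)
      refine ⟨fun h => ?_, ?_⟩
      · obtain ⟨h4, h5, h6⟩ := h2 h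
        have h7 : s.image g ∪ u.image g ⊆ B0 := Finset.union_subset hs2 hu2
        refine ⟨?_, ?_, hsu⟩
        · rw [← hs1, ← hu1]
          exact (disj_image hinj0 h7).2 h4
        · have h8 := (hface _ h6).1 h5
          rw [Finset.image_union] at h8
          simp only at h8
          rwa [hs1, hu1] at h8
      · simp only at h3
        rwa [hs1] at h3
    · rw [hrel.2.2 s u hsu]
      exact ⟨fun h => absurd rfl h, Submodule.zero_mem _⟩
  have hdx' : dD X.L e x' = 0 := by
    obtain ⟨r1, r2, r3⟩ := rel_d (e := e) hA3 hinj0 hBV hrel (fun p hp => ((hx p).1 hp).1)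
    funext s u
    by_cases hsu : s ∪ u ⊆ B0.image X.π
    · obtain ⟨hs1, hs2⟩ := hig s (Finset.union_subset_left hsu)
      obtain ⟨hu1, hu2⟩ := hig u (Finset.union_subset_right hsu)
      have h := r1 (s.image g) (u.image g) (Finset.union_subset hs2 hu2)
      rw [hs1, hu1, hdx] at h
      exact h.symm
    · exact r3 s u hsu
  have hX : FlagC X.L := X.flag
  obtain ⟨y', hy1, hy2⟩ := hB4 X.L hX N e he (B0.image X.π) hBV (X.π a) (X.π b)
    (Finset.mem_image_of_mem _ ((hB0 a).2 ha)) (Finset.mem_image_of_mem _ ((hB0 b).2 hb)) hab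
    hadj (by
      intro n hn hna hnb
      obtain ⟨w, hw, rfl⟩ := Finset.mem_image.1 hn
      have hwB := (hB0 w).1 hw
      obtain ⟨h1, h2⟩ := hc w hwB (fun h => hna (by rw [h])) (fun h => hnb (by rw [h]))
      exact ⟨(u4 w a h1).2.2 (hV w hwB) (hV a ha), (u4 w b h2).2.2 (hV w hwB) (hV b hb)⟩)
    x' hIx hdx'
  -- the chain upstairs
  set y : (Finset X.W × Finset X.W) →₀ N := Finsupp.onFinset (B0.powerset ×ˢ B0.powerset)
    (fun p => if p.1 ∪ p.2 ⊆ B0 then y' (p.1.image X.π) (p.2.image X.π) else 0) (by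
      intro p hp
      rw [ne_eq, ite_eq_right_iff, Classical.not_imp] at hp
      rw [Finset.mem_product, Finset.mem_powerset, Finset.mem_powerset]
      exact ⟨Finset.union_subset_left hp.1, Finset.union_subset_right hp.1⟩) with hy
  have hyv : ∀ s u, y (s, u) = if s ∪ u ⊆ B0 then y' (s.image X.π) (u.image X.π) else 0 := by
    intro s u
    rw [hy, Finsupp.onFinset_apply]
  have hrely : Rel B0 y y' := by
    refine ⟨?_, ?_, ?_⟩
    · intro s u hsu
      rw [hyv, if_pos hsu]
    · intro s u hsu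
      rw [hyv, if_neg hsu]
    · intro s u hsu
      by_contra h
      exact hsu ((hy1 s u).1 h).2.2
  have hIy : IsDt {t | t ∈ X.Kt ∧ ∀ y ∈ t, y ∈ B} X.π (Es e) y := by
    rintro ⟨s, u⟩
    by_cases hsu : s ∪ u ⊆ B0
    · rw [hyv, if_pos hsu]
      obtain ⟨h1, h2⟩ := hy1 (s.image X.π) (u.image X.π)
      refine ⟨fun h => ?_, h2⟩
      obtain ⟨h3, h4, h5⟩ := h1 h
      have h6 : ∀ w ∈ s ∪ u, w ∈ B := fun w hw => (hB0 w).1 (hsu hw)
      refine ⟨(disj_image hinj0 hsu).1 h3, (hface _ h6).2 ?_, h6⟩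
      rw [Finset.image_union]
      exact h4
    · rw [hyv, if_neg hsu]
      exact ⟨fun h => absurd rfl h, Submodule.zero_mem _⟩
  refine ⟨y, hIy, ?_⟩
  obtain ⟨r1, r2, r3⟩ := rel_d (e := e) hA3 hinj0 hBV hrely (fun p hp => ((hIy p).1 hp).1)
  ext ⟨s, u⟩
  by_cases hsu : s ∪ u ⊆ B0
  · rw [r1 s u hsu, hy2, hrel.1 s u hsu]
  · rw [r2 s u hsu, hrel.2.1 s u hsu]

end MP8a95ee.Rk.Q1P
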