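import Pool.Agent.Work.MP_8a95ee_gt.Rk.Stmts

/-! Item Q2: acyclicity with coefficients. -/

set_option autoImplicit false

namespace MP8a95ee.Rk.Q2P

open MP8a95ee.Rk

theorem bdl_map {W : Type} [DecidableEq W] (π : W → ℕ) {M N : Type} [AddCommGroup M]
    [Module ℝ M] [AddCommGroup N] [Module ℝ N] (f : M →ₗ[ℝ] N) (c : Finset W →₀ M) :
    bdl π (Finsupp.mapRange.linearMap f c) = Finsupp.mapRange.linearMap f (bdl π c) := by
  induction c using Finsupp.induction_linear with
  | zero => simp
  | add x y hx hy => rw [map_add, map_add, map_add, map_add, hx, hy]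
  | single σ m =>
    simp only [bdl, Finsupp.mapRange.linearMap_apply, Finsupp.mapRange_single,
      Finsupp.lsum_single, LinearMap.coe_sum, Finset.sum_apply, LinearMap.smul_apply,
      Finsupp.lsingle_apply]
    have h : ∀ z : Finset W →₀ M, Finsupp.mapRange (⇑f) (map_zero f) z
        = Finsupp.mapRange.linearMap f z := fun z => rfl
    rw [h, map_sum]
    refine Finset.sum_congr rfl fun a _ => ?_
    rw [map_smul]
    congr 1
    rw [Finsupp.mapRange.linearMap_apply, Finsupp.mapRange_single]

theorem prf : S_Q2 := by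
  intro W _ π Kt hac N _ _ c hc hb
  classical
  let b := Module.Basis.ofVectorSpace ℝ N
  let S := c.support.biUnion fun σ => (b.repr (c σ)).support
  have hex : ∀ i, ∃ c' : Finset W →₀ ℝ, (∀ σ, c' σ ≠ 0 → σ ∈ Kt) ∧
      bdl π c' = Finsupp.mapRange.linearMap (b.coord i) c := by
    intro i
    refine hac _ ?_ ?_
    · intro σ hσ
      refine hc σ fun h0 => hσ ?_
      rw [Finsupp.mapRange.linearMap_apply, Finsupp.mapRange_apply, h0, map_zero]
    · rw [bdl_map, hb, map_zero]
  choose c' hc' hbc' using hex
  refine ⟨∑ i ∈ S, Finsupp.mapRange.linearMap (LinearMap.toSpanSingleton ℝ N (b i)) (c' i),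
    ?_, ?_⟩
  · intro σ hσ
    by_contra hn
    refine hσ ?_
    rw [Finsupp.finsetSum_apply]
    refine Finset.sum_eq_zero fun i _ => ?_
    rw [Finsupp.mapRange.linearMap_apply, Finsupp.mapRange_apply]
    have h0 : c' i σ = 0 := by
      by_contra h
      exact hn (hc' i σ h)
    rw [h0, map_zero]
  · rw [map_sum]
    simp only [bdl_map, hbc']
    ext σ
    rw [Finsupp.finsetSum_apply]
    have h1 : ∀ i, (Finsupp.mapRange.linearMap (LinearMap.toSpanSingleton ℝ N (b i)))
        ((Finsupp.mapRange.linearMap (b.coord i)) c) σ = b.repr (c σ) i • b i := by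
      intro i
      rw [Finsupp.mapRange.linearMap_apply, Finsupp.mapRange_apply,
        Finsupp.mapRange.linearMap_apply, Finsupp.mapRange_apply,
        LinearMap.toSpanSingleton_apply, Module.Basis.coord_apply]
    simp only [h1]
    by_cases hσ : c σ = 0
    · simp [hσ]
    · have hsub : (b.repr (c σ)).support ⊆ S :=
        Finset.subset_biUnion_of_mem (fun σ => (b.repr (c σ)).support)
          (Finsupp.mem_support_iff.mpr hσ)
      rw [← Finset.sum_subset hsub]
      · have h2 := b.linearCombination_repr (c σ)
        rw [Finsupp.linearCombination_apply, Finsupp.sum] at h2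
        exact h2
      · intro i _ hi
        rw [Finsupp.notMem_support_iff.mp hi, zero_smul]

end MP8a95ee.Rk.Q2P
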