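import Pool.Agent.Work.MP_8a95ee_gt.Rk.Stmts

/-!
# Item Q3 of the block Rk: constant coefficients
-/

set_option autoImplicit false

namespace MP8a95ee.Rk.Q3P

open Ref RA

variable {W : Type} [DecidableEq W] (π : W → ℕ) {N : Type} [AddCommGroup N] [Module ℝ N]

theorem rT_single (w : Finset W) (n : N) :
    rT π (Finsupp.single w n) = ∑ v ∈ w, sg (π v) ((w.erase v).image π) •
      Finsupp.single (({v} : Finset W), w.erase v) n := by
  unfold rT
  rw [Finsupp.lsum_single, LinearMap.sum_apply]
  rfl

theorem dT_single (ρ : ℕ → Finset ℕ → N →ₗ[ℝ] N) (p : Finset W × Finset W) (n : N) :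
    dT π ρ (Finsupp.single p n) = ∑ a ∈ p.2, sg (π a) ((p.2.erase a).image π) •
      (Finsupp.single (insert a p.1, p.2.erase a) (ρ (π a) (p.1.image π) n) -
        Finsupp.single (p.1, p.2.erase a) n) := by
  unfold dT
  rw [Finsupp.lsum_single, LinearMap.sum_apply]
  rfl

theorem bdl_single (w : Finset W) (n : N) :
    bdl π (Finsupp.single w n) = ∑ a ∈ w, sg (π a) ((w.erase a).image π) •
      Finsupp.single (w.erase a) n := by
  unfold bdl
  rw [Finsupp.lsum_single, LinearMap.sum_apply]
  rfl

theorem swap_sum {M : Type} [AddCommGroup M] (w : Finset W) (f : W → W → M) :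
    ∑ a ∈ w, ∑ b ∈ w.erase a, f a b = ∑ b ∈ w, ∑ a ∈ w.erase b, f a b := by
  apply Finset.sum_comm'
  intro x y
  simp only [Finset.mem_erase]
  constructor
  · rintro ⟨h1, h2, h3⟩
    exact ⟨⟨h2.symm, h1⟩, h3⟩
  · rintro ⟨⟨h1, h2⟩, h3⟩
    exact ⟨h2, h1.symm, h3⟩

theorem anti_sum {M : Type} [AddCommGroup M] [Module ℝ M] (w : Finset W) (f : W → W → M)
    (h : ∀ a ∈ w, ∀ b ∈ w, a ≠ b → f a b = - f b a) :
    ∑ a ∈ w, ∑ b ∈ w.erase a, f a b = 0 := by
  have h1 := swap_sum w f
  have h2 : ∑ b ∈ w, ∑ a ∈ w.erase b, f a b = - ∑ a ∈ w, ∑ b ∈ w.erase a, f a b := by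
    rw [← Finset.sum_neg_distrib]
    refine Finset.sum_congr rfl fun b hb => ?_
    rw [← Finset.sum_neg_distrib]
    refine Finset.sum_congr rfl fun a ha => ?_
    exact h a (Finset.mem_of_mem_erase ha) b hb (Finset.ne_of_mem_erase ha)
  have h3 := h1.trans h2
  have h4 : (2 : ℝ) • ∑ a ∈ w, ∑ b ∈ w.erase a, f a b = 0 := by
    rw [two_smul]
    nth_rewrite 2 [h3]
    rw [add_neg_cancel]
  rcases smul_eq_zero.1 h4 with h5 | h5
  · norm_num at h5
  · exact h5

theorem rc_ne (a : ℕ) (s : Finset ℕ) (hs : s ≠ ∅) (n : N) : rc N a s n = n := by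
  unfold rc
  rw [if_neg hs]
  rfl

theorem isCS (Y : Finset (Finset ℕ)) : IsCS Y (Fc N) (rc N) where
  map := by
    intro a s _ _ x _
    unfold Fc
    rw [if_neg (Finset.insert_ne_empty a s)]
    exact Submodule.mem_top
  comm := by
    intro a b s _ _ _ _ x _
    rw [rc_ne _ _ (Finset.insert_ne_empty a s), rc_ne _ _ (Finset.insert_ne_empty b s)]
    rfl

omit [DecidableEq W] in
theorem notMem_img {w : Finset W} (hw : Set.InjOn π (w : Set W)) {a : W} (ha : a ∈ w)
    {u : Finset W} (hu : u ⊆ w) (hau : a ∉ u) : π a ∉ u.image π := by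
  intro h
  obtain ⟨b, hb, hab⟩ := Finset.mem_image.1 h
  have : b = a := hw (Finset.mem_coe.2 (hu hb)) (Finset.mem_coe.2 ha) hab
  exact hau (this ▸ hb)

theorem part1_single (w : Finset W) (n : N) (hw : Set.InjOn π (w : Set W)) :
    dT π (rc N) (rT π (Finsupp.single w n)) = rT π (bdl π (Finsupp.single w n)) := by
  have hL : dT π (rc N) (rT π (Finsupp.single w n)) =
      ∑ v ∈ w, ∑ a ∈ w.erase v,
        ((sg (π v) ((w.erase v).image π) * sg (π a) (((w.erase v).erase a).image π)) •
          Finsupp.single (insert a ({v} : Finset W), (w.erase v).erase a) n -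
        (sg (π v) ((w.erase v).image π) * sg (π a) (((w.erase v).erase a).image π)) •
          Finsupp.single (({v} : Finset W), (w.erase v).erase a) n) := by
    rw [rT_single, map_sum]
    refine Finset.sum_congr rfl fun v hv => ?_
    rw [map_smul, dT_single, Finset.smul_sum]
    refine Finset.sum_congr rfl fun a ha => ?_
    rw [rc_ne, smul_smul, smul_sub]
    simp
  have hR : rT π (bdl π (Finsupp.single w n)) =
      ∑ v ∈ w, ∑ a ∈ w.erase v,
        ((sg (π a) ((w.erase a).image π) * sg (π v) (((w.erase a).erase v).image π)) •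
          Finsupp.single (({v} : Finset W), (w.erase a).erase v) n) := by
    rw [bdl_single, map_sum]
    rw [← swap_sum w (fun a v =>
      (sg (π a) ((w.erase a).image π) * sg (π v) (((w.erase a).erase v).image π)) •
          Finsupp.single (({v} : Finset W), (w.erase a).erase v) n)]
    refine Finset.sum_congr rfl fun a ha => ?_
    rw [map_smul, rT_single, Finset.smul_sum]
    refine Finset.sum_congr rfl fun v hv => ?_
    rw [smul_smul]
  have hsign : ∀ v ∈ w, ∀ a ∈ w, v ≠ a →
      sg (π v) ((w.erase v).image π) * sg (π a) (((w.erase v).erase a).image π) =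
      -(sg (π a) ((w.erase a).image π) * sg (π v) (((w.erase a).erase v).image π)) := by
    intro v hv a ha hva
    have hu : (w.erase v).erase a ⊆ w :=
      (Finset.erase_subset _ _).trans (Finset.erase_subset _ _)
    have h1 : w.erase v = insert a ((w.erase v).erase a) := by
      rw [Finset.insert_erase]
      exact Finset.mem_erase.2 ⟨hva.symm, ha⟩
    have h2 : w.erase a = insert v ((w.erase v).erase a) := by
      rw [Finset.erase_right_comm, Finset.insert_erase]
      exact Finset.mem_erase.2 ⟨hva, hv⟩
    have h3 : (w.erase a).erase v = (w.erase v).erase a := Finset.erase_right_comm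
    rw [h3]
    nth_rewrite 1 [h1]
    rw [h2, Finset.image_insert, Finset.image_insert]
    exact sg_anti (notMem_img π hw hv hu (by simp)) (notMem_img π hw ha hu (by simp))
      (fun h => hva (hw (Finset.mem_coe.2 hv) (Finset.mem_coe.2 ha) h))
  rw [hL, hR]
  have hA : ∑ v ∈ w, ∑ a ∈ w.erase v,
      (sg (π v) ((w.erase v).image π) * sg (π a) (((w.erase v).erase a).image π)) •
          Finsupp.single (insert a ({v} : Finset W), (w.erase v).erase a) n = 0 := by
    apply anti_sum w (fun v a =>
      (sg (π v) ((w.erase v).image π) * sg (π a) (((w.erase v).erase a).image π)) •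
          Finsupp.single (insert a ({v} : Finset W), (w.erase v).erase a) n)
    intro v hv a ha hva
    show (sg (π v) ((w.erase v).image π) * sg (π a) (((w.erase v).erase a).image π)) •
          Finsupp.single (insert a ({v} : Finset W), (w.erase v).erase a) n =
      -((sg (π a) ((w.erase a).image π) * sg (π v) (((w.erase a).erase v).image π)) •
          Finsupp.single (insert v ({a} : Finset W), (w.erase a).erase v) n)
    rw [hsign v hv a ha hva, neg_smul]
    have h3 : (w.erase a).erase v = (w.erase v).erase a := Finset.erase_right_comm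
    rw [h3]
    have h4 : (insert a ({v} : Finset W)) = insert v ({a} : Finset W) := Finset.pair_comm a v
    rw [h4]
  simp only [Finset.sum_sub_distrib]
  rw [hA, zero_sub, ← Finset.sum_neg_distrib]
  refine Finset.sum_congr rfl fun v hv => ?_
  rw [← Finset.sum_neg_distrib]
  refine Finset.sum_congr rfl fun a ha => ?_
  have hva : v ≠ a := (Finset.ne_of_mem_erase ha).symm
  have ha' : a ∈ w := Finset.mem_of_mem_erase ha
  rw [hsign v hv a ha' hva, neg_smul, neg_neg]
  have h3 : (w.erase a).erase v = (w.erase v).erase a := Finset.erase_right_comm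
  rw [h3]

theorem part1 (c : Finset W →₀ N) (hc : ∀ t, c t ≠ 0 → Set.InjOn π (t : Set W)) :
    dT π (rc N) (rT π c) = rT π (bdl π c) := by
  have h : c = ∑ w ∈ c.support, Finsupp.single w (c w) := (Finsupp.sum_single c).symm
  rw [h]
  simp only [map_sum]
  exact Finset.sum_congr rfl fun w hw => part1_single π w (c w) (hc w (Finsupp.mem_support_iff.1 hw))

theorem rT_one (c : Finset W →₀ N) (v : W) (u : Finset W) (hv : v ∉ u) :
    rT π c ({v}, u) = sg (π v) (u.image π) • c (insert v u) := by
  induction c using Finsupp.induction_linear with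
  | zero => simp
  | add f g hf hg => rw [map_add, Finsupp.add_apply, hf, hg, Finsupp.add_apply, smul_add]
  | single w n =>
    rw [rT_single, Finsupp.finsetSum_apply]
    by_cases hw : w = insert v u
    · subst hw
      rw [Finset.sum_eq_single v]
      · rw [Finsupp.smul_apply, Finset.erase_insert hv, Finsupp.single_eq_same,
          Finsupp.single_eq_same]
      · intro b _ hb
        rw [Finsupp.smul_apply, Finsupp.single_eq_of_ne, smul_zero]
        intro h
        have h1 := congrArg Prod.fst h
        simp only [Finset.singleton_inj] at h1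
        exact hb h1.symm
      · intro h
        exact absurd (Finset.mem_insert_self v u) h
    · have h0 : (Finsupp.single w n : Finset W →₀ N) (insert v u) = 0 :=
        Finsupp.single_eq_of_ne (Ne.symm hw)
      rw [h0, smul_zero]
      refine Finset.sum_eq_zero fun b hb => ?_
      rw [Finsupp.smul_apply, Finsupp.single_eq_of_ne, smul_zero]
      intro h
      have h1 := congrArg Prod.fst h
      have h2 := congrArg Prod.snd h
      simp only [Finset.singleton_inj] at h1
      simp only at h2
      apply hw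
      rw [h1, h2, Finset.insert_erase hb]

theorem rT_zero (c : Finset W →₀ N) (s u : Finset W) (h : ∀ v, v ∉ u → s ≠ {v}) :
    rT π c (s, u) = 0 := by
  induction c using Finsupp.induction_linear with
  | zero => simp
  | add f g hf hg => rw [map_add, Finsupp.add_apply, hf, hg, add_zero]
  | single w n =>
    rw [rT_single, Finsupp.finsetSum_apply]
    refine Finset.sum_eq_zero fun b hb => ?_
    rw [Finsupp.smul_apply, Finsupp.single_eq_of_ne, smul_zero]
    intro h0
    have h1 := congrArg Prod.fst h0
    have h2 := congrArg Prod.snd h0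
    simp only at h1 h2
    exact h b (by rw [h2]; simp) h1

theorem part2 (c : Finset W →₀ N) (w : Finset W) (v : W) (hv : v ∈ w) :
    rT π c ({v}, w.erase v) = sg (π v) ((w.erase v).image π) • c w := by
  rw [rT_one π c v (w.erase v) (by simp), Finset.insert_erase hv]

theorem empty_zero {Yt : Set (Finset W)} {x : (Finset W × Finset W) →₀ N}
    (hx : IsDt Yt π (Fc N) x) (u : Finset W) : x (∅, u) = 0 := by
  have h := (hx (∅, u)).2
  unfold Fc at h
  rw [if_pos (by simp)] at h
  exact (Submodule.mem_bot ℝ).1 h

theorem dT_apply (h : S_A3) {Yt : Set (Finset W)} {x : (Finset W × Finset W) →₀ N}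
    (hx : IsDt Yt π (Fc N) x) (s u : Finset W) (hd : Disjoint s u)
    (h0 : ∀ a, a ∉ s ∪ u → x (s, insert a u) = 0) :
    dT π (rc N) x (s, u) = ∑ a ∈ s, sg (π a) (u.image π) • x (s.erase a, insert a u) := by
  have h1 := (h W π N (rc N) x (fun p hp => ((hx p).1 hp).1) s u).2 hd ∅
    (fun a ha hne => absurd (h0 a ha) hne)
  rw [h1, Finset.empty_sdiff, Finset.sum_empty, sub_zero]
  refine Finset.sum_congr rfl fun a ha => ?_
  by_cases he : s.erase a = ∅
  · rw [he, empty_zero π hx, map_zero]
  · rw [rc_ne]
    simpa using he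

theorem step (h : S_A3) {Y : Finset (Finset ℕ)} {Yt : Set (Finset W)} (hL : IsLab Y π Yt)
    (m : Finset W → W) (hm : ∀ t : Finset W, t.Nonempty → m t ∈ t)
    (x : (Finset W × Finset W) →₀ N) (hx : IsDt Yt π (Fc N) x) (k : ℕ) (hk : 2 ≤ k)
    (hsz : ∀ p, x p ≠ 0 → p.1.card ≤ k)
    (h0 : ∀ s u : Finset W, s.card = k + 1 → dT π (rc N) x (s, u) = 0) :
    ∃ y, IsDt Yt π (Fc N) y ∧ ∀ p, (x - dT π (rc N) y) p ≠ 0 → p.1.card + 1 ≤ k := by
  classical
  set f : Finset W × Finset W → N := fun p =>
    if Disjoint p.1 p.2 ∧ p.1.card + 1 = k ∧ m (p.1 ∪ p.2) ∈ p.2 then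
      sg (π (m (p.1 ∪ p.2))) ((p.2.erase (m (p.1 ∪ p.2))).image π) •
        x (insert (m (p.1 ∪ p.2)) p.1, p.2.erase (m (p.1 ∪ p.2)))
    else 0 with hf
  have hcup : ∀ (s u : Finset W) (v : W), v ∈ u → insert v s ∪ u.erase v = s ∪ u := by
    intro s u v hv
    ext b
    simp only [Finset.mem_union, Finset.mem_insert, Finset.mem_erase]
    constructor
    · rintro ((rfl | h1) | h1)
      · exact Or.inr hv
      · exact Or.inl h1
      · exact Or.inr h1.2
    · rintro (h1 | h1)
      · exact Or.inl (Or.inr h1)
      · by_cases hb : b = v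
        · exact Or.inl (Or.inl hb)
        · exact Or.inr ⟨hb, h1⟩
  have hfne : ∀ p, f p ≠ 0 → Disjoint p.1 p.2 ∧ p.1.card + 1 = k ∧ m (p.1 ∪ p.2) ∈ p.2 ∧
      x (insert (m (p.1 ∪ p.2)) p.1, p.2.erase (m (p.1 ∪ p.2))) ≠ 0 := by
    intro p hp
    rw [hf] at hp
    simp only at hp
    by_cases hc : Disjoint p.1 p.2 ∧ p.1.card + 1 = k ∧ m (p.1 ∪ p.2) ∈ p.2
    · rw [if_pos hc] at hp
      exact ⟨hc.1, hc.2.1, hc.2.2, fun h1 => hp (by rw [h1, smul_zero])⟩
    · rw [if_neg hc] at hp
      exact absurd rfl hp
  set y : (Finset W × Finset W) →₀ N := Finsupp.onFinset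
    (x.support.image fun p => (p.1.erase (m (p.1 ∪ p.2)), insert (m (p.1 ∪ p.2)) p.2)) f (by
      intro p hp
      obtain ⟨h1, h2, h3, h4⟩ := hfne p hp
      refine Finset.mem_image.2 ⟨_, Finsupp.mem_support_iff.2 h4, ?_⟩
      simp only
      rw [hcup _ _ _ h3]
      have hv : m (p.1 ∪ p.2) ∉ p.1 := fun h5 => (Finset.disjoint_left.1 h1) h5 h3
      rw [Finset.erase_insert hv, Finset.insert_erase h3]) with hy
  have hyf : ∀ p, y p = f p := fun p => rfl
  have hyD : IsDt Yt π (Fc N) y := by
    intro p
    constructor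
    · intro hp
      rw [hyf] at hp
      obtain ⟨h1, h2, h3, h4⟩ := hfne p hp
      refine ⟨h1, ?_⟩
      have h5 := ((hx _).1 h4).2
      simp only at h5
      rwa [hcup _ _ _ h3] at h5
    · rw [hyf]
      unfold Fc
      split_ifs with he
      · have h1 : p.1 = ∅ := by simpa using he
        have h2 : f p = 0 := by
          by_contra hne
          have h3 := (hfne p hne).2.1
          rw [h1, Finset.card_empty] at h3
          omega
        rw [h2]
        exact Submodule.zero_mem _
      · exact Submodule.mem_top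
  refine ⟨y, hyD, ?_⟩
  rintro ⟨s, u⟩ hp
  by_contra hcard
  simp only at hcard
  apply hp
  rw [Finsupp.sub_apply, sub_eq_zero]
  by_cases hd : Disjoint s u
  swap
  · rw [(h W π N (rc N) y (fun p hp => ((hyD p).1 hp).1) s u).1 hd]
    by_contra hne
    exact hd ((hx _).1 hne).1
  have hy0 : ∀ (s' u' : Finset W), s'.card + 1 ≠ k → y (s', u') = 0 := by
    intro s' u' hne
    by_contra h1
    rw [hyf] at h1
    exact hne (hfne _ h1).2.1
  rw [dT_apply π h hyD s u hd (fun a _ => hy0 _ _ (by omega))]
  by_cases hsk : s.card = k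
  swap
  · have h1 : x (s, u) = 0 := by
      by_contra hne
      have := hsz _ hne
      simp only at this
      omega
    rw [h1]
    symm
    refine Finset.sum_eq_zero fun a ha => ?_
    rw [hy0, smul_zero]
    rw [Finset.card_erase_of_mem ha]
    omega
  have hsne : s.Nonempty := by
    rw [← Finset.card_pos]
    omega
  have hcup' : ∀ a ∈ s, s.erase a ∪ insert a u = s ∪ u := by
    intro a ha
    ext b
    simp only [Finset.mem_union, Finset.mem_insert, Finset.mem_erase]
    constructor
    · rintro (h1 | (rfl | h1))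
      · exact Or.inl h1.2
      · exact Or.inl ha
      · exact Or.inr h1
    · rintro (h1 | h1)
      · by_cases hb : b = a
        · exact Or.inr (Or.inl hb)
        · exact Or.inl ⟨hb, h1⟩
      · exact Or.inr (Or.inr h1)
  by_cases ht : s ∪ u ∈ Yt
  swap
  · have h1 : x (s, u) = 0 := by
      by_contra hne
      exact ht ((hx _).1 hne).2
    rw [h1]
    symm
    refine Finset.sum_eq_zero fun a ha => ?_
    have h2 : y (s.erase a, insert a u) = 0 := by
      by_contra hne
      have h3 := ((hyD _).1 hne).2
      simp only at h3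
      rw [hcup' a ha] at h3
      exact ht h3
    rw [h2, smul_zero]
  have hinj := (hL.simp _ ht).2
  have hvt := hm (s ∪ u) (hsne.mono Finset.subset_union_left)
  have hyv : ∀ a ∈ s, y (s.erase a, insert a u) = if m (s ∪ u) ∈ insert a u then
      sg (π (m (s ∪ u))) (((insert a u).erase (m (s ∪ u))).image π) •
        x (insert (m (s ∪ u)) (s.erase a), (insert a u).erase (m (s ∪ u))) else 0 := by
    intro a ha
    rw [hyf, hf]
    simp only
    rw [hcup' a ha]
    have h1 : Disjoint (s.erase a) (insert a u) := by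
      rw [Finset.disjoint_left]
      intro b hb hb'
      rw [Finset.mem_insert] at hb'
      rcases hb' with rfl | hb'
      · simp at hb
      · exact Finset.disjoint_left.1 hd (Finset.mem_of_mem_erase hb) hb'
    have h2 : (s.erase a).card + 1 = k := by
      rw [Finset.card_erase_of_mem ha]
      omega
    by_cases h3 : m (s ∪ u) ∈ insert a u
    · rw [if_pos ⟨h1, h2, h3⟩, if_pos h3]
    · rw [if_neg (fun h4 => h3 h4.2.2), if_neg h3]
  generalize m (s ∪ u) = v at hvt hyv
  by_cases hvs : v ∈ s
  · have hvu : v ∉ u := fun h1 => Finset.disjoint_left.1 hd hvs h1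
    rw [Finset.sum_eq_single v]
    · rw [hyv v hvs, if_pos (Finset.mem_insert_self _ _), Finset.erase_insert hvu,
        Finset.insert_erase hvs, smul_smul, sg_sq, one_smul]
    · intro a ha hav
      rw [hyv a ha, if_neg, smul_zero]
      rw [Finset.mem_insert]
      rintro (h1 | h1)
      · exact hav h1.symm
      · exact hvu h1
    · intro h1
      exact absurd hvs h1
  · have hvu : v ∈ u := (Finset.mem_union.1 hvt).resolve_left hvs
    have hu : u = insert v (u.erase v) := (Finset.insert_erase hvu).symm
    have hvu0 : v ∉ u.erase v := by simp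
    have hau : ∀ a ∈ s, a ∉ u := fun a ha h1 => Finset.disjoint_left.1 hd ha h1
    have hav : ∀ a ∈ s, a ≠ v := by
      rintro a ha rfl
      exact hvs ha
    generalize u.erase v = u0 at hu hvu0
    subst hu
    have hd' : Disjoint (insert v s) u0 := by
      rw [Finset.disjoint_left]
      intro b hb hb'
      rw [Finset.mem_insert] at hb
      rcases hb with rfl | hb
      · exact hvu0 hb'
      · exact hau b hb (Finset.mem_insert_of_mem hb')
    have h1 := dT_apply π h hx (insert v s) u0 hd' (by
      intro a _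
      by_contra hne
      have := hsz _ hne
      simp only at this
      rw [Finset.card_insert_of_notMem hvs] at this
      omega)
    rw [h0 _ _ (by rw [Finset.card_insert_of_notMem hvs, hsk]), Finset.sum_insert hvs,
      Finset.erase_insert hvs] at h1
    have h2 : ∀ a ∈ s, sg (π a) ((insert v u0).image π) • y (s.erase a, insert a (insert v u0)) =
        -(sg (π v) (u0.image π)) • (sg (π a) (u0.image π) •
          x ((insert v s).erase a, insert a u0)) := by
      intro a ha
      rw [hyv a ha, if_pos (Finset.mem_insert_of_mem hvu), Finset.erase_insert_of_ne (hav a ha),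
        Finset.erase_insert hvu0, ← Finset.erase_insert_of_ne (hav a ha).symm]
      have hva : π v ≠ π a := fun h3 => hav a ha (hinj (by simp [ha]) (by simp) h3.symm)
      have hsub : u0 ⊆ s ∪ insert v u0 := fun b hb => by simp [hb]
      have h3 := sg_anti' (a := π a) (c := π v) (u := u0.image π)
        (notMem_img π hinj (by simp [ha]) hsub (fun h4 => hau a ha (Finset.mem_insert_of_mem h4)))
        (notMem_img π hinj (by simp) hsub hvu0) hva.symm
      rw [smul_smul, smul_smul, Finset.image_insert, Finset.image_insert, mul_comm, h3, neg_mul]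
    rw [Finset.sum_congr rfl h2, ← Finset.smul_sum]
    have h3 : ∑ a ∈ s, sg (π a) (u0.image π) • x ((insert v s).erase a, insert a u0) =
        -(sg (π v) (u0.image π) • x (s, insert v u0)) := by
      rw [eq_neg_iff_add_eq_zero, add_comm]
      exact h1.symm
    rw [h3, smul_neg, neg_smul, neg_neg, smul_smul, sg_sq, one_smul]

theorem base (h : S_A3) {Y : Finset (Finset ℕ)} {Yt : Set (Finset W)} (hL : IsLab Y π Yt)
    (m : Finset W → W) (hm : ∀ t : Finset W, t.Nonempty → m t ∈ t)
    (x : (Finset W × Finset W) →₀ N) (hx : IsDt Yt π (Fc N) x)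
    (hsz : ∀ p, x p ≠ 0 → p.1.card ≤ 1)
    (h0 : ∀ s u : Finset W, s.card = 2 → dT π (rc N) x (s, u) = 0) :
    ∃ c1 : Finset W →₀ N, (∀ w, c1 w ≠ 0 → w ∈ Yt ∧ w.Nonempty) ∧ x = rT π c1 := by
  classical
  have key : ∀ w ∈ Yt, ∀ v ∈ w, ∀ v' ∈ w,
      sg (π v) ((w.erase v).image π) • x ({v}, w.erase v) =
      sg (π v') ((w.erase v').image π) • x ({v'}, w.erase v') := by
    intro w hw v hv v' hv'
    by_cases hne : v = v'
    · rw [hne]
    have hinj := (hL.simp _ hw).2
    have e1 : w.erase v = insert v' ((w.erase v).erase v') := by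
      rw [Finset.insert_erase]
      exact Finset.mem_erase.2 ⟨fun h1 => hne h1.symm, hv'⟩
    have e2 : w.erase v' = insert v ((w.erase v).erase v') := by
      rw [Finset.erase_right_comm, Finset.insert_erase]
      exact Finset.mem_erase.2 ⟨hne, hv⟩
    have hv1 : v ∉ (w.erase v).erase v' := by simp
    have hv2 : v' ∉ (w.erase v).erase v' := by simp
    have hsub : (w.erase v).erase v' ⊆ w :=
      (Finset.erase_subset _ _).trans (Finset.erase_subset _ _)
    have hp1 := notMem_img π hinj hv hsub hv1
    have hp2 := notMem_img π hinj hv' hsub hv2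
    have hpn : π v ≠ π v' := fun h1 => hne (hinj (Finset.mem_coe.2 hv) (Finset.mem_coe.2 hv') h1)
    rw [e2]
    nth_rewrite 1 [e1]
    nth_rewrite 2 [e1]
    generalize (w.erase v).erase v' = u at hv1 hv2 hp1 hp2
    have hd : Disjoint ({v, v'} : Finset W) u := by
      rw [Finset.disjoint_left]
      intro b hb hb'
      rw [Finset.mem_insert, Finset.mem_singleton] at hb
      rcases hb with rfl | rfl
      · exact hv1 hb'
      · exact hv2 hb'
    have hc2 : ({v, v'} : Finset W).card = 2 := Finset.card_pair hne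
    have h1 := dT_apply π h hx {v, v'} u hd (by
      intro a _
      by_contra hne'
      have := hsz _ hne'
      simp only at this
      omega)
    rw [h0 _ _ hc2, Finset.sum_pair hne] at h1
    have e3 : ({v, v'} : Finset W).erase v = {v'} := by
      rw [Finset.erase_insert]
      simpa using hne
    have e4 : ({v, v'} : Finset W).erase v' = {v} := by
      rw [Finset.pair_comm, Finset.erase_insert]
      simpa using fun h2 => hne h2.symm
    rw [e3, e4] at h1
    have h2 : x ({v'}, insert v u) =
        -((sg (π v) (u.image π) * sg (π v') (u.image π)) • x ({v}, insert v' u)) := by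
      have h3 : sg (π v) (u.image π) • x ({v'}, insert v u) =
          -(sg (π v') (u.image π) • x ({v}, insert v' u)) := by
        rw [eq_neg_iff_add_eq_zero]
        exact h1.symm
      have h4 := congrArg (fun n => sg (π v) (u.image π) • n) h3
      rw [smul_smul, sg_sq, one_smul, smul_neg, smul_smul] at h4
      exact h4
    rw [h2, smul_neg, smul_smul, ← neg_smul]
    congr 1
    rw [Finset.image_insert, Finset.image_insert]
    have h3 := sg_anti hp1 hp2 hpn
    have h4 := sg_sq (π v) (u.image π)
    have h5 := sg_sq (π v') (u.image π)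
    calc sg (π v) (insert (π v') (u.image π))
        = (sg (π v) (insert (π v') (u.image π)) * sg (π v') (u.image π)) *
            sg (π v') (u.image π) := by rw [mul_assoc, h5, mul_one]
      _ = _ := by rw [h3]; ring
  set f : Finset W → N := fun w => if w.Nonempty then
    sg (π (m w)) ((w.erase (m w)).image π) • x ({m w}, w.erase (m w)) else 0 with hf
  have hfne : ∀ w, f w ≠ 0 → w.Nonempty ∧ x ({m w}, w.erase (m w)) ≠ 0 := by
    intro w hw
    rw [hf] at hw
    simp only at hw
    by_cases hc : w.Nonempty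
    · rw [if_pos hc] at hw
      exact ⟨hc, fun h1 => hw (by rw [h1, smul_zero])⟩
    · rw [if_neg hc] at hw
      exact absurd rfl hw
  have hcup : ∀ w : Finset W, w.Nonempty → {m w} ∪ w.erase (m w) = w := by
    intro w hw
    rw [← Finset.insert_eq, Finset.insert_erase (hm w hw)]
  set c1 : Finset W →₀ N := Finsupp.onFinset (x.support.image fun p => p.1 ∪ p.2) f (by
      intro w hw
      obtain ⟨h1, h2⟩ := hfne w hw
      exact Finset.mem_image.2 ⟨_, Finsupp.mem_support_iff.2 h2, hcup w h1⟩) with hc1
  have hcf : ∀ w, c1 w = f w := fun w => rfl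
  refine ⟨c1, ?_, ?_⟩
  · intro w hw
    rw [hcf] at hw
    obtain ⟨h1, h2⟩ := hfne w hw
    have h3 := ((hx _).1 h2).2
    simp only at h3
    rw [hcup w h1] at h3
    exact ⟨h3, h1⟩
  · ext ⟨s, u⟩
    by_cases hs : ∃ v, v ∉ u ∧ s = {v}
    · obtain ⟨v, hvu, rfl⟩ := hs
      rw [rT_one π c1 v u hvu, hcf, hf]
      simp only
      have hwne : (insert v u).Nonempty := Finset.insert_nonempty v u
      rw [if_pos hwne]
      by_cases hw : insert v u ∈ Yt
      · rw [key _ hw _ (hm _ hwne) v (Finset.mem_insert_self v u), Finset.erase_insert hvu,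
          smul_smul, sg_sq, one_smul]
      · have h1 : x ({v}, u) = 0 := by
          by_contra hne
          have h2 := ((hx _).1 hne).2
          simp only at h2
          rw [← Finset.insert_eq] at h2
          exact hw h2
        have h2 : x ({m (insert v u)}, (insert v u).erase (m (insert v u))) = 0 := by
          by_contra hne
          have h2 := ((hx _).1 hne).2
          simp only at h2
          rw [hcup _ hwne] at h2
          exact hw h2
        rw [h1, h2, smul_zero, smul_zero]
    · rw [rT_zero π c1 s u (fun v hv hsv => hs ⟨v, hv, hsv⟩)]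
      by_contra hne
      have h1 := ((hx _).1 hne).1
      have h2 := hsz _ hne
      simp only at h1 h2
      have h3 : s ≠ ∅ := by
        rintro rfl
        exact hne (empty_zero π hx u)
      have h4 : s.card = 1 := by
        have := Finset.card_pos.2 (Finset.nonempty_iff_ne_empty.2 h3)
        omega
      obtain ⟨v, rfl⟩ := Finset.card_eq_one.1 h4
      exact hs ⟨v, fun h5 => Finset.disjoint_left.1 h1 (Finset.mem_singleton_self v) h5, rfl⟩

theorem dt_sub {Yt : Set (Finset W)} {x y : (Finset W × Finset W) →₀ N}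
    (hx : IsDt Yt π (Fc N) x) (hy : IsDt Yt π (Fc N) y) : IsDt Yt π (Fc N) (x - y) := by
  intro p
  constructor
  · intro hp
    rw [Finsupp.sub_apply] at hp
    by_cases h1 : x p = 0
    · by_cases h2 : y p = 0
      · rw [h1, h2, sub_zero] at hp
        exact absurd rfl hp
      · exact (hy p).1 h2
    · exact (hx p).1 h1
  · rw [Finsupp.sub_apply]
    exact Submodule.sub_mem _ (hx p).2 (hy p).2

theorem dt_add {Yt : Set (Finset W)} {x y : (Finset W × Finset W) →₀ N}
    (hx : IsDt Yt π (Fc N) x) (hy : IsDt Yt π (Fc N) y) : IsDt Yt π (Fc N) (x + y) := by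
  intro p
  constructor
  · intro hp
    rw [Finsupp.add_apply] at hp
    by_cases h1 : x p = 0
    · by_cases h2 : y p = 0
      · rw [h1, h2, add_zero] at hp
        exact absurd rfl hp
      · exact (hy p).1 h2
    · exact (hx p).1 h1
  · rw [Finsupp.add_apply]
    exact Submodule.add_mem _ (hx p).2 (hy p).2

theorem rT_big (c : Finset W →₀ N) (s u : Finset W) (hs : 2 ≤ s.card) : rT π c (s, u) = 0 := by
  refine rT_zero π c s u fun v _ h1 => ?_
  rw [h1, Finset.card_singleton] at hs
  omega

theorem ind (h : S_A3) (h' : S_A4) {Y : Finset (Finset ℕ)} {Yt : Set (Finset W)}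
    (hL : IsLab Y π Yt) (m : Finset W → W) (hm : ∀ t : Finset W, t.Nonempty → m t ∈ t)
    (c : Finset W →₀ N) (k : ℕ) : ∀ (x : (Finset W × Finset W) →₀ N), IsDt Yt π (Fc N) x →
    (∀ p, x p ≠ 0 → p.1.card ≤ k + 1) → dT π (rc N) x = rT π c →
    ∃ (y : (Finset W × Finset W) →₀ N) (c1 : Finset W →₀ N), IsDt Yt π (Fc N) y ∧
      (∀ w, c1 w ≠ 0 → w ∈ Yt ∧ w.Nonempty) ∧ x - dT π (rc N) y = rT π c1 := by
  induction k with
  | zero =>
    intro x hx hsz hd
    obtain ⟨c1, h1, h2⟩ := base π h hL m hm x hx (fun p hp => by simpa using hsz p hp)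
      (fun s u hs => by rw [hd]; exact rT_big π c s u hs.ge)
    refine ⟨0, c1, ?_, h1, ?_⟩
    · intro p
      exact ⟨fun hp => absurd rfl hp, Submodule.zero_mem _⟩
    · rw [map_zero, sub_zero]
      exact h2
  | succ k ih =>
    intro x hx hsz hd
    obtain ⟨y, hy, hsz'⟩ := step π h hL m hm x hx (k + 2) (by omega)
      (fun p hp => by have := hsz p hp; omega)
      (fun s u hs => by rw [hd]; exact rT_big π c s u (by omega))
    have hA4 := h' Y W π Yt hL N (Fc N) (rc N) (isCS Y) y hy
    obtain ⟨y2, c1, h1, h2, h3⟩ := ih (x - dT π (rc N) y) (dt_sub π hx hA4.1)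
      (fun p hp => by have := hsz' p hp; omega) (by rw [map_sub, hA4.2, sub_zero, hd])
    refine ⟨y + y2, c1, dt_add π hy h1, h2, ?_⟩
    rw [map_add, ← h3]
    abel

theorem prf (h : S_A3) (h' : S_A4) : S_Q3 := by
  intro W _ π N _ _
  refine ⟨fun c hc => part1 π c hc, fun c w v hv => part2 π c w v hv, ?_⟩
  intro Y Yt hL x c hx hc hd
  by_cases hx0 : x = 0
  · refine ⟨0, 0, ?_, fun w hw => absurd rfl hw, ?_⟩
    · intro p
      exact ⟨fun hp => absurd rfl hp, Submodule.zero_mem _⟩
    · rw [hx0, map_zero, map_zero, sub_zero]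
  obtain ⟨p, hp⟩ : ∃ p, x p ≠ 0 := by
    by_contra hcon
    push Not at hcon
    exact hx0 (Finsupp.ext hcon)
  have hpne : p.1.Nonempty := by
    rw [Finset.nonempty_iff_ne_empty]
    intro he
    apply hp
    have h1 : p = (∅, p.2) := by rw [← he]
    rw [h1]
    exact empty_zero π hx p.2
  obtain ⟨w0, hw0⟩ := hpne
  classical
  have hm : ∃ m : Finset W → W, ∀ t : Finset W, t.Nonempty → m t ∈ t := by
    refine ⟨fun t => if ht : t.Nonempty then ht.choose else w0, fun t ht => ?_⟩
    show (if ht : t.Nonempty then ht.choose else w0) ∈ t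
    rw [dif_pos ht]
    exact ht.choose_spec
  obtain ⟨m, hm⟩ := hm
  refine ind π h h' hL m hm c (x.support.sup fun p => p.1.card) x hx (fun q hq => ?_) hd
  have h1 : q.1.card ≤ x.support.sup fun p => p.1.card :=
    Finset.le_sup (f := fun p : Finset W × Finset W => p.1.card) (Finsupp.mem_support_iff.2 hq)
  omega

end MP8a95ee.Rk.Q3P
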