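import Pool.Agent.Work.MP_8a95ee_gt.Rk.Stmts
import Pool.Agent.Work.MP_8a95ee_gt.R.Bas

/-!
# Block Rk, item Q4: the pieces of the complex with the cone point
-/

set_option autoImplicit false

namespace MP8a95ee.Rk.Q4P

open Ref RA

section gen

variable {W : Type} [DecidableEq W] {N : Type} [AddCommGroup N] [Module ℝ N]

lemma isDt_zero (Yt : Set (Finset W)) (π : W → ℕ) (F : Finset ℕ → Submodule ℝ N) :
    IsDt Yt π F (0 : (Finset W × Finset W) →₀ N) := by
  intro p
  exact ⟨fun h => absurd rfl h, Submodule.zero_mem _⟩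

lemma isDt_add {Yt : Set (Finset W)} {π : W → ℕ} {F : Finset ℕ → Submodule ℝ N}
    {x y : (Finset W × Finset W) →₀ N} (hx : IsDt Yt π F x) (hy : IsDt Yt π F y) :
    IsDt Yt π F (x + y) := by
  intro p
  refine ⟨fun h => ?_, ?_⟩
  · rw [Finsupp.add_apply] at h
    by_cases hxp : x p = 0
    · have h1 : y p ≠ 0 := by
        intro h0
        exact h (by rw [hxp, h0, add_zero])
      exact (hy p).1 h1
    · exact (hx p).1 hxp
  · rw [Finsupp.add_apply]
    exact Submodule.add_mem _ (hx p).2 (hy p).2

lemma isDt_single {Yt : Set (Finset W)} {π : W → ℕ} {F : Finset ℕ → Submodule ℝ N}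
    {s u : Finset W} {n : N} (h1 : Disjoint s u) (h2 : s ∪ u ∈ Yt) (h3 : n ∈ F (s.image π)) :
    IsDt Yt π F (Finsupp.single (s, u) n) := by
  intro p
  by_cases hp : p = (s, u)
  · subst hp
    rw [Finsupp.single_eq_same]
    exact ⟨fun _ => ⟨h1, h2⟩, h3⟩
  · rw [Finsupp.single_eq_of_ne hp]
    exact ⟨fun h => absurd rfl h, Submodule.zero_mem _⟩

lemma isDt_sum {Yt : Set (Finset W)} {π : W → ℕ} {F : Finset ℕ → Submodule ℝ N} {ι : Type}
    (I : Finset ι) (f : ι → ((Finset W × Finset W) →₀ N)) (h : ∀ i ∈ I, IsDt Yt π F (f i)) :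
    IsDt Yt π F (∑ i ∈ I, f i) :=
  Finset.sum_induction f _ (fun _ _ => isDt_add) (isDt_zero Yt π F) h

lemma expand (x : (Finset W × Finset W) →₀ N) :
    x = ∑ r ∈ x.support, Finsupp.single r (x r) := (Finsupp.sum_single x).symm

lemma lin_expand {M' : Type} [AddCommGroup M'] [Module ℝ M']
    (T : ((Finset W × Finset W) →₀ N) →ₗ[ℝ] M') (x : (Finset W × Finset W) →₀ N) :
    T x = ∑ r ∈ x.support, T (Finsupp.single r (x r)) := by
  conv_lhs => rw [expand x]
  rw [map_sum]

lemma dT_single (π : W → ℕ) (ρ : ℕ → Finset ℕ → N →ₗ[ℝ] N) (s u : Finset W) (n : N) :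
    dT π ρ (Finsupp.single (s, u) n) = ∑ a ∈ u, sg (π a) ((u.erase a).image π) •
      (Finsupp.single (insert a s, u.erase a) (ρ (π a) (s.image π) n) -
        Finsupp.single (s, u.erase a) n) := by
  unfold dT
  rw [Finsupp.lsum_single, LinearMap.sum_apply]
  rfl

lemma iT_single (π : W → ℕ) (zz : W) (s u : Finset W) (n : N) :
    iT π zz (Finsupp.single (s, u) n) =
      sg (π zz) (u.image π) • Finsupp.single (s, insert zz u) n := by
  unfold iT
  rw [Finsupp.lsum_single]
  rfl

lemma jT_single (zz : W) (s u : Finset W) (n : N) :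
    jT zz (Finsupp.single (s, u) n) = Finsupp.single (insert zz s, u) n := by
  unfold jT
  rw [Finsupp.lsum_single]
  rfl

lemma eT_single (π : W → ℕ) (e : ℕ → N →ₗ[ℝ] N) (s u : Finset W) (n : N) :
    eT π e (Finsupp.single (s, u) n) = Finsupp.single (s, u) (eP e (s.image π) n) := by
  unfold eT
  rw [Finsupp.lsum_single]
  rfl

lemma ins_inj {zz : W} {s a : Finset W} (hs : zz ∉ s) (ha : zz ∉ a)
    (h : insert zz s = insert zz a) : s = a := by
  rw [← Finset.erase_insert hs, h, Finset.erase_insert ha]

/-- coefficients of `jT` -/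
lemma jT_apply (zz : W) (q : (Finset W × Finset W) →₀ N)
    (hq : ∀ r, q r ≠ 0 → zz ∉ r.1 ∧ zz ∉ r.2) (s u : Finset W) :
    (zz ∉ s → jT zz q (s, u) = 0) ∧ (zz ∉ s → jT zz q (insert zz s, u) = q (s, u)) := by
  constructor
  · intro hs
    rw [lin_expand, Finsupp.finsetSum_apply]
    refine Finset.sum_eq_zero fun r _ => ?_
    obtain ⟨a, b⟩ := r
    rw [jT_single, Finsupp.single_eq_of_ne]
    intro h
    apply hs
    rw [(Prod.mk.inj h).1]
    exact Finset.mem_insert_self _ _
  · intro hs
    rw [lin_expand, Finsupp.finsetSum_apply]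
    by_cases h0 : q (s, u) = 0
    · rw [h0]
      refine Finset.sum_eq_zero fun r hr => ?_
      obtain ⟨a, b⟩ := r
      have hr' := Finsupp.mem_support_iff.1 hr
      rw [jT_single, Finsupp.single_eq_of_ne]
      intro h
      obtain ⟨h1, h2⟩ := Prod.mk.inj h
      have h3 : s = a := ins_inj hs (hq _ hr').1 h1
      rw [← h3, ← h2] at hr'
      exact hr' h0
    · rw [Finset.sum_eq_single (s, u)]
      · rw [jT_single, Finsupp.single_eq_same]
      · rintro ⟨a, b⟩ hr hne
        have hr' := Finsupp.mem_support_iff.1 hr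
        rw [jT_single, Finsupp.single_eq_of_ne]
        intro h
        obtain ⟨h1, h2⟩ := Prod.mk.inj h
        apply hne
        have h3 : s = a := ins_inj hs (hq _ hr').1 h1
        rw [← h3, ← h2]
      · intro h
        exact absurd (Finsupp.mem_support_iff.2 h0) h

/-- coefficients of `iT` -/
lemma iT_apply (π : W → ℕ) (zz : W) (q : (Finset W × Finset W) →₀ N)
    (hq : ∀ r, q r ≠ 0 → zz ∉ r.1 ∧ zz ∉ r.2) (s u : Finset W) :
    (zz ∉ u → iT π zz q (s, u) = 0) ∧
      (zz ∉ u → iT π zz q (s, insert zz u) = sg (π zz) (u.image π) • q (s, u)) := by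
  constructor
  · intro hs
    rw [lin_expand, Finsupp.finsetSum_apply]
    refine Finset.sum_eq_zero fun r _ => ?_
    obtain ⟨a, b⟩ := r
    rw [iT_single, Finsupp.smul_apply, Finsupp.single_eq_of_ne, smul_zero]
    intro h
    apply hs
    rw [(Prod.mk.inj h).2]
    exact Finset.mem_insert_self _ _
  · intro hs
    rw [lin_expand, Finsupp.finsetSum_apply]
    by_cases h0 : q (s, u) = 0
    · rw [h0, smul_zero]
      refine Finset.sum_eq_zero fun r hr => ?_
      obtain ⟨a, b⟩ := r
      have hr' := Finsupp.mem_support_iff.1 hr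
      rw [iT_single, Finsupp.smul_apply, Finsupp.single_eq_of_ne, smul_zero]
      intro h
      obtain ⟨h1, h2⟩ := Prod.mk.inj h
      have h3 : u = b := ins_inj hs (hq _ hr').2 h2
      rw [← h3, ← h1] at hr'
      exact hr' h0
    · rw [Finset.sum_eq_single (s, u)]
      · rw [iT_single, Finsupp.smul_apply, Finsupp.single_eq_same]
      · rintro ⟨a, b⟩ hr hne
        have hr' := Finsupp.mem_support_iff.1 hr
        rw [iT_single, Finsupp.smul_apply, Finsupp.single_eq_of_ne, smul_zero]
        intro h
        obtain ⟨h1, h2⟩ := Prod.mk.inj h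
        apply hne
        have h3 : u = b := ins_inj hs (hq _ hr').2 h2
        rw [← h3, ← h1]
      · intro h
        exact absurd (Finsupp.mem_support_iff.2 h0) h

end gen

lemma zz_notMem (X : Cov) {t : Finset X.W} (ht : t ∈ X.Kt) {a : X.W} (ha : a ∈ t) :
    X.π a ≠ X.z := by
  intro h
  apply X.hz
  rw [← h]
  have h1 := (X.simp t ht).1
  have h2 : X.π a ∈ t.image X.π := Finset.mem_image_of_mem _ ha
  unfold verts
  exact Finset.mem_biUnion.2 ⟨_, h1, h2⟩

lemma zz_notMem' (X : Cov) {t : Finset X.W} (ht : t ∈ X.Kt) : X.zz ∉ t := fun h =>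
  zz_notMem X ht h X.pz

lemma z_image (X : Cov) {s u : Finset X.W} (ht : s ∪ u ∈ X.Kt) : X.z ∉ s.image X.π := by
  intro h
  obtain ⟨a, ha, hz⟩ := Finset.mem_image.1 h
  exact zz_notMem X ht (Finset.mem_union_left _ ha) hz

lemma image_ne {X : Cov} {s : Finset X.W} (hs : s ≠ ∅) (hz : X.z ∉ s.image X.π) :
    ¬ (s.image X.π = ∅ ∨ s.image X.π = {X.z}) := by
  rintro (h | h)
  · exact hs (Finset.image_eq_empty.1 h)
  · apply hz
    rw [h]
    exact Finset.mem_singleton_self _

lemma rr_in (X : Cov) {N : Type} [AddCommGroup N] [Module ℝ N] (e : ℕ → N →ₗ[ℝ] N)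
    {s : Finset X.W} (hs : s ≠ ∅) (hz : X.z ∉ s.image X.π) {a : ℕ} (ha : a ≠ X.z) (n : N) :
    rr X.z e a (s.image X.π) n = n := by
  unfold rr
  rw [if_neg (image_ne hs hz), if_neg ha, if_neg hz]
  rfl

lemma rr_z (X : Cov) {N : Type} [AddCommGroup N] [Module ℝ N] (e : ℕ → N →ₗ[ℝ] N)
    {s : Finset X.W} (hs : s ≠ ∅) (hz : X.z ∉ s.image X.π) (n : N) :
    rr X.z e X.z (s.image X.π) n = eP e (s.image X.π) n := by
  unfold rr
  rw [if_neg (image_ne hs hz), if_pos rfl]

lemma rr_ins (X : Cov) {N : Type} [AddCommGroup N] [Module ℝ N] (e : ℕ → N →ₗ[ℝ] N)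
    {s : Finset X.W} (hs : s ≠ ∅) (hz : X.z ∉ s.image X.π) {a : ℕ} (ha : a ≠ X.z) (n : N) :
    rr X.z e a ((insert X.zz s).image X.π) n = e a n := by
  unfold rr
  rw [Finset.image_insert, X.pz]
  have h1 : ¬ (insert X.z (s.image X.π) = ∅ ∨ insert X.z (s.image X.π) = {X.z}) := by
    rintro (h | h)
    · exact Finset.insert_ne_empty _ _ h
    · apply hs
      rw [← Finset.image_eq_empty (f := X.π)]
      rw [← Finset.erase_insert hz, h]
      ext b
      simp
  rw [if_neg h1, if_neg ha, if_pos (Finset.mem_insert_self _ _)]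

lemma rc_in {X : Cov} {N : Type} [AddCommGroup N] [Module ℝ N]
    {s : Finset X.W} (hs : s ≠ ∅) (a : ℕ) (n : N) : rc N a (s.image X.π) n = n := by
  unfold rc
  rw [if_neg (fun h => hs (Finset.image_eq_empty.1 h))]
  rfl

/-- the first component of a pair in the support is nonempty -/
lemma ne_of_Fc {X : Cov} {N : Type} [AddCommGroup N] [Module ℝ N] {s : Finset X.W} {n : N}
    (h : n ∈ Fc N (s.image X.π)) (hn : n ≠ 0) : s ≠ ∅ := by
  intro hs
  subst hs
  rw [Finset.image_empty] at h
  unfold Fc at h
  rw [if_pos rfl] at h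
  exact hn ((Submodule.mem_bot ℝ).1 h)

lemma mem_Fc {X : Cov} {N : Type} [AddCommGroup N] [Module ℝ N] {s : Finset X.W} (n : N)
    (hs : s ≠ ∅) : n ∈ Fc N (s.image X.π) := by
  unfold Fc
  rw [if_neg (fun h => hs (Finset.image_eq_empty.1 h))]
  exact Submodule.mem_top

lemma mem_FF {X : Cov} {N : Type} [AddCommGroup N] [Module ℝ N] (e : ℕ → N →ₗ[ℝ] N)
    {s : Finset X.W} (n : N) (hs : s ≠ ∅) (hz : X.z ∉ s.image X.π) :
    n ∈ FF X.z e (s.image X.π) := by
  unfold FF
  rw [if_neg (image_ne hs hz), if_neg hz]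
  exact Submodule.mem_top

lemma mem_FF_ins {X : Cov} {N : Type} [AddCommGroup N] [Module ℝ N] (e : ℕ → N →ₗ[ℝ] N)
    {s : Finset X.W} {n : N} (hs : s ≠ ∅) (hz : X.z ∉ s.image X.π)
    (hn : n ∈ Es e (s.image X.π)) : n ∈ FF X.z e ((insert X.zz s).image X.π) := by
  unfold FF
  rw [Finset.image_insert, X.pz]
  have h1 : ¬ (insert X.z (s.image X.π) = ∅ ∨ insert X.z (s.image X.π) = {X.z}) := by
    rintro (h | h)
    · exact Finset.insert_ne_empty _ _ h
    · apply hs
      rw [← Finset.image_eq_empty (f := X.π)]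
      rw [← Finset.erase_insert hz, h]
      ext b
      simp
  rw [if_neg h1, if_pos (Finset.mem_insert_self _ _), Finset.erase_insert hz]
  exact hn

theorem prf : S_Q4 := by
  intro X N _ _ e _ B _
  refine ⟨?_, ?_, ?_, ?_, ?_⟩
  · -- (1)
    intro x hx
    constructor
    · intro p
      by_cases hp : x p = 0
      · rw [hp]
        exact ⟨fun h => absurd rfl h, Submodule.zero_mem _⟩
      · obtain ⟨h1, h2⟩ := (hx p).1 hp
        have h3 := ne_of_Fc (hx p).2 hp
        exact ⟨fun _ => ⟨h1, Or.inl h2⟩, mem_FF e _ h3 (z_image X h2)⟩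
    · rw [lin_expand (dT X.π (rr X.z e)), lin_expand (dT X.π (rc N))]
      refine Finset.sum_congr rfl fun r hr => ?_
      have hr' := Finsupp.mem_support_iff.1 hr
      obtain ⟨h1, h2⟩ := (hx r).1 hr'
      have h3 := ne_of_Fc (hx r).2 hr'
      obtain ⟨s, u⟩ := r
      rw [dT_single, dT_single]
      refine Finset.sum_congr rfl fun a ha => ?_
      rw [rr_in X e h3 (z_image X h2) (zz_notMem X h2 (Finset.mem_union_right _ ha)), rc_in h3]
  · -- (2)
    intro q hq hq0
    have hsup : ∀ r, q r ≠ 0 → r.1 ≠ ∅ := by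
      rintro ⟨s, u⟩ hr hs
      apply hr
      have : s = ∅ := hs
      rw [this]
      exact hq0 u
    constructor
    · rw [lin_expand]
      refine isDt_sum _ _ fun r hr => ?_
      have hr' := Finsupp.mem_support_iff.1 hr
      obtain ⟨h1, h2, h2'⟩ := (hq r).1 hr'
      have h3 := hsup r hr'
      have h4 := (hq r).2
      obtain ⟨s, u⟩ := r
      rw [jT_single]
      have h5 := zz_notMem' X h2
      rw [Finset.mem_union, not_or] at h5
      refine isDt_single ?_ (Or.inr ⟨s ∪ u, h2, h2', Finset.insert_union _ _ _⟩) ?_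
      · rw [Finset.disjoint_insert_left]
        exact ⟨h5.2, h1⟩
      · exact mem_FF_ins e h3 (z_image X h2) h4
    · rw [lin_expand (jT X.zz) q, map_sum, lin_expand (dT X.π fun a _ => e a) q, map_sum]
      refine Finset.sum_congr rfl fun r hr => ?_
      have hr' := Finsupp.mem_support_iff.1 hr
      obtain ⟨h1, h2, h2'⟩ := (hq r).1 hr'
      have h3 := hsup r hr'
      obtain ⟨s, u⟩ := r
      rw [jT_single, dT_single, dT_single, map_sum]
      refine Finset.sum_congr rfl fun a ha => ?_
      rw [rr_ins X e h3 (z_image X h2) (zz_notMem X h2 (Finset.mem_union_right _ ha)), map_smul,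
        map_sub, jT_single, jT_single, Finset.insert_comm]
  · -- (3)
    intro p hp
    constructor
    · rw [lin_expand]
      refine isDt_sum _ _ fun r hr => ?_
      have hr' := Finsupp.mem_support_iff.1 hr
      obtain ⟨h1, h2, h2'⟩ := (hp r).1 hr'
      have h3 := ne_of_Fc (hp r).2 hr'
      obtain ⟨s, u⟩ := r
      rw [iT_single, Finsupp.smul_single]
      have h5 := zz_notMem' X h2
      rw [Finset.mem_union, not_or] at h5
      refine isDt_single ?_ (Or.inr ⟨s ∪ u, h2, h2', Finset.union_insert _ _ _⟩) ?_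
      · rw [Finset.disjoint_insert_right]
        exact ⟨h5.1, h1⟩
      · exact mem_FF e _ h3 (z_image X h2)
    · have key : ∀ r ∈ p.support, dT X.π (rr X.z e) (iT X.π X.zz (Finsupp.single r (p r))) =
          - iT X.π X.zz (dT X.π (rc N) (Finsupp.single r (p r))) +
            jT X.zz (eT X.π e (Finsupp.single r (p r))) - Finsupp.single r (p r) := by
        intro r hr
        have hr' := Finsupp.mem_support_iff.1 hr
        obtain ⟨h1, h2, h2'⟩ := (hp r).1 hr'
        have h3 := ne_of_Fc (hp r).2 hr'
        obtain ⟨s, u⟩ := r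
        obtain ⟨n, hn⟩ : ∃ n, n = p (s, u) := ⟨_, rfl⟩
        rw [← hn]
        have h5 := zz_notMem' X h2
        rw [Finset.mem_union, not_or] at h5
        rw [iT_single, map_smul, dT_single, Finset.sum_insert h5.2, Finset.erase_insert h5.2,
          X.pz, rr_z X e h3 (z_image X h2), eT_single, jT_single, dT_single, map_sum,
          smul_add, smul_smul, sg_sq, one_smul, Finset.smul_sum, ← Finset.sum_neg_distrib]
        have hsum : ∑ a ∈ u, sg X.z (u.image X.π) •
            sg (X.π a) (((insert X.zz u).erase a).image X.π) •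
              (Finsupp.single (insert a s, (insert X.zz u).erase a)
                (rr X.z e (X.π a) (s.image X.π) n) -
                Finsupp.single (s, (insert X.zz u).erase a) n) =
            ∑ a ∈ u, -(iT X.π X.zz (sg (X.π a) ((u.erase a).image X.π) •
              (Finsupp.single (insert a s, u.erase a) (rc N (X.π a) (s.image X.π) n) -
                Finsupp.single (s, u.erase a) n))) := by
          refine Finset.sum_congr rfl fun a ha => ?_
          have haz : X.π a ≠ X.z := zz_notMem X h2 (Finset.mem_union_right _ ha)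
          have hne : X.zz ≠ a := fun h => h5.2 (h ▸ ha)
          rw [rr_in X e h3 (z_image X h2) haz, rc_in h3, map_smul, map_sub, iT_single, iT_single,
            Finset.erase_insert_of_ne hne, Finset.image_insert, X.pz, ← smul_sub, smul_smul,
            smul_smul, ← neg_smul]
          congr 1
          have hinj := (X.simp _ h2).2
          have hu' : u.image X.π = insert (X.π a) ((u.erase a).image X.π) := by
            rw [← Finset.image_insert, Finset.insert_erase ha]
          have ha' : X.π a ∉ (u.erase a).image X.π := by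
            intro h
            obtain ⟨y, hy, hya⟩ := Finset.mem_image.1 h
            have hyu := Finset.mem_of_mem_erase hy
            exact Finset.ne_of_mem_erase hy (hinj (Finset.mem_coe.2
              (Finset.mem_union_right _ hyu)) (Finset.mem_coe.2 (Finset.mem_union_right _ ha)) hya)
          have hz' : X.z ∉ (u.erase a).image X.π := by
            intro h
            obtain ⟨y, hy, hya⟩ := Finset.mem_image.1 h
            exact zz_notMem X h2 (Finset.mem_union_right _ (Finset.mem_of_mem_erase hy)) hya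
          rw [hu', sg_anti' ha' hz' haz]
          ring
        rw [hsum]
        abel
      rw [lin_expand (iT X.π X.zz) p, map_sum, Finset.sum_congr rfl key,
        Finset.sum_sub_distrib, Finset.sum_add_distrib, Finset.sum_neg_distrib, ← expand p,
        ← map_sum, ← map_sum, ← map_sum, ← map_sum, ← expand p]
  · -- (4)
    intro x hx
    rw [expand x]
    refine Finset.sum_induction (fun r => Finsupp.single r (x r)) (fun y => ∃ xK p q,
      IsDt X.Kt X.π (Fc N) xK ∧
      IsDt {t | t ∈ X.Kt ∧ ∀ y ∈ t, y ∈ B} X.π (Fc N) p ∧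
      IsDt {t | t ∈ X.Kt ∧ ∀ y ∈ t, y ∈ B} X.π (Es e) q ∧ (∀ u, q (∅, u) = 0) ∧
      y = xK + iT X.π X.zz p + jT X.zz q) ?_ ?_ ?_
    · rintro a b ⟨x1, p1, q1, h1, h2, h3, h4, h5⟩ ⟨x2, p2, q2, g1, g2, g3, g4, g5⟩
      refine ⟨x1 + x2, p1 + p2, q1 + q2, isDt_add h1 g1, isDt_add h2 g2, isDt_add h3 g3,
        fun u => ?_, ?_⟩
      · rw [Finsupp.add_apply, h4, g4, add_zero]
      · rw [h5, g5, map_add, map_add]
        abel
    · refine ⟨0, 0, 0, isDt_zero _ _ _, isDt_zero _ _ _, isDt_zero _ _ _, fun u => rfl, ?_⟩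
      rw [map_zero, map_zero, add_zero, add_zero]
    · intro r hr
      have hr' := Finsupp.mem_support_iff.1 hr
      obtain ⟨h1, h2⟩ := (hx r).1 hr'
      have h3 := (hx r).2
      obtain ⟨s, u⟩ := r
      obtain ⟨n, hn⟩ : ∃ n, n = x (s, u) := ⟨_, rfl⟩
      rw [← hn] at hr' h3
      have himg : ¬ (s.image X.π = ∅ ∨ s.image X.π = {X.z}) := by
        intro h
        unfold FF at h3
        rw [if_pos h] at h3
        exact hr' ((Submodule.mem_bot ℝ).1 h3)
      have hs : s ≠ ∅ := by
        intro h
        apply himg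
        left
        rw [h, Finset.image_empty]
      show ∃ xK p q, _ ∧ _ ∧ _ ∧ _ ∧ Finsupp.single (s, u) (x (s, u)) = _
      rw [← hn]
      rcases h2 with h2 | ⟨t, ht, htB, hst⟩
      · -- no cone point
        refine ⟨Finsupp.single (s, u) n, 0, 0, isDt_single h1 h2 (mem_Fc _ hs), isDt_zero _ _ _,
          isDt_zero _ _ _, fun u => rfl, ?_⟩
        rw [map_zero, map_zero, add_zero, add_zero]
      · have hzt := zz_notMem' X ht
        have hsub : ∀ y ∈ s ∪ u, y ≠ X.zz → y ∈ t := by
          intro y hy hyz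
          rw [show s ∪ u = insert X.zz t from hst] at hy
          rcases Finset.mem_insert.1 hy with h | h
          · exact absurd h hyz
          · exact h
        have hzin : X.zz ∈ s ∪ u := by
          rw [show s ∪ u = insert X.zz t from hst]
          exact Finset.mem_insert_self _ _
        rcases Finset.mem_union.1 hzin with hzs | hzu
        · -- in `s`
          have hzu : X.zz ∉ u := fun h => Finset.disjoint_left.1 h1 hzs h
          have hs' : s.erase X.zz ≠ ∅ := by
            intro h
            apply himg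
            right
            have h7 : s = {X.zz} := by
              rw [← Finset.insert_erase hzs, h]
              rfl
            rw [h7, Finset.image_singleton, X.pz]
          have hsubt : s.erase X.zz ∪ u ⊆ t := by
            intro y hy
            rcases Finset.mem_union.1 hy with h | h
            · exact hsub y (Finset.mem_union_left _ (Finset.mem_of_mem_erase h))
                (Finset.ne_of_mem_erase h)
            · exact hsub y (Finset.mem_union_right _ h) (fun h' => hzu (h' ▸ h))
          refine ⟨0, 0, Finsupp.single (s.erase X.zz, u) n, isDt_zero _ _ _, isDt_zero _ _ _,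
            isDt_single ?_ ⟨X.down t ht _ hsubt, fun y hy => htB y (hsubt hy)⟩ ?_,
            fun u' => ?_, ?_⟩
          · exact Finset.disjoint_of_subset_left (Finset.erase_subset _ _) h1
          · intro a ha
            obtain ⟨y, hy, hya⟩ := Finset.mem_image.1 ha
            have hzi : X.z ∈ s.image X.π := by
              rw [← X.pz]
              exact Finset.mem_image_of_mem _ hzs
            unfold FF at h3
            rw [if_neg himg, if_pos hzi] at h3
            refine h3 a (Finset.mem_erase.2 ⟨?_, ?_⟩)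
            · rw [← hya]
              exact zz_notMem X ht (hsubt (Finset.mem_union_left _ hy))
            · rw [← hya]
              exact Finset.mem_image_of_mem _ (Finset.mem_of_mem_erase hy)
          · rw [Finsupp.single_eq_of_ne]
            intro h
            exact hs' (Prod.mk.inj h).1.symm
          · rw [map_zero, add_zero, zero_add, jT_single, Finset.insert_erase hzs]
        · -- in `u`
          have hzs : X.zz ∉ s := fun h => Finset.disjoint_left.1 h1 h hzu
          have hsubt : s ∪ u.erase X.zz ⊆ t := by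
            intro y hy
            rcases Finset.mem_union.1 hy with h | h
            · exact hsub y (Finset.mem_union_left _ h) (fun h' => hzs (h' ▸ h))
            · exact hsub y (Finset.mem_union_right _ (Finset.mem_of_mem_erase h))
                (Finset.ne_of_mem_erase h)
          refine ⟨0, Finsupp.single (s, u.erase X.zz)
            (sg (X.π X.zz) ((u.erase X.zz).image X.π) • n), 0, isDt_zero _ _ _,
            isDt_single ?_ ⟨X.down t ht _ hsubt, fun y hy => htB y (hsubt hy)⟩ (mem_Fc _ hs),
            isDt_zero _ _ _, fun u => rfl, ?_⟩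
          · exact Finset.disjoint_of_subset_right (Finset.erase_subset _ _) h1
          · rw [map_zero, add_zero, zero_add, iT_single, Finset.insert_erase hzu,
              Finsupp.smul_single, smul_smul, sg_sq, one_smul]
  · -- (5)
    intro xK p q hK hp hq h
    have hev : ∀ r, xK r + iT X.π X.zz p r + jT X.zz q r = 0 := fun r => by
      have := DFunLike.congr_fun h r
      rwa [Finsupp.add_apply, Finsupp.add_apply] at this
    refine ⟨?_, ?_, ?_⟩
    · ext ⟨s, u⟩
      by_contra hne
      obtain ⟨h1, h2⟩ := hK _ hne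
      have h3 := hev (s, u)
      rw [(iT_apply X.π X.zz p hp s u).1 h2, (jT_apply X.zz q hq s u).1 h1, add_zero,
        add_zero] at h3
      exact hne h3
    · ext ⟨s, u⟩
      by_contra hne
      obtain ⟨h1, h2⟩ := hp _ hne
      have h3 := hev (s, insert X.zz u)
      have h4 : xK (s, insert X.zz u) = 0 := by
        by_contra h5
        exact (hK _ h5).2 (Finset.mem_insert_self _ _)
      rw [(iT_apply X.π X.zz p hp s u).2 h2, (jT_apply X.zz q hq s _).1 h1, h4, zero_add,
        add_zero] at h3
      have h6 : sg (X.π X.zz) (u.image X.π) • sg (X.π X.zz) (u.image X.π) • p (s, u) = 0 := by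
        rw [h3, smul_zero]
      rw [smul_smul, sg_sq, one_smul] at h6
      exact hne h6
    · ext ⟨s, u⟩
      by_contra hne
      obtain ⟨h1, h2⟩ := hq _ hne
      have h3 := hev (insert X.zz s, u)
      have h4 : xK (insert X.zz s, u) = 0 := by
        by_contra h5
        exact (hK _ h5).1 (Finset.mem_insert_self _ _)
      rw [(iT_apply X.π X.zz p hp _ u).1 h2, (jT_apply X.zz q hq s u).2 h1, h4, zero_add,
        zero_add] at h3
      exact hne h3

end MP8a95ee.Rk.Q4P
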