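import Pool.Agent.Work.MP_8a95ee_gt.Rk.Stmts

/-!
# Item Q5 of the block Rk (helper87): acyclicity of `D (X_B; F)`
-/

set_option autoImplicit false

namespace MP8a95ee.Rk.Q5P

open Ref RA

section gen

variable {W : Type} [DecidableEq W] {N : Type} [AddCommGroup N] [Module ℝ N]

theorem dt_add {Yt : Set (Finset W)} {π : W → ℕ} {F : Finset ℕ → Submodule ℝ N}
    {x y : (Finset W × Finset W) →₀ N} (hx : IsDt Yt π F x) (hy : IsDt Yt π F y) :
    IsDt Yt π F (x + y) := by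
  intro p
  refine ⟨fun h => ?_, ?_⟩
  · by_cases h1 : x p = 0
    · refine (hy p).1 ?_
      intro h2
      exact h (by rw [Finsupp.add_apply, h1, h2, add_zero])
    · exact (hx p).1 h1
  · rw [Finsupp.add_apply]
    exact (F _).add_mem (hx p).2 (hy p).2

theorem dt_neg {Yt : Set (Finset W)} {π : W → ℕ} {F : Finset ℕ → Submodule ℝ N}
    {x : (Finset W × Finset W) →₀ N} (hx : IsDt Yt π F x) : IsDt Yt π F (-x) := by
  intro p
  refine ⟨fun h => (hx p).1 ?_, ?_⟩
  · intro h2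
    exact h (by rw [Finsupp.neg_apply, h2, neg_zero])
  · rw [Finsupp.neg_apply]
    exact (F _).neg_mem (hx p).2

theorem dt_sub {Yt : Set (Finset W)} {π : W → ℕ} {F : Finset ℕ → Submodule ℝ N}
    {x y : (Finset W × Finset W) →₀ N} (hx : IsDt Yt π F x) (hy : IsDt Yt π F y) :
    IsDt Yt π F (x - y) := by
  rw [sub_eq_add_neg]
  exact dt_add hx (dt_neg hy)

theorem dt_mono {Yt Yt' : Set (Finset W)} {π : W → ℕ} {F : Finset ℕ → Submodule ℝ N}
    {x : (Finset W × Finset W) →₀ N} (hx : IsDt Yt π F x) (h : Yt ⊆ Yt') :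
    IsDt Yt' π F x := fun p => ⟨fun h1 => ⟨((hx p).1 h1).1, h ((hx p).1 h1).2⟩, (hx p).2⟩

theorem isCS_c (Y : Finset (Finset ℕ)) (N : Type) [AddCommGroup N] [Module ℝ N] :
    IsCS Y (Fc N) (rc N) := by
  constructor
  · intro a s _ _ x _
    rw [Fc, if_neg (Finset.insert_ne_empty _ _)]
    exact Submodule.mem_top
  · intro a b s _ _ _ _ x _
    by_cases hs : s = ∅
    · subst hs
      simp [rc]
    · simp [rc, hs]

theorem isCS_e {L : Finset (Finset ℕ)} (hL : ∀ s ∈ L, ∀ t ⊆ s, t ∈ L) {e : ℕ → N →ₗ[ℝ] N}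
    (he : IdemSys L N e) : IsCS L (Es e) (fun a _ => e a) := by
  constructor
  · intro a s ha hs x hx b hb
    rw [Finset.mem_insert] at hb
    rcases hb with rfl | hb
    · exact he.idem b x
    · have hab : Adj L b a := by
        refine ⟨fun h => ha (h ▸ hb), hL _ hs _ ?_⟩
        intro c hc
        rw [Finset.mem_insert, Finset.mem_singleton] at hc
        rcases hc with rfl | rfl
        · exact Finset.mem_insert_of_mem hb
        · exact Finset.mem_insert_self _ _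
      show e b (e a x) = e a x
      rw [he.comm b a hab, hx b hb]
  · intro a b s hab _ _ hs x _
    have h : Adj L b a := by
      refine ⟨hab.symm, hL _ hs _ ?_⟩
      intro c hc
      rw [Finset.mem_insert, Finset.mem_singleton] at hc
      rcases hc with rfl | rfl
      · exact Finset.mem_insert_of_mem (Finset.mem_insert_self _ _)
      · exact Finset.mem_insert_self _ _
    exact he.comm b a h x

theorem eT_apply (π : W → ℕ) (e : ℕ → N →ₗ[ℝ] N) (x : (Finset W × Finset W) →₀ N)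
    (r : Finset W × Finset W) : eT π e x r = eP e (r.1.image π) (x r) := by
  induction x using Finsupp.induction_linear with
  | zero => simp
  | add x y hx hy => rw [map_add, Finsupp.add_apply, hx, hy, Finsupp.add_apply, map_add]
  | single p n =>
    rw [eT, Finsupp.lsum_single]
    simp only [LinearMap.comp_apply, Finsupp.lsingle_apply]
    by_cases h : p = r
    · subst h
      rw [Finsupp.single_eq_same, Finsupp.single_eq_same]
    · rw [Finsupp.single_eq_of_ne (fun h' => h h'.symm), Finsupp.single_eq_of_ne (fun h' => h h'.symm),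
        map_zero]

theorem rT_single (π : W → ℕ) (w : Finset W) (n : N) : rT π (Finsupp.single w n) =
    ∑ v ∈ w, sg (π v) ((w.erase v).image π) • Finsupp.single (({v} : Finset W), w.erase v) n := by
  rw [rT, Finsupp.lsum_single, LinearMap.sum_apply]
  rfl

theorem bdl_single (π : W → ℕ) (w : Finset W) (n : N) : bdl π (Finsupp.single w n) =
    ∑ v ∈ w, sg (π v) ((w.erase v).image π) • Finsupp.single (w.erase v) n := by
  rw [bdl, Finsupp.lsum_single, LinearMap.sum_apply]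
  rfl

theorem rT_supp (π : W → ℕ) (c : Finset W →₀ N) (s u : Finset W) (h : rT π c (s, u) ≠ 0) :
    ∃ v, s = {v} ∧ v ∉ u ∧ c (insert v u) ≠ 0 := by
  have hc : c = ∑ w ∈ c.support, Finsupp.single w (c w) := by
    conv_lhs => rw [← Finsupp.sum_single c]
    rfl
  by_contra hcon
  push Not at hcon
  apply h
  rw [hc, map_sum, Finsupp.finsetSum_apply]
  refine Finset.sum_eq_zero fun w hw => ?_
  rw [rT_single, Finsupp.finsetSum_apply]
  refine Finset.sum_eq_zero fun v hv => ?_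
  rw [Finsupp.smul_apply]
  by_cases h1 : (({v} : Finset W), w.erase v) = (s, u)
  · exfalso
    rw [Prod.mk.injEq] at h1
    obtain ⟨h2, h3⟩ := h1
    have h4 : v ∉ u := by
      rw [← h3]
      exact Finset.notMem_erase _ _
    have h5 := hcon v h2.symm h4
    rw [← h3, Finset.insert_erase hv] at h5
    exact (Finsupp.mem_support_iff.1 hw) h5
  · rw [Finsupp.single_eq_of_ne (fun h' => h1 h'.symm), smul_zero]

/-- `c ↦ (∅, c)` -/
noncomputable def em : (Finset W →₀ N) →ₗ[ℝ] ((Finset W × Finset W) →₀ N) :=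
  Finsupp.lmapDomain N ℝ fun w => ((∅ : Finset W), w)

omit [DecidableEq W] in
theorem em_inj : Function.Injective (fun w : Finset W => ((∅ : Finset W), w)) := by
  intro w w' h
  exact (Prod.mk.inj h).2

omit [DecidableEq W] in
theorem em_single (w : Finset W) (n : N) :
    em (Finsupp.single w n) = Finsupp.single ((∅ : Finset W), w) n := by
  rw [em, Finsupp.lmapDomain_apply, Finsupp.mapDomain_single]

theorem em_apply (c : Finset W →₀ N) (w : Finset W) : em c (∅, w) = c w := by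
  rw [em, Finsupp.lmapDomain_apply]
  exact Finsupp.mapDomain_apply em_inj c w

omit [DecidableEq W] in
theorem em_apply_ne (c : Finset W →₀ N) (s w : Finset W) (hs : s ≠ ∅) : em c (s, w) = 0 := by
  rw [em, Finsupp.lmapDomain_apply]
  refine Finsupp.mapDomain_of_notMem_range _ _ ?_
  rintro ⟨w', h⟩
  exact hs (Prod.mk.inj h).1.symm

theorem eP_single (e : ℕ → N →ₗ[ℝ] N) (a : ℕ) (n : N) : eP e {a} n = e a n := by
  rw [eP, Finset.sort_singleton]
  rfl

theorem eT_single (π : W → ℕ) (e : ℕ → N →ₗ[ℝ] N) (p : Finset W × Finset W) (n : N) :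
    eT π e (Finsupp.single p n) = Finsupp.single p (eP e (p.1.image π) n) := by
  rw [eT, Finsupp.lsum_single]
  rfl

theorem dT_single (π : W → ℕ) (ρ : ℕ → Finset ℕ → N →ₗ[ℝ] N) (p : Finset W × Finset W) (n : N) :
    dT π ρ (Finsupp.single p n) = ∑ a ∈ p.2, sg (π a) ((p.2.erase a).image π) •
      (Finsupp.single (insert a p.1, p.2.erase a) (ρ (π a) (p.1.image π) n) -
        Finsupp.single (p.1, p.2.erase a) n) := by
  rw [dT, Finsupp.lsum_single, LinearMap.sum_apply]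
  rfl

theorem dT_em (π : W → ℕ) (e : ℕ → N →ₗ[ℝ] N) (c : Finset W →₀ N) :
    dT π (fun a _ => e a) (em c) = eT π e (rT π c) - em (bdl π c) := by
  induction c using Finsupp.induction_linear with
  | zero => simp
  | add x y hx hy =>
    rw [map_add, map_add, hx, hy, map_add, map_add, map_add, map_add]
    abel
  | single w n =>
    rw [em_single, dT_single, rT_single, bdl_single, map_sum, map_sum, ← Finset.sum_sub_distrib]
    refine Finset.sum_congr rfl fun a _ => ?_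
    rw [map_smul, map_smul, ← smul_sub, eT_single, em_single, Finset.image_singleton, eP_single]
    rfl

/-- the part with `s = ∅` splits off -/
theorem split (Yt : Set (Finset W)) (π : W → ℕ) (F : Finset ℕ → Submodule ℝ N)
    (η : (Finset W × Finset W) →₀ N) (hη : IsDt Yt π F η) :
    ∃ (η' : (Finset W × Finset W) →₀ N) (c : Finset W →₀ N), η = η' + em c ∧
      IsDt Yt π F η' ∧ (∀ u, η' (∅, u) = 0) ∧ ∀ w, c w ≠ 0 → w ∈ Yt := by
  set c : Finset W →₀ N := η.comapDomain (fun w => ((∅ : Finset W), w)) em_inj.injOn with hc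
  have hca : ∀ w, c w = η (∅, w) := fun w => by rw [hc, Finsupp.comapDomain_apply]
  have h1 : ∀ u, (η - em c) (∅, u) = 0 := fun u => by
    rw [Finsupp.sub_apply, em_apply, hca, sub_self]
  have h2 : ∀ s u, s ≠ ∅ → (η - em c) (s, u) = η (s, u) := fun s u hs => by
    rw [Finsupp.sub_apply, em_apply_ne c s u hs, sub_zero]
  refine ⟨η - em c, c, by abel, ?_, h1, ?_⟩
  · rintro ⟨s, u⟩
    by_cases hs : s = ∅
    · subst hs
      rw [h1 u]
      exact ⟨fun h => absurd rfl h, (F _).zero_mem⟩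
    · rw [h2 s u hs]
      exact hη (s, u)
  · intro w hw
    rw [hca] at hw
    have := ((hη (∅, w)).1 hw).2
    simpa using this

theorem dt_rT {Yt : Set (Finset W)} (π : W → ℕ) (c : Finset W →₀ N) (hc : ∀ w, c w ≠ 0 → w.Nonempty → w ∈ Yt) :
    IsDt Yt π (Fc N) (rT π c) := by
  rintro ⟨s, u⟩
  by_cases h : rT π c (s, u) = 0
  · rw [h]
    exact ⟨fun h => absurd rfl h, (Fc N _).zero_mem⟩
  · obtain ⟨v, rfl, hv, h2⟩ := rT_supp π c s u h
    refine ⟨fun _ => ⟨Finset.disjoint_singleton_left.2 hv, ?_⟩, ?_⟩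
    · have : ({v} : Finset W) ∪ u = insert v u := rfl
      rw [this]
      exact hc _ h2 (Finset.insert_nonempty _ _)
    · rw [Fc, if_neg (by simp)]
      exact Submodule.mem_top

theorem dt_em {Yt : Set (Finset W)} (π : W → ℕ) (e : ℕ → N →ₗ[ℝ] N) (c : Finset W →₀ N)
    (hc : ∀ w, c w ≠ 0 → w ∈ Yt) : IsDt Yt π (Es e) (em c) := by
  rintro ⟨s, u⟩
  by_cases hs : s = ∅
  · subst hs
    rw [em_apply]
    refine ⟨fun h => ⟨Finset.disjoint_empty_left _, ?_⟩, ?_⟩
    · simpa using hc u h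
    · intro a ha
      simp at ha
  · rw [em_apply_ne c s u hs]
    exact ⟨fun h => absurd rfl h, (Es e _).zero_mem⟩

theorem sg_ne (a : ℕ) (t : Finset ℕ) : sg a t ≠ 0 := pow_ne_zero _ (by norm_num)

end gen

section cov

variable (X : Cov)

/-- the faces with all vertices in `B` -/
abbrev J (B : Set X.W) : Set (Finset X.W) := {t | t ∈ X.Kt ∧ ∀ y ∈ t, y ∈ B}

theorem pi_ne (t : Finset X.W) (ht : t ∈ X.Kt) (y : X.W) (hy : y ∈ t) : X.π y ≠ X.z := by
  intro h
  apply X.hz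
  rw [← h, verts, Finset.mem_biUnion]
  exact ⟨t.image X.π, (X.simp t ht).1, Finset.mem_image_of_mem _ hy⟩

theorem zz_notMem (t : Finset X.W) (ht : t ∈ X.Kt) : X.zz ∉ t :=
  fun h => pi_ne X t ht X.zz h X.pz

theorem lab_K : IsLab X.K X.π X.Kt := ⟨X.simp, X.down⟩

theorem lab_J (B : Set X.W) (hB : ∀ x ∈ B, X.π x ∈ X.V) : IsLab X.L X.π (J X B) := by
  constructor
  · rintro t ⟨ht, htB⟩
    refine ⟨?_, (X.simp t ht).2⟩
    rw [Cov.L, sub, Finset.mem_filter]
    refine ⟨(X.simp t ht).1, ?_⟩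
    intro a ha
    rw [Finset.mem_image] at ha
    obtain ⟨y, hy, rfl⟩ := ha
    exact hB y (htB y hy)
  · rintro t ⟨ht, htB⟩ s hs
    exact ⟨X.down t ht s hs, fun y hy => htB y (hs hy)⟩

theorem lab_JK (B : Set X.W) : IsLab X.K X.π (J X B) :=
  ⟨fun t ht => X.simp t ht.1, fun t ht s hs =>
    ⟨X.down t ht.1 s hs, fun y hy => ht.2 y (hs hy)⟩⟩

theorem lab_X (B : Set X.W) (hB : ∀ x ∈ B, X.π x ∈ X.V) :
    IsLab (Kp X.K X.V X.z) X.π (X.Xf B) := by
  constructor
  · rintro t (ht | ⟨s, hs, hsB, rfl⟩)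
    · exact ⟨Finset.mem_union_left _ (X.simp t ht).1, (X.simp t ht).2⟩
    · refine ⟨?_, ?_⟩
      · rw [Finset.image_insert, X.pz]
        exact Finset.mem_union_right _
          (Finset.mem_image_of_mem _ ((lab_J X B hB).simp s ⟨hs, hsB⟩).1)
      · rw [Finset.coe_insert, Set.injOn_insert (fun h => zz_notMem X s hs (Finset.mem_coe.1 h))]
        refine ⟨(X.simp s hs).2, ?_⟩
        rintro ⟨y, hy, hyz⟩
        exact pi_ne X s hs y (Finset.mem_coe.1 hy) (by rw [hyz, X.pz])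
  · rintro t (ht | ⟨s, hs, hsB, rfl⟩) τ hτ
    · exact Or.inl (X.down t ht τ hτ)
    · by_cases hz : X.zz ∈ τ
      · refine Or.inr ⟨τ.erase X.zz, ?_, ?_, (Finset.insert_erase hz).symm⟩
        · exact X.down s hs _ (Finset.subset_insert_iff.1 hτ)
        · intro y hy
          refine hsB y ?_
          have h1 := hτ (Finset.mem_of_mem_erase hy)
          rcases Finset.mem_insert.1 h1 with h2 | h2
          · exact absurd h2 (Finset.ne_of_mem_erase hy)
          · exact h2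
      · refine Or.inl (X.down s hs _ ?_)
        intro y hy
        rcases Finset.mem_insert.1 (hτ hy) with h2 | h2
        · exact absurd (h2 ▸ hy) hz
        · exact h2

variable {N : Type} [AddCommGroup N] [Module ℝ N]

theorem avoid {F : Finset ℕ → Submodule ℝ N} {x : (Finset X.W × Finset X.W) →₀ N}
    (hx : IsDt X.Kt X.π F x) (r : Finset X.W × Finset X.W) (hr : x r ≠ 0) :
    X.zz ∉ r.1 ∧ X.zz ∉ r.2 := by
  have h := zz_notMem X _ ((hx r).1 hr).2
  rw [Finset.mem_union, not_or] at h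
  exact h

theorem J_sub (B : Set X.W) : J X B ⊆ X.Kt := fun _ h => h.1

theorem L_down {s : Finset ℕ} (hs : s ∈ X.L) (t : Finset ℕ) (ht : t ⊆ s) : t ∈ X.L := by
  rw [Cov.L, sub, Finset.mem_filter] at hs ⊢
  exact ⟨X.cx.2 s hs.1 t ht, ht.trans hs.2⟩

theorem dt_eT (hC1 : S_C1) (e : ℕ → N →ₗ[ℝ] N) (he : IdemSys X.L N e) (B : Set X.W)
    (hB : ∀ x ∈ B, X.π x ∈ X.V) (p : (Finset X.W × Finset X.W) →₀ N)
    (hp : IsDt (J X B) X.π (Fc N) p) :
    IsDt (J X B) X.π (Es e) (eT X.π e p) ∧ ∀ u, eT X.π e p (∅, u) = 0 := by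
  constructor
  · intro r
    rw [eT_apply]
    by_cases h : p r = 0
    · rw [h, map_zero]
      exact ⟨fun h => absurd rfl h, (Es e _).zero_mem⟩
    · have h1 := (hp r).1 h
      refine ⟨fun _ => h1, ?_⟩
      have h2 : r.1.image X.π ∈ X.L :=
        ((lab_J X B hB).simp r.1 ((lab_J X B hB).down _ h1.2 _ Finset.subset_union_left)).1
      exact (hC1 X.L X.flag N e he _ h2).1 _
  · intro u
    rw [eT_apply]
    have h := (hp (∅, u)).2
    have h2 : p (∅, u) = 0 := by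
      simpa [Fc] using h
    rw [h2, map_zero]

theorem rel (hA4 : S_A4) (hC1 : S_C1) (hQ4 : S_Q4) (e : ℕ → N →ₗ[ℝ] N)
    (he : IdemSys X.L N e) (B : Set X.W) (hB : ∀ x ∈ B, X.π x ∈ X.V)
    (xK p q : (Finset X.W × Finset X.W) →₀ N) (hxK : IsDt X.Kt X.π (Fc N) xK)
    (hp : IsDt (J X B) X.π (Fc N) p) (hq : IsDt (J X B) X.π (Es e) q)
    (hq0 : ∀ u, q (∅, u) = 0)
    (hc : dT X.π (rr X.z e) (xK + iT X.π X.zz p + jT X.zz q) = 0) :
    dT X.π (rc N) xK = p ∧ dT X.π (rc N) p = 0 ∧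
      dT X.π (fun a _ => e a) q = - eT X.π e p := by
  obtain ⟨q1, q2, q3, q4, q5⟩ := hQ4 X N e he B hB
  rw [map_add, map_add, (q1 xK hxK).2, (q3 p hp).2, (q2 q hq hq0).2] at hc
  have h1 : (dT X.π (rc N) xK - p) + iT X.π X.zz (- dT X.π (rc N) p) +
      jT X.zz (eT X.π e p + dT X.π (fun a _ => e a) q) = 0 := by
    rw [map_neg, map_add, ← hc]
    abel
  have hpK : IsDt X.Kt X.π (Fc N) p := dt_mono hp (J_sub X B)
  have k1 := (hA4 X.K X.W X.π X.Kt (lab_K X) N (Fc N) (rc N) (isCS_c X.K N) xK hxK).1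
  have k2 := (hA4 X.K X.W X.π X.Kt (lab_K X) N (Fc N) (rc N) (isCS_c X.K N) p hpK).1
  have k3 := (hA4 X.L X.W X.π (J X B) (lab_J X B hB) N (Es e) (fun a _ => e a)
    (isCS_e (fun s hs t ht => L_down X hs t ht) he) q hq).1
  have k4 := (dt_eT X hC1 e he B hB p hp).1
  obtain ⟨m1, m2, m3⟩ := q5 _ _ _ (fun r hr => avoid X (dt_sub k1 hpK) r hr)
    (fun r hr => avoid X (dt_neg k2) r hr)
    (fun r hr => avoid X (dt_mono (dt_add k4 k3) (J_sub X B)) r hr) h1
  exact ⟨sub_eq_zero.1 m1, neg_eq_zero.1 m2, (neg_eq_of_add_eq_zero_right m3).symm⟩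

end cov

/-- Item Q5. -/
theorem prf (hA1 : S_A1) (hA3 : S_A3) (hA4 : S_A4) (hC1 : S_C1) (hC2 : S_C2) (hQ1 : S_Q1)
    (hQ2 : S_Q2) (hQ3 : S_Q3) (hQ4 : S_Q4) : S_Q5 := by
  intro X hac N _ _ e he B hB a b ha hb hab hnab hstar x hx hdx
  have LK := lab_K X
  have LJ := lab_J X B hB
  have LJK := lab_JK X B
  have LX := lab_X X B hB
  have CX := hC2 X.K X.V X.z X.cx X.VK X.flag X.hz N e he
  have CE : IsCS X.L (Es e) (fun a _ => e a) := isCS_e (fun s hs t ht => L_down X hs t ht) he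
  have hrel := rel X hA4 hC1 hQ4 e he B hB
  obtain ⟨q1, q2, q3, q4, q5⟩ := hQ4 X N e he B hB
  obtain ⟨r1, r2, r3⟩ := hQ3 X.W X.π N
  obtain ⟨xK, p, q, hxK, hp, hq, hq0, hxe⟩ := q4 x hx
  obtain ⟨e1, e2, e3⟩ := hrel xK p q hxK hp hq hq0 (by rw [← hxe]; exact hdx)
  -- (a)
  obtain ⟨p1, c1, hp1, hc1, e4⟩ := r3 X.K (J X B) LJK p 0 hp
    (fun w hw => absurd (by simp) hw) (by rw [e2, map_zero])
  have hiT := q3 p1 hp1
  have hdd : dT X.π (rr X.z e) (dT X.π (rr X.z e) (iT X.π X.zz p1)) = 0 :=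
    (hA4 _ X.W X.π (X.Xf B) LX N _ _ CX _ hiT.1).2
  obtain ⟨hq', hq'0⟩ := dt_eT X hC1 e he B hB p1 hp1
  have hxK' : IsDt X.Kt X.π (Fc N) (xK - p1) := dt_sub hxK (dt_mono hp1 (J_sub X B))
  -- (b)
  obtain ⟨x1, c2, hx1, hc2, e5⟩ := r3 X.K X.Kt LK (xK - p1) c1 hxK'
    (fun w hw => ⟨(hc1 w hw).1.1, (hc1 w hw).2⟩) (by rw [map_sub, e1, e4])
  have hx1r := q1 x1 hx1
  have hdd1 : dT X.π (rr X.z e) (dT X.π (rr X.z e) x1) = 0 :=
    (hA4 _ X.W X.π (X.Xf B) LX N _ _ CX _ hx1r.1).2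
  have e6 : x + dT X.π (rr X.z e) (iT X.π X.zz p1) - dT X.π (rr X.z e) x1 =
      rT X.π c2 + iT X.π X.zz (rT X.π c1) + jT X.zz (q + eT X.π e p1) := by
    rw [hiT.2, hx1r.2, hxe, ← e5, ← e4, map_sub, map_add]
    abel
  have hdc : dT X.π (rr X.z e) (rT X.π c2 + iT X.π X.zz (rT X.π c1) +
      jT X.zz (q + eT X.π e p1)) = 0 := by
    rw [← e6, map_sub, map_add, hdx, hdd, hdd1, add_zero, sub_zero]
  have hc2K : IsDt X.Kt X.π (Fc N) (rT X.π c2) := dt_rT X.π c2 fun w hw _ => (hc2 w hw).1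
  have hc1J : IsDt (J X B) X.π (Fc N) (rT X.π c1) := dt_rT X.π c1 fun w hw _ => (hc1 w hw).1
  have hqq : IsDt (J X B) X.π (Es e) (q + eT X.π e p1) := dt_add hq hq'
  have hqq0 : ∀ u, (q + eT X.π e p1) (∅, u) = 0 := fun u => by
    rw [Finsupp.add_apply, hq0 u, hq'0 u, add_zero]
  obtain ⟨f1, f2, f3⟩ := hrel _ _ _ hc2K hc1J hqq hqq0 hdc
  have inj2 : ∀ t, c2 t ≠ 0 → Set.InjOn X.π (t : Set X.W) := fun t ht =>
    (X.simp t (hc2 t ht).1).2
  have g1 : rT X.π (bdl X.π c2) = rT X.π c1 := by rw [← r1 c2 inj2, f1]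
  have g2 : ∀ w : Finset X.W, w.Nonempty → bdl X.π c2 w = c1 w := by
    rintro w ⟨v, hv⟩
    have h1 := r2 (bdl X.π c2) w v hv
    rw [g1, r2 c1 w v hv] at h1
    exact (smul_right_injective N (sg_ne _ _) h1).symm
  have g3 : ∀ w, bdl X.π c2 w ≠ 0 → w ∈ J X B := by
    intro w hw
    rcases w.eq_empty_or_nonempty with rfl | hne
    · exact ⟨X.emp, fun y hy => absurd hy (Finset.notMem_empty y)⟩
    · rw [g2 w hne] at hw
      exact (hc1 w hw).1
  have hbb : bdl X.π (bdl X.π c2) = 0 := hA1.2 X.W X.π N c2 inj2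
  -- (c)
  have hξ : IsDt (J X B) X.π (Es e) (q + eT X.π e p1 + em (bdl X.π c2)) :=
    dt_add hqq (dt_em X.π e _ g3)
  have hdξ : dT X.π (fun a _ => e a) (q + eT X.π e p1 + em (bdl X.π c2)) = 0 := by
    rw [map_add, f3, dT_em, hbb, g1, map_zero]
    abel
  obtain ⟨η, hη, hηe⟩ := hQ1 X N e he B hB a b ha hb hab hnab hstar _ hξ hdξ
  obtain ⟨η', c3, hsp, hη', hη'0, hc3⟩ := split (J X B) X.π (Es e) η hη
  rw [hsp, map_add, dT_em] at hηe
  have z1 : ∀ w, dT X.π (fun a _ => e a) η' (∅, w) = 0 := by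
    intro w
    have h1 := (hA3 X.W X.π N (fun a _ => e a) η' (fun r hr => ((hη' r).1 hr).1) ∅ w).2
      (Finset.disjoint_empty_left _) ∅ (fun a' _ h => absurd (hη'0 _) h)
    rw [h1]
    simp
  have z2 : ∀ w, eT X.π e (rT X.π c3) (∅, w) = 0 := by
    intro w
    rw [eT_apply]
    have h : rT X.π c3 (∅, w) = 0 := by
      by_contra h
      obtain ⟨v, hv, _⟩ := rT_supp X.π c3 ∅ w h
      exact (Finset.singleton_ne_empty v) hv.symm
    rw [h, map_zero]
  have g4 : bdl X.π c3 = - bdl X.π c2 := by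
    ext w
    have h1 := DFunLike.congr_fun hηe (∅, w)
    rw [Finsupp.add_apply, Finsupp.sub_apply, z1, z2, em_apply, Finsupp.add_apply, hqq0,
      em_apply] at h1
    rw [Finsupp.neg_apply, ← zero_add (bdl X.π c2 w), ← h1]
    abel
  have g5 : dT X.π (fun a _ => e a) η' + eT X.π e (rT X.π c3) = q + eT X.π e p1 := by
    rw [g4, map_neg] at hηe
    have : dT X.π (fun a _ => e a) η' + eT X.π e (rT X.π c3) + em (bdl X.π c2) =
        q + eT X.π e p1 + em (bdl X.π c2) := by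
      rw [← hηe]
      abel
    exact add_right_cancel this
  -- (d)
  have inj3 : ∀ t, c3 t ≠ 0 → Set.InjOn X.π (t : Set X.W) := fun t ht =>
    (X.simp t (hc3 t ht).1).2
  have hc3J : IsDt (J X B) X.π (Fc N) (rT X.π c3) := dt_rT X.π c3 fun w hw _ => hc3 w hw
  have i1 := q2 η' hη' hη'0
  have i2 := q3 (rT X.π c3) hc3J
  have g6 : dT X.π (rr X.z e) (jT X.zz η' + iT X.π X.zz (rT X.π c3)) =
      jT X.zz (q + eT X.π e p1) + iT X.π X.zz (rT X.π c1) - rT X.π c3 := by
    rw [map_add, i1.2, i2.2, r1 c3 inj3, g4, map_neg, g1, map_neg, neg_neg, ← g5,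
      map_add (jT X.zz)]
    abel
  -- (e)
  obtain ⟨c4, hc4, hc4e⟩ := hQ2 X.W X.π X.Kt hac N (c2 + c3) (by
      intro σ hσ
      by_cases h : c2 σ = 0
      · refine (hc3 σ ?_).1
        intro h3
        exact hσ (by rw [Finsupp.add_apply, h, h3, add_zero])
      · exact (hc2 σ h).1) (by rw [map_add, g4]; abel)
  have inj4 : ∀ t, c4 t ≠ 0 → Set.InjOn X.π (t : Set X.W) := fun t ht =>
    (X.simp t (hc4 t ht)).2
  have i3 := q1 (rT X.π c4) (dt_rT X.π c4 fun w hw _ => hc4 w hw)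
  refine ⟨jT X.zz η' + iT X.π X.zz (rT X.π c3) + rT X.π c4 + x1 - iT X.π X.zz p1,
    dt_sub (dt_add (dt_add (dt_add i1.1 i2.1) i3.1) hx1r.1) hiT.1, ?_⟩
  rw [map_sub, map_add, map_add, g6, i3.2, r1 c4 inj4, hc4e, map_add (rT X.π)]
  have e7 : x = rT X.π c2 + iT X.π X.zz (rT X.π c1) + jT X.zz (q + eT X.π e p1) +
      dT X.π (rr X.z e) x1 - dT X.π (rr X.z e) (iT X.π X.zz p1) := by
    rw [← e6]
    abel
  conv_rhs => rw [e7]
  abel

end MP8a95ee.Rk.Q5P
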