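import Pool.Agent.Work.MP_8a95ee_gt.Rk.Stmts
import Pool.Agent.Work.MP_8a95ee_gt.R.Bas

/-!
# Item Sg of the block Rk: three sign identities
-/

set_option autoImplicit false

namespace MP8a95ee.Rk.SgP

open Ref RA

/-- the sign of the pair `b`, `a` -/
noncomputable def e (b a : ℕ) : ℝ := if b < a then -1 else 1

theorem e_swap {a b : ℕ} (h : a ≠ b) : e a b = -e b a := by
  unfold e
  rcases lt_or_gt_of_ne h with h1 | h1
  · rw [if_pos h1, if_neg (not_lt.2 h1.le)]
  · rw [if_neg (not_lt.2 h1.le), if_pos h1, neg_neg]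

theorem sg_prod (a : ℕ) (t : Finset ℕ) : sg a t = ∏ b ∈ t, e b a := by
  unfold sg e
  rw [Finset.prod_ite, Finset.prod_const, Finset.prod_const_one, mul_one]

theorem sg_union {a : ℕ} {t u : Finset ℕ} (h : Disjoint t u) :
    sg a (t ∪ u) = sg a t * ∏ b ∈ u, e b a := by
  rw [sg_prod, sg_prod, Finset.prod_union h]

theorem sg_ins {a c : ℕ} {u : Finset ℕ} (hc : c ∉ u) : sg a (insert c u) = sg a u * e c a :=
  sg_insert hc

theorem cc_mem_vs {α : Finset (ℕ × ℕ)} {p : ℕ × ℕ} (hp : p ∈ α) (t : Finset ℕ) :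
    cc t p ∈ vs α := by
  unfold cc vs
  rw [Finset.mem_union]
  split_ifs
  · exact Or.inr (Finset.mem_image_of_mem _ hp)
  · exact Or.inl (Finset.mem_image_of_mem _ hp)

theorem fst_mem_vs {α : Finset (ℕ × ℕ)} {p : ℕ × ℕ} (hp : p ∈ α) : p.1 ∈ vs α :=
  Finset.mem_union_left _ (Finset.mem_image_of_mem _ hp)

theorem snd_mem_vs {α : Finset (ℕ × ℕ)} {p : ℕ × ℕ} (hp : p ∈ α) : p.2 ∈ vs α :=
  Finset.mem_union_right _ (Finset.mem_image_of_mem _ hp)

theorem cc_notMem {α : Finset (ℕ × ℕ)} {p : ℕ × ℕ} (hp : p ∈ α) {t : Finset ℕ} (ht : Tr α t) :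
    cc t p ∉ t := by
  unfold cc
  rcases ht p hp with ⟨h1, h2⟩ | ⟨h1, h2⟩
  · rw [if_pos h1]
    exact h2
  · rw [if_neg h1]
    exact h1

theorem cc_ne {α : Finset (ℕ × ℕ)} (hα : Fam α) {p q : ℕ × ℕ} (hp : p ∈ α) (hq : q ∈ α)
    (hne : p ≠ q) (t : Finset ℕ) : cc t p ≠ cc t q := by
  obtain ⟨h1, h2, h3, h4⟩ := hα.2 p hp q hq hne
  unfold cc
  split_ifs <;> assumption

theorem cc_inj {α : Finset (ℕ × ℕ)} (hα : Fam α) (t : Finset ℕ) :
    Set.InjOn (cc t) (α : Set (ℕ × ℕ)) := by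
  intro p hp q hq h
  by_contra hne
  exact cc_ne hα hp hq hne t h

theorem union_vs {α : Finset (ℕ × ℕ)} {t : Finset ℕ} (ht : Tr α t) :
    t ∪ vs α = t ∪ α.image (cc t) := by
  ext y
  rw [Finset.mem_union, Finset.mem_union]
  constructor
  · rintro (h | h)
    · exact Or.inl h
    · by_cases hy : y ∈ t
      · exact Or.inl hy
      · right
        unfold vs at h
        rw [Finset.mem_image]
        rcases Finset.mem_union.1 h with h | h
        · obtain ⟨p, hp, rfl⟩ := Finset.mem_image.1 h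
          exact ⟨p, hp, by unfold cc; rw [if_neg hy]⟩
        · obtain ⟨p, hp, rfl⟩ := Finset.mem_image.1 h
          refine ⟨p, hp, ?_⟩
          unfold cc
          rcases ht p hp with ⟨h1, -⟩ | ⟨-, h2⟩
          · rw [if_pos h1]
          · exact absurd h2 hy
  · rintro (h | h)
    · exact Or.inl h
    · obtain ⟨p, hp, rfl⟩ := Finset.mem_image.1 h
      exact Or.inr (cc_mem_vs hp t)

theorem disj {α : Finset (ℕ × ℕ)} {t : Finset ℕ} (ht : Tr α t) {β : Finset (ℕ × ℕ)}
    (hβ : β ⊆ α) : Disjoint t (β.image (cc t)) := by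
  rw [Finset.disjoint_right]
  intro y hy
  obtain ⟨p, hp, rfl⟩ := Finset.mem_image.1 hy
  exact cc_notMem (hβ hp) ht

theorem sg_img {α : Finset (ℕ × ℕ)} (hα : Fam α) {t : Finset ℕ} (ht : Tr α t)
    {β : Finset (ℕ × ℕ)} (hβ : β ⊆ α) (a : ℕ) :
    sg a (t ∪ β.image (cc t)) = sg a t * ∏ p ∈ β, e (cc t p) a := by
  rw [sg_union (disj ht hβ), Finset.prod_image]
  intro p hp q hq h
  exact cc_inj hα t (hβ hp) (hβ hq) h

theorem sg_vs {α : Finset (ℕ × ℕ)} (hα : Fam α) {t : Finset ℕ} (ht : Tr α t) (a : ℕ) :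
    sg a (t ∪ vs α) = sg a t * ∏ p ∈ α, e (cc t p) a := by
  rw [union_vs ht, sg_img hα ht (Finset.Subset.refl _)]

theorem part1 (α : Finset (ℕ × ℕ)) (t : Finset ℕ) (x : ℕ) (hα : Fam α) (ht : Tr α t)
    (hx : x ∉ t) (hxv : x ∉ vs α) :
    sg x t * eps α (insert x t) = (-1) ^ α.card * eps α t * sg x (t ∪ vs α) := by
  have hcc : ∀ p ∈ α, cc (insert x t) p = cc t p := by
    intro p hp
    have hne : p.1 ≠ x := fun h => hxv (h ▸ fst_mem_vs hp)
    unfold cc
    simp only [Finset.mem_insert, hne, false_or]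
  have h1 : eps α (insert x t) = eps α t * ∏ p ∈ α, e x (cc t p) := by
    unfold eps
    rw [← Finset.prod_mul_distrib]
    refine Finset.prod_congr rfl fun p hp => ?_
    have him : (α.filter fun q => q.1 < p.1).image (cc (insert x t)) =
        (α.filter fun q => q.1 < p.1).image (cc t) :=
      Finset.image_congr fun q hq => hcc q (Finset.mem_filter.1 hq).1
    rw [hcc p hp, him, Finset.insert_union, sg_ins]
    rw [Finset.mem_union, not_or]
    refine ⟨hx, fun h => ?_⟩
    obtain ⟨q, hq, rfl⟩ := Finset.mem_image.1 h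
    exact hxv (cc_mem_vs (Finset.mem_filter.1 hq).1 t)
  have h2 : ∏ p ∈ α, e x (cc t p) = (-1) ^ α.card * ∏ p ∈ α, e (cc t p) x := by
    rw [← Finset.prod_const, ← Finset.prod_mul_distrib]
    refine Finset.prod_congr rfl fun p hp => ?_
    have hne : x ≠ cc t p := by
      intro h
      apply hxv
      rw [h]
      exact cc_mem_vs hp t
    rw [e_swap hne]
    ring
  rw [h1, h2, sg_vs hα ht]
  ring

theorem part2 (α : Finset (ℕ × ℕ)) (q : ℕ × ℕ) (t : Finset ℕ) (hq : q ∉ α)
    (hα : Fam (insert q α)) (ht : Tr (insert q α) t) :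
    sg q.1 (α.image Prod.fst) * eps (insert q α) t =
      (-1) ^ α.card * eps α t * sg (cc t q) (t ∪ vs α) := by
  have hsub : α ⊆ insert q α := Finset.subset_insert q α
  have hqm : q ∈ insert q α := Finset.mem_insert_self q α
  have hα' : Fam α := ⟨fun p hp => hα.1 p (hsub hp), fun p hp r hr => hα.2 p (hsub hp) r (hsub hr)⟩
  have ht' : Tr α t := fun p hp => ht p (hsub hp)
  have hne : ∀ p ∈ α, p ≠ q := fun p hp h => hq (h ▸ hp)
  have h0 : (insert q α).filter (fun r => r.1 < q.1) = α.filter fun r => r.1 < q.1 := by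
    rw [Finset.filter_insert, if_neg (lt_irrefl _)]
  have h1 : sg (cc t q) (t ∪ ((insert q α).filter fun r => r.1 < q.1).image (cc t)) =
      sg (cc t q) t * ∏ p ∈ α, (if p.1 < q.1 then e (cc t p) (cc t q) else 1) := by
    rw [h0, sg_img hα' ht' (Finset.filter_subset _ _), Finset.prod_filter]
  have h2 : ∀ p ∈ α, sg (cc t p) (t ∪ ((insert q α).filter fun r => r.1 < p.1).image (cc t)) =
      sg (cc t p) (t ∪ (α.filter fun r => r.1 < p.1).image (cc t)) *
        (if q.1 < p.1 then e (cc t q) (cc t p) else 1) := by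
    intro p hp
    rw [Finset.filter_insert]
    split_ifs with h
    · rw [Finset.image_insert, Finset.union_insert, sg_ins]
      rw [Finset.mem_union, not_or]
      refine ⟨cc_notMem hqm ht, fun h' => ?_⟩
      obtain ⟨r, hr, hrq⟩ := Finset.mem_image.1 h'
      have hrα := (Finset.mem_filter.1 hr).1
      exact cc_ne hα (hsub hrα) hqm (hne r hrα) t hrq
    · rw [mul_one]
  have h3 : eps (insert q α) t = sg (cc t q) t *
      (∏ p ∈ α, (if p.1 < q.1 then e (cc t p) (cc t q) else 1)) *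
      (eps α t * ∏ p ∈ α, (if q.1 < p.1 then e (cc t q) (cc t p) else 1)) := by
    unfold eps
    rw [Finset.prod_insert hq, h1, Finset.prod_congr rfl h2, Finset.prod_mul_distrib]
  have h4 : sg q.1 (α.image Prod.fst) = ∏ p ∈ α, e p.1 q.1 := by
    rw [sg_prod, Finset.prod_image]
    intro p hp r hr h
    by_contra hpr
    exact (hα'.2 p hp r hr hpr).1 h
  have h5 : (∏ p ∈ α, e p.1 q.1) * ((∏ p ∈ α, (if p.1 < q.1 then e (cc t p) (cc t q) else 1)) *
      ∏ p ∈ α, (if q.1 < p.1 then e (cc t q) (cc t p) else 1)) =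
      (-1) ^ α.card * ∏ p ∈ α, e (cc t p) (cc t q) := by
    rw [← Finset.prod_const, ← Finset.prod_mul_distrib, ← Finset.prod_mul_distrib,
      ← Finset.prod_mul_distrib]
    refine Finset.prod_congr rfl fun p hp => ?_
    have hpq : p.1 ≠ q.1 := (hα.2 p (hsub hp) q hqm (hne p hp)).1
    rcases lt_or_gt_of_ne hpq with h | h
    · rw [if_pos h, if_neg (not_lt.2 h.le)]
      unfold e
      rw [if_pos h]
      ring
    · rw [if_neg (not_lt.2 h.le), if_pos h,
        e_swap (cc_ne hα hqm (hsub hp) (hne p hp).symm t)]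
      unfold e
      rw [if_neg (not_lt.2 h.le)]
      ring
  rw [h3, h4, sg_vs hα' ht']
  calc (∏ p ∈ α, e p.1 q.1) * (sg (cc t q) t *
      (∏ p ∈ α, (if p.1 < q.1 then e (cc t p) (cc t q) else 1)) *
      (eps α t * ∏ p ∈ α, (if q.1 < p.1 then e (cc t q) (cc t p) else 1)))
      = sg (cc t q) t * eps α t * ((∏ p ∈ α, e p.1 q.1) *
        ((∏ p ∈ α, (if p.1 < q.1 then e (cc t p) (cc t q) else 1)) *
        ∏ p ∈ α, (if q.1 < p.1 then e (cc t q) (cc t p) else 1))) := by ring
    _ = _ := by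
      rw [h5]
      ring

theorem part3 (α : Finset (ℕ × ℕ)) (p : ℕ × ℕ) (t : Finset ℕ) (hp : p ∈ α) (hα : Fam α)
    (ht : Tr (α.erase p) t) (hp1 : p.1 ∉ t) (hp2 : p.2 ∉ t) :
    sg p.1 t * eps α (insert p.1 t) + sg p.2 t * eps α (insert p.2 t) = 0 := by
  have hne : p.1 ≠ p.2 := (hα.1 p hp).ne
  have hsub : α.erase p ⊆ α := Finset.erase_subset p α
  have hα' : Fam (α.erase p) :=
    ⟨fun r hr => hα.1 r (hsub hr), fun r hr s hs => hα.2 r (hsub hr) s (hsub hs)⟩
  have hins : insert p (α.erase p) = α := Finset.insert_erase hp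
  have hr : ∀ r ∈ α.erase p, r.1 ≠ p.1 ∧ r.1 ≠ p.2 ∧ r.2 ≠ p.1 ∧ r.2 ≠ p.2 := fun r hr =>
    hα.2 r (hsub hr) p hp (Finset.ne_of_mem_erase hr)
  have hv1 : p.1 ∉ vs (α.erase p) := by
    unfold vs
    rw [Finset.mem_union, not_or]
    constructor
    · intro h
      obtain ⟨r, hr', h'⟩ := Finset.mem_image.1 h
      exact (hr r hr').1 h'
    · intro h
      obtain ⟨r, hr', h'⟩ := Finset.mem_image.1 h
      exact (hr r hr').2.2.1 h'
  have hv2 : p.2 ∉ vs (α.erase p) := by
    unfold vs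
    rw [Finset.mem_union, not_or]
    constructor
    · intro h
      obtain ⟨r, hr', h'⟩ := Finset.mem_image.1 h
      exact (hr r hr').2.1 h'
    · intro h
      obtain ⟨r, hr', h'⟩ := Finset.mem_image.1 h
      exact (hr r hr').2.2.2 h'
  have hT1 : Tr (insert p (α.erase p)) (insert p.1 t) := by
    intro r hr'
    rcases Finset.mem_insert.1 hr' with rfl | hr'
    · exact Or.inl ⟨Finset.mem_insert_self _ _, by
        rw [Finset.mem_insert, not_or]
        exact ⟨hne.symm, hp2⟩⟩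
    · obtain ⟨e1, -, e3, -⟩ := hr r hr'
      simp only [Finset.mem_insert, e1, e3, false_or]
      exact ht r hr'
  have hT2 : Tr (insert p (α.erase p)) (insert p.2 t) := by
    intro r hr'
    rcases Finset.mem_insert.1 hr' with rfl | hr'
    · exact Or.inr ⟨by
        rw [Finset.mem_insert, not_or]
        exact ⟨hne, hp1⟩, Finset.mem_insert_self _ _⟩
    · obtain ⟨-, e2, -, e4⟩ := hr r hr'
      simp only [Finset.mem_insert, e2, e4, false_or]
      exact ht r hr'
  have hc1 : cc (insert p.1 t) p = p.2 := by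
    unfold cc
    rw [if_pos (Finset.mem_insert_self _ _)]
  have hc2 : cc (insert p.2 t) p = p.1 := by
    unfold cc
    rw [if_neg]
    rw [Finset.mem_insert, not_or]
    exact ⟨hne, hp1⟩
  have k1 := part2 (α.erase p) p (insert p.1 t) (Finset.notMem_erase p α) (by rwa [hins]) hT1
  have k2 := part2 (α.erase p) p (insert p.2 t) (Finset.notMem_erase p α) (by rwa [hins]) hT2
  have m1 := part1 (α.erase p) t p.1 hα' ht hp1 hv1
  have m2 := part1 (α.erase p) t p.2 hα' ht hp2 hv2
  rw [hins, hc1, Finset.insert_union] at k1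
  rw [hins, hc2, Finset.insert_union] at k2
  have hU1 : p.1 ∉ t ∪ vs (α.erase p) := by
    rw [Finset.mem_union, not_or]
    exact ⟨hp1, hv1⟩
  have hU2 : p.2 ∉ t ∪ vs (α.erase p) := by
    rw [Finset.mem_union, not_or]
    exact ⟨hp2, hv2⟩
  have ha := sg_anti hU1 hU2 hne
  have hs := sg_sq p.1 ((α.erase p).image Prod.fst)
  have hpow : ((-1 : ℝ) ^ (α.erase p).card) * (-1) ^ (α.erase p).card = 1 := by
    rw [← mul_pow]
    norm_num
  set S := sg p.1 ((α.erase p).image Prod.fst) with hS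
  set N := ((-1 : ℝ) ^ (α.erase p).card) with hN
  set U := t ∪ vs (α.erase p) with hU
  have f1 : S * (sg p.1 t * eps α (insert p.1 t)) =
      eps (α.erase p) t * (sg p.2 (insert p.1 U) * sg p.1 U) := by
    calc S * (sg p.1 t * eps α (insert p.1 t))
        = sg p.1 t * (S * eps α (insert p.1 t)) := by ring
      _ = sg p.1 t * (N * eps (α.erase p) (insert p.1 t) * sg p.2 (insert p.1 U)) := by rw [k1]
      _ = N * (sg p.1 t * eps (α.erase p) (insert p.1 t)) * sg p.2 (insert p.1 U) := by ring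
      _ = (N * N) * (eps (α.erase p) t * (sg p.2 (insert p.1 U) * sg p.1 U)) := by
          rw [m1]
          ring
      _ = _ := by rw [hpow, one_mul]
  have f2 : S * (sg p.2 t * eps α (insert p.2 t)) =
      eps (α.erase p) t * (sg p.1 (insert p.2 U) * sg p.2 U) := by
    calc S * (sg p.2 t * eps α (insert p.2 t))
        = sg p.2 t * (S * eps α (insert p.2 t)) := by ring
      _ = sg p.2 t * (N * eps (α.erase p) (insert p.2 t) * sg p.1 (insert p.2 U)) := by rw [k2]
      _ = N * (sg p.2 t * eps (α.erase p) (insert p.2 t)) * sg p.1 (insert p.2 U) := by ring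
      _ = (N * N) * (eps (α.erase p) t * (sg p.1 (insert p.2 U) * sg p.2 U)) := by
          rw [m2]
          ring
      _ = _ := by rw [hpow, one_mul]
  have f3 : S * (sg p.1 t * eps α (insert p.1 t) + sg p.2 t * eps α (insert p.2 t)) = 0 := by
    rw [mul_add, f1, f2, ha]
    ring
  calc sg p.1 t * eps α (insert p.1 t) + sg p.2 t * eps α (insert p.2 t)
      = (S * S) * (sg p.1 t * eps α (insert p.1 t) + sg p.2 t * eps α (insert p.2 t)) := by
        rw [hs, one_mul]
    _ = S * (S * (sg p.1 t * eps α (insert p.1 t) + sg p.2 t * eps α (insert p.2 t))) := by ring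
    _ = 0 := by rw [f3, mul_zero]

theorem prf : S_Sg := ⟨part1, part2, part3⟩

end MP8a95ee.Rk.SgP
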