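import Pool.Agent.Work.MP_8a95ee_gt.Rk.Stmts

/-!
# Item T1 of the block Rk: the boundary of `T α`
-/

set_option autoImplicit false

namespace MP8a95ee.Rk.T1P

open Ref RA

/-! ### Generalities -/

/-- `x`, `y` are the two elements of the pair `p` -/
def Pt {W : Type} (p : W × W) (x y : W) : Prop := (x = p.1 ∧ y = p.2) ∨ (x = p.2 ∧ y = p.1)

theorem Pt.symm {W : Type} {p : W × W} {x y : W} (h : Pt p x y) : Pt p y x := by
  rcases h with ⟨h1, h2⟩ | ⟨h1, h2⟩
  · exact Or.inr ⟨h2, h1⟩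
  · exact Or.inl ⟨h2, h1⟩

theorem Pt.left {W : Type} {p : W × W} {x y : W} (h : Pt p x y) : x = p.1 ∨ x = p.2 := by
  rcases h with ⟨h1, _⟩ | ⟨h1, _⟩
  · exact Or.inl h1
  · exact Or.inr h1

theorem Pt.right {W : Type} {p : W × W} {x y : W} (h : Pt p x y) : y = p.1 ∨ y = p.2 :=
  h.symm.left

theorem ad_symm (X : Cov) {x y : X.W} (h : X.Ad x y) : X.Ad y x :=
  ⟨h.1.symm, by rw [Finset.pair_comm]; exact h.2⟩

theorem ad_of_mem (X : Cov) {t : Finset X.W} (ht : t ∈ X.Kt) {x y : X.W} (hx : x ∈ t)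
    (hy : y ∈ t) (hne : x ≠ y) : X.Ad x y :=
  ⟨hne, X.down t ht _ (by
    intro z hz
    rw [Finset.mem_insert, Finset.mem_singleton] at hz
    rcases hz with h | h <;> rw [h] <;> assumption)⟩

theorem mem_vs {W : Type} [DecidableEq W] {α : Finset (W × W)} {x : W} :
    x ∈ vs α ↔ ∃ p ∈ α, x = p.1 ∨ x = p.2 := by
  unfold vs
  simp only [Finset.mem_union, Finset.mem_image]
  constructor
  · rintro (⟨p, hp, h⟩ | ⟨p, hp, h⟩)
    · exact ⟨p, hp, Or.inl h.symm⟩
    · exact ⟨p, hp, Or.inr h.symm⟩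
  · rintro ⟨p, hp, h | h⟩
    · exact Or.inl ⟨p, hp, h.symm⟩
    · exact Or.inr ⟨p, hp, h.symm⟩

theorem vs_insert {W : Type} [DecidableEq W] (q : W × W) (α : Finset (W × W)) (x y : W)
    (h : Pt q x y) : vs (insert q α) = insert x (insert y (vs α)) := by
  ext z
  simp only [mem_vs, Finset.mem_insert]
  constructor
  · rintro ⟨p, rfl | hp, hz⟩
    · rcases h with ⟨h1, h2⟩ | ⟨h1, h2⟩
      · rcases hz with hz | hz
        · left; rw [h1, hz]
        · right; left; rw [h2, hz]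
      · rcases hz with hz | hz
        · right; left; rw [h2, hz]
        · left; rw [h1, hz]
    · exact Or.inr (Or.inr ⟨p, hp, hz⟩)
  · rintro (rfl | rfl | ⟨p, hp, hz⟩)
    · exact ⟨q, Or.inl rfl, h.left⟩
    · exact ⟨q, Or.inl rfl, h.right⟩
    · exact ⟨p, Or.inr hp, hz⟩

theorem om_ad (X : Cov) {α : Finset (X.W × X.W)} (h : X.Om α) {p q : X.W × X.W} (hp : p ∈ α)
    (hq : q ∈ α) (hne : p ≠ q) {x y : X.W} (hx : x = p.1 ∨ x = p.2) (hy : y = q.1 ∨ y = q.2) :
    X.Ad x y := by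
  obtain ⟨h1, h2, h3, h4⟩ := h.2.2.1 p hp q hq hne
  rcases hx with rfl | rfl <;> rcases hy with rfl | rfl <;> assumption

theorem om_uniq (X : Cov) {α : Finset (X.W × X.W)} (h : X.Om α) {p q : X.W × X.W} (hp : p ∈ α)
    (hq : q ∈ α) {x : X.W} (hx : x = p.1 ∨ x = p.2) (hy : x = q.1 ∨ x = q.2) : p = q := by
  by_contra hne
  exact (om_ad X h hp hq hne hx hy).1 rfl

theorem om_ne (X : Cov) {α : Finset (X.W × X.W)} (h : X.Om α) {p : X.W × X.W} (hp : p ∈ α) :
    p.1 ≠ p.2 := by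
  intro he
  have := (h.2.1 p hp).1
  rw [he] at this
  exact lt_irrefl _ this

theorem om_nadj (X : Cov) {α : Finset (X.W × X.W)} (h : X.Om α) {p : X.W × X.W} (hp : p ∈ α)
    {x y : X.W} (hxy : Pt p x y) : ¬ Adj X.L (X.π x) (X.π y) := by
  rcases hxy with ⟨rfl, rfl⟩ | ⟨rfl, rfl⟩
  · exact (h.2.1 p hp).2.2.2
  · intro h'
    exact (h.2.1 p hp).2.2.2 (adj_symm h')

theorem om_labne (X : Cov) {α : Finset (X.W × X.W)} (h : X.Om α) {p : X.W × X.W} (hp : p ∈ α)
    {x y : X.W} (hxy : Pt p x y) : X.π x ≠ X.π y := by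
  rcases hxy with ⟨rfl, rfl⟩ | ⟨rfl, rfl⟩
  · exact (h.2.1 p hp).1.ne
  · exact (h.2.1 p hp).1.ne'

theorem om_V (X : Cov) {α : Finset (X.W × X.W)} (h : X.Om α) {x : X.W} (hx : x ∈ vs α) :
    X.π x ∈ X.V := by
  obtain ⟨p, hp, rfl | rfl⟩ := mem_vs.1 hx
  · exact (h.2.1 p hp).2.1
  · exact (h.2.1 p hp).2.2.1

theorem om_dich (X : Cov) {α : Finset (X.W × X.W)} (h : X.Om α) {x y : X.W} (hx : x ∈ vs α)
    (hy : y ∈ vs α) (hne : x ≠ y) : X.Ad x y ∨ ∃ p ∈ α, Pt p x y := by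
  obtain ⟨p, hp, hxp⟩ := mem_vs.1 hx
  obtain ⟨q, hq, hyq⟩ := mem_vs.1 hy
  by_cases hpq : p = q
  · subst hpq
    right
    refine ⟨p, hp, ?_⟩
    rcases hxp with h1 | h1 <;> rcases hyq with h2 | h2
    · exact absurd (h1.trans h2.symm) hne
    · exact Or.inl ⟨h1, h2⟩
    · exact Or.inr ⟨h1, h2⟩
    · exact absurd (h1.trans h2.symm) hne
  · exact Or.inl (om_ad X h hp hq hpq hxp hyq)

theorem cmp_dich (X : Cov) {α : Finset (X.W × X.W)} (h : X.Om α) {t : Finset X.W}
    (ht : t ∈ X.Kt) (hn : ∀ x ∈ t, x ∈ X.nb α) {x y : X.W} (hx : x ∈ t ∪ vs α)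
    (hy : y ∈ t ∪ vs α) (hne : x ≠ y) : X.Ad x y ∨ ∃ p ∈ α, Pt p x y := by
  have key : ∀ z w, z ∈ t → w ∈ vs α → z ≠ w → X.Ad z w ∨ ∃ p ∈ α, Pt p z w := by
    intro z w hz hw hzw
    rcases (hn z hz).2 with h1 | h1
    · exact om_dich X h h1 hw hzw
    · exact Or.inl (h1 w hw)
  rcases Finset.mem_union.1 hx with hx | hx <;> rcases Finset.mem_union.1 hy with hy | hy
  · exact Or.inl (ad_of_mem X ht hx hy hne)
  · exact key x y hx hy hne
  · rcases key y x hy hx hne.symm with h1 | ⟨p, hp, h1⟩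
    · exact Or.inl (ad_symm X h1)
    · exact Or.inr ⟨p, hp, h1.symm⟩
  · exact om_dich X h hx hy hne

theorem tc_ne (X : Cov) {b : Finset ℕ → ℝ} {α : Finset (X.W × X.W)} {t : Finset X.W}
    (h : X.Tc b α t ≠ 0) : X.Cmp α t ∧ b ((t ∪ vs α).image X.π) ≠ 0 := by
  unfold Cov.Tc at h
  split_ifs at h with h1
  · exact ⟨h1, right_ne_zero_of_mul h⟩
  · exact absurd rfl h

theorem tc_eq (X : Cov) (b : Finset ℕ → ℝ) {α : Finset (X.W × X.W)} {t : Finset X.W}
    (h : X.Cmp α t) : X.Tc b α t =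
      eps (α.image (Prod.map X.π X.π)) (t.image X.π) * b ((t ∪ vs α).image X.π) := by
  unfold Cov.Tc
  rw [if_pos h]

theorem tc_not (X : Cov) (b : Finset ℕ → ℝ) {α : Finset (X.W × X.W)} {t : Finset X.W}
    (h : ¬ X.Cmp α t) : X.Tc b α t = 0 := by
  unfold Cov.Tc
  rw [if_neg h]

theorem bt_ne (X : Cov) {b : Finset ℕ → ℝ} {s : Finset X.W} (h : X.bt b s ≠ 0) :
    X.GL s ∧ b (s.image X.π) ≠ 0 := by
  unfold Cov.bt at h
  split_ifs at h with h1
  · exact ⟨h1, h⟩
  · exact absurd rfl h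

theorem bt_eq (X : Cov) (b : Finset ℕ → ℝ) {s : Finset X.W} (h : X.GL s) :
    X.bt b s = b (s.image X.π) := by
  unfold Cov.bt
  rw [if_pos h]

/-! ### labels -/

theorem vs_image {W : Type} [DecidableEq W] (π : W → ℕ) (α : Finset (W × W)) :
    vs (α.image (Prod.map π π)) = (vs α).image π := by
  ext x
  simp only [mem_vs, Finset.mem_image]
  constructor
  · rintro ⟨_, ⟨p, hp, rfl⟩, h | h⟩
    · exact ⟨p.1, ⟨p, hp, Or.inl rfl⟩, h.symm⟩
    · exact ⟨p.2, ⟨p, hp, Or.inr rfl⟩, h.symm⟩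
  · rintro ⟨y, ⟨p, hp, rfl | rfl⟩, rfl⟩
    · exact ⟨Prod.map π π p, ⟨p, hp, rfl⟩, Or.inl rfl⟩
    · exact ⟨Prod.map π π p, ⟨p, hp, rfl⟩, Or.inr rfl⟩

theorem fst_image {W : Type} [DecidableEq W] (π : W → ℕ) (α : Finset (W × W)) :
    (α.image (Prod.map π π)).image Prod.fst = α.image fun p => π p.1 := by
  rw [Finset.image_image]
  rfl

theorem card_image (X : Cov) {α : Finset (X.W × X.W)}
    (hi : Set.InjOn X.π (vs α : Set X.W)) : (α.image (Prod.map X.π X.π)).card = α.card := by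
  refine Finset.card_image_of_injOn ?_
  intro p hp q hq hpq
  have h1 : p.1 ∈ (vs α : Set X.W) := mem_vs.2 ⟨p, hp, Or.inl rfl⟩
  have h2 : p.2 ∈ (vs α : Set X.W) := mem_vs.2 ⟨p, hp, Or.inr rfl⟩
  have h3 : q.1 ∈ (vs α : Set X.W) := mem_vs.2 ⟨q, hq, Or.inl rfl⟩
  have h4 : q.2 ∈ (vs α : Set X.W) := mem_vs.2 ⟨q, hq, Or.inr rfl⟩
  have h5 := congrArg Prod.fst hpq
  have h6 := congrArg Prod.snd hpq
  exact Prod.ext (hi h1 h3 h5) (hi h2 h4 h6)

/-! ### Case A -/

theorem cmp_swap (hU : S_U1) (X : Cov) {α : Finset (X.W × X.W)} (h : X.Om α) {t : Finset X.W}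
    {p : X.W × X.W} (hp : p ∈ α) (h1 : p.1 ∉ t) (h2 : p.2 ∉ t) {x y : X.W} (hxy : Pt p x y)
    (hc : X.Cmp α (insert x t)) : X.Cmp α (insert y t) := by
  have hxt : x ∉ t := by rcases hxy.left with rfl | rfl <;> assumption
  have hyt : y ∉ t := by rcases hxy.right with rfl | rfl <;> assumption
  have hne : x ≠ y := by
    rcases hxy with ⟨rfl, rfl⟩ | ⟨rfl, rfl⟩
    · exact om_ne X h hp
    · exact (om_ne X h hp).symm
  have hyv : y ∈ vs α := mem_vs.2 ⟨p, hp, hxy.right⟩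
  have hzy : ∀ z ∈ t, X.Ad z y := by
    intro z hz
    rcases (hc.2.1 z (Finset.mem_insert_of_mem hz)).2 with h3 | h3
    · obtain ⟨q, hq, hzq⟩ := mem_vs.1 h3
      refine om_ad X h hq hp ?_ hzq hxy.right
      rintro rfl
      rcases hzq with rfl | rfl
      · exact h1 hz
      · exact h2 hz
    · exact h3 y hyv
  refine ⟨?_, ?_, ?_⟩
  · refine (hU X).2.2.1 _ ?_ ?_
    · intro z hz
      rcases Finset.mem_insert.1 hz with rfl | hz
      · exact om_V X h hyv
      · exact (hc.2.1 z (Finset.mem_insert_of_mem hz)).1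
    · intro z hz w hw hzw
      rcases Finset.mem_insert.1 hz with hz' | hz'
      · rcases Finset.mem_insert.1 hw with hw' | hw'
        · exact absurd (hz'.trans hw'.symm) hzw
        · rw [hz']
          exact ad_symm X (hzy w hw')
      · rcases Finset.mem_insert.1 hw with hw' | hw'
        · rw [hw']
          exact hzy z hz'
        · exact ad_of_mem X hc.1 (Finset.mem_insert_of_mem hz') (Finset.mem_insert_of_mem hw') hzw
  · intro z hz
    rcases Finset.mem_insert.1 hz with rfl | hz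
    · exact ⟨om_V X h hyv, Or.inl hyv⟩
    · exact hc.2.1 z (Finset.mem_insert_of_mem hz)
  · intro q hq
    by_cases hqp : q = p
    · subst hqp
      rcases hxy with ⟨rfl, rfl⟩ | ⟨rfl, rfl⟩
      · right
        refine ⟨?_, Finset.mem_insert_self _ _⟩
        rw [Finset.mem_insert]
        rintro (h3 | h3)
        · exact hne h3
        · exact h1 h3
      · left
        refine ⟨Finset.mem_insert_self _ _, ?_⟩
        rw [Finset.mem_insert]
        rintro (h3 | h3)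
        · exact hne h3
        · exact h2 h3
    · have e1 : ∀ z, (z = q.1 ∨ z = q.2) → (z ∈ insert x t ↔ z ∈ insert y t) := by
        intro z hz
        have hzx : z ≠ x := by
          rintro rfl
          exact hqp (om_uniq X h hq hp hz hxy.left)
        have hzy' : z ≠ y := by
          rintro rfl
          exact hqp (om_uniq X h hq hp hz hxy.right)
        rw [Finset.mem_insert, Finset.mem_insert]
        constructor
        · rintro (h3 | h3)
          · exact absurd h3 hzx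
          · exact Or.inr h3
        · rintro (h3 | h3)
          · exact absurd h3 hzy'
          · exact Or.inr h3
      have e2 := e1 q.1 (Or.inl rfl)
      have e3 := e1 q.2 (Or.inr rfl)
      rcases hc.2.2 q hq with ⟨h3, h4⟩ | ⟨h3, h4⟩
      · exact Or.inl ⟨e2.1 h3, fun h5 => h4 (e3.2 h5)⟩
      · exact Or.inr ⟨fun h5 => h3 (e2.2 h5), e3.1 h4⟩

theorem caseA (hU : S_U1) (hSg : S_Sg) (hT5 : S_T5) (X : Cov) (b : Finset ℕ → ℝ)
    (α : Finset (X.W × X.W)) (hα : X.Om α) (t : Finset X.W) (S : Finset X.W)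
    (hS : ∀ x, x ∉ t → X.Tc b α (insert x t) ≠ 0 → x ∈ S) (p : X.W × X.W) (hp : p ∈ α)
    (h1 : p.1 ∉ t) (h2 : p.2 ∉ t) :
    ∑ x ∈ S \ t, sg (X.π x) (t.image X.π) * X.Tc b α (insert x t) = 0 := by
  have hf : ∀ x, x ≠ p.1 → x ≠ p.2 →
      sg (X.π x) (t.image X.π) * X.Tc b α (insert x t) = 0 := by
    intro x hx1 hx2
    rw [tc_not, mul_zero]
    intro hc
    rcases hc.2.2 p hp with ⟨h3, _⟩ | ⟨_, h3⟩
    · rcases Finset.mem_insert.1 h3 with h4 | h4
      · exact hx1 h4.symm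
      · exact h1 h4
    · rcases Finset.mem_insert.1 h3 with h4 | h4
      · exact hx2 h4.symm
      · exact h2 h4
  have hsum : ∑ x ∈ S \ t, sg (X.π x) (t.image X.π) * X.Tc b α (insert x t) =
      ∑ x ∈ ({p.1, p.2} : Finset X.W), sg (X.π x) (t.image X.π) * X.Tc b α (insert x t) := by
    have e1 : ∑ x ∈ S \ t, sg (X.π x) (t.image X.π) * X.Tc b α (insert x t) =
        ∑ x ∈ (S \ t) ∪ {p.1, p.2}, sg (X.π x) (t.image X.π) * X.Tc b α (insert x t) := by
      refine Finset.sum_subset Finset.subset_union_left ?_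
      intro x hx hx'
      rcases Finset.mem_union.1 hx with h3 | h3
      · exact absurd h3 hx'
      · have hxt : x ∉ t := by
          rw [Finset.mem_insert, Finset.mem_singleton] at h3
          rcases h3 with rfl | rfl <;> assumption
        have : X.Tc b α (insert x t) = 0 := by
          by_contra h4
          exact hx' (Finset.mem_sdiff.2 ⟨hS x hxt h4, hxt⟩)
        rw [this, mul_zero]
    have e2 : ∑ x ∈ ({p.1, p.2} : Finset X.W),
          sg (X.π x) (t.image X.π) * X.Tc b α (insert x t) =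
        ∑ x ∈ (S \ t) ∪ {p.1, p.2}, sg (X.π x) (t.image X.π) * X.Tc b α (insert x t) := by
      refine Finset.sum_subset Finset.subset_union_right ?_
      intro x _ hx'
      rw [Finset.mem_insert, Finset.mem_singleton, not_or] at hx'
      exact hf x hx'.1 hx'.2
    rw [e1, e2]
  rw [hsum, Finset.sum_pair (om_ne X hα hp)]
  by_cases hc : X.Cmp α (insert p.1 t)
  · have hc2 : X.Cmp α (insert p.2 t) := cmp_swap hU X hα hp h1 h2 (Or.inl ⟨rfl, rfl⟩) hc
    rw [tc_eq X b hc, tc_eq X b hc2]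
    obtain ⟨_, _, _, _, hi, hF, hT⟩ := hT5 X α hα
    obtain ⟨hi1, hTr1, _⟩ := hT _ hc
    have hv1 : p.1 ∈ vs α := mem_vs.2 ⟨p, hp, Or.inl rfl⟩
    have hv2 : p.2 ∈ vs α := mem_vs.2 ⟨p, hp, Or.inr rfl⟩
    have u1 : insert p.1 t ∪ vs α = t ∪ vs α := by
      rw [Finset.insert_union, Finset.insert_eq_of_mem (Finset.mem_union_right _ hv1)]
    have u2 : insert p.2 t ∪ vs α = t ∪ vs α := by
      rw [Finset.insert_union, Finset.insert_eq_of_mem (Finset.mem_union_right _ hv2)]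
    rw [u1, u2, Finset.image_insert, Finset.image_insert]
    rw [u1] at hi1
    have nl : ∀ z, z ∈ vs α → z ∉ t → X.π z ∉ t.image X.π := by
      intro z hz hzt hz'
      obtain ⟨w, hw, hwz⟩ := Finset.mem_image.1 hz'
      have := hi1 (by exact_mod_cast Finset.mem_union_left _ hw)
        (by exact_mod_cast Finset.mem_union_right _ hz) hwz
      rw [this] at hw
      exact hzt hw
    have hmem : Prod.map X.π X.π p ∈ α.image (Prod.map X.π X.π) := Finset.mem_image_of_mem _ hp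
    have hTr : Tr ((α.image (Prod.map X.π X.π)).erase (Prod.map X.π X.π p)) (t.image X.π) := by
      intro q' hq'
      rw [Finset.mem_erase, Finset.mem_image] at hq'
      obtain ⟨hqne, q, hq, rfl⟩ := hq'
      have hqp : q ≠ p := fun h => hqne (by rw [h])
      have e1 : ∀ z, (z = q.1 ∨ z = q.2) → (z ∈ insert p.1 t ↔ X.π z ∈ t.image X.π) := by
        intro z hz
        have hzv : z ∈ vs α := mem_vs.2 ⟨q, hq, hz⟩
        have hzp : z ≠ p.1 := by
          rintro rfl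
          exact hqp (om_uniq X hα hq hp hz (Or.inl rfl))
        rw [Finset.mem_insert]
        constructor
        · rintro (h3 | h3)
          · exact absurd h3 hzp
          · exact Finset.mem_image_of_mem _ h3
        · intro h3
          by_contra h4
          rw [not_or] at h4
          exact nl z hzv h4.2 h3
      have e2 := e1 q.1 (Or.inl rfl)
      have e3 := e1 q.2 (Or.inr rfl)
      rcases hc.2.2 q hq with ⟨h3, h4⟩ | ⟨h3, h4⟩
      · exact Or.inl ⟨e2.1 h3, fun h5 => h4 (e3.2 h5)⟩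
      · exact Or.inr ⟨fun h5 => h3 (e2.2 h5), e3.1 h4⟩
    have h3 := hSg.2.2 (α.image (Prod.map X.π X.π)) (Prod.map X.π X.π p) (t.image X.π) hmem hF hTr
      (nl p.1 hv1 h1) (nl p.2 hv2 h2)
    simp only [Prod.map_fst, Prod.map_snd] at h3
    rw [← mul_assoc, ← mul_assoc, ← add_mul, h3, zero_mul]
  · have hc2 : ¬ X.Cmp α (insert p.2 t) := fun h3 =>
      hc (cmp_swap hU X hα hp h1 h2 (Or.inr ⟨rfl, rfl⟩) h3)
    rw [tc_not X b hc, tc_not X b hc2, mul_zero, mul_zero, add_zero]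

/-! ### Facts about `KK` -/

theorem kk_uniq {L : Finset (Finset ℕ)} {U : Finset ℕ} (hU : U ∈ KK L) {a b c : ℕ} (ha : a ∈ U)
    (hb : b ∈ U) (hc : c ∈ U) (hba : b ≠ a) (hca : c ≠ a) (h1 : ¬ Adj L a b)
    (h2 : ¬ Adj L a c) : b = c := by
  have h3 := (Finset.mem_filter.1 hU).2 a ha
  rw [Finset.card_le_one] at h3
  refine h3 b ?_ c ?_
  · rw [Finset.mem_filter]
    exact ⟨hb, hba, fun h => h1 ⟨hba.symm, h⟩⟩
  · rw [Finset.mem_filter]
    exact ⟨hc, hca, fun h => h2 ⟨hca.symm, h⟩⟩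

theorem kk_odd {L : Finset (Finset ℕ)} {U : Finset ℕ} (hU : U ∈ KK L) (ho : Odd U.card) :
    ∃ v ∈ U, ∀ w ∈ U, w ≠ v → Adj L v w := by
  by_contra hcon
  push Not at hcon
  choose! g hg using hcon
  have hsum : ∑ x ∈ U, (1 : ZMod 2) = 0 := by
    refine Finset.sum_involution (fun a _ => g a) ?_ ?_ ?_ ?_
    · intro a _
      decide
    · intro a ha _
      exact (hg a ha).2.1
    · intro a ha
      exact (hg a ha).1
    · intro a ha
      obtain ⟨h1, h2, h3⟩ := hg a ha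
      obtain ⟨h4, h5, h6⟩ := hg (g a) h1
      exact kk_uniq hU h1 h4 ha h5 h2.symm h6 (fun h => h3 (adj_symm h))
  rw [Finset.sum_const, nsmul_eq_mul, mul_one] at hsum
  have h1 : Even U.card := by
    rw [even_iff_two_dvd]
    exact (ZMod.natCast_eq_zero_iff U.card 2).1 hsum
  exact (Nat.not_even_iff_odd.2 ho) h1

/-! ### Case C -/

theorem ad_adj (hU : S_U1) (X : Cov) {x y : X.W} (h : X.Ad x y) (hx : X.π x ∈ X.V)
    (hy : X.π y ∈ X.V) : Adj X.L (X.π x) (X.π y) :=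
  ((hU X).2.2.2.1 x y h).2.2 hx hy

theorem memV (X : Cov) {α : Finset (X.W × X.W)} (hα : X.Om α) {t : Finset X.W}
    (hn : ∀ x ∈ t, x ∈ X.nb α) {x : X.W} (hx : x ∈ t ∪ vs α) : X.π x ∈ X.V := by
  rcases Finset.mem_union.1 hx with h | h
  · exact (hn x h).1
  · exact om_V X hα h

/-- `t ∪ vs α` is a good lift -/
theorem gl_s (hU : S_U1) (hT5 : S_T5) (X : Cov) {α : Finset (X.W × X.W)} (hα : X.Om α)
    {t : Finset X.W} (hc : X.Cmp α t) : X.GL (t ∪ vs α) := by
  obtain ⟨hi, _, _⟩ := (hT5 X α hα).2.2.2.2.2.2 t hc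
  have hdich : ∀ x ∈ t ∪ vs α, ∀ y ∈ t ∪ vs α, x ≠ y → ¬ Adj X.L (X.π x) (X.π y) →
      ∃ p ∈ α, Pt p x y := by
    intro x hx y hy hne hadj
    rcases cmp_dich X hα hc.1 hc.2.1 hx hy hne with h | h
    · exact absurd (ad_adj hU X h (memV X hα hc.2.1 hx) (memV X hα hc.2.1 hy)) hadj
    · exact h
  refine ⟨hi, fun x hx => memV X hα hc.2.1 hx, ?_, ?_⟩
  · intro x hx y hy hadj
    have hne : x ≠ y := by
      rintro rfl
      exact hadj.1 rfl
    rcases cmp_dich X hα hc.1 hc.2.1 hx hy hne with h | ⟨p, hp, h⟩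
    · exact h
    · exact absurd hadj (om_nadj X hα hp h)
  · unfold KK
    rw [Finset.mem_filter, Finset.mem_powerset]
    constructor
    · intro a ha
      obtain ⟨x, hx, rfl⟩ := Finset.mem_image.1 ha
      rw [(hU X).2.2.2.2.1]
      exact memV X hα hc.2.1 hx
    · intro a ha
      obtain ⟨x, hx, rfl⟩ := Finset.mem_image.1 ha
      rw [Finset.card_le_one]
      intro b hb c hc'
      rw [Finset.mem_filter] at hb hc'
      obtain ⟨y, hy, rfl⟩ := Finset.mem_image.1 hb.1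
      obtain ⟨z, hz, rfl⟩ := Finset.mem_image.1 hc'.1
      have hyx : x ≠ y := fun h => hb.2.1 (by rw [h])
      have hzx : x ≠ z := fun h => hc'.2.1 (by rw [h])
      obtain ⟨p, hp, hp'⟩ := hdich x hx y hy hyx (fun h => hb.2.2 h.2)
      obtain ⟨q, hq, hq'⟩ := hdich x hx z hz hzx (fun h => hc'.2.2 h.2)
      have hpq : p = q := om_uniq X hα hp hq hp'.left hq'.left
      subst hpq
      rcases hp' with ⟨h1, h2⟩ | ⟨h1, h2⟩ <;> rcases hq' with ⟨h3, h4⟩ | ⟨h3, h4⟩
      · rw [h2, h4]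
      · exact absurd (h1.symm.trans h3) (om_ne X hα hp)
      · exact absurd (h3.symm.trans h1) (om_ne X hα hp)
      · rw [h2, h4]

theorem oF_zero (X : Cov) (m : ℕ) (o : (Fin (m + 1) → ℕ) → ℤ) (ho : IsOrient X.L (m + 1) o)
    {u : Finset ℕ} {a b : ℕ} (ha : a ∈ u) (hb : b ∈ u) (hne : a ≠ b) (hadj : ¬ Adj X.L a b) :
    oF o u = 0 := by
  unfold oF
  split_ifs with h
  · by_contra h1
    have h2 : o (u.orderEmbOfFin h) ≠ 0 := fun h3 => h1 (by rw [h3]; simp)
    have h3 := ho.2.1 _ h2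
    have h4 : Finset.univ.image (u.orderEmbOfFin h) = u := by
      ext z
      rw [Finset.mem_image]
      have := Finset.range_orderEmbOfFin u h
      constructor
      · rintro ⟨i, _, rfl⟩
        exact Finset.orderEmbOfFin_mem u h i
      · intro hz
        have hz' : z ∈ Set.range (u.orderEmbOfFin h) := by
          rw [this]
          exact hz
        obtain ⟨i, hi⟩ := hz'
        exact ⟨i, Finset.mem_univ _, hi⟩
    rw [h4] at h3
    exact hadj (adj_of_mem X.flag h3 ha hb hne)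
  · rfl

/-- type (i): the sign -/
theorem typeI (hSg : S_Sg) (hT5 : S_T5) (X : Cov) (b : Finset ℕ → ℝ)
    {α : Finset (X.W × X.W)} (hα : X.Om α) {t : Finset X.W} (hc : X.Cmp α t) {x : X.W}
    (hx : x ∉ t ∪ vs α) (hcx : X.Cmp α (insert x t)) :
    sg (X.π x) (t.image X.π) * X.Tc b α (insert x t) =
      ((-1) ^ α.card * eps (α.image (Prod.map X.π X.π)) (t.image X.π)) *
        (sg (X.π x) ((t ∪ vs α).image X.π) * b ((insert x (t ∪ vs α)).image X.π)) := by
  obtain ⟨_, _, _, _, hi, hF, hT⟩ := hT5 X α hα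
  obtain ⟨hi0, hTr, _⟩ := hT _ hc
  obtain ⟨hi1, _, _⟩ := hT _ hcx
  rw [tc_eq X b hcx, Finset.insert_union, Finset.image_insert]
  have hnot : X.π x ∉ (t ∪ vs α).image X.π := by
    intro h
    obtain ⟨y, hy, hyx⟩ := Finset.mem_image.1 h
    rw [Finset.insert_union] at hi1
    have := hi1 (by exact_mod_cast Finset.mem_insert_of_mem hy)
      (by exact_mod_cast Finset.mem_insert_self _ _) hyx
    rw [this] at hy
    exact hx hy
  rw [Finset.image_union, Finset.mem_union, not_or] at hnot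
  have h3 := hSg.1 (α.image (Prod.map X.π X.π)) (t.image X.π) (X.π x) hF hTr hnot.1
    (by rw [vs_image]; exact hnot.2)
  rw [vs_image, ← Finset.image_union, card_image X hi] at h3
  rw [← mul_assoc, h3]
  ring

/-- type (ii): the sign -/
theorem typeII (hSg : S_Sg) (hT5 : S_T5) (X : Cov) (b : Finset ℕ → ℝ)
    {α : Finset (X.W × X.W)} (hα : X.Om α) {t : Finset X.W} {q : X.W × X.W} (hq : q ∉ α)
    (hβ : X.Om (insert q α)) (hc : X.Cmp (insert q α) t) {x y : X.W} (hxy : Pt q x y)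
    (hx : x ∉ t) (hy : y ∈ t) :
    X.inc α (insert q α) * X.Tc b (insert q α) t =
      ((-1) ^ α.card * eps (α.image (Prod.map X.π X.π)) (t.image X.π)) *
        (sg (X.π x) ((t ∪ vs α).image X.π) * b ((insert x (t ∪ vs α)).image X.π)) := by
  obtain ⟨_, _, _, _, hi, _, _⟩ := hT5 X α hα
  obtain ⟨_, _, _, _, hi', hF, hT⟩ := hT5 X _ hβ
  obtain ⟨hi0, hTr, _⟩ := hT _ hc
  have hqm : q ∈ insert q α := Finset.mem_insert_self _ _
  have hinc : X.inc α (insert q α) = sg (X.π q.1) (α.image fun p => X.π p.1) := by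
    unfold Cov.inc
    have : insert q α \ α = {q} := by
      ext p
      simp only [Finset.mem_sdiff, Finset.mem_insert, Finset.mem_singleton]
      constructor
      · rintro ⟨h | h, h'⟩
        · exact h
        · exact absurd h h'
      · rintro rfl
        exact ⟨Or.inl rfl, hq⟩
    rw [this, Finset.sum_singleton]
  have hq' : Prod.map X.π X.π q ∉ α.image (Prod.map X.π X.π) := by
    intro h
    obtain ⟨p, hp, hpq⟩ := Finset.mem_image.1 h
    have h1 := congrArg Prod.fst hpq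
    have h2 : p.1 = q.1 := hi' (by exact_mod_cast mem_vs.2 ⟨p, Finset.mem_insert_of_mem hp, Or.inl rfl⟩)
      (by exact_mod_cast mem_vs.2 ⟨q, hqm, Or.inl rfl⟩) h1
    have h3 : p = q := om_uniq X hβ (Finset.mem_insert_of_mem hp) hqm (Or.inl rfl) (Or.inl h2)
    rw [h3] at hp
    exact hq hp
  have hvs : t ∪ vs (insert q α) = insert x (t ∪ vs α) := by
    rw [vs_insert q α x y hxy]
    ext z
    simp only [Finset.mem_union, Finset.mem_insert]
    constructor
    · rintro (h | h | h | h)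
      · exact Or.inr (Or.inl h)
      · exact Or.inl h
      · rw [h]; exact Or.inr (Or.inl hy)
      · exact Or.inr (Or.inr h)
    · rintro (h | h | h)
      · exact Or.inr (Or.inl h)
      · exact Or.inl h
      · exact Or.inr (Or.inr (Or.inr h))
  have hxt : X.π x ∉ t.image X.π := by
    intro h
    obtain ⟨z, hz, hzx⟩ := Finset.mem_image.1 h
    have : z = x := hi0 (by exact_mod_cast Finset.mem_union_left _ hz)
      (by exact_mod_cast Finset.mem_union_right _ (mem_vs.2 ⟨q, hqm, hxy.left⟩)) hzx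
    rw [this] at hz
    exact hx hz
  have hcc : cc (t.image X.π) (Prod.map X.π X.π q) = X.π x := by
    unfold cc
    rcases hxy with ⟨h1, h2⟩ | ⟨h1, h2⟩
    · rw [if_neg, Prod.map_fst, h1]
      rw [Prod.map_fst, ← h1]
      exact hxt
    · rw [if_pos, Prod.map_snd, h1]
      rw [Prod.map_fst, ← h2]
      exact Finset.mem_image_of_mem _ hy
  rw [Finset.image_insert] at hF hTr
  have h3 := hSg.2.1 (α.image (Prod.map X.π X.π)) (Prod.map X.π X.π q) (t.image X.π) hq' hF hTr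
  rw [fst_image, Prod.map_fst, hcc, vs_image, ← Finset.image_union, card_image X hi] at h3
  rw [hinc, tc_eq X b hc, hvs, Finset.image_insert, ← mul_assoc, h3]
  ring

theorem typeI_fwd (hU : S_U1) (hT5 : S_T5) (X : Cov) (b : Finset ℕ → ℝ)
    {α : Finset (X.W × X.W)} (hα : X.Om α) {t : Finset X.W} (hc : X.Cmp α t) {x : X.W}
    (hx : x ∉ t) (hne : X.Tc b α (insert x t) ≠ 0) :
    x ∉ t ∪ vs α ∧ X.bt b (insert x (t ∪ vs α)) ≠ 0 ∧ ∀ y ∈ t ∪ vs α, X.Ad x y := by
  obtain ⟨hcx, hb⟩ := tc_ne X hne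
  have hxv : x ∉ vs α := by
    intro h
    obtain ⟨p, hp, hxp⟩ := mem_vs.1 h
    rcases hc.2.2 p hp with ⟨h1, h2⟩ | ⟨h1, h2⟩ <;> rcases hcx.2.2 p hp with ⟨h3, h4⟩ | ⟨h3, h4⟩
    · rcases hxp with rfl | rfl
      · exact hx h1
      · exact h4 (Finset.mem_insert_self _ _)
    · exact h3 (Finset.mem_insert_of_mem h1)
    · exact h4 (Finset.mem_insert_of_mem h2)
    · rcases hxp with rfl | rfl
      · exact h3 (Finset.mem_insert_self _ _)
      · exact hx h2
  have hgl := gl_s hU hT5 X hα hcx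
  rw [Finset.insert_union] at hgl hb
  refine ⟨?_, ?_, ?_⟩
  · rw [Finset.mem_union, not_or]
    exact ⟨hx, hxv⟩
  · rw [bt_eq X b hgl]
    exact hb
  · intro y hy
    rcases Finset.mem_union.1 hy with h | h
    · refine ad_of_mem X hcx.1 (Finset.mem_insert_self _ _) (Finset.mem_insert_of_mem h) ?_
      rintro rfl
      exact hx h
    · rcases (hcx.2.1 x (Finset.mem_insert_self _ _)).2 with h1 | h1
      · exact absurd h1 hxv
      · exact h1 y h

theorem typeI_bwd (hU : S_U1) (X : Cov) (b : Finset ℕ → ℝ)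
    {α : Finset (X.W × X.W)} {t : Finset X.W} (hc : X.Cmp α t) {x : X.W}
    (hx : x ∉ t ∪ vs α) (hbt : X.bt b (insert x (t ∪ vs α)) ≠ 0)
    (had : ∀ y ∈ t ∪ vs α, X.Ad x y) : X.Cmp α (insert x t) := by
  obtain ⟨hgl, _⟩ := bt_ne X hbt
  have hxV : X.π x ∈ X.V := hgl.2.1 x (Finset.mem_insert_self _ _)
  rw [Finset.mem_union, not_or] at hx
  refine ⟨?_, ?_, ?_⟩
  · refine (hU X).2.2.1 _ ?_ ?_
    · intro z hz
      rcases Finset.mem_insert.1 hz with hz' | hz'
      · rw [hz']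
        exact hxV
      · exact (hc.2.1 z hz').1
    · intro z hz w hw hzw
      rcases Finset.mem_insert.1 hz with hz' | hz'
      · rcases Finset.mem_insert.1 hw with hw' | hw'
        · exact absurd (hz'.trans hw'.symm) hzw
        · rw [hz']
          exact had w (Finset.mem_union_left _ hw')
      · rcases Finset.mem_insert.1 hw with hw' | hw'
        · rw [hw']
          exact ad_symm X (had z (Finset.mem_union_left _ hz'))
        · exact ad_of_mem X hc.1 hz' hw' hzw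
  · intro z hz
    rcases Finset.mem_insert.1 hz with hz' | hz'
    · rw [hz']
      exact ⟨hxV, Or.inr fun y hy => had y (Finset.mem_union_right _ hy)⟩
    · exact hc.2.1 z hz'
  · intro p hp
    have e1 : ∀ z, (z = p.1 ∨ z = p.2) → (z ∈ insert x t ↔ z ∈ t) := by
      intro z hz
      have hzx : z ≠ x := by
        rintro rfl
        exact hx.2 (mem_vs.2 ⟨p, hp, hz⟩)
      rw [Finset.mem_insert]
      constructor
      · rintro (h3 | h3)
        · exact absurd h3 hzx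
        · exact h3
      · exact Or.inr
    rw [e1 p.1 (Or.inl rfl), e1 p.2 (Or.inr rfl)]
    exact hc.2.2 p hp

theorem typeII_fwd (hU : S_U1) (hT5 : S_T5) (X : Cov) (b : Finset ℕ → ℝ)
    {α : Finset (X.W × X.W)} (hα : X.Om α) {t : Finset X.W} {β : Finset (X.W × X.W)}
    (hβ : β ∈ X.cov α) (hne : X.Tc b β t ≠ 0) :
    ∃ (q : X.W × X.W) (x y : X.W), β = insert q α ∧ q ∉ α ∧ X.Om β ∧ X.Cmp β t ∧ Pt q x y ∧
      x ∉ t ∧ y ∈ t ∧ x ∉ t ∪ vs α ∧ X.bt b (insert x (t ∪ vs α)) ≠ 0 ∧ ¬ X.Ad x y := by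
  obtain ⟨hβo, q, hq, rfl⟩ := ((hT5 X α hα).2.1 β).1 hβ
  obtain ⟨hcb, hb⟩ := tc_ne X hne
  have hqm : q ∈ insert q α := Finset.mem_insert_self _ _
  have hex : ∃ x y, Pt q x y ∧ x ∉ t ∧ y ∈ t := by
    rcases hcb.2.2 q hqm with ⟨h1, h2⟩ | ⟨h1, h2⟩
    · exact ⟨q.2, q.1, Or.inr ⟨rfl, rfl⟩, h2, h1⟩
    · exact ⟨q.1, q.2, Or.inl ⟨rfl, rfl⟩, h1, h2⟩
  obtain ⟨x, y, hxy, hx, hy⟩ := hex
  have hxv : x ∉ vs α := by
    intro h
    obtain ⟨p, hp, hxp⟩ := mem_vs.1 h
    have := om_uniq X hβo (Finset.mem_insert_of_mem hp) hqm hxp hxy.left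
    rw [this] at hp
    exact hq hp
  have hvs : t ∪ vs (insert q α) = insert x (t ∪ vs α) := by
    rw [vs_insert q α x y hxy]
    ext z
    simp only [Finset.mem_union, Finset.mem_insert]
    constructor
    · rintro (h | h | h | h)
      · exact Or.inr (Or.inl h)
      · exact Or.inl h
      · rw [h]; exact Or.inr (Or.inl hy)
      · exact Or.inr (Or.inr h)
    · rintro (h | h | h)
      · exact Or.inr (Or.inl h)
      · exact Or.inl h
      · exact Or.inr (Or.inr (Or.inr h))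
  have hgl := gl_s hU hT5 X hβo hcb
  rw [hvs] at hgl hb
  refine ⟨q, x, y, rfl, hq, hβo, hcb, hxy, hx, hy, ?_, ?_, ?_⟩
  · rw [Finset.mem_union, not_or]
    exact ⟨hx, hxv⟩
  · rw [bt_eq X b hgl]
    exact hb
  · intro h
    exact om_nadj X hβo hqm hxy (ad_adj hU X h
      (om_V X hβo (mem_vs.2 ⟨q, hqm, hxy.left⟩)) (om_V X hβo (mem_vs.2 ⟨q, hqm, hxy.right⟩)))

theorem typeII_bwd (hU : S_U1) (X : Cov) (m : ℕ) (hodd : Odd m)
    (b : Finset ℕ → ℝ) (hb : ∀ s, b s ≠ 0 → s ∈ KK X.L ∧ s.card = m + 2)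
    {α : Finset (X.W × X.W)} (hα : X.Om α) {t : Finset X.W} (hc : X.Cmp α t) {x : X.W}
    (hx : x ∉ t ∪ vs α) (hbt : X.bt b (insert x (t ∪ vs α)) ≠ 0)
    (hn : ¬ ∀ y ∈ t ∪ vs α, X.Ad x y) :
    ∃ y ∈ t, ¬ X.Ad x y ∧ (∀ z ∈ t ∪ vs α, ¬ X.Ad x z → z = y) ∧
      ∀ q : X.W × X.W, Pt q x y → X.π q.1 < X.π q.2 →
        q ∉ α ∧ X.Om (insert q α) ∧ X.Cmp (insert q α) t := by
  obtain ⟨hgl, hb0⟩ := bt_ne X hbt
  obtain ⟨hKK, hcard⟩ := hb _ hb0
  have hxi : x ∈ insert x (t ∪ vs α) := Finset.mem_insert_self _ _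
  have hsi : ∀ z ∈ t ∪ vs α, z ∈ insert x (t ∪ vs α) := fun z hz => Finset.mem_insert_of_mem hz
  have hinj : ∀ z ∈ insert x (t ∪ vs α), ∀ w ∈ insert x (t ∪ vs α), X.π z = X.π w → z = w :=
    fun z hz w hw h => hgl.1 (by exact_mod_cast hz) (by exact_mod_cast hw) h
  have hmem : ∀ z ∈ insert x (t ∪ vs α), X.π z ∈ (insert x (t ∪ vs α)).image X.π :=
    fun z hz => Finset.mem_image_of_mem _ hz
  have hAA : ∀ z ∈ insert x (t ∪ vs α), ∀ w ∈ insert x (t ∪ vs α), Adj X.L (X.π z) (X.π w) →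
      X.Ad z w := hgl.2.2.1
  have hnx : ∀ z ∈ t ∪ vs α, z ≠ x := by
    rintro z hz rfl
    exact hx hz
  push Not at hn
  obtain ⟨y, hy, hxy⟩ := hn
  have huniq : ∀ z ∈ t ∪ vs α, ¬ X.Ad x z → z = y := by
    intro z hz hxz
    refine hinj z (hsi z hz) y (hsi y hy) ?_
    refine kk_uniq hKK (hmem x hxi) (hmem z (hsi z hz)) (hmem y (hsi y hy)) ?_ ?_ ?_ ?_
    · exact fun h => hnx z hz (hinj z (hsi z hz) x hxi h)
    · exact fun h => hnx y hy (hinj y (hsi y hy) x hxi h)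
    · exact fun h => hxz (hAA x hxi z (hsi z hz) h)
    · exact fun h => hxy (hAA x hxi y (hsi y hy) h)
  have hyv : y ∉ vs α := by
    intro h
    obtain ⟨p, hp, hyp⟩ := mem_vs.1 h
    have hex : ∃ y', Pt p y y' := by
      rcases hyp with rfl | rfl
      · exact ⟨p.2, Or.inl ⟨rfl, rfl⟩⟩
      · exact ⟨p.1, Or.inr ⟨rfl, rfl⟩⟩
    obtain ⟨y', hyy⟩ := hex
    have hy's : y' ∈ t ∪ vs α := Finset.mem_union_right _ (mem_vs.2 ⟨p, hp, hyy.right⟩)
    have h1 : X.π x = X.π y' := by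
      refine kk_uniq hKK (hmem y (hsi y hy)) (hmem x hxi) (hmem y' (hsi y' hy's)) ?_ ?_ ?_ ?_
      · exact fun h => hnx y hy (hinj y (hsi y hy) x hxi h.symm)
      · exact (om_labne X hα hp hyy).symm
      · exact fun h => hxy (hAA x hxi y (hsi y hy) (adj_symm h))
      · exact om_nadj X hα hp hyy
    exact hnx y' hy's (hinj y' (hsi y' hy's) x hxi h1.symm)
  have hyt : y ∈ t := by
    rcases Finset.mem_union.1 hy with h | h
    · exact h
    · exact absurd h hyv
  have hxV : X.π x ∈ X.V := hgl.2.1 x hxi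
  have hyV : X.π y ∈ X.V := hgl.2.1 y (hsi y hy)
  have hxadj : ∀ z ∈ t ∪ vs α, z ≠ y → X.Ad x z := by
    intro z hz hzy
    by_contra h
    exact hzy (huniq z hz h)
  have hnadj : ¬ Adj X.L (X.π x) (X.π y) := fun h => hxy (hAA x hxi y (hsi y hy) h)
  refine ⟨y, hyt, hxy, huniq, ?_⟩
  intro q hq hlt
  have hqα : q ∉ α := by
    intro h
    exact hyv (mem_vs.2 ⟨q, h, hq.right⟩)
  have hyad : ∀ z ∈ vs α, X.Ad y z := by
    rcases (hc.2.1 y hyt).2 with h | h
    · exact absurd h hyv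
    · exact h
  have hqad : ∀ w, (w = q.1 ∨ w = q.2) → ∀ z ∈ vs α, X.Ad w z := by
    intro w hw z hz
    have hzy : z ≠ y := by
      rintro rfl
      exact hyv hz
    have hwxy : w = x ∨ w = y := by
      rcases hq with ⟨h1, h2⟩ | ⟨h1, h2⟩
      · rcases hw with h3 | h3
        · left; rw [h3, h1]
        · right; rw [h3, h2]
      · rcases hw with h3 | h3
        · right; rw [h3, h2]
        · left; rw [h3, h1]
    rcases hwxy with rfl | rfl
    · exact hxadj z (Finset.mem_union_right _ hz) hzy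
    · exact hyad z hz
  have hvsq : vs (insert q α) = insert x (insert y (vs α)) := vs_insert q α x y hq
  have hsub : ∀ z ∈ vs (insert q α), z ∈ insert x (t ∪ vs α) := by
    intro z hz
    rw [hvsq, Finset.mem_insert, Finset.mem_insert] at hz
    rcases hz with rfl | rfl | hz
    · exact hxi
    · exact hsi _ hy
    · exact hsi _ (Finset.mem_union_right _ hz)
  have hO2 : ∀ p ∈ insert q α, X.π p.1 < X.π p.2 ∧ X.π p.1 ∈ X.V ∧ X.π p.2 ∈ X.V ∧
      ¬ Adj X.L (X.π p.1) (X.π p.2) := by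
    intro p hp
    rcases Finset.mem_insert.1 hp with h0 | h0
    · rw [h0]
      refine ⟨hlt, ?_⟩
      rcases hq with ⟨h1, h2⟩ | ⟨h1, h2⟩
      · rw [← h1, ← h2]
        exact ⟨hxV, hyV, hnadj⟩
      · rw [← h1, ← h2]
        exact ⟨hyV, hxV, fun h => hnadj (adj_symm h)⟩
    · exact hα.2.1 p h0
  have hO3 : ∀ p ∈ insert q α, ∀ p' ∈ insert q α, p ≠ p' →
      X.Ad p.1 p'.1 ∧ X.Ad p.1 p'.2 ∧ X.Ad p.2 p'.1 ∧ X.Ad p.2 p'.2 := by
    intro p hp p' hp' hne
    rcases Finset.mem_insert.1 hp with h1 | h1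
    · rcases Finset.mem_insert.1 hp' with h2 | h2
      · exact absurd (h1.trans h2.symm) hne
      · have e1 : p'.1 ∈ vs α := mem_vs.2 ⟨p', h2, Or.inl rfl⟩
        have e2 : p'.2 ∈ vs α := mem_vs.2 ⟨p', h2, Or.inr rfl⟩
        rw [h1]
        exact ⟨hqad _ (Or.inl rfl) _ e1, hqad _ (Or.inl rfl) _ e2, hqad _ (Or.inr rfl) _ e1,
          hqad _ (Or.inr rfl) _ e2⟩
    · rcases Finset.mem_insert.1 hp' with h2 | h2
      · have e1 : p.1 ∈ vs α := mem_vs.2 ⟨p, h1, Or.inl rfl⟩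
        have e2 : p.2 ∈ vs α := mem_vs.2 ⟨p, h1, Or.inr rfl⟩
        rw [h2]
        exact ⟨ad_symm X (hqad _ (Or.inl rfl) _ e1), ad_symm X (hqad _ (Or.inr rfl) _ e1),
          ad_symm X (hqad _ (Or.inl rfl) _ e2), ad_symm X (hqad _ (Or.inr rfl) _ e2)⟩
      · exact hα.2.2.1 p h1 p' h2 hne
  have hO4 : ∃ v, X.π v ∈ X.V ∧ ∀ p ∈ insert q α, X.Ad v p.1 ∧ X.Ad v p.2 := by
    have hoddc : Odd ((insert x (t ∪ vs α)).image X.π).card := by
      rw [hcard]
      exact hodd.add_even even_two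
    obtain ⟨v', hv', hv2⟩ := kk_odd hKK hoddc
    obtain ⟨v, hv, rfl⟩ := Finset.mem_image.1 hv'
    refine ⟨v, hgl.2.1 v hv, ?_⟩
    have hgen : ∀ p ∈ insert q α, ∀ z w, Pt p z w → X.Ad v z := by
      intro p hp z w hzw
      have hz : z ∈ insert x (t ∪ vs α) := hsub z (mem_vs.2 ⟨p, hp, hzw.left⟩)
      have hw : w ∈ insert x (t ∪ vs α) := hsub w (mem_vs.2 ⟨p, hp, hzw.right⟩)
      have hnad : ¬ Adj X.L (X.π z) (X.π w) ∧ X.π z ≠ X.π w := by
        rcases hzw with ⟨rfl, rfl⟩ | ⟨rfl, rfl⟩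
        · exact ⟨(hO2 p hp).2.2.2, (hO2 p hp).1.ne⟩
        · exact ⟨fun h => (hO2 p hp).2.2.2 (adj_symm h), (hO2 p hp).1.ne'⟩
      have hzv : z ≠ v := by
        intro h
        refine hnad.1 ?_
        rw [h]
        refine hv2 _ (hmem w hw) ?_
        rw [← h]
        exact hnad.2.symm
      refine hAA v hv z hz (hv2 _ (hmem z hz) ?_)
      exact fun h => hzv (hinj z hz v hv h)
    intro p hp
    exact ⟨hgen p hp p.1 p.2 (Or.inl ⟨rfl, rfl⟩), hgen p hp p.2 p.1 (Or.inr ⟨rfl, rfl⟩)⟩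
  refine ⟨hqα, ⟨⟨q, Finset.mem_insert_self _ _⟩, hO2, hO3, hO4⟩, hc.1, ?_, ?_⟩
  · intro z hz
    refine ⟨(hc.2.1 z hz).1, ?_⟩
    by_cases hzy : z = y
    · left
      rw [hvsq, hzy]
      exact Finset.mem_insert_of_mem (Finset.mem_insert_self _ _)
    · rcases (hc.2.1 z hz).2 with h | h
      · left
        rw [hvsq]
        exact Finset.mem_insert_of_mem (Finset.mem_insert_of_mem h)
      · right
        intro w hw
        rw [hvsq, Finset.mem_insert, Finset.mem_insert] at hw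
        rcases hw with hw | hw | hw
        · rw [hw]
          exact ad_symm X (hxadj z (Finset.mem_union_left _ hz) hzy)
        · rw [hw]
          exact ad_of_mem X hc.1 hz hyt hzy
        · exact h w hw
  · intro p hp
    rcases Finset.mem_insert.1 hp with h | h
    · have hxt : x ∉ t := fun h' => hx (Finset.mem_union_left _ h')
      rw [h]
      rcases hq with ⟨h1, h2⟩ | ⟨h1, h2⟩
      · right
        rw [← h1, ← h2]
        exact ⟨hxt, hyt⟩
      · left
        rw [← h1, ← h2]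
        exact ⟨hyt, hxt⟩
    · exact hc.2.2 p h

/-! ### The item -/

theorem prf (hU : S_U1) (hU3 : S_U3) (hSg : S_Sg) (hT5 : S_T5) (hT2 : S_T2) : S_T1 := by
  intro X m hm hodd o ho b hb hbd α hα t S hS
  by_cases hA : ∃ p ∈ α, p.1 ∉ t ∧ p.2 ∉ t
  · obtain ⟨p, hp, h1, h2⟩ := hA
    rw [caseA hU hSg hT5 X b α hα t S hS p hp h1 h2, Finset.sum_eq_zero, neg_zero]
    intro β hβ
    obtain ⟨_, q, _, rfl⟩ := ((hT5 X α hα).2.1 β).1 hβ
    rw [tc_not, mul_zero]
    intro hc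
    rcases hc.2.2 p (Finset.mem_insert_of_mem hp) with ⟨h3, _⟩ | ⟨_, h3⟩
    · exact h1 h3
    · exact h2 h3
  push Not at hA
  by_cases hc : X.Cmp α t
  swap
  · rw [Finset.sum_eq_zero, Finset.sum_eq_zero, neg_zero]
    · intro β hβ
      obtain ⟨hβo, q, _, rfl⟩ := ((hT5 X α hα).2.1 β).1 hβ
      rw [tc_not, mul_zero]
      intro hc'
      refine hc ⟨hc'.1, ?_, ?_⟩
      · intro x hx
        exact ((hT5 X α hα).2.2.1 _ hβ).2 (hc'.2.1 x hx)
      · intro p hp
        exact hc'.2.2 p (Finset.mem_insert_of_mem hp)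
    · intro x hx
      rw [tc_not, mul_zero]
      intro hc'
      refine hc ⟨X.down _ hc'.1 _ (Finset.subset_insert _ _), ?_, ?_⟩
      · intro z hz
        exact hc'.2.1 z (Finset.mem_insert_of_mem hz)
      · intro p hp
        by_cases h1 : p.1 ∈ t
        · by_cases h2 : p.2 ∈ t
          · exfalso
            rcases hc'.2.2 p hp with ⟨_, h4⟩ | ⟨h3, _⟩
            · exact h4 (Finset.mem_insert_of_mem h2)
            · exact h3 (Finset.mem_insert_of_mem h1)
          · exact Or.inl ⟨h1, h2⟩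
        · exact Or.inr ⟨h1, hA p hp h1⟩
  obtain ⟨_, _, _, _, hi, hF, hT⟩ := hT5 X α hα
  obtain ⟨hi0, hTr, hcd⟩ := hT _ hc
  by_cases hsz : t.card + α.card = m + 1
  swap
  · rw [Finset.sum_eq_zero, Finset.sum_eq_zero, neg_zero]
    · intro β hβ
      by_contra hne
      have hne' : X.Tc b β t ≠ 0 := right_ne_zero_of_mul hne
      have hβo := (((hT5 X α hα).2.1 β).1 hβ).1
      have h1 := ((hT2 X m b hb β hβo).2.2 t hne').2.2
      have h2 := ((hT5 X α hα).2.2.1 β hβ).1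
      omega
    · intro x hx
      by_contra hne
      have hne' : X.Tc b α (insert x t) ≠ 0 := right_ne_zero_of_mul hne
      have h1 := ((hT2 X m b hb α hα).2.2 _ hne').2.2
      rw [Finset.card_insert_of_notMem (Finset.mem_sdiff.1 hx).2] at h1
      omega
  have hgl := gl_s hU hT5 X hα hc
  obtain ⟨hfin, hU3'⟩ := hU3 X m hm hodd o b hb hbd (t ∪ vs α) hgl (by rw [hcd, hsz])
  have hstar := hU3' hfin.toFinset (fun x h1 h2 => by
    rw [Set.Finite.mem_toFinset]
    exact ⟨h1, h2⟩)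
  have hsd : hfin.toFinset \ (t ∪ vs α) = hfin.toFinset := by
    ext x
    rw [Finset.mem_sdiff, Set.Finite.mem_toFinset]
    constructor
    · exact fun h => h.1
    · exact fun h => ⟨h, h.1⟩
  obtain ⟨p0, hp0⟩ := hα.1
  have hp1 : p0.1 ∈ t ∪ vs α := Finset.mem_union_right _ (mem_vs.2 ⟨p0, hp0, Or.inl rfl⟩)
  have hp2 : p0.2 ∈ t ∪ vs α := Finset.mem_union_right _ (mem_vs.2 ⟨p0, hp0, Or.inr rfl⟩)
  have hoF : oF o ((t ∪ vs α).image X.π) = 0 :=
    oF_zero X m o ho (Finset.mem_image_of_mem _ hp1) (Finset.mem_image_of_mem _ hp2)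
      (om_labne X hα hp0 (Or.inl ⟨rfl, rfl⟩)) (om_nadj X hα hp0 (Or.inl ⟨rfl, rfl⟩))
  rw [hsd, hoF] at hstar
  classical
  set F := hfin.toFinset with hFdef
  have hFmem : ∀ x, x ∈ F ↔ x ∉ t ∪ vs α ∧ X.bt b (insert x (t ∪ vs α)) ≠ 0 := by
    intro x
    rw [hFdef, Set.Finite.mem_toFinset]
    rfl
  set cst : ℝ := (-1) ^ α.card * eps (α.image (Prod.map X.π X.π)) (t.image X.π) with hcst
  set g : X.W → ℝ := fun x =>
    sg (X.π x) ((t ∪ vs α).image X.π) * X.bt b (insert x (t ∪ vs α)) with hg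
  have hbtb : ∀ x ∈ F, X.bt b (insert x (t ∪ vs α)) = b ((insert x (t ∪ vs α)).image X.π) :=
    fun x hx => bt_eq X b (bt_ne X ((hFmem x).1 hx).2).1
  have hL : ∑ x ∈ S \ t, sg (X.π x) (t.image X.π) * X.Tc b α (insert x t) =
      ∑ x ∈ F.filter (fun x => ∀ y ∈ t ∪ vs α, X.Ad x y), cst * g x := by
    have hval : ∀ x ∈ F.filter (fun x => ∀ y ∈ t ∪ vs α, X.Ad x y),
        sg (X.π x) (t.image X.π) * X.Tc b α (insert x t) = cst * g x := by
      intro x hx
      rw [Finset.mem_filter] at hx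
      obtain ⟨h1, h2⟩ := (hFmem x).1 hx.1
      rw [typeI hSg hT5 X b hα hc h1 (typeI_bwd hU X b hc h1 h2 hx.2), hg]
      simp only
      rw [hbtb x hx.1]
    rw [← Finset.sum_congr rfl hval]
    have e1 : ∑ x ∈ S \ t, sg (X.π x) (t.image X.π) * X.Tc b α (insert x t) =
        ∑ x ∈ (S \ t) ∪ F.filter (fun x => ∀ y ∈ t ∪ vs α, X.Ad x y),
          sg (X.π x) (t.image X.π) * X.Tc b α (insert x t) := by
      refine Finset.sum_subset Finset.subset_union_left ?_
      intro x hx hx'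
      rcases Finset.mem_union.1 hx with h3 | h3
      · exact absurd h3 hx'
      · have hxt : x ∉ t := fun h =>
          ((hFmem x).1 (Finset.mem_filter.1 h3).1).1 (Finset.mem_union_left _ h)
        have : X.Tc b α (insert x t) = 0 := by
          by_contra h4
          exact hx' (Finset.mem_sdiff.2 ⟨hS x hxt h4, hxt⟩)
        rw [this, mul_zero]
    have e2 : ∑ x ∈ F.filter (fun x => ∀ y ∈ t ∪ vs α, X.Ad x y),
          sg (X.π x) (t.image X.π) * X.Tc b α (insert x t) =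
        ∑ x ∈ (S \ t) ∪ F.filter (fun x => ∀ y ∈ t ∪ vs α, X.Ad x y),
          sg (X.π x) (t.image X.π) * X.Tc b α (insert x t) := by
      refine Finset.sum_subset Finset.subset_union_right ?_
      intro x hx hx'
      rcases Finset.mem_union.1 hx with h3 | h3
      · by_contra h4
        have h5 : X.Tc b α (insert x t) ≠ 0 := right_ne_zero_of_mul h4
        obtain ⟨h6, h7, h8⟩ := typeI_fwd hU hT5 X b hα hc (Finset.mem_sdiff.1 h3).2 h5
        exact hx' (Finset.mem_filter.2 ⟨(hFmem x).2 ⟨h6, h7⟩, h8⟩)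
      · exact absurd h3 hx'
    rw [e1, e2]
  have hR : ∑ β ∈ X.cov α, X.inc α β * X.Tc b β t =
      ∑ x ∈ F.filter (fun x => ¬ ∀ y ∈ t ∪ vs α, X.Ad x y), cst * g x := by
    have hY : ∀ x, ∃ y, x ∈ F.filter (fun x => ¬ ∀ y ∈ t ∪ vs α, X.Ad x y) → (y ∈ t ∧ ¬ X.Ad x y ∧
        (∀ z ∈ t ∪ vs α, ¬ X.Ad x z → z = y) ∧ ∀ q : X.W × X.W, Pt q x y →
          X.π q.1 < X.π q.2 → q ∉ α ∧ X.Om (insert q α) ∧ X.Cmp (insert q α) t) := by
      intro x
      by_cases hx : x ∈ F.filter (fun x => ¬ ∀ y ∈ t ∪ vs α, X.Ad x y)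
      · have hx' := Finset.mem_filter.1 hx
        obtain ⟨h1, h2⟩ := (hFmem x).1 hx'.1
        obtain ⟨y, hy, h3⟩ := typeII_bwd hU X m hodd b hb hα hc h1 h2 hx'.2
        exact ⟨y, fun _ => ⟨hy, h3⟩⟩
      · exact ⟨x, fun h => absurd h hx⟩
    choose Y hY using hY
    set Q : X.W → X.W × X.W := fun x => if X.π x < X.π (Y x) then (x, Y x) else (Y x, x) with hQ
    have hQPt : ∀ x, Pt (Q x) x (Y x) := by
      intro x
      rw [hQ]
      simp only
      split_ifs
      · exact Or.inl ⟨rfl, rfl⟩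
      · exact Or.inr ⟨rfl, rfl⟩
    have hQlt : ∀ x ∈ F.filter (fun x => ¬ ∀ y ∈ t ∪ vs α, X.Ad x y),
        X.π (Q x).1 < X.π (Q x).2 := by
      intro x hx
      obtain ⟨h1, h2, _⟩ := hY x hx
      have hx' := Finset.mem_filter.1 hx
      obtain ⟨h3, h4⟩ := (hFmem x).1 hx'.1
      have hgl' := (bt_ne X h4).1
      have hne : X.π x ≠ X.π (Y x) := by
        intro h
        have h5 : x = Y x := hgl'.1 (by exact_mod_cast Finset.mem_insert_self _ _)
          (by exact_mod_cast Finset.mem_insert_of_mem (Finset.mem_union_left _ h1)) h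
        rw [← h5] at h1
        exact h3 (Finset.mem_union_left _ h1)
      rw [hQ]
      simp only
      split_ifs with h6
      · exact h6
      · exact lt_of_le_of_ne (not_lt.1 h6) hne.symm
    symm
    refine Finset.sum_of_injOn (fun x => insert (Q x) α) ?_ ?_ ?_ ?_
    · intro x hx x' hx' heq
      have hx1 : x ∈ F.filter (fun x => ¬ ∀ y ∈ t ∪ vs α, X.Ad x y) := by exact_mod_cast hx
      have hx1' : x' ∈ F.filter (fun x => ¬ ∀ y ∈ t ∪ vs α, X.Ad x y) := by exact_mod_cast hx'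
      obtain ⟨hY1, _, _, hY2⟩ := hY x hx1
      obtain ⟨hY1', _, _, hY2'⟩ := hY x' hx1'
      have h1 := (hY2 (Q x) (hQPt x) (hQlt x hx1)).1
      have h3 : Q x ∈ insert (Q x') α := by
        have heq' : insert (Q x) α = insert (Q x') α := heq
        rw [← heq']
        exact Finset.mem_insert_self _ _
      have h4 : Q x = Q x' := by
        rcases Finset.mem_insert.1 h3 with h | h
        · exact h
        · exact absurd h h1
      have h5 := hQPt x
      rw [h4] at h5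
      have h6 := hQPt x'
      have hxt : x ∉ t := fun h =>
        ((hFmem x).1 (Finset.mem_filter.1 hx1).1).1 (Finset.mem_union_left _ h)
      have hxt' : x' ∉ t := fun h =>
        ((hFmem x').1 (Finset.mem_filter.1 hx1').1).1 (Finset.mem_union_left _ h)
      rcases h5 with ⟨h7, h8⟩ | ⟨h7, h8⟩ <;> rcases h6 with ⟨h9, h10⟩ | ⟨h9, h10⟩
      · exact h7.trans h9.symm
      · exfalso
        apply hxt
        rw [h7, ← h10]
        exact hY1'
      · exfalso
        apply hxt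
        rw [h7, ← h10]
        exact hY1'
      · exact h7.trans h9.symm
    · intro x hx
      have hx1 : x ∈ F.filter (fun x => ¬ ∀ y ∈ t ∪ vs α, X.Ad x y) := by exact_mod_cast hx
      obtain ⟨_, _, _, hY2⟩ := hY x hx1
      obtain ⟨h1, h2, _⟩ := hY2 (Q x) (hQPt x) (hQlt x hx1)
      exact ((hT5 X α hα).2.1 _).2 ⟨h2, Q x, h1, rfl⟩
    · intro β hβ hnot
      by_contra hne
      have hne' : X.Tc b β t ≠ 0 := right_ne_zero_of_mul hne
      obtain ⟨q, x, y, hβq, hq, hβo, hcb, hxy, hx, hy, hxs, hbt, hnad⟩ :=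
        typeII_fwd hU hT5 X b hα hβ hne'
      apply hnot
      have hxF : x ∈ F.filter (fun x => ¬ ∀ y ∈ t ∪ vs α, X.Ad x y) := by
        refine Finset.mem_filter.2 ⟨(hFmem x).2 ⟨hxs, hbt⟩, ?_⟩
        intro h
        exact hnad (h y (Finset.mem_union_left _ hy))
      refine ⟨x, by exact_mod_cast hxF, ?_⟩
      have hyY : y = Y x := (hY x hxF).2.2.1 y (Finset.mem_union_left _ hy) hnad
      have hlt : X.π q.1 < X.π q.2 := (hβo.2.1 q (by rw [hβq]; exact Finset.mem_insert_self _ _)).1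
      have hqQ : Q x = q := by
        have h1 := hQlt x hxF
        have h2 := hQPt x
        rw [← hyY] at h2
        rcases hxy with ⟨h3, h4⟩ | ⟨h3, h4⟩ <;> rcases h2 with ⟨h5, h6⟩ | ⟨h5, h6⟩
        · exact Prod.ext (h5.symm.trans h3) (h6.symm.trans h4)
        · exfalso
          rw [← h3, ← h4] at hlt
          rw [← h5, ← h6] at h1
          exact lt_asymm hlt h1
        · exfalso
          rw [← h3, ← h4] at hlt
          rw [← h5, ← h6] at h1
          exact lt_asymm hlt h1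
        · exact Prod.ext (h6.symm.trans h4) (h5.symm.trans h3)
      simp only [hqQ]
      exact hβq.symm
    · intro x hx
      obtain ⟨hY1, _, _, hY2⟩ := hY x hx
      obtain ⟨h1, h2, h3⟩ := hY2 (Q x) (hQPt x) (hQlt x hx)
      have hx' := Finset.mem_filter.1 hx
      have hxt : x ∉ t := fun h => ((hFmem x).1 hx'.1).1 (Finset.mem_union_left _ h)
      rw [typeII hSg hT5 X b hα h1 h2 h3 (hQPt x) hxt hY1, hg]
      simp only
      rw [hbtb x hx'.1]
  have hsplit := Finset.sum_filter_add_sum_filter_not F (fun x => ∀ y ∈ t ∪ vs α, X.Ad x y)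
    (fun x => cst * g x)
  have htot : ∑ x ∈ F, cst * g x = 0 := by
    rw [← Finset.mul_sum, hg]
    simp only
    rw [hstar, mul_zero]
  rw [htot] at hsplit
  rw [hL, hR]
  linarith

end MP8a95ee.Rk.T1P
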