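import Pool.Agent.Work.MP_8a95ee_gt.Rk.Stmts

/-!
# Item T2 of the block Rk: support of `Tc`
-/

set_option autoImplicit false

namespace MP8a95ee.Rk.T2P

open Ref RA

/-- **T2.** -/
theorem prf (h5 : S_T5) : S_T2 := by
  intro X m b hb α hα
  obtain ⟨hfin, -, -, -, -, -, hC⟩ := h5 X α hα
  have key : ∀ t, X.Tc b α t ≠ 0 → t ∈ X.Kt ∧ (∀ x ∈ t, x ∈ X.nb α) ∧
      t.card + α.card = m + 2 := by
    intro t ht
    unfold Cov.Tc at ht
    split_ifs at ht with hc
    · have hbn : b ((t ∪ vs α).image X.π) ≠ 0 := right_ne_zero_of_mul ht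
      obtain ⟨hinj, -, hcard⟩ := hC t hc
      have h1 := (hb _ hbn).2
      rw [Finset.card_image_of_injOn hinj, hcard] at h1
      exact ⟨hc.1, hc.2.1, h1⟩
    · exact absurd rfl ht
  have hsup : (Function.support (X.Tc b α)).Finite := by
    refine Set.Finite.subset ((hfin.toFinset.powerset).finite_toSet) ?_
    intro t ht
    have h := key t ht
    simp only [Finset.coe_powerset, Set.mem_preimage, Set.mem_powerset_iff]
    intro x hx
    simpa using h.2.1 x hx
  refine ⟨hsup, ?_, key⟩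
  intro t
  unfold Cov.T
  rw [dif_pos hsup]
  rfl

end MP8a95ee.Rk.T2P
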