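import Pool.Agent.Work.MP_8a95ee_gt.Rk.Stmts

/-!
# Item T4 of the block Rk: equivariance of the families of pairs and of the chains `T α`
-/

set_option autoImplicit false

namespace MP8a95ee.Rk.T4P

open Ref RA MP8a95ee.Rk

/-- the map on vertices -/
def sm (X : Cov) (γ : X.Γ) : X.W → X.W := fun w => γ • w

/-- the map on pairs -/
def sp (X : Cov) (γ : X.Γ) : X.W × X.W → X.W × X.W := fun p => (γ • p.1, γ • p.2)

theorem sm_inj (X : Cov) (γ : X.Γ) : Function.Injective (sm X γ) :=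
  fun _ _ h => smul_left_cancel γ h

theorem sp_inj (X : Cov) (γ : X.Γ) : Function.Injective (sp X γ) := by
  intro p q h
  have h1 := (Prod.mk.injEq _ _ _ _ ▸ h : γ • p.1 = γ • q.1 ∧ γ • p.2 = γ • q.2)
  exact Prod.ext (smul_left_cancel γ h1.1) (smul_left_cancel γ h1.2)

theorem tS_inv (X : Cov) (γ : X.Γ) (t : Finset X.W) : X.tS γ⁻¹ (X.tS γ t) = t := by
  unfold Cov.tS
  rw [Finset.image_image]
  conv_rhs => rw [← Finset.image_id (s := t)]
  congr 1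
  funext w
  simp

theorem tA_inv (X : Cov) (γ : X.Γ) (α : Finset (X.W × X.W)) : X.tA γ⁻¹ (X.tA γ α) = α := by
  unfold Cov.tA
  rw [Finset.image_image]
  conv_rhs => rw [← Finset.image_id (s := α)]
  congr 1
  funext w
  simp

theorem Kt_iff (X : Cov) (γ : X.Γ) (t : Finset X.W) : X.tS γ t ∈ X.Kt ↔ t ∈ X.Kt := by
  constructor
  · intro h
    have h1 := X.smK γ⁻¹ _ h
    have h2 : (X.tS γ t).image (fun w => γ⁻¹ • w) = t := tS_inv X γ t
    rwa [h2] at h1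
  · intro h
    exact X.smK γ _ h

theorem Ad_iff (X : Cov) (γ : X.Γ) (x y : X.W) : X.Ad (γ • x) (γ • y) ↔ X.Ad x y := by
  unfold Cov.Ad
  have h1 : ({γ • x, γ • y} : Finset X.W) = X.tS γ {x, y} := by
    unfold Cov.tS
    simp [Finset.image_insert]
  rw [h1, Kt_iff]
  constructor
  · rintro ⟨h2, h3⟩
    exact ⟨fun h => h2 (by rw [h]), h3⟩
  · rintro ⟨h2, h3⟩
    exact ⟨fun h => h2 (smul_left_cancel γ h), h3⟩

theorem mem_tA (X : Cov) (γ : X.Γ) (α : Finset (X.W × X.W)) (p : X.W × X.W) :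
    p ∈ X.tA γ α ↔ ∃ q ∈ α, (γ • q.1, γ • q.2) = p := by
  unfold Cov.tA
  rw [Finset.mem_image]

theorem mem_tA' (X : Cov) (γ : X.Γ) (α : Finset (X.W × X.W)) (q : X.W × X.W) :
    (γ • q.1, γ • q.2) ∈ X.tA γ α ↔ q ∈ α := by
  constructor
  · intro h
    obtain ⟨q', hq', h1⟩ := (mem_tA X γ α _).1 h
    have h2 := sp_inj X γ (a₁ := q') (a₂ := q) h1
    rwa [← h2]
  · intro h
    exact (mem_tA X γ α _).2 ⟨q, h, rfl⟩

theorem vs_tA (X : Cov) (γ : X.Γ) (α : Finset (X.W × X.W)) :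
    vs (X.tA γ α) = X.tS γ (vs α) := by
  unfold vs Cov.tA Cov.tS
  rw [Finset.image_union, Finset.image_image, Finset.image_image, Finset.image_image,
    Finset.image_image]
  rfl

theorem mem_tS (X : Cov) (γ : X.Γ) (t : Finset X.W) (x : X.W) : γ • x ∈ X.tS γ t ↔ x ∈ t := by
  unfold Cov.tS
  rw [Finset.mem_image]
  constructor
  · rintro ⟨y, hy, h⟩
    rwa [← smul_left_cancel γ h]
  · intro h
    exact ⟨x, h, rfl⟩

theorem mem_tS' (X : Cov) (γ : X.Γ) (t : Finset X.W) (x : X.W) :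
    x ∈ X.tS γ t ↔ ∃ y ∈ t, γ • y = x := by
  unfold Cov.tS
  rw [Finset.mem_image]

theorem lab_tS (X : Cov) (γ : X.Γ) (t : Finset X.W) : (X.tS γ t).image X.π = t.image X.π := by
  unfold Cov.tS
  rw [Finset.image_image]
  congr 1
  funext w
  exact X.lab γ w

theorem lab_tA (X : Cov) (γ : X.Γ) (α : Finset (X.W × X.W)) :
    (X.tA γ α).image (Prod.map X.π X.π) = α.image (Prod.map X.π X.π) := by
  unfold Cov.tA
  rw [Finset.image_image]
  congr 1
  funext p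
  simp only [Function.comp_apply, Prod.map_apply, X.lab]
  rfl

theorem lab_tA1 (X : Cov) (γ : X.Γ) (α : Finset (X.W × X.W)) :
    ((X.tA γ α).image fun p => X.π p.1) = α.image fun p => X.π p.1 := by
  unfold Cov.tA
  rw [Finset.image_image]
  congr 1
  funext p
  exact X.lab γ p.1

theorem Om_tA (X : Cov) (γ : X.Γ) (α : Finset (X.W × X.W)) (h : X.Om α) : X.Om (X.tA γ α) := by
  obtain ⟨h1, h2, h3, v, h4, h5⟩ := h
  refine ⟨?_, ?_, ?_, γ • v, ?_, ?_⟩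
  · unfold Cov.tA
    exact h1.image _
  · intro p hp
    obtain ⟨q, hq, rfl⟩ := (mem_tA X γ α p).1 hp
    simp only [X.lab]
    exact h2 q hq
  · intro p hp q hq hpq
    obtain ⟨p', hp', rfl⟩ := (mem_tA X γ α p).1 hp
    obtain ⟨q', hq', rfl⟩ := (mem_tA X γ α q).1 hq
    have hne : p' ≠ q' := fun h => hpq (by rw [h])
    simp only [Ad_iff]
    exact h3 p' hp' q' hq' hne
  · rw [X.lab]
    exact h4
  · intro p hp
    obtain ⟨q, hq, rfl⟩ := (mem_tA X γ α p).1 hp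
    simp only [Ad_iff]
    exact h5 q hq

theorem Om_iff (X : Cov) (γ : X.Γ) (α : Finset (X.W × X.W)) : X.Om (X.tA γ α) ↔ X.Om α := by
  refine ⟨fun h => ?_, Om_tA X γ α⟩
  have h1 := Om_tA X γ⁻¹ _ h
  rwa [tA_inv] at h1

theorem nb_iff (X : Cov) (γ : X.Γ) (α : Finset (X.W × X.W)) (x : X.W) :
    γ • x ∈ X.nb (X.tA γ α) ↔ x ∈ X.nb α := by
  unfold Cov.nb
  simp only [Set.mem_setOf_eq, X.lab, vs_tA, mem_tS]
  refine and_congr Iff.rfl (or_congr Iff.rfl ?_)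
  constructor
  · intro h y hy
    exact (Ad_iff X γ x y).1 (h _ ((mem_tS X γ _ y).2 hy))
  · intro h y hy
    obtain ⟨y', hy', rfl⟩ := (mem_tS' X γ _ y).1 hy
    exact (Ad_iff X γ x y').2 (h y' hy')

theorem tA_insert (X : Cov) (γ : X.Γ) (α : Finset (X.W × X.W)) (q : X.W × X.W) :
    X.tA γ (insert q α) = insert (γ • q.1, γ • q.2) (X.tA γ α) := by
  unfold Cov.tA
  rw [Finset.image_insert]

theorem cov_iff (h5 : S_T5) (X : Cov) (γ : X.Γ) (α : Finset (X.W × X.W)) (h : X.Om α)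
    (β : Finset (X.W × X.W)) : X.tA γ β ∈ X.cov (X.tA γ α) ↔ β ∈ X.cov α := by
  rw [(h5 X (X.tA γ α) (Om_tA X γ α h)).2.1, (h5 X α h).2.1, Om_iff]
  refine and_congr Iff.rfl ?_
  constructor
  · rintro ⟨q, hq, hb⟩
    refine ⟨(γ⁻¹ • q.1, γ⁻¹ • q.2), fun hh => hq ?_, ?_⟩
    · have h1 := (mem_tA' X γ α (γ⁻¹ • q.1, γ⁻¹ • q.2)).2 hh
      simpa using h1
    · have h1 := congrArg (X.tA γ⁻¹) hb
      rw [tA_inv, tA_insert, tA_inv] at h1
      exact h1
  · rintro ⟨q, hq, rfl⟩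
    exact ⟨(γ • q.1, γ • q.2), fun hh => hq ((mem_tA' X γ α q).1 hh), tA_insert X γ α q⟩

theorem inc_tA (X : Cov) (γ : X.Γ) (α β : Finset (X.W × X.W)) :
    X.inc (X.tA γ α) (X.tA γ β) = X.inc α β := by
  unfold Cov.inc
  rw [lab_tA1]
  have h1 : X.tA γ β \ X.tA γ α = (β \ α).image (sp X γ) := by
    rw [Finset.image_sdiff _ _ (sp_inj X γ)]
    rfl
  rw [h1, Finset.sum_image fun a _ b _ hab => sp_inj X γ hab]
  refine Finset.sum_congr rfl fun q _ => ?_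
  have h2 : X.π (sp X γ q).1 = X.π q.1 := X.lab γ q.1
  rw [h2]

theorem Cmp_iff (X : Cov) (γ : X.Γ) (α : Finset (X.W × X.W)) (t : Finset X.W) :
    X.Cmp (X.tA γ α) (X.tS γ t) ↔ X.Cmp α t := by
  unfold Cov.Cmp
  rw [Kt_iff]
  refine and_congr Iff.rfl (and_congr ?_ ?_)
  · constructor
    · intro h x hx
      exact (nb_iff X γ α x).1 (h _ ((mem_tS X γ t x).2 hx))
    · intro h x hx
      obtain ⟨y, hy, rfl⟩ := (mem_tS' X γ t x).1 hx
      exact (nb_iff X γ α y).2 (h y hy)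
  · constructor
    · intro h p hp
      have h1 := h _ ((mem_tA' X γ α p).2 hp)
      simpa only [mem_tS] using h1
    · intro h p hp
      obtain ⟨q, hq, rfl⟩ := (mem_tA X γ α p).1 hp
      simpa only [mem_tS] using h q hq

theorem Tc_tA (X : Cov) (γ : X.Γ) (α : Finset (X.W × X.W)) (b : Finset ℕ → ℝ) (t : Finset X.W) :
    X.Tc b (X.tA γ α) (X.tS γ t) = X.Tc b α t := by
  unfold Cov.Tc
  have h1 : (X.tS γ t ∪ vs (X.tA γ α)).image X.π = (t ∪ vs α).image X.π := by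
    rw [vs_tA, Finset.image_union, lab_tS, lab_tS, Finset.image_union]
  rw [h1, lab_tA, lab_tS]
  by_cases h : X.Cmp α t
  · rw [if_pos h, if_pos ((Cmp_iff X γ α t).2 h)]
  · rw [if_neg h, if_neg fun h' => h ((Cmp_iff X γ α t).1 h')]

theorem fr (h1 : S_U1) (X : Cov) (γ : X.Γ) (α : Finset (X.W × X.W)) (h : X.Om α)
    (he : X.tA γ α = α) : γ = 1 := by
  obtain ⟨⟨p, hp⟩, h2, h3, -⟩ := h
  have hq : (γ • p.1, γ • p.2) ∈ α := by
    rw [← he]
    exact (mem_tA' X γ α p).2 hp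
  have hz : p.1 ≠ X.zz := by
    intro h4
    have h5 := (h2 p hp).2.1
    rw [h4, X.pz] at h5
    exact X.hz (X.VK h5)
  have heq : (γ • p.1, γ • p.2) = p := by
    by_contra hne
    have h4 := (h3 _ hq p hp hne).1
    exact ((h1 X).2.2.2.1 _ _ h4).1 (X.lab γ p.1)
  exact X.free γ p.1 hz (congrArg Prod.fst heq)

/-- **T4.** -/
theorem prf (h1 : S_U1) (h5 : S_T5) : S_T4 := by
  intro X γ α h
  refine ⟨Om_tA X γ α h, nb_iff X γ α, cov_iff h5 X γ α h, inc_tA X γ α, Tc_tA X γ α,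
    fr h1 X γ α h, ?_⟩
  exact Finset.card_image_of_injective α (sp_inj X γ)

end MP8a95ee.Rk.T4P
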