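import Pool.Agent.Work.MP_8a95ee_gt.Rk.Stmts

/-!
# Block Rk, item T5: structure of the families of pairs
-/

set_option autoImplicit false

namespace MP8a95ee.Rk.T5P

open Ref RA

lemma mem_vs {W : Type} [DecidableEq W] {α : Finset (W × W)} {x : W} :
    x ∈ vs α ↔ ∃ p ∈ α, x = p.1 ∨ x = p.2 := by
  unfold vs
  simp only [Finset.mem_union, Finset.mem_image]
  constructor
  · rintro (⟨p, hp, rfl⟩ | ⟨p, hp, rfl⟩)
    · exact ⟨p, hp, Or.inl rfl⟩
    · exact ⟨p, hp, Or.inr rfl⟩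
  · rintro ⟨p, hp, rfl | rfl⟩
    · exact Or.inl ⟨p, hp, rfl⟩
    · exact Or.inr ⟨p, hp, rfl⟩

lemma ne_zz (X : Cov) {x : X.W} (h : X.π x ∈ X.V) : x ≠ X.zz := by
  rintro rfl
  rw [X.pz] at h
  exact X.hz (X.VK h)

lemma om_ad (X : Cov) {α : Finset (X.W × X.W)} (h : X.Om α) {p q : X.W × X.W} (hp : p ∈ α)
    (hq : q ∈ α) (hpq : p ≠ q) {x y : X.W} (hx : x = p.1 ∨ x = p.2) (hy : y = q.1 ∨ y = q.2) :
    X.Ad x y := by
  obtain ⟨h1, h2, h3, h4⟩ := h.2.2.1 p hp q hq hpq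
  rcases hx with rfl | rfl <;> rcases hy with rfl | rfl <;> assumption

lemma om_V (X : Cov) {α : Finset (X.W × X.W)} (h : X.Om α) {x : X.W} (hx : x ∈ vs α) :
    X.π x ∈ X.V := by
  obtain ⟨p, hp, rfl | rfl⟩ := mem_vs.1 hx
  · exact (h.2.1 p hp).2.1
  · exact (h.2.1 p hp).2.2.1

lemma nbr_fin (h1 : S_U1) (X : Cov) (y : X.W) (hy : y ≠ X.zz) : {x | X.Ad x y}.Finite := by
  refine Set.Finite.of_finite_image (f := X.π) ?_ ?_
  · refine (verts X.K).finite_toSet.subset ?_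
    rintro _ ⟨x, hx, rfl⟩
    have h := ((h1 X).2.2.2.1 x y hx).2.1
    refine Finset.mem_coe.2 (Finset.mem_biUnion.2 ⟨_, h, ?_⟩)
    simp
  · intro x hx x' hx' hxx'
    have h := ((h1 X).2.2.2.1 x y hx).2.1
    rw [Finset.pair_comm] at h
    have e1 : ({y, x} : Finset X.W) ∈ X.Kt := by
      rw [Finset.pair_comm]
      exact hx.2
    have e2 : ({y, x'} : Finset X.W) ∈ X.Kt := by
      rw [Finset.pair_comm]
      exact hx'.2
    exact ((h1 X).1 y hy _ h).unique ⟨rfl, e1⟩ ⟨hxx'.symm, e2⟩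

lemma inj_vs (h1 : S_U1) (X : Cov) {α : Finset (X.W × X.W)} (h : X.Om α) :
    Set.InjOn X.π (vs α : Set X.W) := by
  intro x hx y hy hxy
  obtain ⟨p, hp, hxp⟩ := mem_vs.1 (Finset.mem_coe.1 hx)
  obtain ⟨q, hq, hyq⟩ := mem_vs.1 (Finset.mem_coe.1 hy)
  by_cases hpq : p = q
  · subst hpq
    have hlt := (h.2.1 p hp).1
    rcases hxp with rfl | rfl <;> rcases hyq with rfl | rfl
    · rfl
    · exact absurd hxy (ne_of_lt hlt)
    · exact absurd hxy.symm (ne_of_lt hlt)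
    · rfl
  · exact absurd hxy ((h1 X).2.2.2.1 x y (om_ad X h hp hq hpq hxp hyq)).1

lemma inj_cmp (h1 : S_U1) (X : Cov) {α : Finset (X.W × X.W)} (h : X.Om α) {t : Finset X.W}
    (ht : X.Cmp α t) : Set.InjOn X.π ((t ∪ vs α : Finset X.W) : Set X.W) := by
  have hmix : ∀ x ∈ t, ∀ y ∈ vs α, X.π x = X.π y → x = y := by
    intro x hx y hy hxy
    rcases (ht.2.1 x hx).2 with h2 | h2
    · exact inj_vs h1 X h (Finset.mem_coe.2 h2) (Finset.mem_coe.2 hy) hxy
    · exact absurd hxy ((h1 X).2.2.2.1 x y (h2 y hy)).1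
  intro x hx y hy hxy
  rcases Finset.mem_union.1 (Finset.mem_coe.1 hx) with hx | hx <;>
    rcases Finset.mem_union.1 (Finset.mem_coe.1 hy) with hy | hy
  · exact (X.simp t ht.1).2 (Finset.mem_coe.2 hx) (Finset.mem_coe.2 hy) hxy
  · exact hmix x hx y hy hxy
  · exact (hmix y hy x hx hxy.symm).symm
  · exact inj_vs h1 X h (Finset.mem_coe.2 hx) (Finset.mem_coe.2 hy) hxy

/-- vertices of different pairs are different -/
lemma om_ne (X : Cov) {α : Finset (X.W × X.W)} (h : X.Om α) {p q : X.W × X.W} (hp : p ∈ α)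
    (hq : q ∈ α) {x : X.W} (hx : x = p.1 ∨ x = p.2) (hy : x = q.1 ∨ x = q.2) : p = q := by
  by_contra hpq
  exact (om_ad X h hp hq hpq hx hy).1 rfl

lemma card_cmp (X : Cov) {α : Finset (X.W × X.W)} (h : X.Om α) {t : Finset X.W}
    (ht : X.Cmp α t) : (t ∪ vs α).card = t.card + α.card := by
  classical
  have e1 : t ∪ vs α = t ∪ (vs α \ t) := by
    rw [Finset.union_sdiff_self_eq_union]
  have e2 : (vs α \ t) = α.image (fun p => if p.1 ∈ t then p.2 else p.1) := by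
    ext x
    rw [Finset.mem_sdiff, mem_vs, Finset.mem_image]
    constructor
    · rintro ⟨⟨p, hp, hx⟩, hxt⟩
      refine ⟨p, hp, ?_⟩
      rcases ht.2.2 p hp with ⟨a, b⟩ | ⟨a, b⟩
      · rw [if_pos a]
        rcases hx with rfl | rfl
        · exact absurd a hxt
        · rfl
      · rw [if_neg a]
        rcases hx with rfl | rfl
        · rfl
        · exact absurd b hxt
    · rintro ⟨p, hp, hx⟩
      rcases ht.2.2 p hp with ⟨a, b⟩ | ⟨a, b⟩
      · rw [if_pos a] at hx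
        subst hx
        exact ⟨⟨p, hp, Or.inr rfl⟩, b⟩
      · rw [if_neg a] at hx
        subst hx
        exact ⟨⟨p, hp, Or.inl rfl⟩, a⟩
  have e3 : (vs α \ t).card = α.card := by
    rw [e2]
    refine Finset.card_image_of_injOn ?_
    intro p hp q hq hpq
    have hp' := Finset.mem_coe.1 hp
    have hq' := Finset.mem_coe.1 hq
    have f : ∀ r : X.W × X.W, (fun p : X.W × X.W => if p.1 ∈ t then p.2 else p.1) r = r.1 ∨
        (fun p : X.W × X.W => if p.1 ∈ t then p.2 else p.1) r = r.2 := by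
      intro r
      by_cases hr : r.1 ∈ t
      · right
        simp [hr]
      · left
        simp [hr]
    refine om_ne X h hp' hq' (f p) ?_
    have := f q
    rw [← hpq] at this
    exact this
  rw [e1, Finset.card_union_of_disjoint Finset.disjoint_sdiff, e3]

theorem prf (h1 : S_U1) : S_T5 := by
  classical
  intro X α h
  obtain ⟨p0, hp0⟩ := h.1
  have hy0 : p0.1 ∈ vs α := mem_vs.2 ⟨p0, hp0, Or.inl rfl⟩
  have hN : {x | X.Ad x p0.1}.Finite := nbr_fin h1 X p0.1 (ne_zz X (om_V X h hy0))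
  -- new vertices are adjacent to the old ones
  have hnew : ∀ q, q ∉ α → X.Om (insert q α) → ∀ x, x = q.1 ∨ x = q.2 → ∀ y ∈ vs α,
      X.Ad x y := by
    intro q hq hOm x hx y hy
    obtain ⟨p, hp, hyp⟩ := mem_vs.1 hy
    have hqp : q ≠ p := fun e => hq (e ▸ hp)
    exact om_ad X hOm (Finset.mem_insert_self q α) (Finset.mem_insert_of_mem hp) hqp hx hyp
  have hcovfin : {β | X.Om β ∧ ∃ q, q ∉ α ∧ β = insert q α}.Finite := by
    refine ((hN.prod hN).image (fun q : X.W × X.W => insert q α)).subset ?_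
    rintro β ⟨hβ, q, hq, rfl⟩
    exact ⟨q, ⟨hnew q hq hβ q.1 (Or.inl rfl) _ hy0, hnew q hq hβ q.2 (Or.inr rfl) _ hy0⟩, rfl⟩
  have hcov : ∀ β, β ∈ X.cov α ↔ X.Om β ∧ ∃ q, q ∉ α ∧ β = insert q α := by
    intro β
    unfold Cov.cov
    rw [dif_pos hcovfin, Set.Finite.mem_toFinset]
    rfl
  refine ⟨?_, hcov, ?_, ?_, inj_vs h1 X h, ?_, ?_⟩
  · refine ((vs α).finite_toSet.union hN).subset ?_
    rintro x ⟨-, hx | hx⟩
    · exact Or.inl (Finset.mem_coe.2 hx)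
    · exact Or.inr (hx _ hy0)
  · intro β hβ
    obtain ⟨hO, q, hq, rfl⟩ := (hcov β).1 hβ
    refine ⟨Finset.card_insert_of_notMem hq, ?_⟩
    rintro x ⟨hxV, hx⟩
    refine ⟨hxV, ?_⟩
    rcases hx with hx | hx
    · obtain ⟨p, hp, hxp⟩ := mem_vs.1 hx
      rcases Finset.mem_insert.1 hp with rfl | hp
      · exact Or.inr (hnew p hq hO x hxp)
      · exact Or.inl (mem_vs.2 ⟨p, hp, hxp⟩)
    · refine Or.inr fun y hy => hx y ?_
      obtain ⟨p, hp, hyp⟩ := mem_vs.1 hy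
      exact mem_vs.2 ⟨p, Finset.mem_insert_of_mem hp, hyp⟩
  · refine Finset.card_le_card_of_injOn (fun p => X.π p.1) ?_ ?_
    · intro p hp
      exact Finset.mem_coe.2 (h.2.1 p (Finset.mem_coe.1 hp)).2.1
    · intro p hp q hq hpq
      by_contra hne
      exact ((h1 X).2.2.2.1 p.1 q.1 (om_ad X h (Finset.mem_coe.1 hp) (Finset.mem_coe.1 hq) hne
        (Or.inl rfl) (Or.inl rfl))).1 hpq
  · constructor
    · intro p' hp'
      obtain ⟨p, hp, rfl⟩ := Finset.mem_image.1 hp'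
      exact (h.2.1 p hp).1
    · intro p' hp' q' hq' hne
      obtain ⟨p, hp, rfl⟩ := Finset.mem_image.1 hp'
      obtain ⟨q, hq, rfl⟩ := Finset.mem_image.1 hq'
      have hpq : p ≠ q := fun e => hne (e ▸ rfl)
      refine ⟨?_, ?_, ?_, ?_⟩
      · exact ((h1 X).2.2.2.1 p.1 q.1 (om_ad X h hp hq hpq (Or.inl rfl) (Or.inl rfl))).1
      · exact ((h1 X).2.2.2.1 p.1 q.2 (om_ad X h hp hq hpq (Or.inl rfl) (Or.inr rfl))).1
      · exact ((h1 X).2.2.2.1 p.2 q.1 (om_ad X h hp hq hpq (Or.inr rfl) (Or.inl rfl))).1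
      · exact ((h1 X).2.2.2.1 p.2 q.2 (om_ad X h hp hq hpq (Or.inr rfl) (Or.inr rfl))).1
  · intro t ht
    have hinj := inj_cmp h1 X h ht
    refine ⟨hinj, ?_, card_cmp X h ht⟩
    have key : ∀ y ∈ vs α, y ∉ t → X.π y ∉ t.image X.π := by
      intro y hy hyt hc
      obtain ⟨x, hx, hxy⟩ := Finset.mem_image.1 hc
      have := hinj (Finset.mem_coe.2 (Finset.mem_union_left _ hx))
        (Finset.mem_coe.2 (Finset.mem_union_right _ hy)) hxy
      exact hyt (this ▸ hx)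
    intro p' hp'
    obtain ⟨p, hp, rfl⟩ := Finset.mem_image.1 hp'
    rcases ht.2.2 p hp with ⟨a, b⟩ | ⟨a, b⟩
    · exact Or.inl ⟨Finset.mem_image_of_mem _ a, key _ (mem_vs.2 ⟨p, hp, Or.inr rfl⟩) b⟩
    · exact Or.inr ⟨key _ (mem_vs.2 ⟨p, hp, Or.inl rfl⟩) a, Finset.mem_image_of_mem _ b⟩

end MP8a95ee.Rk.T5P
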