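import Pool.Agent.Work.MP_8a95ee_gt.Rk.Stmts
import Pool.Agent.Work.MP_8a95ee_gt.R.Bas

set_option autoImplicit false

namespace MP8a95ee.Rk.T6P

open MP8a95ee.Rk RA

theorem om_sub (X : Cov) {γ β : Finset (X.W × X.W)} (h : X.Om γ) (hs : β ⊆ γ)
    (hne : β.Nonempty) : X.Om β := by
  obtain ⟨_, h1, h2, v, hv, h3⟩ := h
  exact ⟨hne, fun p hp => h1 p (hs hp), fun p hp q hq => h2 p (hs hp) q (hs hq), v, hv,
    fun p hp => h3 p (hs hp)⟩

theorem insert_sdiff' {A : Type} [DecidableEq A] {q : A} {α : Finset A} (hq : q ∉ α) :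
    insert q α \ α = {q} := by
  ext x
  simp only [Finset.mem_sdiff, Finset.mem_insert, Finset.mem_singleton]
  constructor
  · rintro ⟨h | h, h'⟩
    · exact h
    · exact absurd h h'
  · rintro rfl
    exact ⟨Or.inl rfl, hq⟩

theorem inc_insert (X : Cov) {α : Finset (X.W × X.W)} {q : X.W × X.W} (hq : q ∉ α) :
    X.inc α (insert q α) = sg (X.π q.1) (α.image fun p => X.π p.1) := by
  unfold Cov.inc
  rw [insert_sdiff' hq, Finset.sum_singleton]

theorem prf (h5 : S_T5) : S_T6 := by
  intro X α hα M _ _ h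
  have hmem : ∀ β, X.Om β → ∀ γ, γ ∈ X.cov β ↔ X.Om γ ∧ ∃ q, q ∉ β ∧ γ = insert q β :=
    fun β hβ γ => (h5 X β hβ).2.1 γ
  have key : ∀ x : (_ : Finset (X.W × X.W)) × Finset (X.W × X.W),
      x ∈ (X.cov α).sigma (fun β => X.cov β) → ∃ q q' : X.W × X.W, q ∉ α ∧ q' ∉ α ∧ q ≠ q' ∧
        x = ⟨insert q α, insert q' (insert q α)⟩ ∧ X.Om (insert q' (insert q α)) := by
    rintro ⟨β, γ⟩ hx
    rw [Finset.mem_sigma] at hx
    obtain ⟨hβ, hγ⟩ := hx
    dsimp only at hβ hγ
    rw [hmem α hα] at hβ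
    obtain ⟨oβ, q, hq, rfl⟩ := hβ
    rw [hmem _ oβ] at hγ
    obtain ⟨oγ, q', hq', rfl⟩ := hγ
    rw [Finset.mem_insert, not_or] at hq'
    exact ⟨q, q', hq, hq'.2, fun e => hq'.1 e.symm, rfl, oγ⟩
  have hswap : ∀ q q' : X.W × X.W, q ∉ α → q' ∉ α → q ≠ q' →
      (insert q' (insert q α) \ insert q α) ∪ α = insert q' α := by
    intro q q' hq hq' hne
    rw [insert_sdiff' (by
      rw [Finset.mem_insert, not_or]
      exact ⟨fun e => hne e.symm, hq'⟩)]
    rfl
  have hin : ∀ q q' : X.W × X.W, q ∉ α → q' ∉ α → q ≠ q' → X.Om (insert q' (insert q α)) →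
      (⟨insert q' α, insert q' (insert q α)⟩ : (_ : Finset (X.W × X.W)) × Finset (X.W × X.W)) ∈
        (X.cov α).sigma (fun β => X.cov β) := by
    intro q q' hq hq' hne ho
    rw [Finset.mem_sigma]
    have ho' : X.Om (insert q' α) := om_sub X ho
      (Finset.insert_subset_insert _ (Finset.subset_insert _ _)) (Finset.insert_nonempty _ _)
    refine ⟨(hmem α hα _).2 ⟨ho', q', hq', rfl⟩, (hmem _ ho' _).2 ⟨ho, q, ?_, ?_⟩⟩
    · rw [Finset.mem_insert, not_or]
      exact ⟨hne, hq⟩
    · rw [Finset.insert_comm]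
  have hsum : ∑ β ∈ X.cov α, X.inc α β • ∑ γ ∈ X.cov β, X.inc β γ • h γ =
      ∑ x ∈ (X.cov α).sigma (fun β => X.cov β), (X.inc α x.1 * X.inc x.1 x.2) • h x.2 := by
    rw [Finset.sum_sigma]
    refine Finset.sum_congr rfl fun β _ => ?_
    rw [Finset.smul_sum]
    refine Finset.sum_congr rfl fun γ _ => ?_
    rw [smul_smul]
  rw [hsum]
  refine Finset.sum_involution (fun x _ => ⟨(x.2 \ x.1) ∪ α, x.2⟩) ?_ ?_ ?_ ?_
  · intro x hx
    obtain ⟨q, q', hq, hq', hne, rfl, ho⟩ := key x hx
    dsimp only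
    rw [hswap q q' hq hq' hne, ← add_smul]
    have hq1 : q' ∉ insert q α := by
      rw [Finset.mem_insert, not_or]
      exact ⟨fun e => hne e.symm, hq'⟩
    have hq2 : q ∉ insert q' α := by
      rw [Finset.mem_insert, not_or]
      exact ⟨hne, hq⟩
    have hinj := (h5 X _ ho).2.2.2.2.1
    have hmv : ∀ p ∈ insert q' (insert q α), p.1 ∈ (vs (insert q' (insert q α)) : Set X.W) := by
      intro p hp
      rw [Finset.mem_coe]
      unfold vs
      exact Finset.mem_union_left _ (Finset.mem_image_of_mem _ hp)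
    have hfst : ∀ p ∈ insert q' (insert q α), ∀ r ∈ insert q' (insert q α), p ≠ r →
        X.π p.1 ≠ X.π r.1 := by
      intro p hp r hr hpr he
      have h1 := hinj (hmv p hp) (hmv r hr) he
      have h2 := (ho.2.2.1 p hp r hr hpr).1
      exact h2.1 h1
    have hqm : q ∈ insert q' (insert q α) :=
      Finset.mem_insert_of_mem (Finset.mem_insert_self _ _)
    have hqm' : q' ∈ insert q' (insert q α) := Finset.mem_insert_self _ _
    have hA : ∀ r ∈ insert q' (insert q α), r ∉ α →
        X.π r.1 ∉ α.image fun p => X.π p.1 := by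
      intro r hr hrα hmem
      obtain ⟨p, hp, he⟩ := Finset.mem_image.1 hmem
      refine hfst p (Finset.mem_insert_of_mem (Finset.mem_insert_of_mem hp)) r hr ?_ he
      rintro rfl
      exact hrα hp
    have e1 : X.inc α (insert q α) = _ := inc_insert X hq
    have e2 : X.inc α (insert q' α) = _ := inc_insert X hq'
    have e3 : X.inc (insert q α) (insert q' (insert q α)) = _ := inc_insert X hq1
    have e4 : X.inc (insert q' α) (insert q' (insert q α)) =
        sg (X.π q.1) ((insert q' α).image fun p => X.π p.1) := by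
      rw [Finset.insert_comm]
      exact inc_insert X hq2
    rw [e1, e2, e3, e4, Finset.image_insert, Finset.image_insert]
    have h3 := sg_anti (hA q hqm hq) (hA q' hqm' hq') (hfst q hqm q' hqm' hne)
    rw [show sg (X.π q.1) (α.image fun p => X.π p.1) *
        sg (X.π q'.1) (insert (X.π q.1) (α.image fun p => X.π p.1)) +
        sg (X.π q'.1) (α.image fun p => X.π p.1) *
        sg (X.π q.1) (insert (X.π q'.1) (α.image fun p => X.π p.1)) = 0 by
          linarith [h3, mul_comm (sg (X.π q.1) (α.image fun p => X.π p.1))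
            (sg (X.π q'.1) (insert (X.π q.1) (α.image fun p => X.π p.1))),
            mul_comm (sg (X.π q'.1) (α.image fun p => X.π p.1))
            (sg (X.π q.1) (insert (X.π q'.1) (α.image fun p => X.π p.1)))], zero_smul]
  · intro x hx _ he
    obtain ⟨q, q', hq, hq', hne, rfl, ho⟩ := key x hx
    dsimp only at he
    rw [hswap q q' hq hq' hne] at he
    have h1 : insert q' α = insert q α := (Sigma.mk.inj_iff.1 he).1
    have h2 : q' ∈ insert q α := h1 ▸ Finset.mem_insert_self q' α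
    rw [Finset.mem_insert] at h2
    rcases h2 with h2 | h2
    · exact hne h2.symm
    · exact hq' h2
  · intro x hx
    obtain ⟨q, q', hq, hq', hne, rfl, ho⟩ := key x hx
    dsimp only
    rw [hswap q q' hq hq' hne]
    exact hin q q' hq hq' hne ho
  · intro x hx
    obtain ⟨q, q', hq, hq', hne, rfl, ho⟩ := key x hx
    dsimp only
    rw [hswap q q' hq hq' hne, Finset.insert_comm q' q α, hswap q' q hq' hq (Ne.symm hne)]

end MP8a95ee.Rk.T6P
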