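import Pool.Agent.Work.MP_8a95ee_gt.Rk.Stmts

/-! MP_8a95ee_gt, block Rk: item T8 (finitely many orbits), helper64. -/

set_option autoImplicit false

namespace MP8a95ee.Rk.T8P

open Ref RA MP8a95ee.Rk

theorem ad_smul (X : Cov) (γ : X.Γ) (x y : X.W) (h : X.Ad x y) : X.Ad (γ • x) (γ • y) := by
  refine ⟨fun he => h.1 (MulAction.injective γ he), ?_⟩
  have := X.smK γ _ h.2
  rwa [Finset.image_insert, Finset.image_singleton] at this

theorem fin_nb (h1 : S_U1) (X : Cov) (w : X.W) (hw : w ≠ X.zz) : {y | X.Ad w y}.Finite := by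
  obtain ⟨hu, -, -, h4, -⟩ := h1 X
  have hinj : Set.InjOn X.π {y | X.Ad w y} := by
    intro y hy y' hy' he
    have hK := (h4 w y hy).2.1
    exact (hu w hw (X.π y) hK).unique ⟨rfl, hy.2⟩ ⟨he.symm, hy'.2⟩
  refine Set.Finite.of_finite_image ?_ hinj
  refine (X.K.biUnion id).finite_toSet.subset ?_
  rintro _ ⟨y, hy, rfl⟩
  have hK := (h4 w y hy).2.1
  simp only [Finset.coe_biUnion, Set.mem_iUnion]
  exact ⟨_, hK, by simp⟩

theorem prf (h1 : S_U1) : S_T8 := by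
  classical
  intro X
  have hs : ∀ v : ℕ, ∃ w : X.W, v ∈ verts X.K → X.π w = v := by
    intro v
    by_cases hv : v ∈ verts X.K
    · obtain ⟨w, hw⟩ := X.surj v hv
      exact ⟨w, fun _ => hw⟩
    · exact ⟨X.zz, fun h => absurd h hv⟩
  choose s hs using hs
  have hne : ∀ v ∈ X.V, s v ≠ X.zz := by
    intro v hv he
    have h2 := hs v (X.VK hv)
    rw [he, X.pz] at h2
    exact X.hz (h2 ▸ X.VK hv)
  have hN : (⋃ v ∈ X.V, {y | X.Ad (s v) y}).Finite := by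
    refine Set.Finite.biUnion X.V.finite_toSet ?_
    intro v hv
    exact fin_nb h1 X (s v) (hne v hv)
  refine ⟨(hN.toFinset ×ˢ hN.toFinset).powerset, ?_⟩
  intro α hα
  obtain ⟨-, -, -, v, hvV, hv⟩ := hα
  obtain ⟨γ, hγ⟩ := X.trans v (s (X.π v)) (hs _ (X.VK hvV)).symm
  refine ⟨γ, ?_⟩
  rw [Finset.mem_powerset]
  intro q hq
  obtain ⟨p, hp, rfl⟩ := Finset.mem_image.1 hq
  have hmem : ∀ y, X.Ad v y → γ • y ∈ hN.toFinset := by
    intro y hy
    rw [Set.Finite.mem_toFinset, Set.mem_iUnion₂]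
    refine ⟨X.π v, hvV, ?_⟩
    show X.Ad (s (X.π v)) (γ • y)
    rw [← hγ]
    exact ad_smul X γ v y hy
  exact Finset.mem_product.2 ⟨hmem _ (hv p hp).1, hmem _ (hv p hp).2⟩

end MP8a95ee.Rk.T8P
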