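import Pool.Agent.Work.MP_8a95ee_gt.Rk.Stmts

/-!
# Item T9 of the block Rk: the double sum over all pairs vanishes
-/

set_option autoImplicit false

namespace MP8a95ee.Rk.T9P

open Ref RA

theorem om1_sub {X : Cov} {β : Finset (X.W × X.W)} (hβ : X.Om β) {p : X.W × X.W}
    (hp : p ∈ β) : X.Om1 {p} := by
  obtain ⟨_, h1, h2, v, hv, hv2⟩ := hβ
  refine ⟨⟨⟨p, Finset.mem_singleton_self p⟩, ?_, ?_, v, hv, ?_⟩, Finset.card_singleton p⟩
  · intro q hq
    rw [Finset.mem_singleton] at hq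
    subst hq
    exact h1 q hp
  · intro q hq r hr hne
    rw [Finset.mem_singleton] at hq hr
    exact absurd (hq.trans hr.symm) hne
  · intro q hq
    rw [Finset.mem_singleton] at hq
    subst hq
    exact hv2 q hp

theorem inc_pair {X : Cov} {p q : X.W × X.W} (h : p ≠ q) :
    X.inc {p} {p, q} = sg (X.π q.1) {X.π p.1} := by
  unfold Cov.inc
  have h1 : (({p, q} : Finset (X.W × X.W)) \ {p}) = {q} := by
    ext x
    simp only [Finset.mem_sdiff, Finset.mem_insert, Finset.mem_singleton]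
    constructor
    · rintro ⟨h1 | h1, h2⟩
      · exact absurd h1 h2
      · exact h1
    · intro h1
      exact ⟨Or.inr h1, fun h2 => h (h2.symm.trans h1)⟩
  rw [h1, Finset.sum_singleton, Finset.image_singleton]

theorem sg_two {a c : ℕ} (h : a ≠ c) : sg a {c} + sg c {a} = 0 := by
  have h1 := sg_anti (a := a) (c := c) (u := ∅) (Finset.notMem_empty a) (Finset.notMem_empty c) h
  have h2 : sg a ∅ = 1 := by simp [sg]
  have h3 : sg c ∅ = 1 := by simp [sg]
  rw [h2, h3, mul_one, mul_one] at h1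
  have h4 : sg a (insert c ∅) = sg a {c} := rfl
  have h5 : sg c (insert a ∅) = sg c {a} := rfl
  rw [← h4, ← h5, h1]
  ring

theorem prf (hU1 : S_U1) (hT5 : S_T5) : S_T9 := by
  classical
  intro X M _ _ f hf
  -- the finite set of the relevant families with two pairs
  let B : Finset (Finset (X.W × X.W)) := hf.toFinset.filter fun β => β.card = 2
  have hB : ∀ β, β ∈ B ↔ (X.Om β ∧ f β ≠ 0) ∧ β.card = 2 := by
    intro β
    simp only [B, Finset.mem_filter, Set.Finite.mem_toFinset, Set.mem_setOf_eq]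
  let A : Finset (Finset (X.W × X.W)) := B.biUnion fun β => β.image fun p => {p}
  have hA : ∀ α, α ∈ A ↔ ∃ β ∈ B, ∃ p ∈ β, ({p} : Finset (X.W × X.W)) = α := by
    intro α
    simp only [A, Finset.mem_biUnion, Finset.mem_image]
  have hAO : ∀ α ∈ A, X.Om1 α := by
    intro α hα
    obtain ⟨β, hβ, p, hp, rfl⟩ := (hA α).1 hα
    exact om1_sub ((hB β).1 hβ).1.1 hp
  have hg : ∀ α, X.Om1 α → ∑ β ∈ X.cov α, X.inc α β • f β =
      ∑ β ∈ B.filter (fun β => α ⊆ β), X.inc α β • f β := by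
    intro α hα
    have h1 : (X.cov α).filter (fun β => f β ≠ 0) = B.filter (fun β => α ⊆ β) := by
      ext β
      simp only [Finset.mem_filter, hB]
      rw [(hT5 X α hα.1).2.1 β]
      constructor
      · rintro ⟨⟨hβ, q, hq, rfl⟩, hfβ⟩
        refine ⟨⟨⟨hβ, hfβ⟩, ?_⟩, Finset.subset_insert q α⟩
        rw [Finset.card_insert_of_notMem hq, hα.2]
      · rintro ⟨⟨⟨hβ, hfβ⟩, hc⟩, hs⟩
        refine ⟨⟨hβ, ?_⟩, hfβ⟩
        have h2 : (β \ α).card = 1 := by
          rw [Finset.card_sdiff_of_subset hs, hc, hα.2]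
        obtain ⟨q, hq⟩ := Finset.card_eq_one.1 h2
        have hq1 : q ∈ β \ α := by rw [hq]; exact Finset.mem_singleton_self q
        refine ⟨q, (Finset.mem_sdiff.1 hq1).2, ?_⟩
        rw [Finset.insert_eq, ← hq, Finset.sdiff_union_of_subset hs]
    rw [← h1]
    refine (Finset.sum_filter_of_ne ?_).symm
    intro β _ h2 h3
    exact h2 (by rw [h3, smul_zero])
  have hsupp : ∀ α, X.Om1 α → ∑ β ∈ X.cov α, X.inc α β • f β ≠ 0 → α ∈ A := by
    intro α hα h0
    rw [hg α hα] at h0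
    obtain ⟨β, hβ, _⟩ := Finset.exists_ne_zero_of_sum_ne_zero h0
    rw [Finset.mem_filter] at hβ
    obtain ⟨p, hp⟩ := Finset.card_eq_one.1 hα.2
    refine (hA α).2 ⟨β, hβ.1, p, hβ.2 (by rw [hp]; exact Finset.mem_singleton_self p), hp.symm⟩
  refine ⟨?_, ?_⟩
  · refine Set.Finite.subset A.finite_toSet ?_
    rintro α ⟨hα, h0⟩
    exact hsupp α hα h0
  · rw [finsum_cond_eq_sum_of_cond_iff (fun α => ∑ β ∈ X.cov α, X.inc α β • f β) (t := A)
      (fun {α} h0 => ⟨fun hα => hsupp α hα h0, fun hα => hAO α hα⟩)]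
    rw [Finset.sum_congr rfl fun α hα => hg α (hAO α hα)]
    rw [Finset.sum_comm' (s' := fun β => A.filter fun α => α ⊆ β) (t' := B)
      (by
        intro α β
        simp only [Finset.mem_filter]
        tauto)]
    refine Finset.sum_eq_zero fun β hβ => ?_
    have hβ' := (hB β).1 hβ
    have h1 : (A.filter fun α => α ⊆ β) = β.image fun p => ({p} : Finset (X.W × X.W)) := by
      ext α
      simp only [Finset.mem_filter, Finset.mem_image]
      constructor
      · rintro ⟨hα, hs⟩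
        obtain ⟨β', _, p, _, rfl⟩ := (hA α).1 hα
        exact ⟨p, Finset.singleton_subset_iff.1 hs, rfl⟩
      · rintro ⟨p, hp, rfl⟩
        exact ⟨(hA _).2 ⟨β, hβ, p, hp, rfl⟩, Finset.singleton_subset_iff.2 hp⟩
    rw [h1, Finset.sum_image (fun p _ q _ h => Finset.singleton_injective h)]
    obtain ⟨p, q, hpq, rfl⟩ := Finset.card_eq_two.1 hβ'.2
    rw [Finset.sum_pair hpq, ← add_smul]
    have h2 : X.inc {q} {p, q} = sg (X.π p.1) {X.π q.1} := by
      rw [Finset.pair_comm]
      exact inc_pair hpq.symm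
    rw [inc_pair hpq, h2]
    have h3 : X.π q.1 ≠ X.π p.1 := by
      have h4 := (hβ'.1.1.2.2.1 q (by simp) p (by simp) hpq.symm).1
      exact ((hU1 X).2.2.2.1 q.1 p.1 h4).1
    rw [sg_two h3, zero_smul]

end MP8a95ee.Rk.T9P
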