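import Pool.Agent.Work.MP_8a95ee_gt.Rk.Stmts

/-!
# Block Rk, item U1
-/

set_option autoImplicit false

namespace MP8a95ee.Rk.U1P

open MP8a95ee.Rk Ref RA

lemma mem_verts {K : Finset (Finset ℕ)} {a : ℕ} : a ∈ verts K ↔ ∃ σ ∈ K, a ∈ σ := by
  simp [verts]

lemma zz_notin (X : Cov) : ∀ t ∈ X.Kt, X.zz ∉ t := by
  intro t ht hz
  apply X.hz
  rw [mem_verts]
  refine ⟨_, (X.simp t ht).1, ?_⟩
  rw [← X.pz]
  exact Finset.mem_image_of_mem _ hz

lemma pi_mem (X : Cov) (w : X.W) (hw : w ≠ X.zz) : X.π w ∈ verts X.K := by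
  rw [mem_verts]
  refine ⟨_, (X.simp _ (X.vert w hw)).1, ?_⟩
  exact Finset.mem_image_of_mem _ (Finset.mem_singleton_self _)

lemma image_pair (X : Cov) (w y : X.W) :
    ({w, y} : Finset X.W).image X.π = {X.π w, X.π y} := by
  rw [Finset.image_insert, Finset.image_singleton]

lemma edge_uniq (X : Cov) {w y y' : X.W} (hw : w ≠ X.zz) (h1 : ({w, y} : Finset X.W) ∈ X.Kt)
    (h2 : ({w, y'} : Finset X.W) ∈ X.Kt) (h3 : X.π y = X.π y') : y = y' := by
  have hK : ({X.π w, X.π y} : Finset ℕ) ∈ X.K := by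
    rw [← image_pair]
    exact (X.simp _ h1).1
  obtain ⟨σ, -, hσ⟩ := X.lift w hw _ hK (by simp)
  have e1 := hσ {w, y} ⟨h1, by simp, image_pair X w y⟩
  have e2 := hσ {w, y'} ⟨h2, by simp, by rw [image_pair, h3]⟩
  have e3 : ({w, y} : Finset X.W) = {w, y'} := e1.trans e2.symm
  have hy' : y' ∈ ({w, y} : Finset X.W) := by
    rw [e3]
    simp
  exact (X.simp _ h1).2 (by simp) (by exact_mod_cast hy') h3

lemma edge_exists (X : Cov) (w : X.W) (hw : w ≠ X.zz) (a : ℕ)
    (ha : ({X.π w, a} : Finset ℕ) ∈ X.K) : ∃ y, X.π y = a ∧ ({w, y} : Finset X.W) ∈ X.Kt := by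
  obtain ⟨σ, ⟨hσ1, hσ2, hσ3⟩, -⟩ := X.lift w hw _ ha (by simp)
  have h1 : a ∈ σ.image X.π := by
    rw [hσ3]
    simp
  obtain ⟨y, hy, hy2⟩ := Finset.mem_image.1 h1
  refine ⟨y, hy2, X.down σ hσ1 _ ?_⟩
  intro u hu
  rw [Finset.mem_insert, Finset.mem_singleton] at hu
  rcases hu with rfl | rfl
  · exact hσ2
  · exact hy

/-- A lift which contains the endpoint of an edge. -/
lemma mem_lift (X : Cov) {w x : X.W} (hw : w ≠ X.zz) {σ : Finset X.W} (hσ : σ ∈ X.Kt)
    (hwσ : w ∈ σ) (hx : ({w, x} : Finset X.W) ∈ X.Kt) (hx2 : X.π x ∈ σ.image X.π) : x ∈ σ := by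
  obtain ⟨y, hy, hy2⟩ := Finset.mem_image.1 hx2
  have h1 : ({w, y} : Finset X.W) ∈ X.Kt := by
    apply X.down σ hσ
    intro u hu
    rw [Finset.mem_insert, Finset.mem_singleton] at hu
    rcases hu with rfl | rfl
    · exact hwσ
    · exact hy
  rw [edge_uniq X hw hx h1 hy2.symm]
  exact hy

lemma verts_L (X : Cov) : verts X.L = X.V := by
  ext a
  constructor
  · intro ha
    obtain ⟨σ, hσ, h2⟩ := mem_verts.1 ha
    have h3 : σ ∈ sub X.K X.V := hσ
    rw [sub, Finset.mem_filter] at h3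
    exact h3.2 h2
  · intro ha
    obtain ⟨σ, hσ, h2⟩ := mem_verts.1 (X.VK ha)
    rw [mem_verts]
    refine ⟨{a}, ?_, Finset.mem_singleton_self a⟩
    change {a} ∈ sub X.K X.V
    rw [sub, Finset.mem_filter]
    exact ⟨X.cx.2 σ hσ _ (Finset.singleton_subset_iff.2 h2), Finset.singleton_subset_iff.2 ha⟩

theorem prf : S_U1 := by
  intro X
  refine ⟨?_, ?_, ?_, ?_, verts_L X, pi_mem X, zz_notin X⟩
  · intro w hw a ha
    obtain ⟨y, hy1, hy2⟩ := edge_exists X w hw a ha
    refine ⟨y, ⟨hy1, hy2⟩, ?_⟩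
    rintro y' ⟨hy1', hy2'⟩
    exact edge_uniq X hw hy2' hy2 (hy1'.trans hy1.symm)
  · intro w x y hx hy hK
    have hw : w ≠ X.zz := by
      rintro rfl
      exact zz_notin X _ hx (by simp)
    obtain ⟨σ, ⟨hσ1, hσ2, hσ3⟩, -⟩ := X.lift w hw _ hK (by simp)
    have h1 : x ∈ σ := mem_lift X hw hσ1 hσ2 hx (by rw [hσ3]; simp)
    have h2 : y ∈ σ := mem_lift X hw hσ1 hσ2 hy (by rw [hσ3]; simp)
    apply X.down σ hσ1
    intro u hu
    rw [Finset.mem_insert, Finset.mem_insert, Finset.mem_singleton] at hu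
    rcases hu with rfl | rfl | rfl
    · exact hσ2
    · exact h1
    · exact h2
  · intro t ht1 ht2
    rcases t.eq_empty_or_nonempty with rfl | ⟨v, hv⟩
    · exact X.emp
    have hne : ∀ x ∈ t, x ≠ X.zz := by
      rintro x hx rfl
      apply X.hz
      rw [← X.pz]
      exact X.VK (ht1 _ hx)
    have hI : t.image X.π ∈ sub X.K X.V := by
      rw [X.flag]
      intro x hx y hy
      obtain ⟨x', hx', rfl⟩ := Finset.mem_image.1 hx
      obtain ⟨y', hy', rfl⟩ := Finset.mem_image.1 hy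
      rw [sub, Finset.mem_filter]
      refine ⟨?_, ?_⟩
      · by_cases h : x' = y'
        · subst h
          have h1 := (X.simp _ (X.vert x' (hne x' hx'))).1
          rw [Finset.image_singleton] at h1
          rw [Finset.pair_eq_singleton]
          exact h1
        · rw [← image_pair]
          exact (X.simp _ (ht2 x' hx' y' hy' h).2).1
      · intro u hu
        rw [Finset.mem_insert, Finset.mem_singleton] at hu
        rcases hu with rfl | rfl
        · exact ht1 _ hx'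
        · exact ht1 _ hy'
    rw [sub, Finset.mem_filter] at hI
    obtain ⟨σ, ⟨hσ1, hσ2, hσ3⟩, -⟩ := X.lift v (hne v hv) _ hI.1 (Finset.mem_image_of_mem _ hv)
    apply X.down σ hσ1
    intro x hx
    by_cases h : v = x
    · rw [← h]
      exact hσ2
    · exact mem_lift X (hne v hv) hσ1 hσ2 (ht2 v hv x hx h).2
        (by rw [hσ3]; exact Finset.mem_image_of_mem _ hx)
  · rintro x y ⟨hxy, hK⟩
    have h1 := X.simp _ hK
    rw [image_pair] at h1
    have h2 : X.π x ≠ X.π y := by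
      intro h
      exact hxy (h1.2 (by simp) (by simp) h)
    refine ⟨h2, h1.1, fun hx hy => ⟨h2, ?_⟩⟩
    change _ ∈ sub X.K X.V
    rw [sub, Finset.mem_filter]
    refine ⟨h1.1, ?_⟩
    intro u hu
    rw [Finset.mem_insert, Finset.mem_singleton] at hu
    rcases hu with rfl | rfl
    · exact hx
    · exact hy

end MP8a95ee.Rk.U1P
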