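import Pool.Agent.Work.MP_8a95ee_gt.Rk.Stmts
import Pool.Agent.Work.MP_8a95ee_gt.R.Bas

/-!
Block Rk, item U2: unique extension of good lifts.
-/

set_option autoImplicit false

namespace MP8a95ee.Rk.U2P

open Ref RA

/-- every vertex of a set in `KK L` has at most one nonadjacent vertex -/
theorem amo {L : Finset (Finset ℕ)} {s : Finset ℕ} (hs : s ∈ KK L) {a b c : ℕ} (ha : a ∈ s)
    (hb : b ∈ s) (hc : c ∈ s) (hba : b ≠ a) (hca : c ≠ a) (h1 : ¬ Adj L a b) (h2 : ¬ Adj L a c) :
    b = c := by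
  unfold KK at hs
  rw [Finset.mem_filter] at hs
  have h3 := hs.2 a ha
  rw [Finset.card_le_one] at h3
  apply h3 b _ c _
  · rw [Finset.mem_filter]
    exact ⟨hb, hba, fun h => h1 ⟨hba.symm, h⟩⟩
  · rw [Finset.mem_filter]
    exact ⟨hc, hca, fun h => h2 ⟨hca.symm, h⟩⟩

/-- a set in `KK L` with an odd number of elements has a vertex adjacent to all others -/
theorem exAdj {L : Finset (Finset ℕ)} {s : Finset ℕ} (hs : s ∈ KK L) (hodd : Odd s.card) :
    ∃ v ∈ s, ∀ b ∈ s, b ≠ v → Adj L v b := by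
  by_contra hcon
  push Not at hcon
  choose! f hf1 hf2 hf3 using hcon
  have hinv : ∀ v ∈ s, f (f v) = v := by
    intro v hv
    exact amo hs (hf1 v hv) (hf1 _ (hf1 v hv)) hv (hf2 _ (hf1 v hv)) (hf2 v hv).symm
      (hf3 _ (hf1 v hv)) (fun h => hf3 v hv (adj_symm h))
  have h0 : ∑ _x ∈ s, (1 : ZMod 2) = 0 :=
    Finset.sum_involution (fun a _ => f a) (fun a ha => by decide) (fun a ha _ => hf2 a ha)
      (fun a ha => hf1 a ha) (fun a ha => hinv a ha)
  rw [Finset.sum_const, nsmul_eq_mul, mul_one] at h0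
  have h1 : (2 : ℕ) ∣ s.card := (ZMod.natCast_eq_zero_iff s.card 2).1 h0
  obtain ⟨k, hk⟩ := hodd
  omega

theorem prf (h1 : S_U1) : S_U2 := by
  intro X m hm hodd t ht htc a ha hs
  obtain ⟨u1, u2, u3, u4, u5, u6, u7⟩ := h1 X
  obtain ⟨hinj, hV, hAd, hKK⟩ := ht
  have hsc : (insert a (t.image X.π)).card = m + 2 := by
    rw [Finset.card_insert_of_notMem ha, Finset.card_image_of_injOn hinj, htc]
  have hsV : ∀ c ∈ insert a (t.image X.π), c ∈ X.V := by
    intro c hc
    have h2 := hs
    unfold KK at h2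
    rw [Finset.mem_filter, Finset.mem_powerset] at h2
    rw [← u5]
    exact h2.1 hc
  have hF := X.flag
  have hLK : ∀ σ ∈ sub X.K X.V, σ ∈ X.K := fun σ h => (Finset.mem_filter.1 h).1
  have hzz : ∀ w ∈ t, w ≠ X.zz := by
    intro w hw h
    apply X.hz
    rw [← X.pz, ← h]
    exact X.VK (hV w hw)
  have hdiag : ∀ x y : ℕ, Adj X.L x y → ({x, x} : Finset ℕ) ∈ X.L ∧ ({y, y} : Finset ℕ) ∈ X.L := by
    intro x y hxy
    have h2 := (hF {x, y}).1 hxy.2
    exact ⟨h2 x (by simp) x (by simp), h2 y (by simp) y (by simp)⟩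
  have htri : ∀ x y z : ℕ, Adj X.L x y → Adj X.L x z → Adj X.L y z →
      ({x, y, z} : Finset ℕ) ∈ X.K := by
    intro x y z hxy hxz hyz
    apply hLK
    apply (hF _).2
    intro p hp q hq
    simp only [Finset.mem_insert, Finset.mem_singleton] at hp hq
    rcases hp with rfl | rfl | rfl <;> rcases hq with rfl | rfl | rfl
    · exact (hdiag _ _ hxy).1
    · exact hxy.2
    · exact hxz.2
    · exact (adj_symm hxy).2
    · exact (hdiag _ _ hxy).2
    · exact hyz.2
    · exact (adj_symm hxz).2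
    · exact (adj_symm hyz).2
    · exact (hdiag _ _ hxz).2
  -- the triangle step
  have hstep : ∀ w ∈ t, ∀ y ∈ t, ∀ x, X.π x = a → Adj X.L (X.π w) (X.π y) →
      Adj X.L (X.π w) a → Adj X.L (X.π y) a → ({w, x} : Finset X.W) ∈ X.Kt →
      ({y, x} : Finset X.W) ∈ X.Kt := by
    intro w hw y hy x hx hwy hwa hya hwx
    have h2 : ({w, y} : Finset X.W) ∈ X.Kt := (hAd w hw y hy hwy).2
    have h3 : ({X.π w, X.π y, X.π x} : Finset ℕ) ∈ X.K := by
      rw [hx]
      exact htri _ _ _ hwy hwa hya
    have h4 := u2 w y x h2 hwx h3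
    apply X.down _ h4
    intro p hp
    simp only [Finset.mem_insert, Finset.mem_singleton] at hp ⊢
    tauto
  have hne : ∀ w ∈ t, X.π w ≠ a := by
    intro w hw h
    apply ha
    rw [← h]
    exact Finset.mem_image_of_mem _ hw
  have hms : ∀ w ∈ t, X.π w ∈ insert a (t.image X.π) := fun w hw =>
    Finset.mem_insert_of_mem (Finset.mem_image_of_mem _ hw)
  have has : a ∈ insert a (t.image X.π) := Finset.mem_insert_self _ _
  -- existence of the neighbour at `w`
  have hlift : ∀ w ∈ t, Adj X.L (X.π w) a →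
      ∃! y, X.π y = a ∧ ({w, y} : Finset X.W) ∈ X.Kt := fun w hw hwa =>
    u1 w (hzz w hw) a (hLK _ hwa.2)
  -- the core of the existence
  have hcore : ∃ x, X.π x = a ∧ ∀ y ∈ t, Adj X.L a (X.π y) → ({y, x} : Finset X.W) ∈ X.Kt := by
    obtain ⟨v, hv, hvad⟩ := exAdj hs (by
      rw [hsc]
      obtain ⟨k, hk⟩ := hodd
      exact ⟨k + 1, by omega⟩)
    rcases Finset.mem_insert.1 hv with hva | hvt
    · subst hva
      have htne : t.Nonempty := by
        rw [← Finset.card_pos, htc]
        omega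
      obtain ⟨w, hw⟩ := htne
      have hwa : Adj X.L (X.π w) v := adj_symm (hvad _ (hms w hw) (hne w hw))
      obtain ⟨x, ⟨hx, hwx⟩, -⟩ := hlift w hw hwa
      refine ⟨x, hx, ?_⟩
      intro y hy hya
      have hya' := adj_symm hya
      by_cases hyw : y = w
      · rw [hyw]
        exact hwx
      · by_cases hwy : Adj X.L (X.π w) (X.π y)
        · exact hstep w hw y hy x hx hwy hwa hya' hwx
        · have hcard : 0 < ((t.erase w).erase y).card := by
            rw [Finset.card_erase_of_mem (Finset.mem_erase.2 ⟨hyw, hy⟩),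
              Finset.card_erase_of_mem hw, htc]
            omega
          obtain ⟨y', hy'⟩ := Finset.card_pos.1 hcard
          rw [Finset.mem_erase, Finset.mem_erase] at hy'
          obtain ⟨hy'y, hy'w, hy't⟩ := hy'
          have hπyw : X.π y ≠ X.π w := fun h => hyw (hinj hy hw h)
          have hπy'w : X.π y' ≠ X.π w := fun h => hy'w (hinj hy't hw h)
          have hπy'y : X.π y' ≠ X.π y := fun h => hy'y (hinj hy't hy h)
          have h2 : Adj X.L (X.π w) (X.π y') := by
            by_contra h3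
            exact hπy'y (amo hs (hms w hw) (hms y' hy't) (hms y hy) hπy'w hπyw h3 hwy)
          have h3 : Adj X.L (X.π y') (X.π y) := by
            by_contra h4
            have h5 : ¬ Adj X.L (X.π y) (X.π y') := fun h => h4 (adj_symm h)
            have h6 : ¬ Adj X.L (X.π y) (X.π w) := fun h => hwy (adj_symm h)
            exact hπy'w (amo hs (hms y hy) (hms y' hy't) (hms w hw) hπy'y hπyw.symm h5 h6)
          have hy'a : Adj X.L (X.π y') v := adj_symm (hvad _ (hms y' hy't) (hne y' hy't))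
          have h4 := hstep w hw y' hy't x hx h2 hwa hy'a hwx
          exact hstep y' hy't y hy x hx h3 hy'a hya' h4
    · obtain ⟨w, hw, hwv⟩ := Finset.mem_image.1 hvt
      have hwa : Adj X.L (X.π w) a := by
        rw [hwv]
        apply hvad _ has
        rw [← hwv]
        exact (hne w hw).symm
      obtain ⟨x, ⟨hx, hwx⟩, -⟩ := hlift w hw hwa
      refine ⟨x, hx, ?_⟩
      intro y hy hya
      by_cases hyw : y = w
      · rw [hyw]
        exact hwx
      · have hwy : Adj X.L (X.π w) (X.π y) := by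
          rw [hwv]
          apply hvad _ (hms y hy)
          rw [← hwv]
          exact fun h => hyw (hinj hy hw h)
        exact hstep w hw y hy x hx hwy hwa (adj_symm hya) hwx
  obtain ⟨x, hx, hxad⟩ := hcore
  have hxt : x ∉ t := fun h => hne x h hx
  refine ⟨x, ⟨hx, ?_, ?_, ?_, ?_⟩, ?_⟩
  · rw [Finset.coe_insert, Set.injOn_insert (by exact_mod_cast hxt)]
    refine ⟨hinj, ?_⟩
    rintro ⟨w, hw, hwx⟩
    exact hne w hw (hwx.trans hx)
  · intro y hy
    rcases Finset.mem_insert.1 hy with rfl | hy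
    · rw [hx]
      exact hsV a has
    · exact hV y hy
  · intro p hp q hq hpq
    rcases Finset.mem_insert.1 hp with hpx | hpt
    · rcases Finset.mem_insert.1 hq with hqx | hqt
      · exact absurd (by rw [hpx, hqx]) hpq.1
      · refine ⟨fun h => hpq.1 (by rw [h]), ?_⟩
        rw [Finset.pair_comm, hpx]
        exact hxad q hqt (by rw [← hx, ← hpx]; exact hpq)
    · rcases Finset.mem_insert.1 hq with hqx | hqt
      · refine ⟨fun h => hpq.1 (by rw [h]), ?_⟩
        rw [hqx]
        exact hxad p hpt (by rw [← hx, ← hqx]; exact adj_symm hpq)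
      · exact hAd p hpt q hqt hpq
  · rw [Finset.image_insert, hx]
    exact hs
  · rintro x' ⟨hx', hgl⟩
    -- a vertex of `t` adjacent to `a`
    have hw : ∃ w ∈ t, Adj X.L (X.π w) a := by
      by_contra hcon
      push Not at hcon
      have h2 : 1 < t.card := by
        rw [htc]
        omega
      obtain ⟨p, hp, q, hq, hpq⟩ := Finset.one_lt_card.1 h2
      apply hpq
      apply hinj hp hq
      exact amo hs has (hms p hp) (hms q hq) (hne p hp) (hne q hq)
        (fun h => hcon p hp (adj_symm h)) (fun h => hcon q hq (adj_symm h))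
    obtain ⟨w, hw, hwa⟩ := hw
    obtain ⟨-, -, hAd', -⟩ := hgl
    have h3 : ({w, x'} : Finset X.W) ∈ X.Kt :=
      (hAd' w (Finset.mem_insert_of_mem hw) x' (Finset.mem_insert_self _ _)
        (by rw [hx']; exact hwa)).2
    have h4 : ({w, x} : Finset X.W) ∈ X.Kt := hxad w hw (adj_symm hwa)
    exact (hlift w hw hwa).unique ⟨hx', h3⟩ ⟨hx, h4⟩

end MP8a95ee.Rk.U2P
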