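import Pool.Agent.Work.MP_8a95ee_gt.Rk.Stmts

/-!
# Block Rk, item U3: the boundary of the lift of `b`
-/

set_option autoImplicit false

namespace MP8a95ee.Rk.U3P

open Ref RA

lemma sg_ne_zero (a : ℕ) (t : Finset ℕ) : sg a t ≠ 0 := by
  unfold sg
  exact pow_ne_zero _ (by norm_num)

lemma bt_ne (X : Cov) (b : Finset ℕ → ℝ) (s : Finset X.W) (h : X.bt b s ≠ 0) :
    X.GL s ∧ X.bt b s = b (s.image X.π) := by
  classical
  by_cases hs : X.GL s
  · refine ⟨hs, ?_⟩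
    unfold Cov.bt
    rw [if_pos hs]
  · exfalso
    apply h
    unfold Cov.bt
    rw [if_neg hs]

lemma bt_gl (X : Cov) (b : Finset ℕ → ℝ) (s : Finset X.W) (h : X.GL s) :
    X.bt b s = b (s.image X.π) := by
  classical
  unfold Cov.bt
  rw [if_pos h]

/-- the label of a new vertex is new -/
lemma lab_new (X : Cov) (t : Finset X.W) (x : X.W) (hx : x ∉ t) (h : X.GL (insert x t)) :
    X.π x ∉ t.image X.π := by
  intro hc
  obtain ⟨y, hy, hyx⟩ := Finset.mem_image.1 hc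
  have h1 : y = x := h.1 (Finset.mem_coe.2 (Finset.mem_insert_of_mem hy))
    (Finset.mem_coe.2 (Finset.mem_insert_self x t)) hyx
  exact hx (h1 ▸ hy)

theorem prf (h1 : S_U1) (h2 : S_U2) : S_U3 := by
  classical
  intro X m hm hodd o b hb hbd t ht hc
  have hV : verts X.L = X.V := (h1 X).2.2.2.2.1
  -- basic facts on contributing vertices
  have key : ∀ x, x ∉ t → X.bt b (insert x t) ≠ 0 →
      X.π x ∈ verts X.L \ t.image X.π ∧ b (insert (X.π x) (t.image X.π)) ≠ 0 ∧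
      X.bt b (insert x t) = b (insert (X.π x) (t.image X.π)) ∧ X.GL (insert x t) ∧
      insert (X.π x) (t.image X.π) ∈ KK X.L := by
    intro x hx hne
    obtain ⟨hg, he⟩ := bt_ne X b _ hne
    rw [Finset.image_insert] at he
    have hb0 : b (insert (X.π x) (t.image X.π)) ≠ 0 := by
      rw [← he]
      exact hne
    refine ⟨?_, hb0, he, hg, (hb _ hb0).1⟩
    rw [Finset.mem_sdiff, hV]
    exact ⟨hg.2.1 x (Finset.mem_insert_self x t), lab_new X t x hx hg⟩
  have uniq : ∀ x y, x ∉ t → X.bt b (insert x t) ≠ 0 → y ∉ t → X.bt b (insert y t) ≠ 0 →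
      X.π x = X.π y → x = y := by
    intro x y hx hx' hy hy' hxy
    obtain ⟨kx1, -, -, kx4, kx5⟩ := key x hx hx'
    obtain ⟨-, -, -, ky4, -⟩ := key y hy hy'
    obtain ⟨w, -, hw⟩ := h2 X m hm hodd t ht hc (X.π x) (Finset.mem_sdiff.1 kx1).2 kx5
    rw [hw x ⟨rfl, kx4⟩, hw y ⟨hxy.symm, ky4⟩]
  have exi : ∀ a, a ∉ t.image X.π → b (insert a (t.image X.π)) ≠ 0 →
      ∃ x, X.π x = a ∧ x ∉ t ∧ X.bt b (insert x t) ≠ 0 := by
    intro a ha hba
    obtain ⟨x, ⟨hx1, hx2⟩, -⟩ := h2 X m hm hodd t ht hc a ha (hb _ hba).1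
    have hxt : x ∉ t := fun h => ha (hx1 ▸ Finset.mem_image_of_mem _ h)
    refine ⟨x, hx1, hxt, ?_⟩
    rw [bt_gl X b _ hx2, Finset.image_insert, hx1]
    exact hba
  constructor
  · refine Set.Finite.of_finite_image (f := X.π) ?_ ?_
    · refine (verts X.L).finite_toSet.subset ?_
      rintro _ ⟨x, ⟨hx, hx'⟩, rfl⟩
      exact Finset.mem_coe.2 (Finset.mem_sdiff.1 (key x hx hx').1).1
    · rintro x ⟨hx, hx'⟩ y ⟨hy, hy'⟩ hxy
      exact uniq x y hx hx' hy hy' hxy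
  · intro S hS
    rw [← hbd]
    unfold bdS
    refine Finset.sum_bij_ne_zero (fun x _ _ => X.π x) ?_ ?_ ?_ ?_
    · intro x hx hne
      exact (key x (Finset.mem_sdiff.1 hx).2 (right_ne_zero_of_mul hne)).1
    · intro x hx hne y hy hne' hxy
      exact uniq x y (Finset.mem_sdiff.1 hx).2 (right_ne_zero_of_mul hne)
        (Finset.mem_sdiff.1 hy).2 (right_ne_zero_of_mul hne') hxy
    · intro a ha hne
      obtain ⟨x, hx1, hx2, hx3⟩ := exi a (Finset.mem_sdiff.1 ha).2 (right_ne_zero_of_mul hne)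
      refine ⟨x, Finset.mem_sdiff.2 ⟨hS x hx2 hx3, hx2⟩, ?_, hx1⟩
      exact mul_ne_zero (sg_ne_zero _ _) hx3
    · intro x hx hne
      rw [(key x (Finset.mem_sdiff.1 hx).2 (right_ne_zero_of_mul hne)).2.2.1]

end MP8a95ee.Rk.U3P
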