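import Pool.Agent.Work.MP_8a95ee_gt.Rk.Asm
import Pool.Agent.Work.MP_8a95ee_gt.Rk.I_P1
import Pool.Agent.Work.MP_8a95ee_gt.Rk.I_P2
import Pool.Agent.Work.MP_8a95ee_gt.Rk.I_U1
import Pool.Agent.Work.MP_8a95ee_gt.Rk.I_U2
import Pool.Agent.Work.MP_8a95ee_gt.Rk.I_U3
import Pool.Agent.Work.MP_8a95ee_gt.Rk.I_Sg
import Pool.Agent.Work.MP_8a95ee_gt.Rk.I_T1
import Pool.Agent.Work.MP_8a95ee_gt.Rk.I_T2
import Pool.Agent.Work.MP_8a95ee_gt.Rk.I_T3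
import Pool.Agent.Work.MP_8a95ee_gt.Rk.I_T6
import Pool.Agent.Work.MP_8a95ee_gt.Rk.I_T8
import Pool.Agent.Work.MP_8a95ee_gt.Rk.I_T9
import Pool.Agent.Work.MP_8a95ee_gt.Rk.I_E1
import Pool.Agent.Work.MP_8a95ee_gt.Rk.I_A1
import Pool.Agent.Work.MP_8a95ee_gt.Rk.I_A3
import Pool.Agent.Work.MP_8a95ee_gt.Rk.I_A4
import Pool.Agent.Work.MP_8a95ee_gt.Rk.I_A7
import Pool.Agent.Work.MP_8a95ee_gt.Rk.I_C1
import Pool.Agent.Work.MP_8a95ee_gt.Rk.I_C2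
import Pool.Agent.Work.MP_8a95ee_gt.Rk.I_Q1
import Pool.Agent.Work.MP_8a95ee_gt.Rk.I_Q2
import Pool.Agent.Work.MP_8a95ee_gt.Rk.I_Q3
import Pool.Agent.Work.MP_8a95ee_gt.Rk.I_Q4
import Pool.Agent.Work.MP_8a95ee_gt.Rk.I_Q5
import Pool.Agent.Work.MP_8a95ee_gt.Rk.I_D1
import Pool.Agent.Work.MP_8a95ee_gt.Rk.I_D2
import Pool.Agent.Work.MP_8a95ee_gt.Rk.I_D4
import Pool.Agent.Work.MP_8a95ee_gt.Rk.I_D5
import Pool.Agent.Work.MP_8a95ee_gt.Rk.I_D6a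
import Pool.Agent.Work.MP_8a95ee_gt.Rk.I_D6
import Pool.Agent.Work.MP_8a95ee_gt.Rk.I_D7
import Pool.Agent.Work.MP_8a95ee_gt.Rk.I_D8
import Pool.Agent.Work.MP_8a95ee_gt.Rk.I_D9
import Pool.Agent.Work.MP_8a95ee_gt.Rk.I_F1
import Pool.Agent.Work.MP_8a95ee_gt.Rk.I_F2
import Pool.Agent.Work.MP_8a95ee_gt.Rk.I_F3
import Pool.Agent.Work.MP_8a95ee_gt.Rk.I_F4
import Pool.Agent.Work.MP_8a95ee_gt.Rk.I_F5
import Pool.Agent.Work.MP_8a95ee_gt.Rk.I_F6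
import Pool.Agent.Work.MP_8a95ee_gt.Rk.I_O1
import Pool.Agent.Work.MP_8a95ee_gt.R.ItemB4
import Pool.Agent.Work.MP_8a95ee_gt.R.ItemB5
import Pool.Agent.Work.MP_8a95ee_gt.R.ItemB7a
import Pool.Agent.Work.MP_8a95ee_gt.R.ItemB10
import Pool.Agent.Work.MP_8a95ee_gt.Rk.I_T4
import Pool.Agent.Work.MP_8a95ee_gt.Rk.I_T5
import Pool.Agent.Work.MP_8a95ee_gt.Rk.I_L1
import Pool.Agent.Work.MP_8a95ee_gt.Rk.I_A5
import Pool.Agent.Work.MP_8a95ee_gt.Rk.I_D3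
import Pool.Agent.Work.MP_8a95ee_gt.Rk.I_F3a
import Pool.Agent.Work.MP_8a95ee_gt.Rk.I_E2b
import Pool.Agent.Work.MP_8a95ee_gt.Rk.I_A6b
import Pool.Agent.Work.MP_8a95ee_gt.Bd.B05

/-!
# Assembly of the block Rk without hypotheses
-/

set_option autoImplicit false

namespace MP8a95ee.Rk

theorem mainAll : S_Main := by
  have hU1 : S_U1 := U1P.prf
  have hU2 : S_U2 := U2P.prf hU1
  have hU3 : S_U3 := U3P.prf hU1 hU2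
  have hSg : S_Sg := SgP.prf
  have hT5 : S_T5 := T5P.prf hU1
  have hT4 : S_T4 := T4P.prf hU1 hT5
  have hT6 : S_T6 := T6P.prf hT5
  have hT2 : S_T2 := T2P.prf hT5
  have hT9 : S_T9 := T9P.prf hU1 hT5
  have hT1 : S_T1 := T1P.prf hU1 hU3 hSg hT5 hT2
  have hT3 : S_T3 := T3P.prf hU1 hU3 hT5
  have hE1 : S_E1 := E1P.prf
  have hE2 : S_E2 := E2B.prf hT4 (T8P.prf hU1)
  have hA1 : S_A1 := A1P.prf
  have hA3 : S_A3 := A3P.prf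
  have hA4 : S_A4 := A4P.prf
  have hA5 : S_A5 := A5P.prf
  have hA6 : S_A6 := A6B.prf
  have hA7 : S_A7 := A7P.prf
  have hC1 : S_C1 := C1P.prf
  have hC2 : S_C2 := C2P.prf hC1
  have hQ1 : S_Q1 := Q1P.prf hU1 hA3 RA.itemB4
  have hQ2 : S_Q2 := Q2P.prf
  have hQ3 : S_Q3 := Q3P.prf hA3 hA4
  have hQ4 : S_Q4 := Q4P.prf
  have hQ5 : S_Q5 := Q5P.prf hA1 hA3 hA4 hC1 hC2 hQ1 hQ2 hQ3 hQ4
  have hL1 : S_L1 := L1P.prf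
  have hD2 : S_D2 := D2P.prf
  have hD1 : S_D1 := D1P.prf hD2
  have hD3 : S_D3 := D3P.prf
  have hD4 : S_D4 := D4P.prf
  have hD5 : S_D5 := D5P.prf
  have hD6a : S_D6a := D6aP.prf
  have hD6 : S_D6 := D6P.prf hD4 hD6a
  have hD7 : S_D7 := D7P.prf hD5 hD6
  have hD8 : S_D8 := D8P.prf
  have hD9 : S_D9 := D9P.prf
  have hF3a : S_F3a := F3aP.prf hD1 hD2 hD3 hD5
  have hF1 : S_F1 := F1P.prf hT1 hT2 hT4 hT5 hA1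
  have hF2 : S_F2 := F2P.prf hE1 hT2 hT4 hT5 hT6 hA1 hA6 hF1
  have hF3 : S_F3 := F3P.prf hU1 hE2 hT2 hT3 hT4 hT9 hA1 hD2 hD3 hF3a hL1
  have hF4 : S_F4 := F4P.prf hU1 hT2 hT3 hA6 hA7 hD2 hF1 hF2 hF3
  have hF5 : S_F5 := F5P.prf hE1 hQ5 hA5 hA6 hC2 hT4 hT5 hT6 hL1
  have hF6 : S_F6 := F6P.prf hU1 hE2 hT4 hT9 hA3 hA5 hL1
  have hP1 : S_P1 := P1P.prf
  have hP2 : S_P2 := P2P.prf hP1 RA.prfA6 RA.itemB5 (RA.itemB7 RA.itemB7a)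
  exact Asm.asm hP2 O1P.prf hF4 hF5 hF6 hC2 hD1 hD2 hD3 hD7 hD8 hD9 RA.itemB10

end MP8a95ee.Rk
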