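import Pool.Agent.Work.MP_8a95ee_gt.Rk.Stmts2
import Pool.Agent.Work.MP_8a95ee_gt.Ref.All

/-!
# Assembly of the block Rk
-/

set_option autoImplicit false

namespace MP8a95ee.Rk.Asm

open RA Ref Ref.Basic

theorem mem_vt {K : Finset (Finset ℕ)} {x : ℕ} : x ∈ verts K ↔ ∃ σ ∈ K, x ∈ σ := by
  simp [verts]

theorem mem_sb {K : Finset (Finset ℕ)} {V σ : Finset ℕ} : σ ∈ sub K V ↔ σ ∈ K ∧ σ ⊆ V := by
  simp [sub]

theorem verts_sub {K : Finset (Finset ℕ)} (hK : IsCx K) {V : Finset ℕ} (hV : V ⊆ verts K) :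
    verts (sub K V) = V := by
  ext x
  rw [mem_vt]
  constructor
  · rintro ⟨σ, hσ, hx⟩
    exact (mem_sb.1 hσ).2 hx
  · intro hx
    obtain ⟨σ, hσ, hxσ⟩ := mem_vt.1 (hV hx)
    refine ⟨{x}, mem_sb.2 ⟨hK.2 σ hσ _ (Finset.singleton_subset_iff.2 hxσ), ?_⟩,
      Finset.mem_singleton_self x⟩
    exact Finset.singleton_subset_iff.2 hx

theorem mem_Kp {K : Finset (Finset ℕ)} {V : Finset ℕ} {z : ℕ} {s : Finset ℕ} :
    s ∈ Kp K V z ↔ s ∈ K ∨ ∃ t ∈ sub K V, insert z t = s := by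
  simp [Kp, Finset.mem_union, Finset.mem_image]

theorem cx_Kp {K : Finset (Finset ℕ)} (hK : IsCx K) (V : Finset ℕ) (z : ℕ) :
    IsCx (Kp K V z) := by
  refine ⟨mem_Kp.2 (Or.inl hK.1), ?_⟩
  intro σ hσ τ hτ
  rcases mem_Kp.1 hσ with h | ⟨t, ht, rfl⟩
  · exact mem_Kp.2 (Or.inl (hK.2 _ h _ hτ))
  · obtain ⟨ht1, ht2⟩ := mem_sb.1 ht
    by_cases hz : z ∈ τ
    · refine mem_Kp.2 (Or.inr ⟨τ.erase z, mem_sb.2 ⟨hK.2 _ ht1 _ ?_, ?_⟩,
        Finset.insert_erase hz⟩)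
      · intro x hx
        obtain ⟨hx1, hx2⟩ := Finset.mem_erase.1 hx
        exact (Finset.mem_insert.1 (hτ hx2)).resolve_left hx1
      · intro x hx
        obtain ⟨hx1, hx2⟩ := Finset.mem_erase.1 hx
        exact ht2 ((Finset.mem_insert.1 (hτ hx2)).resolve_left hx1)
    · refine mem_Kp.2 (Or.inl (hK.2 _ ht1 _ ?_))
      intro x hx
      refine (Finset.mem_insert.1 (hτ hx)).resolve_left ?_
      rintro rfl
      exact hz hx

theorem chi0 (hP2 : S_P2) (hO1 : S_O1) (hF4 : S_F4) (hF5 : S_F5) (hF6 : S_F6) (hC2 : S_C2)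
    (hD1 : S_D1) (hD2 : S_D2) (hD3 : S_D3) (hD7 : S_D7) (hD8 : S_D8) (hD9 : S_D9)
    (hB10 : RA.S_B10) (m : ℕ) (hm : 3 ≤ m) (hodd : Odd m) (K : Finset (Finset ℕ)) (hK : IsCx K)
    (V : Finset ℕ) (hV : V.Nonempty) (hVK : V ⊆ verts K) (hfl : IsFlag (sub K V))
    (hM : IsHMfdB K V (m + 1)) (o : (Fin (m + 1) → ℕ) → ℤ) (ho : IsOrient (sub K V) (m + 1) o)
    (c : (Fin (m + 2) → ℕ) → ℤ) (hc : IsRelCycle K (m + 1) o c)
    (hnz : ∀ t : Fin (m + 2) → ℕ, Function.Injective t → Finset.univ.image t ∈ K → c t ≠ 0)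
    (W Γ : Type) [DecidableEq W] [Group Γ] [MulAction Γ W] (π : W → ℕ) (Kt : Set (Finset W))
    (hcov : IsRegCover K W Γ π Kt) (hac : IsAcyclic π Kt)
    (hbd : Bounds (sub K V) o (KG (sub K V) fun _ => True)) : chiM K V = 0 := by
  obtain ⟨b, hb1, hb2⟩ := hP2 (sub K V) hfl m o ho hbd
  obtain ⟨X, rfl, rfl, hacX⟩ := hO1 K hK V hV hVK hfl W Γ π Kt hcov hac
  have D : Dat X m o c b := ⟨hm, hodd, hM, ho, hc, hnz, hb1, hb2, hacX⟩
  obtain ⟨Tp, hTp⟩ := hF4 X m o c b D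
  obtain ⟨e, he, hfin⟩ := hB10 X.L X.flag
  have hcs := hC2 X.K X.V X.z X.cx X.VK X.flag X.hz _ e he
  obtain ⟨-, h3b, h3c, h3d, -, -, -⟩ := hD3 X.K X.cx X.V X.VK X.z X.hz m hodd o ho c hc hnz
  have hYcx := cx_Kp X.cx X.V X.z
  have hsph : ∀ s ∈ Kp X.K X.V X.z, s.Nonempty → s ≠ {X.z} → IsSph (Kp X.K X.V X.z) (m + 2) s :=
    fun s hs h1 h2 => hD1 X.K X.cx X.V X.VK X.z X.hz (m + 1) hM s hs h1 h2
  have hpure : ∀ s ∈ Kp X.K X.V X.z, s.Nonempty → s ≠ {X.z} →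
      s.card ≤ m + 2 ∧ ∃ t ∈ Kp X.K X.V X.z, s ⊆ t ∧ t.card = m + 2 := by
    intro s hs h1 h2
    refine hD2 _ hYcx (m + 2) s hs fun t ht hst => hsph t ht (h1.mono hst) ?_
    rintro rfl
    rcases Finset.subset_singleton_iff.1 hst with h | h
    · exact h1.ne_empty h
    · exact h2 h
  obtain ⟨v, hv⟩ := X.Vne
  have hvz : v ≠ X.z := by
    rintro h
    exact X.hz (h ▸ X.VK hv)
  have hvK : ({v} : Finset ℕ) ∈ sub X.K X.V := by
    obtain ⟨σ, hσ, hvσ⟩ := mem_vt.1 (X.VK hv)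
    exact mem_sb.2 ⟨X.cx.2 σ hσ _ (Finset.singleton_subset_iff.2 hvσ),
      Finset.singleton_subset_iff.2 hv⟩
  have hzv : insert X.z ({v} : Finset ℕ) ∈ Kp X.K X.V X.z := mem_Kp.2 (Or.inr ⟨_, hvK, rfl⟩)
  have hzvp := hpure _ hzv (Finset.insert_nonempty _ _) (by
    intro h
    have : v ∈ ({X.z} : Finset ℕ) := h ▸ Finset.mem_insert_of_mem (Finset.mem_singleton_self v)
    exact hvz (Finset.mem_singleton.1 this))
  have hfac : ∀ s ∈ Kp X.K X.V X.z, ∃ t ∈ Kp X.K X.V X.z, s ⊆ t ∧ t.card = m + 2 := by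
    intro s hs
    rcases s.eq_empty_or_nonempty with rfl | h1
    · obtain ⟨t, ht, -, htc⟩ := hzvp.2
      exact ⟨t, ht, Finset.empty_subset _, htc⟩
    · by_cases h2 : s = {X.z}
      · obtain ⟨t, ht, hst, htc⟩ := hzvp.2
        refine ⟨t, ht, ?_, htc⟩
        rw [h2]
        exact (Finset.singleton_subset_iff.2 (Finset.mem_insert_self _ _)).trans hst
      · exact (hpure s hs h1 h2).2
  have hle : ∀ s ∈ Kp X.K X.V X.z, s.card ≤ m + 2 := by
    intro s hs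
    rcases s.eq_empty_or_nonempty with rfl | h1
    · exact Nat.zero_le _
    · by_cases h2 : s = {X.z}
      · rw [h2, Finset.card_singleton]
        omega
      · exact (hpure s hs h1 h2).1
  have hF0 : FF X.z e ∅ = ⊥ := by
    unfold FF
    rw [if_pos (Or.inl rfl)]
  have hFs : ∀ s ∈ Kp X.K X.V X.z, FF X.z e s ≠ ⊥ → IsSph (Kp X.K X.V X.z) (m + 2) s := by
    intro s hs h
    refine hsph s hs (Finset.nonempty_iff_ne_empty.2 ?_) ?_
    · rintro rfl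
      exact h hF0
    · rintro rfl
      apply h
      unfold FF
      rw [if_pos (Or.inr rfl)]
  have hex : ∀ φ : Finset ℕ → (Finset (verts X.L) → ℝ), IsCF (Kp X.K X.V X.z) (FF X.z e) φ →
      dF (Kp X.K X.V X.z) (rr X.z e) φ = 0 →
      ∃ ψ, IsCF (Kp X.K X.V X.z) (FF X.z e) ψ ∧ dF (Kp X.K X.V X.z) (rr X.z e) ψ = φ := by
    intro φ h1 h2
    obtain ⟨x, hx1, hx2, hx3⟩ := hF5 X m o c hacX Tp hTp _ e he φ h1 h2
    obtain ⟨xK, h3, h4⟩ := hF6 X m o c Tp hTp (fun t ht => (h3c t ht).1) _ e he φ h1 x hx1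
      hx2 hx3
    exact hD7 _ hYcx (m + 2) (cp X.z o c) h3b h3c h3d hle hfac _ _ _ hcs hF0 hFs φ h1 h2 xK h3 h4
  have h8 := hD8 _ hYcx _ (FF X.z e) (rr X.z e) hcs hex
  have h9 := hD9 X.K X.cx X.V X.VK X.z X.hz (Finset (verts X.L) → ℝ) e (by
    intro s hs
    rw [hfin s hs]
    have : verts X.L = X.V := verts_sub X.cx X.VK
    rw [this])
  rw [h8] at h9
  linarith

theorem asm (hP2 : S_P2) (hO1 : S_O1) (hF4 : S_F4) (hF5 : S_F5) (hF6 : S_F6) (hC2 : S_C2)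
    (hD1 : S_D1) (hD2 : S_D2) (hD3 : S_D3) (hD7 : S_D7) (hD8 : S_D8) (hD9 : S_D9)
    (hB10 : RA.S_B10) : S_Main := by
  intro m hm hodd K hK V hV hVK hfl hM o ho c hc hnz W Γ _ _ _ π Kt hcov hac
  have key : chiM K V ≠ 0 → ∃ C : ℝ, 0 < C ∧
      ∀ (X : Type) [TopologicalSpace X] (f : C(X, Mf K V)) (lam : ℝ)
        (z : SChain X (m + 1)) (w : SChain (Mf K V) (m + 2)),
        push f z = lam • fundCh K V c + bd w → C * |lam| ≤ l1 z := by
    intro hchi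
    have hnb : ¬ Bounds (sub K V) o (KG (sub K V) fun _ => True) := fun hb =>
      hchi (chi0 hP2 hO1 hF4 hF5 hF6 hC2 hD1 hD2 hD3 hD7 hD8 hD9 hB10 m hm hodd K hK V hV hVK
        hfl hM o ho c hc hnz W Γ π Kt hcov hac hb)
    obtain ⟨C, hC, hP⟩ := RA.P13.prf (sub K V) hfl m o ho hnb
    obtain ⟨g, -, lam0, w0, hlam0, hpush⟩ := pC6 K V hK hVK hfl m o ho c hc
    refine ⟨C * |lam0|, mul_pos hC (abs_pos.2 hlam0), ?_⟩
    intro X _ f lam z w hz
    have hcomp : push (g.comp f) z = push g (push f z) := by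
      unfold push
      rw [← Finsupp.mapDomain_comp]
      rfl
    have h1 := hP X (g.comp f) (lam * lam0) z (lam • w0 + push g w) (by
      rw [hcomp, hz, push_add]
      have hs : push g (lam • fundCh K V c) = lam • push g (fundCh K V c) := by
        unfold push
        exact Finsupp.mapDomain_smul _ _
      rw [hs, hpush, ← bd_push, bd_add, bd_smul, smul_add, smul_smul, add_assoc])
    rw [abs_mul] at h1
    calc C * |lam0| * |lam| = C * (|lam| * |lam0|) := by ring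
      _ ≤ l1 z := h1
  refine ⟨pC5 K V hK hVK m o ho c hc, ?_, key⟩
  intro hsmall
  by_contra hchi
  obtain ⟨C, hC, hP⟩ := key hchi
  obtain ⟨b, hb⟩ := hsmall C hC
  have h1 := hP (Mf K V) (ContinuousMap.id _) 1 (fundCh K V c + bd b) b (by
    unfold push
    have : (fun σ : SSimplex (Mf K V) (m + 1) => (ContinuousMap.id (Mf K V)).comp σ) = id := by
      funext σ
      exact ContinuousMap.id_comp σ
    rw [this, Finsupp.mapDomain_id, one_smul])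
  rw [abs_one, mul_one] at h1
  linarith

end MP8a95ee.Rk.Asm
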