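import Pool.Agent.Work.MP_8a95ee_gt.Ref.Defs

/-!
# Gromov's question for all manifolds of the reflection trick of Davis: definitions

`K` is a finite simplicial complex on natural numbers, `V` a set of vertices of `K`; the full
subcomplex `sub K V` is the boundary of `K`.  The space `Mf K V` is obtained from `2 ^ |V|` copies
of `K` by the reflection trick (see `Ref.Defs`).
-/

set_option autoImplicit false

namespace MP8a95ee.Rk

open Ref

/-- `(K, sub K V)` is a compact real homology manifold of dimension `n` with boundary: the link of a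
nonempty face which is not contained in the boundary has the reduced real homology of a sphere of
dimension `n - |s|`; the link in `K` of a nonempty face of the boundary has vanishing reduced real
homology, and its link in the boundary has the reduced real homology of a sphere of dimension
`n - 1 - |s|`. -/
structure IsHMfdB (K : Finset (Finset ℕ)) (V : Finset ℕ) (n : ℕ) : Prop where
  int : ∀ s ∈ K, s.Nonempty → ¬ s ⊆ V →
    (∀ k, s.card + k ≠ n + 1 → ∀ c, RA.LkChain K s k c → RA.bdS K c = 0 →
      ∃ c', RA.LkChain K s (k + 1) c' ∧ RA.bdS K c' = c) ∧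
    (∀ k, s.card + k = n + 1 → ∃ z, RA.LkChain K s k z ∧ RA.bdS K z = 0 ∧
      (¬ ∃ c', RA.LkChain K s (k + 1) c' ∧ RA.bdS K c' = z) ∧
      ∀ c, RA.LkChain K s k c → RA.bdS K c = 0 →
        ∃ (lam : ℝ) (c' : Finset ℕ → ℝ), RA.LkChain K s (k + 1) c' ∧ c = lam • z + RA.bdS K c')
  bdy : ∀ s ∈ K, s.Nonempty → s ⊆ V → ∀ k c, RA.LkChain K s k c → RA.bdS K c = 0 →
    ∃ c', RA.LkChain K s (k + 1) c' ∧ RA.bdS K c' = c
  bd : IsHMfd (sub K V) n

/-- `π : Kt → K` is a regular covering of simplicial complexes with group of deck transformations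
`Γ`.  `Kt` is a (possibly infinite) simplicial complex with the vertex set `W`; every face of `Kt` is
mapped injectively onto a face of `K`; every face of `K` which contains `π w`, `w` a vertex of `Kt`,
is the image of exactly one face of `Kt` which contains `w`; the group `Γ` acts on `Kt`, freely and
transitively on the set of vertices of `Kt` over each vertex of `K`. -/
structure IsRegCover (K : Finset (Finset ℕ)) (W Γ : Type) [DecidableEq W] [Group Γ]
    [MulAction Γ W] (π : W → ℕ) (Kt : Set (Finset W)) : Prop where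
  vert : ∀ w, {w} ∈ Kt
  down : ∀ σ ∈ Kt, ∀ τ ⊆ σ, τ ∈ Kt
  simp : ∀ σ ∈ Kt, σ.image π ∈ K ∧ Set.InjOn π (σ : Set W)
  surj : ∀ v ∈ verts K, ∃ w, π w = v
  lift : ∀ w, ∀ σ ∈ K, π w ∈ σ → ∃! σ' : Finset W, σ' ∈ Kt ∧ w ∈ σ' ∧ σ'.image π = σ
  act : ∀ (γ : Γ), ∀ σ ∈ Kt, σ.image (fun w => γ • w) ∈ Kt
  lab : ∀ (γ : Γ) (w : W), π (γ • w) = π w
  trans : ∀ w w' : W, π w = π w' → ∃ γ : Γ, γ • w = w'
  free : ∀ (γ : Γ) (w : W), γ • w = w → γ = 1

/-- The boundary operator on finite chains of a complex with vertex set `W` whose faces are mapped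
injectively to the natural numbers by `π`: the vertices of a face are ordered by their images under
`π`. -/
noncomputable def bdl {W : Type} [DecidableEq W] (π : W → ℕ) {M : Type} [AddCommGroup M]
    [Module ℝ M] : (Finset W →₀ M) →ₗ[ℝ] (Finset W →₀ M) :=
  Finsupp.lsum ℝ fun σ => ∑ a ∈ σ, RA.sg (π a) ((σ.erase a).image π) • Finsupp.lsingle (σ.erase a)

/-- The reduced real homology of `Kt` vanishes: every finite real chain of `Kt` (the empty face is
allowed) with boundary zero is the boundary of a finite chain of `Kt`. -/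
def IsAcyclic {W : Type} [DecidableEq W] (π : W → ℕ) (Kt : Set (Finset W)) : Prop :=
  ∀ c : Finset W →₀ ℝ, (∀ σ, c σ ≠ 0 → σ ∈ Kt) → bdl π c = 0 →
    ∃ c' : Finset W →₀ ℝ, (∀ σ, c' σ ≠ 0 → σ ∈ Kt) ∧ bdl π c' = c

/-- The main theorem: `K` is a compact real homology manifold of even dimension `n = m + 1 ≥ 4` with
boundary `sub K V` (flag), `o` an orientation of the boundary, `c` an orientation of `K` with
boundary `o`, and `K` has a regular covering with vanishing reduced real homology.  If the
fundamental cycle of the closed manifold `Mf K V` has `l1`-seminorm zero then the Euler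
characteristic of `Mf K V` is zero; if the Euler characteristic is not zero, there is a positive
lower bound for the norm of all cycles mapped to a multiple of the fundamental cycle. -/
def S_Main : Prop :=
  ∀ (m : ℕ) (_ : 3 ≤ m) (_ : Odd m) (K : Finset (Finset ℕ)) (_ : IsCx K) (V : Finset ℕ)
    (_ : V.Nonempty) (_ : V ⊆ verts K) (_ : IsFlag (sub K V)) (_ : IsHMfdB K V (m + 1))
    (o : (Fin (m + 1) → ℕ) → ℤ) (_ : IsOrient (sub K V) (m + 1) o)
    (c : (Fin (m + 2) → ℕ) → ℤ) (_ : IsRelCycle K (m + 1) o c)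
    (_ : ∀ t : Fin (m + 2) → ℕ, Function.Injective t → Finset.univ.image t ∈ K → c t ≠ 0)
    (W Γ : Type) [DecidableEq W] [Group Γ] [MulAction Γ W] (π : W → ℕ) (Kt : Set (Finset W))
    (_ : IsRegCover K W Γ π Kt) (_ : IsAcyclic π Kt),
    bd (fundCh K V c) = 0 ∧
    ((∀ ε : ℝ, 0 < ε → ∃ b : SChain (Mf K V) (m + 2), l1 (fundCh K V c + bd b) < ε) →
      chiM K V = 0) ∧
    (chiM K V ≠ 0 → ∃ C : ℝ, 0 < C ∧
      ∀ (X : Type) [TopologicalSpace X] (f : C(X, Mf K V)) (lam : ℝ)
        (z : SChain X (m + 1)) (w : SChain (Mf K V) (m + 2)),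
        push f z = lam • fundCh K V c + bd w → C * |lam| ≤ l1 z)

end MP8a95ee.Rk
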