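import Pool.Agent.Work.MP_8a95ee_gt.Rk.Stmts

set_option autoImplicit false

namespace MP8a95ee.Rk.C2P

open Ref RA

theorem mem_sub' {K : Finset (Finset ℕ)} {V σ : Finset ℕ} : σ ∈ sub K V ↔ σ ∈ K ∧ σ ⊆ V := by
  simp [sub]

theorem mem_verts' {K : Finset (Finset ℕ)} {x : ℕ} : x ∈ verts K ↔ ∃ σ ∈ K, x ∈ σ := by
  simp [verts]

theorem sub_down {K : Finset (Finset ℕ)} {V : Finset ℕ} (hK : IsCx K) {σ τ : Finset ℕ}
    (h : σ ∈ sub K V) (ht : τ ⊆ σ) : τ ∈ sub K V := by
  rw [mem_sub'] at h ⊢
  exact ⟨hK.2 σ h.1 τ ht, ht.trans h.2⟩

/-- faces of `Kp` which contain the cone point -/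
theorem kp_erase {K : Finset (Finset ℕ)} {V : Finset ℕ} {z : ℕ} (hz : z ∉ verts K)
    {s : Finset ℕ} (h : s ∈ Kp K V z) (hs : z ∈ s) : s.erase z ∈ sub K V := by
  rw [Kp, Finset.mem_union, Finset.mem_image] at h
  rcases h with h | ⟨t, ht, rfl⟩
  · exact absurd (mem_verts'.mpr ⟨s, h, hs⟩) hz
  · have : z ∉ t := fun hzt => hz (mem_verts'.mpr ⟨t, (mem_sub'.mp ht).1, hzt⟩)
    rwa [Finset.erase_insert this]

theorem pair_adj {K : Finset (Finset ℕ)} {V : Finset ℕ} (hK : IsCx K) {t : Finset ℕ}
    (ht : t ∈ sub K V) {a b : ℕ} (hab : a ≠ b) (ha : a ∈ t) (hb : b ∈ t) :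
    Adj (sub K V) a b :=
  ⟨hab, sub_down hK ht (by
    intro x hx
    rcases Finset.mem_insert.mp hx with rfl | hx
    · exact ha
    · rw [Finset.mem_singleton] at hx
      rwa [hx])⟩

theorem prf (h1 : S_C1) : S_C2 := by
  intro K V z hK hV hF hz N _ _ e he
  have hne : ∀ (a : ℕ) (s : Finset ℕ), a ∉ s → ¬ (s = ∅ ∨ s = {z}) →
      ¬ (insert a s = ∅ ∨ insert a s = {z}) := by
    intro a s _ hs h
    rcases h with h | h
    · exact Finset.insert_ne_empty a s h
    · have hsub : s ⊆ {z} := by rw [← h]; exact Finset.subset_insert a s
      exact hs (Finset.subset_singleton_iff.mp hsub)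
  constructor
  · intro a s has hins x hx
    by_cases hs : s = ∅ ∨ s = {z}
    · have : rr z e a s = 0 := by rw [rr, if_pos hs]
      rw [this, LinearMap.zero_apply]
      exact Submodule.zero_mem _
    · have hs' := hne a s has hs
      rw [rr, if_neg hs, FF, if_neg hs']
      rw [FF, if_neg hs] at hx
      by_cases haz : a = z
      · subst haz
        rw [if_pos rfl, if_pos (Finset.mem_insert_self a s), Finset.erase_insert has]
        have hsL : s ∈ sub K V := by
          have := kp_erase hz hins (Finset.mem_insert_self a s)
          rwa [Finset.erase_insert has] at this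
        exact (h1 (sub K V) hF N e he s hsL).1 x
      · rw [if_neg haz]
        by_cases hzs : z ∈ s
        · rw [if_pos hzs, if_pos (Finset.mem_insert_of_mem hzs)]
          rw [if_pos hzs] at hx
          have hL := kp_erase hz hins (Finset.mem_insert_of_mem hzs)
          intro b hb
          by_cases hba : b = a
          · subst hba
            exact he.idem b x
          · have hb' : b ∈ s.erase z := by
              rw [Finset.mem_erase] at hb ⊢
              exact ⟨hb.1, (Finset.mem_insert.mp hb.2).resolve_left hba⟩
            have hae : a ∈ (insert a s).erase z :=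
              Finset.mem_erase.mpr ⟨haz, Finset.mem_insert_self a s⟩
            rw [he.comm b a (pair_adj hK hL hba hb hae), hx b hb']
        · rw [if_neg hzs, if_neg (fun h => (Finset.mem_insert.mp h).elim (fun h => haz h.symm) hzs)]
          exact Submodule.mem_top
  · intro a b s hab has hbs hins x hx
    by_cases hs : s = ∅ ∨ s = {z}
    · rw [FF, if_pos hs, Submodule.mem_bot] at hx
      rw [hx]
      simp only [map_zero]
    · have hsa := hne a s has hs
      have hsb := hne b s hbs hs
      have e1 : ∀ (c : ℕ) (t : Finset ℕ), ¬ (t = ∅ ∨ t = {z}) → rr z e c t =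
          if c = z then eP e t else if z ∈ t then e c else LinearMap.id := by
        intro c t ht
        rw [rr, if_neg ht]
      rw [e1 a s hs, e1 b s hs, e1 b _ hsa, e1 a _ hsb]
      rw [FF, if_neg hs] at hx
      by_cases haz : a = z
      · subst haz
        rw [if_pos rfl, if_pos rfl, if_neg hab.symm, if_neg hab.symm,
          if_pos (Finset.mem_insert_self a s), if_neg has, LinearMap.id_apply]
        have hL : insert b s ∈ sub K V := by
          have := kp_erase hz hins (Finset.mem_insert_self a _)
          rwa [Finset.erase_insert (by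
            intro h
            rcases Finset.mem_insert.mp h with h | h
            · exact hab h
            · exact has h)] at this
        have hsL : s ∈ sub K V := sub_down hK hL (Finset.subset_insert b s)
        exact ((h1 (sub K V) hF N e he s hsL).2.2 b hbs hL x).1.symm
      · by_cases hbz : b = z
        · subst hbz
          rw [if_pos rfl, if_pos rfl, if_neg hab, if_neg hab,
            if_pos (Finset.mem_insert_self b s), if_neg hbs, LinearMap.id_apply]
          have hL : insert a s ∈ sub K V := by
            rw [Finset.insert_comm] at hins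
            have := kp_erase hz hins (Finset.mem_insert_self b _)
            rwa [Finset.erase_insert (by
              intro h
              rcases Finset.mem_insert.mp h with h | h
              · exact hab h.symm
              · exact hbs h)] at this
          have hsL : s ∈ sub K V := sub_down hK hL (Finset.subset_insert a s)
          exact ((h1 (sub K V) hF N e he s hsL).2.2 a has hL x).1
        · rw [if_neg haz, if_neg hbz, if_neg hbz, if_neg haz]
          by_cases hzs : z ∈ s
          · rw [if_pos hzs, if_pos hzs, if_pos (Finset.mem_insert_of_mem hzs),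
              if_pos (Finset.mem_insert_of_mem hzs)]
            have hL := kp_erase hz hins (Finset.mem_insert_of_mem (Finset.mem_insert_of_mem hzs))
            exact he.comm b a (pair_adj hK hL hab.symm
              (Finset.mem_erase.mpr ⟨hbz, Finset.mem_insert_of_mem (Finset.mem_insert_self b s)⟩)
              (Finset.mem_erase.mpr ⟨haz, Finset.mem_insert_self a _⟩)) x
          · have h2 : z ∉ insert a s := fun h =>
              (Finset.mem_insert.mp h).elim (fun h => haz h.symm) hzs
            have h3 : z ∉ insert b s := fun h =>
              (Finset.mem_insert.mp h).elim (fun h => hbz h.symm) hzs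
            rw [if_neg hzs, if_neg hzs, if_neg h2, if_neg h3]

end MP8a95ee.Rk.C2P
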