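import Pool.Agent.Work.MP_8a95ee_gt.Rk.Stmts2
import Pool.Agent.Work.MP_8a95ee_gt.R.Bas

/-!
# Item D3 of the block Rk: properties of the cycle `cp` (helper19)
-/

set_option autoImplicit false

namespace MP8a95ee.Rk.D3P

open Ref RA

theorem mem_verts {L : Finset (Finset ℕ)} {a : ℕ} : a ∈ verts L ↔ ∃ s ∈ L, a ∈ s := by
  simp [verts]

/-- the boundary in a subcomplex which contains the support -/
theorem bdS_mono {M Y : Finset (Finset ℕ)} (hv : verts M ⊆ verts Y) {c : Finset ℕ → ℝ}
    (hc : ∀ u, c u ≠ 0 → u ∈ M) : bdS Y c = bdS M c := by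
  funext t
  unfold bdS
  symm
  refine Finset.sum_subset (Finset.sdiff_subset_sdiff hv (le_refl t)) fun a ha ha' => ?_
  rw [Finset.mem_sdiff] at ha ha'
  have h0 : c (insert a t) = 0 := by
    by_contra h
    exact ha' ⟨mem_verts.2 ⟨_, hc _ h, Finset.mem_insert_self a t⟩, ha.2⟩
  rw [h0, mul_zero]

theorem image_enum {n : ℕ} {t : Finset ℕ} (h : t.card = n) :
    Finset.univ.image (t.orderEmbOfFin h : Fin n → ℕ) = t := by
  apply Finset.coe_injective
  rw [Finset.coe_image, Finset.coe_univ, Set.image_univ, Finset.range_orderEmbOfFin]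

/-- appending at the end against inserting at the front, odd number of entries after it -/
theorem snoc_cons {m : ℕ} (hm : Odd m) {c : (Fin (m + 2) → ℕ) → ℤ}
    (h : ∀ (s : Fin (m + 2) → ℕ) (i j : Fin (m + 2)), i ≠ j → c (s ∘ Equiv.swap i j) = - c s)
    (s : Fin (m + 1) → ℕ) (a : ℕ) :
    c (Fin.cons a s) = c (Fin.snoc (α := fun _ => ℕ) s a) := by
  have e1 : (Fin.snoc (α := fun _ => ℕ) s a : Fin (m + 2) → ℕ) =
      (Fin.cons a s : Fin (m + 2) → ℕ) ∘ (Fin.last (m + 1)).cycleRange := by
    rw [Fin.cons_comp_cycleRange a s (Fin.last (m + 1)), Fin.insertNth_last']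
  rw [e1, h61_perm h, Fin.sign_cycleRange]
  have h2 : Even (m + 1) := hm.add_one
  simp [h2.neg_one_pow]

theorem bd_c {K : Finset (Finset ℕ)} {m : ℕ} (hm : Odd m) {o : (Fin (m + 1) → ℕ) → ℤ}
    {c : (Fin (m + 2) → ℕ) → ℤ} (hc : IsRelCycle K (m + 1) o c) : bdS K (oF c) = oF o := by
  funext t
  unfold bdS
  by_cases ht : t.card = m + 1
  · have h1 : ∀ a ∈ verts K \ t, sg a t * oF c (insert a t) =
        (c (Fin.snoc (α := fun _ => ℕ) (t.orderEmbOfFin ht) a) : ℝ) := by
      intro a ha
      rw [h61_oFinsert hc.alt (Finset.mem_sdiff.1 ha).2 ht, ← mul_assoc, sg_sq, one_mul,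
        snoc_cons hm hc.alt]
    rw [Finset.sum_congr rfl h1]
    have h2 : ∑ a ∈ verts K \ t, (c (Fin.snoc (α := fun _ => ℕ) (t.orderEmbOfFin ht) a) : ℝ) =
        ∑ a ∈ verts K, (c (Fin.snoc (α := fun _ => ℕ) (t.orderEmbOfFin ht) a) : ℝ) := by
      refine Finset.sum_subset Finset.sdiff_subset ?_
      intro a haL ha
      have hat : a ∈ t := by
        by_contra h
        exact ha (Finset.mem_sdiff.2 ⟨haL, h⟩)
      have h3 : a ∈ Set.range (t.orderEmbOfFin ht) := by
        rw [Finset.range_orderEmbOfFin]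
        exact Finset.mem_coe.2 hat
      obtain ⟨i, hi⟩ := h3
      have h4 : c (Fin.snoc (α := fun _ => ℕ) (t.orderEmbOfFin ht) a) = 0 := by
        rw [← snoc_cons hm hc.alt]
        refine h61_noninj hc.alt _ (i := 0) (j := i.succ) (Fin.succ_ne_zero i).symm ?_
        rw [Fin.cons_zero, Fin.cons_succ, hi]
      rw [h4]
      norm_num
    rw [h2]
    have h5 := hc.bdry (t.orderEmbOfFin ht)
    unfold oF
    rw [dif_pos ht, ← h5]
    push_cast
    rfl
  · have h0 : oF o t = 0 := by
      unfold oF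
      rw [dif_neg ht]
    rw [h0]
    refine Finset.sum_eq_zero fun a ha => ?_
    have : oF c (insert a t) = 0 := by
      by_contra h0
      have := h61_oF_card h0
      rw [Finset.card_insert_of_notMem (Finset.mem_sdiff.1 ha).2] at this
      omega
    rw [this, mul_zero]

theorem prf : S_D3 := by
  intro K hK V hV z hz m hm o ho c hc hne
  have h5 : ∀ t, oF c t ≠ 0 → t ∈ K ∧ t.card = m + 2 := by
    intro t ht
    have h1 := h61_oF_card ht
    refine ⟨?_, h1⟩
    have h2 : c (t.orderEmbOfFin h1) ≠ 0 := by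
      intro h
      apply ht
      unfold oF
      rw [dif_pos h1, h]
      norm_num
    have h3 := hc.supp _ h2
    rwa [image_enum h1] at h3
  have h6 : ∀ t ∈ K, t.card = m + 2 → oF c t ≠ 0 := by
    intro t ht htc
    unfold oF
    rw [dif_pos htc]
    have h1 := hne (t.orderEmbOfFin htc) (t.orderEmbOfFin htc).injective
      (by rw [image_enum htc]; exact ht)
    exact_mod_cast h1
  have h7 : ∀ t, oF o t ≠ 0 → t ∈ sub K V ∧ t.card = m + 1 := by
    intro t ht
    have h1 := h61_oF_card ht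
    refine ⟨?_, h1⟩
    have h2 : o (t.orderEmbOfFin h1) ≠ 0 := by
      intro h
      apply ht
      unfold oF
      rw [dif_pos h1, h]
      norm_num
    have h3 := ho.2.1 _ h2
    rwa [image_enum h1] at h3
  have hzK : ∀ t ∈ K, z ∉ t := fun t ht h => hz (mem_verts.2 ⟨t, ht, h⟩)
  have hsub : ∀ t ∈ sub K V, t ∈ K := fun t ht => (Finset.mem_filter.1 ht).1
  have h1 : bdS K (oF c) = oF o := bd_c hm hc
  have hcyc : bdS (sub K V) (oF o) = 0 := h61_oFcycle ho
  have hKY : ∀ t ∈ K, t ∈ Kp K V z := fun t ht => Finset.mem_union_left _ ht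
  have hvK : verts K ⊆ verts (Kp K V z) := by
    intro a ha
    obtain ⟨s, hs, has⟩ := mem_verts.1 ha
    exact mem_verts.2 ⟨s, hKY s hs, has⟩
  have hvs : verts (sub K V) ⊆ verts (Kp K V z) := by
    intro a ha
    obtain ⟨s, hs, has⟩ := mem_verts.1 ha
    exact mem_verts.2 ⟨s, hKY s (hsub s hs), has⟩
  have hzY : z ∈ verts (Kp K V z) := by
    refine mem_verts.2 ⟨insert z ∅, ?_, Finset.mem_insert_self _ _⟩
    refine Finset.mem_union_right _ (Finset.mem_image.2 ⟨∅, ?_, rfl⟩)
    exact Finset.mem_filter.2 ⟨hK.1, Finset.empty_subset _⟩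
  have hcp : cp z o c = fun t => oF c t - coneS z (oF o) t := by
    funext t
    unfold cp coneS
    by_cases hzt : z ∈ t
    · rw [if_pos hzt, if_pos hzt]
      have : oF c t = 0 := by
        by_contra h
        exact hzK t (h5 t h).1 hzt
      rw [this, zero_sub]
    · rw [if_neg hzt, if_neg hzt, sub_zero]
  have h2 : bdS (Kp K V z) (cp z o c) = 0 := by
    have e1 : bdS (Kp K V z) (oF c) = oF o := by
      rw [bdS_mono hvK fun u hu => (h5 u hu).1, h1]
    have e2 : bdS (Kp K V z) (oF o) = 0 := by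
      rw [bdS_mono hvs fun u hu => (h7 u hu).1, hcyc]
    have e3 := bdS_coneS hzY (oF o)
    rw [hcp]
    funext t
    have e4 : bdS (Kp K V z) (fun t => oF c t - coneS z (oF o) t) t =
        bdS (Kp K V z) (oF c) t - bdS (Kp K V z) (coneS z (oF o)) t := by
      unfold bdS
      rw [← Finset.sum_sub_distrib]
      exact Finset.sum_congr rfl fun a _ => by ring
    rw [e4, e1, e3, e2]
    have e5 : coneS z (0 : Finset ℕ → ℝ) t = 0 := by
      unfold coneS
      split_ifs <;> simp
    change oF o t - (oF o t - coneS z 0 t) = 0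
    rw [e5]
    ring
  refine ⟨h1, h2, ?_, ?_, h5, h6, h7⟩
  · intro t ht
    unfold cp at ht
    by_cases hzt : z ∈ t
    · rw [if_pos hzt] at ht
      have h8 : oF o (t.erase z) ≠ 0 := by
        intro h
        apply ht
        rw [h]
        ring
      obtain ⟨h9, h10⟩ := h7 _ h8
      refine ⟨Finset.mem_union_right _ (Finset.mem_image.2 ⟨_, h9, Finset.insert_erase hzt⟩), ?_⟩
      rw [Finset.card_erase_of_mem hzt] at h10
      have := Finset.card_pos.2 ⟨z, hzt⟩
      omega
    · rw [if_neg hzt] at ht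
      exact ⟨hKY t (h5 t ht).1, (h5 t ht).2⟩
  · intro t ht htc
    unfold cp
    rcases Finset.mem_union.1 ht with h | h
    · rw [if_neg (hzK t h)]
      exact h6 t h htc
    · obtain ⟨s, hs, rfl⟩ := Finset.mem_image.1 h
      have hzs : z ∉ s := hzK s (hsub s hs)
      rw [if_pos (Finset.mem_insert_self _ _), Finset.erase_insert hzs]
      rw [Finset.card_insert_of_notMem hzs] at htc
      have h8 : oF o s ≠ 0 := h61_oF_ne ho hs (by omega)
      have h9 : sg z s ≠ 0 := by
        intro h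
        have := sg_sq z s
        rw [h] at this
        norm_num at this
      exact neg_ne_zero.2 (mul_ne_zero h9 h8)

end MP8a95ee.Rk.D3P
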