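import Pool.Agent.Work.MP_8a95ee_gt.Rk.Stmts2

/-!
# Block Rk, item D6a: the square of `dDF` vanishes
-/

set_option autoImplicit false

namespace MP8a95ee.Rk.D6aP

open Ref RA

section

variable {Y : Finset (Finset ℕ)} {N : Type} [AddCommGroup N] [Module ℝ N]
  (ρ : ℕ → Finset ℕ → N →ₗ[ℝ] N) (x : Finset ℕ → Finset ℕ → N)

theorem dneg {s u : Finset ℕ} (h : ¬ Disjoint s u) : dDF Y ρ x s u = 0 := by
  unfold dDF
  rw [if_neg h]

theorem dpos {s u : Finset ℕ} (h : Disjoint s u) : dDF Y ρ x s u =
    (∑ a ∈ s, sg a u • ρ a (s.erase a) (x (s.erase a) (insert a u)))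
      - ∑ a ∈ verts Y \ (s ∪ u), sg a u • x s (insert a u) := by
  unfold dDF
  rw [if_pos h]

end

theorem prf : S_D6a := by
  intro Y hY N _ _ F ρ hF x hx
  have hsupp : ∀ s u, x s u ≠ 0 → Disjoint s u ∧ s ∪ u ∈ Y := fun s u => (hx s u).1
  have hval : ∀ s u, x s u ∈ F s := fun s u => (hx s u).2
  have hcl : ∀ s u, dDF Y ρ x s u ≠ 0 → Disjoint s u ∧ s ∪ u ∈ Y := by
    intro s u h
    by_cases hd : Disjoint s u
    swap
    · rw [dneg ρ x hd] at h
      exact absurd rfl h
    refine ⟨hd, ?_⟩
    by_contra hcon
    apply h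
    rw [dpos ρ x hd]
    have h1 : ∑ a ∈ s, sg a u • ρ a (s.erase a) (x (s.erase a) (insert a u)) = 0 := by
      refine Finset.sum_eq_zero fun a ha => ?_
      by_cases h0 : x (s.erase a) (insert a u) = 0
      · rw [h0, map_zero, smul_zero]
      · have h3 := (hsupp _ _ h0).2
        rw [h61_eui ha] at h3
        exact absurd h3 hcon
    have h2 : ∑ a ∈ verts Y \ (s ∪ u), sg a u • x s (insert a u) = 0 := by
      refine Finset.sum_eq_zero fun a ha => ?_
      by_cases h0 : x s (insert a u) = 0
      · rw [h0, smul_zero]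
      · have h3 := (hsupp _ _ h0).2
        rw [Finset.union_insert] at h3
        exact absurd (hY.2 _ h3 _ (Finset.subset_insert _ _)) hcon
    rw [h1, h2, sub_zero]
  refine ⟨?_, ?_⟩
  · intro s u
    refine ⟨hcl s u, ?_⟩
    by_cases hd : Disjoint s u
    swap
    · rw [dneg ρ x hd]
      exact Submodule.zero_mem _
    rw [dpos ρ x hd]
    refine Submodule.sub_mem _ (Submodule.sum_mem _ fun a ha => ?_)
      (Submodule.sum_mem _ fun a _ => Submodule.smul_mem _ _ (hval _ _))
    refine Submodule.smul_mem _ _ ?_
    by_cases h0 : x (s.erase a) (insert a u) = 0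
    · rw [h0, map_zero]
      exact Submodule.zero_mem _
    · have h3 := (hsupp _ _ h0).2
      rw [h61_eui ha] at h3
      have hs : s ∈ Y := hY.2 _ h3 _ Finset.subset_union_left
      have h4 := hF.map a (s.erase a) (Finset.notMem_erase a s)
        (by rw [Finset.insert_erase ha]; exact hs) _ (hval (s.erase a) (insert a u))
      rwa [Finset.insert_erase ha] at h4
  · funext s u
    change dDF Y ρ (dDF Y ρ x) s u = 0
    by_cases hd : Disjoint s u
    swap
    · exact dneg ρ _ hd
    rw [dpos ρ _ hd]
    have hA : ∀ a ∈ s, sg a u • ρ a (s.erase a) (dDF Y ρ x (s.erase a) (insert a u)) =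
        (∑ b ∈ s.erase a, (sg a u * sg b (insert a u)) •
          ρ a (s.erase a) (ρ b ((s.erase a).erase b)
            (x ((s.erase a).erase b) (insert b (insert a u))))) -
        ∑ b ∈ verts Y \ (s ∪ u), (sg a u * sg b (insert a u)) •
          ρ a (s.erase a) (x (s.erase a) (insert b (insert a u))) := by
      intro a ha
      rw [dpos ρ _ (h61_dei hd), map_sub, map_sum, map_sum, smul_sub,
        Finset.smul_sum, Finset.smul_sum, h61_eui ha]
      congr 1
      · refine Finset.sum_congr rfl fun b _ => ?_
        rw [map_smul, smul_smul]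
      · refine Finset.sum_congr rfl fun b _ => ?_
        rw [map_smul, smul_smul]
    have hB : ∀ a ∈ verts Y \ (s ∪ u), sg a u • dDF Y ρ x s (insert a u) =
        (∑ b ∈ s, (sg a u * sg b (insert a u)) •
          ρ b (s.erase b) (x (s.erase b) (insert b (insert a u)))) -
        ∑ b ∈ (verts Y \ (s ∪ u)).erase a, (sg a u * sg b (insert a u)) •
          x s (insert b (insert a u)) := by
      intro a ha
      obtain ⟨has, hau⟩ := h61_out ha
      rw [dpos ρ _ (h61_di hd has), smul_sub, Finset.smul_sum, Finset.smul_sum]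
      have hset : verts Y \ (s ∪ insert a u) = (verts Y \ (s ∪ u)).erase a := by
        ext b
        simp only [Finset.mem_sdiff, Finset.mem_union, Finset.mem_insert, Finset.mem_erase]
        tauto
      rw [hset]
      congr 1
      · refine Finset.sum_congr rfl fun b _ => ?_
        rw [smul_smul]
      · refine Finset.sum_congr rfl fun b _ => ?_
        rw [smul_smul]
    rw [Finset.sum_congr rfl hA, Finset.sum_congr rfl hB, Finset.sum_sub_distrib,
      Finset.sum_sub_distrib]
    have h1 : ∑ a ∈ s, ∑ b ∈ s.erase a, (sg a u * sg b (insert a u)) •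
          ρ a (s.erase a) (ρ b ((s.erase a).erase b)
            (x ((s.erase a).erase b) (insert b (insert a u)))) = 0 := by
      refine h61_anti s _ fun a ha b hb hab => ?_
      have hau : a ∉ u := fun h => (Finset.disjoint_left.1 hd ha) h
      have hbu : b ∉ u := fun h => (Finset.disjoint_left.1 hd hb) h
      rw [h61_sign3 hau hbu hab, neg_smul, Finset.erase_right_comm (a := a) (b := b),
        Finset.insert_comm b a u]
      congr 2
      by_cases h0 : x ((s.erase b).erase a) (insert a (insert b u)) = 0
      · rw [h0]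
        simp
      · have h3 := (hsupp _ _ h0).2
        set r := (s.erase b).erase a with hr
        have har : a ∉ r := Finset.notMem_erase _ _
        have hbr : b ∉ r := fun h => by
          rw [hr] at h
          exact absurd (Finset.mem_of_mem_erase h) (Finset.notMem_erase _ _)
        have e1 : s.erase a = insert b r := by
          rw [hr, Finset.erase_right_comm, Finset.insert_erase]
          exact Finset.mem_erase.2 ⟨hab.symm, hb⟩
        have e2 : s.erase b = insert a r := by
          rw [hr, Finset.insert_erase]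
          exact Finset.mem_erase.2 ⟨hab, ha⟩
        rw [e1, e2]
        have hY2 : insert b (insert a r) ∈ Y := by
          refine hY.2 _ h3 _ ?_
          intro y hy
          simp only [Finset.mem_union, Finset.mem_insert] at hy ⊢
          tauto
        exact hF.comm b a r hab.symm hbr har hY2 _ (hval _ _)
    have h2 : ∑ a ∈ verts Y \ (s ∪ u), ∑ b ∈ (verts Y \ (s ∪ u)).erase a,
        (sg a u * sg b (insert a u)) • x s (insert b (insert a u)) = 0 := by
      refine h61_anti _ _ fun a ha b hb hab => ?_
      rw [h61_sign3 (h61_out ha).2 (h61_out hb).2 hab, neg_smul,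
        Finset.insert_comm b a u]
    have h3 : ∑ a ∈ verts Y \ (s ∪ u), ∑ b ∈ s, (sg a u * sg b (insert a u)) •
          ρ b (s.erase b) (x (s.erase b) (insert b (insert a u))) =
        -∑ a ∈ s, ∑ b ∈ verts Y \ (s ∪ u), (sg a u * sg b (insert a u)) •
          ρ a (s.erase a) (x (s.erase a) (insert b (insert a u))) := by
      rw [Finset.sum_comm, ← Finset.sum_neg_distrib]
      refine Finset.sum_congr rfl fun a ha => ?_
      rw [← Finset.sum_neg_distrib]
      refine Finset.sum_congr rfl fun b hb => ?_
      obtain ⟨hbs, hbu⟩ := h61_out hb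
      have hau : a ∉ u := fun h => (Finset.disjoint_left.1 hd ha) h
      have hne : b ≠ a := fun h => hbs (h ▸ ha)
      rw [h61_sign3 hbu hau hne, neg_smul, Finset.insert_comm b a u]
    rw [h1, h2, h3]
    simp

end MP8a95ee.Rk.D6aP
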