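import Pool.Agent.Work.MP_8a95ee_gt.Rk.Stmts

/-!
# Item E2 of the block Rk (helper38): local finiteness
-/

set_option autoImplicit false

namespace MP8a95ee.Rk.E2P

open Ref RA

theorem ad_smul (X : Cov) (γ : X.Γ) (a b : X.W) (h : X.Ad a b) : X.Ad (γ • a) (γ • b) := by
  obtain ⟨h1, h2⟩ := h
  refine ⟨fun h => h1 (MulAction.injective γ h), ?_⟩
  have := X.smK γ _ h2
  rwa [Finset.image_insert, Finset.image_singleton] at this

theorem om_smul (X : Cov) (γ : X.Γ) (α : Finset (X.W × X.W)) (h : X.Om α) : X.Om (X.tA γ α) := by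
  obtain ⟨hne, hp, hpq, v, hv, hvp⟩ := h
  refine ⟨hne.image _, ?_, ?_, γ • v, by rw [X.lab]; exact hv, ?_⟩
  · intro p hpm
    obtain ⟨q, hq, rfl⟩ := Finset.mem_image.1 hpm
    simpa only [X.lab] using hp q hq
  · intro p hpm q hqm hne'
    obtain ⟨p', hp', rfl⟩ := Finset.mem_image.1 hpm
    obtain ⟨q', hq', rfl⟩ := Finset.mem_image.1 hqm
    have hne2 : p' ≠ q' := by
      rintro rfl
      exact hne' rfl
    obtain ⟨a1, a2, a3, a4⟩ := hpq p' hp' q' hq' hne2
    exact ⟨ad_smul X γ _ _ a1, ad_smul X γ _ _ a2, ad_smul X γ _ _ a3, ad_smul X γ _ _ a4⟩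
  · intro p hpm
    obtain ⟨q, hq, rfl⟩ := Finset.mem_image.1 hpm
    exact ⟨ad_smul X γ _ _ (hvp q hq).1, ad_smul X γ _ _ (hvp q hq).2⟩

theorem tA_inj (X : Cov) (γ : X.Γ) : Function.Injective (X.tA γ) := by
  apply Finset.image_injective
  intro a b h
  simp only [Prod.mk.injEq] at h
  exact Prod.ext (MulAction.injective γ h.1) (MulAction.injective γ h.2)

theorem prf (h8 : S_T8) : S_E2 := by
  intro X M P _ sm h1 hmul x hx hfin p hp
  classical
  obtain ⟨R, hR⟩ := h8 X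
  choose! g hg using hR
  -- the finite set of possible values
  have hB : (⋃ r ∈ ((R.filter fun r => X.Om r : Finset _) : Set (Finset (X.W × X.W))),
      {q | x r q ≠ 0}).Finite := by
    apply Set.Finite.biUnion (Finset.finite_toSet _)
    intro r hr
    exact hfin r (Finset.mem_filter.1 (Finset.mem_coe.1 hr)).2
  have hF := (Finset.finite_toSet R).prod hB
  apply Set.Finite.of_injOn (f := fun α => (X.tA (g α) α, sm (g α) p)) ?_ ?_ hF
  · rintro α ⟨hα, hxα⟩
    refine ⟨Finset.mem_coe.2 (hg α hα), ?_⟩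
    simp only [Set.mem_iUnion]
    exact ⟨X.tA (g α) α, Finset.mem_coe.2 (Finset.mem_filter.2 ⟨hg α hα, om_smul X _ _ hα⟩),
      (hx (g α) α p hα).2 hxα⟩
  · rintro α ⟨hα, hxα⟩ β ⟨hβ, hxβ⟩ hab
    simp only [Prod.mk.injEq] at hab
    obtain ⟨hab1, hab2⟩ := hab
    have hg' : (g β)⁻¹ * g α = 1 := by
      apply hp
      rw [hmul, hab2, ← hmul, inv_mul_cancel, h1]
    have hg2 : g α = g β := by
      have := congrArg (fun t => g β * t) hg'
      simpa using this
    rw [hg2] at hab1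
    exact tA_inj X _ hab1

end MP8a95ee.Rk.E2P
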