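import Pool.Agent.Work.MP_8a95ee_gt.Rk.Stmts2

/-!
# Item F6 of the block Rk: the filling of `cp ∩ φ` downstairs
-/

set_option autoImplicit false

namespace MP8a95ee.Rk.F6P

open Ref RA MP8a95ee.Rk

lemma fs_eq {A M : Type*} [AddCommMonoid M] (P : A → Prop) (f : A → M) (T : Finset A)
    (h1 : ∀ a ∈ T, P a) (h2 : ∀ a, P a → f a ≠ 0 → a ∈ T) :
    ∑ᶠ (a : A) (_ : P a), f a = ∑ a ∈ T, f a := by
  apply finsum_mem_eq_sum_of_subset f (s := {a | P a})
  · rintro a ⟨h, h'⟩; exact h2 a h h'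
  · intro a ha; exact h1 a ha

section cov

variable (X : Cov)

lemma tS_one (t : Finset X.W) : X.tS 1 t = t := by simp [Cov.tS]

lemma tS_mul (g h : X.Γ) (t : Finset X.W) : X.tS (g * h) t = X.tS g (X.tS h t) := by
  simp only [Cov.tS, Finset.image_image]
  congr 1
  funext w
  exact mul_smul g h w

lemma tA_one (α : Finset (X.W × X.W)) : X.tA 1 α = α := by simp [Cov.tA]

lemma tA_mul (g h : X.Γ) (α : Finset (X.W × X.W)) : X.tA (g * h) α = X.tA g (X.tA h α) := by
  simp only [Cov.tA, Finset.image_image]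
  congr 1
  funext p
  simp [mul_smul]

lemma tS_inj (γ : X.Γ) : Function.Injective (X.tS γ) :=
  Finset.image_injective (MulAction.injective γ)

lemma tS_union (γ : X.Γ) (s u : Finset X.W) : X.tS γ (s ∪ u) = X.tS γ s ∪ X.tS γ u :=
  Finset.image_union _ _

lemma tS_filter (γ : X.Γ) (t : Finset X.W) (s : Finset ℕ) :
    (X.tS γ t).filter (fun y => X.π y ∈ s) = X.tS γ (t.filter fun y => X.π y ∈ s) := by
  simp only [Cov.tS, Finset.filter_image, X.lab]

lemma sm_inj (γ : X.Γ) :
    Function.Injective fun q : Finset X.W × Finset X.W => (X.tS γ q.1, X.tS γ q.2) := by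
  rintro ⟨a, b⟩ ⟨c, d⟩ h
  simp only [Prod.mk.injEq] at h
  rw [tS_inj X γ h.1, tS_inj X γ h.2]

lemma om1_tA (hT4 : S_T4) (γ : X.Γ) (α : Finset (X.W × X.W)) :
    X.Om1 (X.tA γ α) ↔ X.Om1 α := by
  have key : ∀ (γ : X.Γ) (α : Finset (X.W × X.W)), X.Om1 α → X.Om1 (X.tA γ α) := by
    intro γ α h
    obtain ⟨h1, _, _, _, _, _, h7⟩ := hT4 X γ α h.1
    exact ⟨h1, by rw [h7]; exact h.2⟩
  refine ⟨fun h => ?_, key γ α⟩
  have := key γ⁻¹ _ h
  rwa [← tA_mul, inv_mul_cancel, tA_one] at this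

lemma tA_bij (γ : X.Γ) : Function.Bijective (X.tA γ) := by
  refine ⟨?_, ?_⟩
  · intro a b h
    have : X.tA γ⁻¹ (X.tA γ a) = X.tA γ⁻¹ (X.tA γ b) := by rw [h]
    rwa [← tA_mul, ← tA_mul, inv_mul_cancel, tA_one, tA_one] at this
  · intro a
    exact ⟨X.tA γ⁻¹ a, by rw [← tA_mul, mul_inv_cancel, tA_one]⟩

/-- the faces over `Kp` -/
abbrev Xf0 : Set (Finset X.W) := X.Xf {x | X.π x ∈ X.V}

/-- faces to which the group acts freely -/
structure Good (t : Finset X.W) : Prop where
  mem : t ∈ Xf0 X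
  ne : t ≠ ∅
  nz : t ≠ {X.zz}

variable {X}

lemma Good.ins {t : Finset X.W} (h : Good X t) {y : X.W} (hy : y ∉ t)
    (hm : insert y t ∈ Xf0 X) : Good X (insert y t) := by
  refine ⟨hm, Finset.insert_ne_empty _ _, ?_⟩
  intro he
  have h1 : (insert y t).card = 1 := by rw [he]; exact Finset.card_singleton _
  rw [Finset.card_insert_of_notMem hy] at h1
  have : t.card = 0 := by omega
  exact h.ne (Finset.card_eq_zero.1 this)

end cov

section main

variable {X : Cov} {N : Type} [AddCommGroup N] [Module ℝ N]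

/-- the sum over all pairs -/
noncomputable def CC (x : Finset (X.W × X.W) → ((Finset X.W × Finset X.W) →₀ N))
    (q : Finset X.W × Finset X.W) : N :=
  ∑ᶠ (α : Finset (X.W × X.W)) (_ : X.Om1 α), x α q

variable {x : Finset (X.W × X.W) → ((Finset X.W × Finset X.W) →₀ N)}

lemma x_sm (heq : ∀ γ α, X.Om α →
      x (X.tA γ α) = (x α).mapDomain fun p => (X.tS γ p.1, X.tS γ p.2))
    (γ : X.Γ) (α : Finset (X.W × X.W)) (h : X.Om α) (q : Finset X.W × Finset X.W) :
    x (X.tA γ α) (X.tS γ q.1, X.tS γ q.2) = x α q := by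
  rw [heq γ α h]
  exact Finsupp.mapDomain_apply (sm_inj X γ) (x α) q

lemma fin1 (hE2 : S_E2) (hL1 : S_L1) (heq : ∀ γ α, X.Om α →
      x (X.tA γ α) = (x α).mapDomain fun p => (X.tS γ p.1, X.tS γ p.2))
    (q : Finset X.W × Finset X.W) (hq : Good X (q.1 ∪ q.2)) :
    {α | X.Om α ∧ x α q ≠ 0}.Finite := by
  refine hE2 X N (Finset X.W × Finset X.W) (fun γ q => (X.tS γ q.1, X.tS γ q.2)) ?_ ?_
    (fun α q => x α q) ?_ ?_ q ?_
  · rintro ⟨a, b⟩
    simp only [tS_one]
  · rintro g h ⟨a, b⟩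
    simp only [tS_mul]
  · intro γ α p h
    rw [x_sm heq γ α h p]
  · intro α _
    exact (x α).hasFiniteSupport
  · intro γ hγ
    apply (hL1 X).2.2.2.1 (q.1 ∪ q.2) hq.mem hq.ne hq.nz γ
    rw [tS_union]
    have h1 := congrArg Prod.fst hγ
    have h2 := congrArg Prod.snd hγ
    simp only at h1 h2
    rw [h1, h2]

lemma CC_sm (hT4 : S_T4) (heq : ∀ γ α, X.Om α →
      x (X.tA γ α) = (x α).mapDomain fun p => (X.tS γ p.1, X.tS γ p.2))
    (γ : X.Γ) (q : Finset X.W × Finset X.W) :
    CC x (X.tS γ q.1, X.tS γ q.2) = CC x q := by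
  unfold CC
  rw [← finsum_comp_equiv (Equiv.ofBijective _ (tA_bij X γ))]
  apply finsum_congr
  intro α
  classical
  rw [Equiv.ofBijective_apply, finsum_eq_if, finsum_eq_if]
  by_cases h : X.Om1 α
  · rw [if_pos h, if_pos ((om1_tA X hT4 γ α).2 h)]
    exact x_sm heq γ α h.1 q
  · rw [if_neg h, if_neg (fun hh => h ((om1_tA X hT4 γ α).1 hh))]

lemma CC_mem {F : Finset ℕ → Submodule ℝ N}
    (hx : ∀ α, X.Om α → ∀ q, x α q ∈ F (q.1.image X.π))
    (q : Finset X.W × Finset X.W) : CC x q ∈ F (q.1.image X.π) := by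
  unfold CC
  apply finsum_induction (fun y => y ∈ F (q.1.image X.π)) (Submodule.zero_mem _)
    (fun a b ha hb => Submodule.add_mem _ ha hb)
  intro α
  classical
  rw [finsum_eq_if]
  split_ifs with h
  · exact hx α h.1 q
  · exact Submodule.zero_mem _

open Classical in
lemma star (hE2 : S_E2) (hT9 : S_T9) (hA3 : S_A3) (hA5 : S_A5) (hL1 : S_L1)
    {m : ℕ} {o : (Fin (m + 1) → ℕ) → ℤ} {c : (Fin (m + 2) → ℕ) → ℤ}
    {Tp : Finset (X.W × X.W) → (Finset X.W →₀ ℝ)} (hTp : IsTp X m o c Tp)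
    {e : ℕ → N →ₗ[ℝ] N} {φ : Finset ℕ → N}
    (hnb : ∀ α, X.Om α → ∀ y ∈ X.nb α, X.π y ∈ X.V)
    (heq : ∀ γ α, X.Om α →
      x (X.tA γ α) = (x α).mapDomain fun p => (X.tS γ p.1, X.tS γ p.2))
    (hD : ∀ α, X.Om α → IsDt (X.Xf (X.nb α)) X.π (FF X.z e) (x α))
    (hb : ∀ α, X.Om α → dT X.π (rr X.z e) (x α) =
      capT X.π φ (Tp α) - ∑ β ∈ X.cov α, X.inc α β • x β)
    (s u : Finset X.W) (hsu : Disjoint s u) (hg : Good X (s ∪ u)) (S : Finset X.W)
    (hS : ∀ y, y ∈ S ↔ y ∉ s ∪ u ∧ insert y (s ∪ u) ∈ Xf0 X) :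
    ∑ a ∈ s, sg (X.π a) (u.image X.π) •
        rr X.z e (X.π a) ((s.erase a).image X.π) (CC x (s.erase a, insert a u)) -
      ∑ a ∈ S, sg (X.π a) (u.image X.π) • CC x (s, insert a u) =
    ((-1 : ℝ) ^ ((s.card + 1) * u.card) * sgg (s.image X.π) (u.image X.π) *
      cp X.z o c ((s ∪ u).image X.π)) • φ (s.image X.π) := by
  have hu1 : ∀ a ∈ s, s.erase a ∪ insert a u = s ∪ u := by
    intro a ha
    ext y
    simp only [Finset.mem_union, Finset.mem_erase, Finset.mem_insert]
    by_cases hy : y = a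
    · subst hy; simp [ha]
    · simp [hy]
  have hu2 : ∀ a, s ∪ insert a u = insert a (s ∪ u) := by
    intro a
    ext y
    simp only [Finset.mem_union, Finset.mem_insert]
    tauto
  have hg1 : ∀ a ∈ s, Good X (s.erase a ∪ insert a u) := by
    intro a ha
    rw [hu1 a ha]
    exact hg
  have hg2 : ∀ a ∈ S, Good X (s ∪ insert a u) := by
    intro a ha
    rw [hu2 a]
    exact hg.ins ((hS a).1 ha).1 ((hS a).1 ha).2
  have F1 : (⋃ a ∈ s, {α | X.Om α ∧ x α (s.erase a, insert a u) ≠ 0}).Finite :=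
    Set.Finite.biUnion s.finite_toSet fun a ha => fin1 hE2 hL1 heq _ (hg1 a ha)
  have F2 : (⋃ a ∈ S, {α | X.Om α ∧ x α (s, insert a u) ≠ 0}).Finite :=
    Set.Finite.biUnion S.finite_toSet fun a ha => fin1 hE2 hL1 heq _ (hg2 a ha)
  have F3 := (hTp.2.2.2 (s ∪ u) hg.mem).1
  have F5 : {β | X.Om β ∧ x β (s, u) ≠ 0}.Finite := fin1 hE2 hL1 heq (s, u) hg
  have T9 := hT9 X N (fun β => x β (s, u)) F5
  have hfin := ((F1.union F2).union F3).union T9.1
  set A : Finset (Finset (X.W × X.W)) := hfin.toFinset.filter X.Om1 with hA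
  have hA1 : ∀ α ∈ A, X.Om1 α := fun α h => (Finset.mem_filter.1 h).2
  have C1 : ∀ a ∈ s, CC x (s.erase a, insert a u) = ∑ α ∈ A, x α (s.erase a, insert a u) := by
    intro a ha
    apply fs_eq X.Om1 _ A hA1
    intro α h1 h2
    rw [hA, Finset.mem_filter, Set.Finite.mem_toFinset]
    refine ⟨Or.inl (Or.inl (Or.inl ?_)), h1⟩
    exact Set.mem_biUnion ha ⟨h1.1, h2⟩
  have C2 : ∀ a ∈ S, CC x (s, insert a u) = ∑ α ∈ A, x α (s, insert a u) := by
    intro a ha
    apply fs_eq X.Om1 _ A hA1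
    intro α h1 h2
    rw [hA, Finset.mem_filter, Set.Finite.mem_toFinset]
    refine ⟨Or.inl (Or.inl (Or.inr ?_)), h1⟩
    exact Set.mem_biUnion ha ⟨h1.1, h2⟩
  have C3 : ∑ α ∈ A, Tp α (s ∪ u) = cp X.z o c ((s ∪ u).image X.π) := by
    rw [← (hTp.2.2.2 (s ∪ u) hg.mem).2]
    symm
    apply fs_eq X.Om1 _ A hA1
    intro α h1 h2
    rw [hA, Finset.mem_filter, Set.Finite.mem_toFinset]
    exact ⟨Or.inl (Or.inr ⟨h1, h2⟩), h1⟩
  have C4 : ∑ α ∈ A, ∑ β ∈ X.cov α, X.inc α β • x β (s, u) = 0 := by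
    rw [← T9.2]
    symm
    apply fs_eq X.Om1 _ A hA1
    intro α h1 h2
    rw [hA, Finset.mem_filter, Set.Finite.mem_toFinset]
    exact ⟨Or.inr ⟨h1, h2⟩, h1⟩
  have hXf : ∀ α, X.Om α → X.Xf (X.nb α) ⊆ Xf0 X := fun α h =>
    (hL1 X).2.2.2.2.2.2.2 (X.nb α) (hnb α h)
  have key : ∀ α ∈ A, ∑ a ∈ s, sg (X.π a) (u.image X.π) •
        rr X.z e (X.π a) ((s.erase a).image X.π) (x α (s.erase a, insert a u)) -
      ∑ a ∈ S, sg (X.π a) (u.image X.π) • x α (s, insert a u) =
      ((-1 : ℝ) ^ ((s.card + 1) * u.card) * sgg (s.image X.π) (u.image X.π) *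
        Tp α (s ∪ u)) • φ (s.image X.π) - ∑ β ∈ X.cov α, X.inc α β • x β (s, u) := by
    intro α hα
    have hO : X.Om α := (hA1 α hα).1
    have h3 := (hA3 X.W X.π N (rr X.z e) (x α) (fun p hp => (((hD α hO) p).1 hp).1) s u).2 hsu S
      (by
        intro a ha hne
        rw [hS]
        refine ⟨ha, ?_⟩
        have := (((hD α hO) (s, insert a u)).1 hne).2
        have h4 := hXf α hO this
        simp only [hu2 a] at h4
        exact h4)
    have hSs : S \ (s ∪ u) = S := by
      rw [Finset.sdiff_eq_self_iff_disjoint, Finset.disjoint_left]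
      intro y hy
      exact ((hS y).1 hy).1
    rw [hSs] at h3
    rw [← h3, hb α hO, Finsupp.sub_apply, (hA5 X.W X.π N φ (Tp α)).1 s u, if_pos hsu,
      Finsupp.finsetSum_apply]
    simp only [Finsupp.smul_apply]
  have L1' : ∑ a ∈ s, sg (X.π a) (u.image X.π) •
        rr X.z e (X.π a) ((s.erase a).image X.π) (CC x (s.erase a, insert a u)) =
      ∑ α ∈ A, ∑ a ∈ s, sg (X.π a) (u.image X.π) •
        rr X.z e (X.π a) ((s.erase a).image X.π) (x α (s.erase a, insert a u)) := by
    rw [Finset.sum_comm]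
    apply Finset.sum_congr rfl
    intro a ha
    rw [C1 a ha, map_sum, Finset.smul_sum]
  have L2' : ∑ a ∈ S, sg (X.π a) (u.image X.π) • CC x (s, insert a u) =
      ∑ α ∈ A, ∑ a ∈ S, sg (X.π a) (u.image X.π) • x α (s, insert a u) := by
    rw [Finset.sum_comm]
    apply Finset.sum_congr rfl
    intro a ha
    rw [C2 a ha, Finset.smul_sum]
  rw [L1', L2', ← Finset.sum_sub_distrib, Finset.sum_congr rfl key, Finset.sum_sub_distrib, C4,
    sub_zero, ← Finset.sum_smul, ← Finset.mul_sum, C3]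

end main

theorem prf (hU1 : S_U1) (hE2 : S_E2) (hT4 : S_T4) (hT9 : S_T9) (hA3 : S_A3) (hA5 : S_A5)
    (hL1 : S_L1) : S_F6 := by
  classical
  intro X m o c Tp hTp hcp N _ _ e _ φ hφ x heq hD hb
  have hnb : ∀ α, X.Om α → ∀ y ∈ X.nb α, X.π y ∈ X.V := fun α _ y hy => hy.1
  have hlab : IsLab (Kp X.K X.V X.z) X.π (Xf0 X) :=
    (hL1 X).2.2.2.2.2.2.1 {x | X.π x ∈ X.V} (fun x hx => hx)
  have hlift := (hL1 X).1
  choose! L hLm hLi using hlift
  have hzz : ∀ w, X.π w = X.z → w = X.zz := by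
    intro w hw
    by_contra hne
    have := (hU1 X).2.2.2.2.2.1 w hne
    rw [hw] at this
    exact X.hz this
  have goodOf : ∀ t ∈ Xf0 X, t.image X.π ≠ ∅ → t.image X.π ≠ {X.z} → Good X t := by
    intro t ht h1 h2
    refine ⟨ht, ?_, ?_⟩
    · rintro rfl
      exact h1 (Finset.image_empty _)
    · rintro rfl
      apply h2
      rw [Finset.image_singleton, X.pz]
  have goodImg : ∀ t, Good X t → t.image X.π ∈ Kp X.K X.V X.z ∧ t.image X.π ≠ ∅ ∧
      t.image X.π ≠ {X.z} := by
    intro t ht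
    refine ⟨(hlab.simp t ht.mem).1, ?_, ?_⟩
    · intro h
      exact ht.ne (Finset.image_eq_empty.1 h)
    · intro h
      apply ht.nz
      have hsub : t ⊆ {X.zz} := by
        intro y hy
        have : X.π y ∈ t.image X.π := Finset.mem_image_of_mem _ hy
        rw [h, Finset.mem_singleton] at this
        rw [Finset.mem_singleton]
        exact hzz y this
      rcases Finset.subset_singleton_iff.1 hsub with h' | h'
      · exact absurd h' ht.ne
      · exact h'
  have filtImg : ∀ (t : Finset X.W) (v : Finset ℕ), v ⊆ t.image X.π →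
      (t.filter fun y => X.π y ∈ v).image X.π = v := by
    intro t v hv
    ext a
    simp only [Finset.mem_image, Finset.mem_filter]
    constructor
    · rintro ⟨y, ⟨_, h⟩, rfl⟩
      exact h
    · intro ha
      obtain ⟨y, hy, rfl⟩ := Finset.mem_image.1 (hv ha)
      exact ⟨y, ⟨hy, ha⟩, rfl⟩
  have kpdown : ∀ w ∈ Kp X.K X.V X.z, ∀ v ⊆ w, v ∈ Kp X.K X.V X.z := by
    intro w hw v hv
    have h1 : (L w).filter (fun y => X.π y ∈ v) ∈ Xf0 X :=
      hlab.down _ (hLm w hw) _ (Finset.filter_subset _ _)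
    have h2 := (hlab.simp _ h1).1
    rwa [filtImg (L w) v (by rw [hLi w hw]; exact hv)] at h2
  obtain ⟨xK, hxK⟩ : ∃ xK : Finset ℕ → Finset ℕ → N, ∀ s u, xK s u =
      if Disjoint s u ∧ s ∪ u ∈ Kp X.K X.V X.z ∧ s ∪ u ≠ ∅ ∧ s ∪ u ≠ {X.z} then
        CC x ((L (s ∪ u)).filter (fun y => X.π y ∈ s), (L (s ∪ u)).filter (fun y => X.π y ∈ u))
      else 0 := ⟨_, fun s u => rfl⟩
  have val : ∀ (s u : Finset ℕ) (t : Finset X.W), Disjoint s u → Good X t →
      t.image X.π = s ∪ u →
      xK s u = CC x (t.filter (fun y => X.π y ∈ s), t.filter (fun y => X.π y ∈ u)) := by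
    intro s u t hd ht hi
    obtain ⟨g1, g2, g3⟩ := goodImg t ht
    rw [hi] at g1 g2 g3
    rw [hxK, if_pos ⟨hd, g1, g2, g3⟩]
    obtain ⟨γ, hγ⟩ := (hL1 X).2.1 t ht.mem (L (s ∪ u)) (hLm _ g1) ht.ne ht.nz
      (by rw [hi, hLi _ g1])
    rw [← hγ, tS_filter, tS_filter]
    exact CC_sm hT4 heq γ (t.filter (fun y => X.π y ∈ s), t.filter (fun y => X.π y ∈ u))
  have hCm : ∀ q : Finset X.W × Finset X.W, CC x q ∈ FF X.z e (q.1.image X.π) :=
    CC_mem (F := FF X.z e) (fun α hα q => ((hD α hα) q).2)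
  have hDF : IsDF (Kp X.K X.V X.z) (FF X.z e) xK := by
    intro s u
    rw [hxK]
    split_ifs with h
    · refine ⟨fun _ => ⟨h.1, h.2.1⟩, ?_⟩
      have h1 := hCm ((L (s ∪ u)).filter (fun y => X.π y ∈ s),
        (L (s ∪ u)).filter (fun y => X.π y ∈ u))
      simp only at h1
      rwa [filtImg _ s (by rw [hLi _ h.2.1]; exact Finset.subset_union_left)] at h1
    · exact ⟨fun h' => absurd rfl h', Submodule.zero_mem _⟩
  refine ⟨xK, hDF, ?_⟩
  funext s u
  by_cases hd : Disjoint s u
  swap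
  · simp only [dDF, capU, if_neg hd]
  by_cases hs : s = ∅ ∨ s = {X.z}
  · have hbot : FF X.z e s = ⊥ := by simp only [FF, if_pos hs]
    have h1 : φ s = 0 := by
      have := (hφ s).2
      rwa [hbot, Submodule.mem_bot] at this
    have h2 : ∀ v, xK s v = 0 := by
      intro v
      have := (hDF s v).2
      rwa [hbot, Submodule.mem_bot] at this
    have h3 : ∀ a ∈ s, s.erase a = ∅ := by
      intro a ha
      rcases hs with rfl | rfl
      · simp at ha
      · rw [Finset.mem_singleton] at ha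
        subst ha
        simp
    simp only [dDF, capU, if_pos hd, h1, h2, smul_zero, Finset.sum_const_zero, sub_zero]
    apply Finset.sum_eq_zero
    intro a ha
    rw [h3 a ha]
    simp [rr]
  by_cases hw : s ∪ u ∈ Kp X.K X.V X.z
  swap
  · have h1 : cp X.z o c (s ∪ u) = 0 := by
      by_contra h
      exact hw (hcp _ h)
    simp only [dDF, capU, if_pos hd, h1, mul_zero, zero_smul]
    rw [Finset.sum_eq_zero, Finset.sum_eq_zero, sub_zero]
    · intro a _
      have : xK s (insert a u) = 0 := by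
        by_contra h
        exact hw (kpdown _ ((hDF s (insert a u)).1 h).2 _
          (Finset.union_subset_union_right (Finset.subset_insert _ _)))
      rw [this, smul_zero]
    · intro a ha
      have : xK (s.erase a) (insert a u) = 0 := by
        by_contra h
        have h' := ((hDF (s.erase a) (insert a u)).1 h).2
        have e1 : s.erase a ∪ insert a u = s ∪ u := by
          ext y
          simp only [Finset.mem_union, Finset.mem_erase, Finset.mem_insert]
          by_cases hy : y = a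
          · subst hy; simp [ha]
          · simp [hy]
        rw [e1] at h'
        exact hw h'
      rw [this, map_zero, smul_zero]
  -- the main case
  rw [not_or] at hs
  have hw1 : s ∪ u ≠ ∅ := by
    intro h
    exact hs.1 (Finset.union_eq_empty.1 h).1
  have hw2 : s ∪ u ≠ {X.z} := by
    intro h
    have : s ⊆ {X.z} := by rw [← h]; exact Finset.subset_union_left
    rcases Finset.subset_singleton_iff.1 this with h' | h'
    · exact hs.1 h'
    · exact hs.2 h'
  obtain ⟨t, ht, hti⟩ : ∃ t, Good X t ∧ t.image X.π = s ∪ u :=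
    ⟨L (s ∪ u), goodOf _ (hLm _ hw) (by rw [hLi _ hw]; exact hw1)
      (by rw [hLi _ hw]; exact hw2), hLi _ hw⟩
  have hinj : ∀ y ∈ t, ∀ y' ∈ t, X.π y = X.π y' → y = y' := fun y hy y' hy' h =>
    (hlab.simp t ht.mem).2 hy hy' h
  obtain ⟨s', hs'⟩ : ∃ s', s' = t.filter fun y => X.π y ∈ s := ⟨_, rfl⟩
  obtain ⟨u', hu'⟩ : ∃ u', u' = t.filter fun y => X.π y ∈ u := ⟨_, rfl⟩
  have hs'm : ∀ y, y ∈ s' ↔ y ∈ t ∧ X.π y ∈ s := by
    intro y; rw [hs', Finset.mem_filter]
  have hu'm : ∀ y, y ∈ u' ↔ y ∈ t ∧ X.π y ∈ u := by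
    intro y; rw [hu', Finset.mem_filter]
  have hs'i : s'.image X.π = s := by
    rw [hs']; exact filtImg t s (by rw [hti]; exact Finset.subset_union_left)
  have hu'i : u'.image X.π = u := by
    rw [hu']; exact filtImg t u (by rw [hti]; exact Finset.subset_union_right)
  have hcup : s' ∪ u' = t := by
    ext y
    rw [Finset.mem_union, hs'm, hu'm]
    constructor
    · rintro (h | h) <;> exact h.1
    · intro hy
      have : X.π y ∈ s ∪ u := by rw [← hti]; exact Finset.mem_image_of_mem _ hy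
      rcases Finset.mem_union.1 this with h | h
      · exact Or.inl ⟨hy, h⟩
      · exact Or.inr ⟨hy, h⟩
  have hdisj : Disjoint s' u' := by
    rw [Finset.disjoint_left]
    intro y h1 h2
    exact (Finset.disjoint_left.1 hd) ((hs'm y).1 h1).2 ((hu'm y).1 h2).2
  have hcs : s'.card = s.card := by
    rw [← hs'i]
    symm
    apply Finset.card_image_of_injOn
    intro a ha b hb' h
    exact hinj a ((hs'm a).1 ha).1 b ((hs'm b).1 hb').1 h
  have hcu : u'.card = u.card := by
    rw [← hu'i]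
    symm
    apply Finset.card_image_of_injOn
    intro a ha b hb' h
    exact hinj a ((hu'm a).1 ha).1 b ((hu'm b).1 hb').1 h
  have hSfin := (hL1 X).2.2.2.2.2.1 t ht.mem ht.ne ht.nz
  obtain ⟨S, hS⟩ : ∃ S : Finset X.W, ∀ y, y ∈ S ↔ y ∉ t ∧ insert y t ∈ Xf0 X :=
    ⟨hSfin.toFinset, fun y => by rw [Set.Finite.mem_toFinset]; rfl⟩
  have hstar := star hE2 hT9 hA3 hA5 hL1 hTp hnb heq hD hb s' u' hdisj (by rw [hcup]; exact ht) S
    (by intro y; rw [hcup]; exact hS y)
  rw [hcup, hs'i, hu'i, hti, hcs, hcu] at hstar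
  have hR : capU φ (cp X.z o c) s u = ((-1 : ℝ) ^ ((s.card + 1) * u.card) * sgg s u *
      cp X.z o c (s ∪ u)) • φ s := by
    simp only [capU, if_pos hd]
  rw [hR, ← hstar]
  simp only [dDF, if_pos hd]
  congr 1
  · -- the first sum
    have e1 : ∑ a ∈ s, sg a u • rr X.z e a (s.erase a) (xK (s.erase a) (insert a u)) =
        ∑ a ∈ s'.image X.π, sg a u • rr X.z e a (s.erase a) (xK (s.erase a) (insert a u)) := by
      rw [hs'i]
    rw [e1, Finset.sum_image (fun a ha b hb' h => hinj a ((hs'm a).1 ha).1 b ((hs'm b).1 hb').1 h)]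
    apply Finset.sum_congr rfl
    intro a ha
    obtain ⟨ha1, ha2⟩ := (hs'm a).1 ha
    have f1 : t.filter (fun y => X.π y ∈ s.erase (X.π a)) = s'.erase a := by
      ext y
      rw [Finset.mem_filter, Finset.mem_erase, Finset.mem_erase, hs'm]
      constructor
      · rintro ⟨h1, h2, h3⟩
        exact ⟨fun h => h2 (by rw [h]), h1, h3⟩
      · rintro ⟨h1, h2, h3⟩
        exact ⟨h2, fun h => h1 (hinj y h2 a ha1 h), h3⟩
    have f2 : t.filter (fun y => X.π y ∈ insert (X.π a) u) = insert a u' := by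
      ext y
      rw [Finset.mem_filter, Finset.mem_insert, Finset.mem_insert, hu'm]
      constructor
      · rintro ⟨h1, h2 | h2⟩
        · exact Or.inl (hinj y h1 a ha1 h2)
        · exact Or.inr ⟨h1, h2⟩
      · rintro (h | h)
        · subst h; exact ⟨ha1, Or.inl rfl⟩
        · exact ⟨h.1, Or.inr h.2⟩
    have f3 : (s'.erase a).image X.π = s.erase (X.π a) := by
      rw [← f1]
      apply filtImg
      rw [hti]
      exact (Finset.erase_subset _ _).trans Finset.subset_union_left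
    have f4 : t.image X.π = s.erase (X.π a) ∪ insert (X.π a) u := by
      rw [hti]
      ext y
      simp only [Finset.mem_union, Finset.mem_erase, Finset.mem_insert]
      by_cases hy : y = X.π a
      · subst hy; simp [ha2]
      · simp [hy]
    have f5 : Disjoint (s.erase (X.π a)) (insert (X.π a) u) := by
      rw [Finset.disjoint_left]
      intro y h1 h2
      rw [Finset.mem_erase] at h1
      rcases Finset.mem_insert.1 h2 with h | h
      · exact h1.1 h
      · exact (Finset.disjoint_left.1 hd) h1.2 h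
    rw [val _ _ t f5 ht f4, f1, f2, f3]
  · -- the second sum
    have g1 : ∀ y ∈ S, xK s (insert (X.π y) u) = CC x (s', insert y u') := by
      intro y hy
      obtain ⟨hy1, hy2⟩ := (hS y).1 hy
      have hgood := ht.ins hy1 hy2
      have hinj' := (hlab.simp _ hy2).2
      have hpy : X.π y ∉ s ∪ u := by
        rw [← hti]
        intro h
        obtain ⟨y', h1, h2⟩ := Finset.mem_image.1 h
        have : y' = y := hinj' (Finset.mem_coe.2 (Finset.mem_insert_of_mem h1))
          (Finset.mem_coe.2 (Finset.mem_insert_self _ _)) h2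
        exact hy1 (this ▸ h1)
      have f1 : (insert y t).filter (fun y => X.π y ∈ s) = s' := by
        ext w
        rw [Finset.mem_filter, Finset.mem_insert, hs'm]
        constructor
        · rintro ⟨h1 | h1, h2⟩
          · subst h1
            exact absurd (Finset.mem_union_left _ h2) hpy
          · exact ⟨h1, h2⟩
        · rintro ⟨h1, h2⟩
          exact ⟨Or.inr h1, h2⟩
      have f2 : (insert y t).filter (fun w => X.π w ∈ insert (X.π y) u) = insert y u' := by
        ext w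
        rw [Finset.mem_filter, Finset.mem_insert, Finset.mem_insert, Finset.mem_insert, hu'm]
        constructor
        · rintro ⟨h1 | h1, h2⟩
          · exact Or.inl h1
          · rcases h2 with h2 | h2
            · exfalso
              apply hpy
              rw [← h2, ← hti]
              exact Finset.mem_image_of_mem _ h1
            · exact Or.inr ⟨h1, h2⟩
        · rintro (h | h)
          · subst h; exact ⟨Or.inl rfl, Or.inl rfl⟩
          · exact ⟨Or.inr h.1, Or.inr h.2⟩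
      have f4 : (insert y t).image X.π = s ∪ insert (X.π y) u := by
        rw [Finset.image_insert, hti, Finset.union_insert]
      have f5 : Disjoint s (insert (X.π y) u) := by
        rw [Finset.disjoint_insert_right]
        exact ⟨fun h => hpy (Finset.mem_union_left _ h), hd⟩
      rw [val _ _ (insert y t) f5 hgood f4, f1, f2]
    have g2 : ∑ y ∈ S, sg (X.π y) u • CC x (s', insert y u') =
        ∑ a ∈ S.image X.π, sg a u • xK s (insert a u) := by
      rw [Finset.sum_image]
      · apply Finset.sum_congr rfl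
        intro y hy
        rw [g1 y hy]
      · intro y hy y' hy' h
        obtain ⟨hy1, hy2⟩ := (hS y).1 hy
        obtain ⟨hy1', hy2'⟩ := (hS y').1 hy'
        have hpy : X.π y ∉ t.image X.π := by
          intro h
          obtain ⟨w, h1, h2⟩ := Finset.mem_image.1 h
          have : w = y := (hlab.simp _ hy2).2 (Finset.mem_coe.2 (Finset.mem_insert_of_mem h1))
            (Finset.mem_coe.2 (Finset.mem_insert_self _ _)) h2
          exact hy1 (this ▸ h1)
        have hk : insert (X.π y) (t.image X.π) ∈ Kp X.K X.V X.z := by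
          have := (hlab.simp _ hy2).1
          rwa [Finset.image_insert] at this
        obtain ⟨w, _, hw'⟩ := (hL1 X).2.2.1 t ht.mem ht.ne ht.nz (X.π y) hpy hk
        rw [hw' y ⟨rfl, hy2⟩, hw' y' ⟨h.symm, hy2'⟩]
    rw [g2]
    symm
    apply Finset.sum_subset
    · intro a ha
      obtain ⟨y, hy, rfl⟩ := Finset.mem_image.1 ha
      obtain ⟨hy1, hy2⟩ := (hS y).1 hy
      rw [Finset.mem_sdiff]
      refine ⟨?_, ?_⟩
      · have := (hlab.simp _ hy2).1
        exact Finset.mem_biUnion.2 ⟨_, this,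
          Finset.mem_image_of_mem _ (Finset.mem_insert_self _ _)⟩
      · rw [← hti]
        intro h
        obtain ⟨w, h1, h2⟩ := Finset.mem_image.1 h
        have : w = y := (hlab.simp _ hy2).2 (Finset.mem_coe.2 (Finset.mem_insert_of_mem h1))
          (Finset.mem_coe.2 (Finset.mem_insert_self _ _)) h2
        exact hy1 (this ▸ h1)
    · intro a ha hna
      have ha2 : a ∉ t.image X.π := by
        rw [hti]
        exact (Finset.mem_sdiff.1 ha).2
      have : xK s (insert a u) = 0 := by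
        by_contra h
        have h1 := ((hDF s (insert a u)).1 h).2
        rw [Finset.union_insert, ← hti] at h1
        obtain ⟨y, ⟨hy1, hy2⟩, _⟩ := (hL1 X).2.2.1 t ht.mem ht.ne ht.nz a ha2 h1
        apply hna
        rw [← hy1]
        apply Finset.mem_image_of_mem
        rw [hS]
        refine ⟨?_, hy2⟩
        intro hyt
        apply ha2
        rw [← hy1]
        exact Finset.mem_image_of_mem _ hyt
      rw [this, smul_zero]

end MP8a95ee.Rk.F6P
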