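import Pool.Agent.Work.MP_8a95ee_gt.Rk.Stmts

/-!
# Item T3 of the block Rk: the sum of the `T α` over all pairs is the lift of `o`
-/

set_option autoImplicit false

namespace MP8a95ee.Rk.T3P

open Ref RA MP8a95ee.Rk

theorem ad_symm {X : Cov} {x y : X.W} (h : X.Ad x y) : X.Ad y x := by
  refine ⟨h.1.symm, ?_⟩
  rw [Finset.pair_comm]
  exact h.2

theorem adj_symm {L : Finset (Finset ℕ)} {a b : ℕ} (h : Adj L a b) : Adj L b a := by
  refine ⟨h.1.symm, ?_⟩
  rw [Finset.pair_comm]
  exact h.2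

theorem sg_ne (a : ℕ) (t : Finset ℕ) : sg a t ≠ 0 := by
  unfold sg
  exact pow_ne_zero _ (by norm_num)

/-- two different vertices of a face are adjacent -/
theorem ad_of_mem {X : Cov} {t : Finset X.W} (ht : t ∈ X.Kt) {x y : X.W} (hx : x ∈ t)
    (hy : y ∈ t) (hxy : x ≠ y) : X.Ad x y := by
  refine ⟨hxy, X.down t ht _ ?_⟩
  intro z hz
  rw [Finset.mem_insert, Finset.mem_singleton] at hz
  rcases hz with rfl | rfl
  · exact hx
  · exact hy

/-- a face with labels in `V` is a good lift -/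
theorem GL_face {X : Cov} (hv : verts X.L = X.V) {t : Finset X.W} (ht : t ∈ X.Kt)
    (htV : ∀ x ∈ t, X.π x ∈ X.V) : X.GL t := by
  classical
  obtain ⟨h1, h2⟩ := X.simp t ht
  refine ⟨h2, htV, ?_, ?_⟩
  · intro x hx y hy h
    exact ad_of_mem ht hx hy fun he => h.1 (by rw [he])
  · unfold KK
    rw [Finset.mem_filter, Finset.mem_powerset, hv]
    constructor
    · intro a ha
      obtain ⟨x, hx, rfl⟩ := Finset.mem_image.1 ha
      exact htV x hx
    · intro a ha
      have : ((t.image X.π).filter fun b => b ≠ a ∧ ({a, b} : Finset ℕ) ∉ X.L) = ∅ := by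
        rw [Finset.filter_eq_empty_iff]
        rintro b hb ⟨_, hb2⟩
        apply hb2
        unfold Cov.L sub
        have hsub : ({a, b} : Finset ℕ) ⊆ t.image X.π := by
          intro c hc
          rw [Finset.mem_insert, Finset.mem_singleton] at hc
          rcases hc with rfl | rfl
          · exact ha
          · exact hb
        rw [Finset.mem_filter]
        refine ⟨X.cx.2 _ h1 _ hsub, ?_⟩
        intro c hc
        obtain ⟨x, hx, rfl⟩ := Finset.mem_image.1 (hsub hc)
        exact htV x hx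
      rw [this]
      simp

theorem vs_single {W : Type} [DecidableEq W] (q : W × W) : vs {q} = {q.1, q.2} := by
  unfold vs
  rw [Finset.image_singleton, Finset.image_singleton]
  rfl

/-- the value of `Tc` for one pair -/
theorem Tc_single {X : Cov} (b : Finset ℕ → ℝ) (t : Finset X.W) (q : X.W × X.W) (x y : X.W)
    (hq : q = (x, y) ∨ q = (y, x)) (hC : X.Cmp {q} t) (hy : y ∈ t)
    (hx : X.π x ∉ t.image X.π) :
    X.Tc b {q} t = sg (X.π x) (t.image X.π) * b ((insert x t).image X.π) := by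
  classical
  unfold Cov.Tc
  rw [if_pos hC]
  have h1 : t ∪ vs {q} = insert x t := by
    rw [vs_single]
    ext z
    rcases hq with rfl | rfl
    · simp only [Finset.mem_union, Finset.mem_insert, Finset.mem_singleton]
      constructor
      · rintro (h | h | h)
        · exact Or.inr h
        · exact Or.inl h
        · exact Or.inr (h ▸ hy)
      · rintro (h | h)
        · exact Or.inr (Or.inl h)
        · exact Or.inl h
    · simp only [Finset.mem_union, Finset.mem_insert, Finset.mem_singleton]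
      constructor
      · rintro (h | h | h)
        · exact Or.inr h
        · exact Or.inr (h ▸ hy)
        · exact Or.inl h
      · rintro (h | h)
        · exact Or.inr (Or.inr h)
        · exact Or.inl h
  rw [h1]
  congr 1
  rw [Finset.image_singleton]
  unfold eps
  rw [Finset.prod_singleton]
  have h2 : (({Prod.map X.π X.π q} : Finset (ℕ × ℕ)).filter fun q' =>
      q'.1 < (Prod.map X.π X.π q).1) = ∅ := by
    rw [Finset.filter_eq_empty_iff]
    intro z hz
    rw [Finset.mem_singleton] at hz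
    rw [hz]
    exact lt_irrefl _
  rw [h2, Finset.image_empty, Finset.union_empty]
  congr 1
  unfold cc
  rcases hq with rfl | rfl
  · simp only [Prod.map_apply]
    rw [if_neg hx]
  · simp only [Prod.map_apply]
    rw [if_pos (Finset.mem_image_of_mem _ hy)]

/-- structure of the contributing pairs -/
theorem fwd {X : Cov} (h1 : S_U1) (h5 : S_T5) (m : ℕ) (b : Finset ℕ → ℝ)
    (hb : ∀ s, b s ≠ 0 → s ∈ KK X.L ∧ s.card = m + 2) (t : Finset X.W) (ht : t ∈ X.Kt)
    (htV : ∀ x ∈ t, X.π x ∈ X.V) (α : Finset (X.W × X.W)) (hO : X.Om1 α)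
    (hT : X.Tc b α t ≠ 0) :
    ∃ x y, x ∉ t ∧ y ∈ t ∧ ¬ X.Ad x y ∧ (α = {(x, y)} ∨ α = {(y, x)}) ∧
      (X.π x ≠ X.π y) ∧ X.bt b (insert x t) ≠ 0 ∧
      X.Tc b α t = sg (X.π x) (t.image X.π) * X.bt b (insert x t) := by
  classical
  obtain ⟨hOm, hc⟩ := hO
  obtain ⟨q, rfl⟩ := Finset.card_eq_one.1 hc
  have hC : X.Cmp {q} t := by
    by_contra h
    apply hT
    unfold Cov.Tc
    rw [if_neg h]
  obtain ⟨_, u2, u3, u4, u5, _, _⟩ := h1 X
  obtain ⟨_, _, _, _, _, _, f7⟩ := h5 X {q} hOm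
  obtain ⟨i1, _, _⟩ := f7 t hC
  obtain ⟨o1, o2, o3, o4⟩ := hOm.2.1 q (Finset.mem_singleton_self q)
  -- the two cases
  obtain ⟨x, y, hxt, hyt, hq, hVx, hVy, hna⟩ : ∃ x y, x ∉ t ∧ y ∈ t ∧ (q = (x, y) ∨ q = (y, x)) ∧
      X.π x ∈ X.V ∧ X.π y ∈ X.V ∧ ¬ Adj X.L (X.π x) (X.π y) := by
    rcases hC.2.2 q (Finset.mem_singleton_self q) with ⟨e1, e2⟩ | ⟨e1, e2⟩
    · exact ⟨q.2, q.1, e2, e1, Or.inr rfl, o3, o2, fun h => o4 (adj_symm h)⟩
    · exact ⟨q.1, q.2, e1, e2, Or.inl rfl, o2, o3, o4⟩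
  have hlab : X.π x ≠ X.π y := by
    rcases hq with rfl | rfl
    · exact o1.ne
    · exact o1.ne'
  have hvs : vs {q} = {x, y} := by
    rw [vs_single]
    rcases hq with rfl | rfl
    · rfl
    · exact Finset.pair_comm _ _
  have hun : t ∪ vs {q} = insert x t := by
    rw [hvs]
    ext z
    simp only [Finset.mem_union, Finset.mem_insert, Finset.mem_singleton]
    constructor
    · rintro (h | h | h)
      · exact Or.inr h
      · exact Or.inl h
      · exact Or.inr (h ▸ hyt)
    · rintro (h | h)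
      · exact Or.inr (Or.inl h)
      · exact Or.inl h
  rw [hun] at i1
  have hxi : X.π x ∉ t.image X.π := by
    intro h
    obtain ⟨z, hz, hzx⟩ := Finset.mem_image.1 h
    have := i1 (Finset.mem_coe.2 (Finset.mem_insert_of_mem hz))
      (Finset.mem_coe.2 (Finset.mem_insert_self x t)) hzx
    exact hxt (this ▸ hz)
  have hval := Tc_single b t q x y hq hC hyt hxi
  have hb0 : b ((insert x t).image X.π) ≠ 0 := by
    intro h
    rw [h, mul_zero] at hval
    exact hT hval
  have hnad : ¬ X.Ad x y := fun h => hna ((u4 x y h).2.2 hVx hVy)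
  -- vertices of `t` other than `y` are adjacent to `x`
  have hadj : ∀ z ∈ t, z ≠ y → X.Ad x z := by
    intro z hz hzy
    rcases (hC.2.1 z hz).2 with h | h
    · rw [hvs, Finset.mem_insert, Finset.mem_singleton] at h
      rcases h with rfl | h
      · exact absurd hz hxt
      · exact absurd h hzy
    · exact ad_symm (h x (by rw [hvs]; simp))
  have hGL : X.GL (insert x t) := by
    refine ⟨i1, ?_, ?_, (hb _ hb0).1⟩
    · intro z hz
      rcases Finset.mem_insert.1 hz with rfl | hz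
      · exact hVx
      · exact htV z hz
    · intro z hz w hw hzw
      have hne : z ≠ w := fun h => hzw.1 (by rw [h])
      rcases Finset.mem_insert.1 hz with hzx | hz2
      · rcases Finset.mem_insert.1 hw with hwx | hw2
        · exact absurd (hzx.trans hwx.symm) hne
        · rw [hzx] at hzw ⊢
          by_cases hwy : w = y
          · rw [hwy] at hzw
            exact absurd hzw hna
          · exact hadj w hw2 hwy
      · rcases Finset.mem_insert.1 hw with hwx | hw2
        · rw [hwx] at hzw ⊢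
          by_cases hzy : z = y
          · rw [hzy] at hzw
            exact absurd (adj_symm hzw) hna
          · exact ad_symm (hadj z hz2 hzy)
        · exact ad_of_mem ht hz2 hw2 hne
  have hbt : X.bt b (insert x t) = b ((insert x t).image X.π) := by
    unfold Cov.bt
    rw [if_pos hGL]
  refine ⟨x, y, hxt, hyt, hnad, ?_, hlab, ?_, ?_⟩
  · rcases hq with rfl | rfl
    · exact Or.inl rfl
    · exact Or.inr rfl
  · rw [hbt]
    exact hb0
  · rw [hbt]
    exact hval

/-- every extension of `t` comes from a pair -/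
theorem bwd {X : Cov} (h1 : S_U1) (m : ℕ) (hm : 3 ≤ m) (b : Finset ℕ → ℝ)
    (hb : ∀ s, b s ≠ 0 → s ∈ KK X.L ∧ s.card = m + 2) (hL : ∀ s ∈ X.L, s.card ≤ m + 1)
    (t : Finset X.W) (ht : t ∈ X.Kt) (htV : ∀ x ∈ t, X.π x ∈ X.V) (htc : t.card = m + 1)
    (x : X.W) (hx : x ∉ t) (hbt : X.bt b (insert x t) ≠ 0) :
    ∃ y ∈ t, ¬ X.Ad x y ∧ (∀ z ∈ t, ¬ X.Ad x z → z = y) ∧
      ∃ q : X.W × X.W, (q = (x, y) ∨ q = (y, x)) ∧ X.Om1 {q} ∧ X.Cmp {q} t ∧
        X.π x ∉ t.image X.π ∧ b ((insert x t).image X.π) ≠ 0 := by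
  classical
  obtain ⟨_, u2, u3, u4, u5, _, _⟩ := h1 X
  have hGL : X.GL (insert x t) := by
    by_contra h
    apply hbt
    unfold Cov.bt
    rw [if_neg h]
  have hb0 : b ((insert x t).image X.π) ≠ 0 := by
    unfold Cov.bt at hbt
    rwa [if_pos hGL] at hbt
  obtain ⟨hKK, hcard⟩ := hb _ hb0
  have hVx : X.π x ∈ X.V := hGL.2.1 x (Finset.mem_insert_self x t)
  have hxi : X.π x ∉ t.image X.π := by
    intro h
    obtain ⟨z, hz, hzx⟩ := Finset.mem_image.1 h
    have := hGL.1 (Finset.mem_coe.2 (Finset.mem_insert_of_mem hz))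
      (Finset.mem_coe.2 (Finset.mem_insert_self x t)) hzx
    exact hx (this ▸ hz)
  -- a nonadjacent vertex
  obtain ⟨y, hy, hxy⟩ : ∃ y ∈ t, ¬ X.Ad x y := by
    by_contra hc
    push Not at hc
    have hK : insert x t ∈ X.Kt := by
      apply u3
      · intro z hz
        exact hGL.2.1 z hz
      · intro z hz w hw hzw
        rcases Finset.mem_insert.1 hz with hzx | hz2
        · rcases Finset.mem_insert.1 hw with hwx | hw2
          · exact absurd (hzx.trans hwx.symm) hzw
          · rw [hzx]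
            exact hc w hw2
        · rcases Finset.mem_insert.1 hw with hwx | hw2
          · rw [hwx]
            exact ad_symm (hc z hz2)
          · exact ad_of_mem ht hz2 hw2 hzw
    have h2 : (insert x t).image X.π ∈ X.L := by
      unfold Cov.L sub
      rw [Finset.mem_filter]
      refine ⟨(X.simp _ hK).1, ?_⟩
      intro a ha
      obtain ⟨z, hz, rfl⟩ := Finset.mem_image.1 ha
      exact hGL.2.1 z hz
    have h3 := hL _ h2
    omega
  have hVy : X.π y ∈ X.V := htV y hy
  have hne : x ≠ y := fun h => hx (h ▸ hy)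
  have hlab : X.π x ≠ X.π y := fun h => hxi (h ▸ Finset.mem_image_of_mem _ hy)
  have hna : ∀ z ∈ t, ¬ X.Ad x z → ¬ Adj X.L (X.π x) (X.π z) := fun z hz h h' =>
    h (hGL.2.2.1 x (Finset.mem_insert_self x t) z (Finset.mem_insert_of_mem hz) h')
  have huniq : ∀ z ∈ t, ¬ X.Ad x z → z = y := by
    intro z hz hxz
    unfold KK at hKK
    rw [Finset.mem_filter] at hKK
    have h3 := hKK.2 (X.π x) (Finset.mem_image_of_mem _ (Finset.mem_insert_self x t))
    rw [Finset.card_le_one] at h3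
    have key : ∀ w ∈ t, ¬ X.Ad x w → X.π w ∈ (((insert x t).image X.π).filter fun c =>
        c ≠ X.π x ∧ ({X.π x, c} : Finset ℕ) ∉ X.L) := by
      intro w hw hxw
      rw [Finset.mem_filter]
      refine ⟨Finset.mem_image_of_mem _ (Finset.mem_insert_of_mem hw), ?_, ?_⟩
      · intro h
        exact hxi (h ▸ Finset.mem_image_of_mem _ hw)
      · intro h
        apply hna w hw hxw
        exact ⟨fun h' => hxi (h' ▸ Finset.mem_image_of_mem _ hw), h⟩
    have h4 := h3 _ (key z hz hxz) _ (key y hy hxy)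
    exact hGL.1 (Finset.mem_coe.2 (Finset.mem_insert_of_mem hz))
      (Finset.mem_coe.2 (Finset.mem_insert_of_mem hy)) h4
  have hadj : ∀ z ∈ t, z ≠ y → X.Ad x z := by
    intro z hz hzy
    by_contra h
    exact hzy (huniq z hz h)
  obtain ⟨v, hv, hvy⟩ : ∃ v ∈ t, v ≠ y := by
    apply Finset.exists_mem_ne
    omega
  -- the pair
  have main : ∀ q : X.W × X.W, (q = (x, y) ∨ q = (y, x)) → X.π q.1 < X.π q.2 →
      X.Om1 {q} ∧ X.Cmp {q} t := by
    intro q hq hlt
    have hvs : vs {q} = {x, y} := by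
      rw [vs_single]
      rcases hq with rfl | rfl
      · rfl
      · exact Finset.pair_comm _ _
    refine ⟨⟨⟨Finset.singleton_nonempty _, ?_, ?_, ?_⟩, Finset.card_singleton _⟩, ht, ?_, ?_⟩
    · intro p hp
      rw [Finset.mem_singleton] at hp
      subst hp
      rcases hq with rfl | rfl
      · exact ⟨hlt, hVx, hVy, hna y hy hxy⟩
      · exact ⟨hlt, hVy, hVx, fun h => hna y hy hxy (adj_symm h)⟩
    · intro p hp p' hp' hpp
      rw [Finset.mem_singleton] at hp hp'
      exact absurd (hp.trans hp'.symm) hpp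
    · refine ⟨v, htV v hv, ?_⟩
      intro p hp
      rw [Finset.mem_singleton] at hp
      subst hp
      rcases hq with rfl | rfl
      · exact ⟨ad_symm (hadj v hv hvy), ad_of_mem ht hv hy hvy⟩
      · exact ⟨ad_of_mem ht hv hy hvy, ad_symm (hadj v hv hvy)⟩
    · intro z hz
      refine ⟨htV z hz, ?_⟩
      rw [hvs]
      by_cases hzy : z = y
      · left
        rw [hzy]
        simp
      · right
        intro w hw
        rw [Finset.mem_insert, Finset.mem_singleton] at hw
        rcases hw with rfl | rfl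
        · exact ad_symm (hadj z hz hzy)
        · exact ad_of_mem ht hz hy hzy
    · intro p hp
      rw [Finset.mem_singleton] at hp
      subst hp
      rcases hq with rfl | rfl
      · exact Or.inr ⟨hx, hy⟩
      · exact Or.inl ⟨hy, hx⟩
  refine ⟨y, hy, hxy, huniq, ?_⟩
  rcases lt_or_gt_of_ne hlab with h | h
  · obtain ⟨g1, g2⟩ := main (x, y) (Or.inl rfl) h
    exact ⟨(x, y), Or.inl rfl, g1, g2, hxi, hb0⟩
  · obtain ⟨g1, g2⟩ := main (y, x) (Or.inr rfl) h
    exact ⟨(y, x), Or.inr rfl, g1, g2, hxi, hb0⟩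

theorem prf (h1 : S_U1) (h3 : S_U3) (h5 : S_T5) : S_T3 := by
  classical
  intro X m hm hodd o ho b hb hbd hL t ht htV htc
  obtain ⟨_, _, _, _, u5, _, _⟩ := h1 X
  have hGLt : X.GL t := GL_face u5 ht htV
  obtain ⟨hfin, hsum⟩ := h3 X m hm hodd o b hb hbd t hGLt htc
  set E : Set X.W := {x | x ∉ t ∧ X.bt b (insert x t) ≠ 0} with hE
  set s : Set (Finset (X.W × X.W)) := {α | X.Om1 α ∧ X.Tc b α t ≠ 0} with hs
  have hf : ∀ α : s, ∃ x y, x ∉ t ∧ y ∈ t ∧ ¬ X.Ad x y ∧ ((α : Finset (X.W × X.W)) = {(x, y)} ∨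
      (α : Finset (X.W × X.W)) = {(y, x)}) ∧ (X.π x ≠ X.π y) ∧ X.bt b (insert x t) ≠ 0 ∧
      X.Tc b α t = sg (X.π x) (t.image X.π) * X.bt b (insert x t) :=
    fun α => fwd h1 h5 m b hb t ht htV α α.2.1 α.2.2
  choose ex ey g1 g2 g3 g4 g5 g6 g7 using hf
  let e : Finset (X.W × X.W) → X.W := fun α => if h : α ∈ s then ex ⟨α, h⟩ else X.zz
  have he : ∀ α (h : α ∈ s), e α = ex ⟨α, h⟩ := fun α h => dif_pos h
  have hmaps : Set.MapsTo e s E := by
    intro α hα
    rw [he α hα]
    exact ⟨g1 _, g6 _⟩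
  have hinj : Set.InjOn e s := by
    intro α hα β hβ h
    rw [he α hα, he β hβ] at h
    have hy : ey ⟨α, hα⟩ = ey ⟨β, hβ⟩ := by
      obtain ⟨y, _, _, hu, _⟩ := bwd h1 m hm b hb hL t ht htV htc _ (g1 ⟨α, hα⟩) (g6 ⟨α, hα⟩)
      rw [hu _ (g2 ⟨α, hα⟩) (g3 _), hu _ (g2 ⟨β, hβ⟩) (by rw [h]; exact g3 _)]
    have ha := g4 ⟨α, hα⟩
    have hb' := g4 ⟨β, hβ⟩
    rw [← h, ← hy] at hb'
    simp only at ha hb'
    have oa : ∀ p ∈ α, X.π p.1 < X.π p.2 := fun p hp => (hα.1.1.2.1 p hp).1
    have ob : ∀ p ∈ β, X.π p.1 < X.π p.2 := fun p hp => (hβ.1.1.2.1 p hp).1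
    rcases ha with ha | ha <;> rcases hb' with hb' | hb'
    · rw [ha, hb']
    · have k1 := oa _ (by rw [ha]; exact Finset.mem_singleton_self _)
      have k2 := ob _ (by rw [hb']; exact Finset.mem_singleton_self _)
      exact absurd k1 (not_lt.2 k2.le)
    · have k1 := oa _ (by rw [ha]; exact Finset.mem_singleton_self _)
      have k2 := ob _ (by rw [hb']; exact Finset.mem_singleton_self _)
      exact absurd k1 (not_lt.2 k2.le)
    · rw [ha, hb']
  have hsurj : Set.SurjOn e s E := by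
    rintro x ⟨hx1, hx2⟩
    obtain ⟨y, hy, hxy, hu, q, hq, hO, hC, hxi, hb0⟩ :=
      bwd h1 m hm b hb hL t ht htV htc x hx1 hx2
    have hT := Tc_single b t q x y hq hC hy hxi
    have hα : ({q} : Finset (X.W × X.W)) ∈ s := by
      refine ⟨hO, ?_⟩
      rw [hT]
      exact mul_ne_zero (sg_ne _ _) hb0
    refine ⟨{q}, hα, ?_⟩
    rw [he _ hα]
    have k1 := g1 ⟨{q}, hα⟩
    have k2 := g4 ⟨{q}, hα⟩
    simp only [Finset.singleton_inj] at k2
    rcases hq with rfl | rfl
    · rcases k2 with k2 | k2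
      · exact (congrArg Prod.fst k2).symm
      · have : y = ex ⟨{(x, y)}, hα⟩ := congrArg Prod.snd k2
        exact absurd (this ▸ hy) k1
    · rcases k2 with k2 | k2
      · have : y = ex ⟨{(y, x)}, hα⟩ := congrArg Prod.fst k2
        exact absurd (this ▸ hy) k1
      · exact (congrArg Prod.snd k2).symm
  refine ⟨Set.Finite.of_injOn hmaps hinj hfin, ?_⟩
  have e1 : ∑ᶠ (α : Finset (X.W × X.W)) (_ : X.Om1 α), X.Tc b α t =
      ∑ᶠ α ∈ s, X.Tc b α t := by
    have k1 := finsum_mem_inter_support (fun α => X.Tc b α t) {α | X.Om1 α}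
    have k2 := finsum_mem_inter_support (fun α => X.Tc b α t) s
    have k3 : ({α | X.Om1 α} ∩ Function.support (fun α => X.Tc b α t) :
        Set (Finset (X.W × X.W))) = s ∩ Function.support (fun α => X.Tc b α t) := by
      ext α
      simp only [Set.mem_inter_iff, Function.mem_support, hs, Set.mem_setOf_eq]
      tauto
    rw [← k2, ← k3, k1]
    rfl
  have e2 : ∑ᶠ α ∈ s, X.Tc b α t =
      ∑ᶠ x ∈ E, sg (X.π x) (t.image X.π) * X.bt b (insert x t) := by
    refine finsum_mem_eq_of_bijOn e ⟨hmaps, hinj, hsurj⟩ ?_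
    intro α hα
    rw [he α hα]
    exact g7 ⟨α, hα⟩
  rw [e1, e2, finsum_mem_eq_finite_toFinset_sum _ hfin]
  have e3 := hsum hfin.toFinset (fun x hx1 hx2 => hfin.mem_toFinset.2 ⟨hx1, hx2⟩)
  rw [← e3]
  apply Finset.sum_congr _ fun _ _ => rfl
  ext x
  rw [Finset.mem_sdiff, hfin.mem_toFinset]
  constructor
  · intro h
    exact ⟨h, h.1⟩
  · intro h
    exact h.1

end MP8a95ee.Rk.T3P
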