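import Pool.Agent.Work.MP_8a95ee_gt.Rk.Defs

/-!
# Statements of the items of the block Rk (helper39)

Every item `NAME` goes to the file `Rk/I_<NAME>.lean`, namespace `MP8a95ee.Rk.<NAME>P`, and proves
`theorem prf (h1 : S_...) ... : S_<NAME>`; the hypotheses `h1, ...` may be any other items of this
file named in the docstring (and only those).  Basic sign lemmas: `RA.sg_sq`, `RA.sg_insert`,
`RA.sg_anti`, `RA.sg_anti'`, `RA.coneS`, `RA.bdS_coneS` in `R/Bas.lean`.
-/

set_option autoImplicit false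

namespace MP8a95ee.Rk

open Ref RA

/-! ## P. A chain of `KK L` with boundary `o` -/

/-- sets of vertices in which every vertex is nonadjacent to at most one other vertex -/
def KK (L : Finset (Finset ℕ)) : Finset (Finset ℕ) :=
  (verts L).powerset.filter fun s =>
    ∀ a ∈ s, (s.filter fun b => b ≠ a ∧ ({a, b} : Finset ℕ) ∉ L).card ≤ 1

/-- P1: extension of the map `ψ` (item B5 of the block R) to tuples of pair type, with values in the
chains of `KK L`.

PROOF. Recursion on `k`.  `ψ' (k+1) T := ψ (k+1) T` if `KG L (TrivP L) T`; otherwise, if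
`KG L (TrivP or PairP) T`, then `T` is in `FPQ L {a} {b}` for nonadjacent `a ≠ b`; let `u` be an
element of `{a, b}` which lies in `Wt T` (`T 0` contains `a` or `b`) and
`ψ' (k+1) T := coneS u (∑ i, (-1)^i • ψ' k (T ∘ i.succAbove))`.  If `t ∈ KK L` and `t ⊆ Wt T` then
`insert u t ∈ KK L`: every vertex of `Wt T` other than `a`, `b` is adjacent to `a` and to `b`.  The
chain in the cone is closed (for `k = 0` it is supported on `∅`; use `dsum` in `R/ItemB5.lean` and the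
third property for smaller `k`), so `bdS_coneS` gives the third property.  Faces of `L` are in `KK L`.
All faces `T ∘ i.succAbove` of a tuple in `KG L G` are in `KG L G` (`KG_comp`), `Wt_comp`. -/
def S_P1 : Prop := ∀ (L : Finset (Finset ℕ)) (_ : FlagC L)
  (ψ : ∀ k, (Fin k → Finset ℕ) → Finset ℕ → ℝ) (_ : IsPsi L ψ),
  ∃ ψ' : ∀ k, (Fin k → Finset ℕ) → Finset ℕ → ℝ,
    (∀ k (T : Fin k → Finset ℕ), KG L (TrivP L) T → ψ' k T = ψ k T) ∧
    (∀ k (T : Fin k → Finset ℕ), KG L (fun p => TrivP L p ∨ PairP L p) T → ∀ t, ψ' k T t ≠ 0 →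
      t ∈ KK L ∧ t ⊆ Wt T ∧ t.card = k) ∧
    (∀ k (T : Fin (k + 1) → Finset ℕ), KG L (fun p => TrivP L p ∨ PairP L p) T →
      bdS L (ψ' (k + 1) T) =
        ∑ i : Fin (k + 1), ((-1 : ℝ) ^ (i : ℕ)) • ψ' k fun j => T (i.succAbove j))

/-- P2: `o` bounds a chain of `KK L`.  May assume S_P1, RA.S_A6, RA.S_B5, RA.S_B7.

PROOF. By A6 there is `x` with support in `KG L (TrivP or PairP)` and `bdT x = zeta L o`.  Put
`b := (-2)^(-m) • linearCombination (fun T => ψ' (m+2) T) x`; then `bdS L b = (-2)^(-m) •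
linearCombination (ψ' (m+1)) (bdT x) = (-2)^(-m) • linearCombination (ψ (m+1)) (zeta L o) = oF o` by
B7 (all tuples in the support of `zeta L o` with nonzero coefficient have a common vertex and entries in
`L`, so they are in `KG L (TrivP L)`; compare the proof of item B9 in `R/ItemB9.lean`). -/
def S_P2 : Prop := ∀ (L : Finset (Finset ℕ)) (_ : FlagC L) (m : ℕ)
  (o : (Fin (m + 1) → ℕ) → ℤ) (_ : IsOrient L (m + 1) o) (_ : Bounds L o (KG L fun _ => True)),
  ∃ b : Finset ℕ → ℝ, (∀ s, b s ≠ 0 → s ∈ KK L ∧ s.card = m + 2) ∧ bdS L b = oF o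

/-! ## The covering with a cone point -/

/-- A regular covering `Kt → K` with the group `Γ`, together with an additional point `zz` of `W`
(the cone point) which is fixed by `Γ` and has the label `z`. -/
structure Cov where
  K : Finset (Finset ℕ)
  V : Finset ℕ
  z : ℕ
  W : Type
  Γ : Type
  [dW : DecidableEq W]
  [grp : Group Γ]
  [act : MulAction Γ W]
  π : W → ℕ
  zz : W
  Kt : Set (Finset W)
  cx : IsCx K
  VK : V ⊆ verts K
  Vne : V.Nonempty
  flag : FlagC (sub K V)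
  hz : z ∉ verts K
  pz : π zz = z
  down : ∀ σ ∈ Kt, ∀ τ ⊆ σ, τ ∈ Kt
  emp : ∅ ∈ Kt
  vert : ∀ w, w ≠ zz → {w} ∈ Kt
  simp : ∀ σ ∈ Kt, σ.image π ∈ K ∧ Set.InjOn π (σ : Set W)
  surj : ∀ v ∈ verts K, ∃ w, π w = v
  lift : ∀ w, w ≠ zz → ∀ σ ∈ K, π w ∈ σ →
    ∃! σ' : Finset W, σ' ∈ Kt ∧ w ∈ σ' ∧ σ'.image π = σ
  smz : ∀ γ : Γ, γ • zz = zz
  smK : ∀ (γ : Γ), ∀ σ ∈ Kt, σ.image (fun w => γ • w) ∈ Kt
  lab : ∀ (γ : Γ) (w : W), π (γ • w) = π w
  trans : ∀ w w' : W, π w = π w' → ∃ γ : Γ, γ • w = w'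
  free : ∀ (γ : Γ) (w : W), w ≠ zz → γ • w = w → γ = 1

attribute [instance] Cov.dW Cov.grp Cov.act

/-- the boundary downstairs -/
def Cov.L (X : Cov) : Finset (Finset ℕ) := sub X.K X.V

/-- adjacent vertices upstairs -/
def Cov.Ad (X : Cov) (x y : X.W) : Prop := x ≠ y ∧ ({x, y} : Finset X.W) ∈ X.Kt

/-- good lifts of the faces of `KK L` -/
def Cov.GL (X : Cov) (s : Finset X.W) : Prop :=
  Set.InjOn X.π (s : Set X.W) ∧ (∀ x ∈ s, X.π x ∈ X.V) ∧
    (∀ x ∈ s, ∀ y ∈ s, Adj X.L (X.π x) (X.π y) → X.Ad x y) ∧ s.image X.π ∈ KK X.L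

open Classical in
/-- the lift of the chain `b` -/
noncomputable def Cov.bt (X : Cov) (b : Finset ℕ → ℝ) (s : Finset X.W) : ℝ :=
  if X.GL s then b (s.image X.π) else 0

/-- U1: lifting of edges, triangles and cliques.

PROOF. `w ∈ W`, `w ≠ zz` has `π w ∈ verts K` (`vert`, `simp`), no face of `Kt` contains `zz` (`hz`).
(1) existence: the lift `σ'` of `{π w, a}` at `w` contains `y` with `π y = a`, `{w, y} ⊆ σ'`;
uniqueness: if `{w, y} ∈ Kt`, `π y = a`, then `{w, y}` is a lift of `{π w, a}` at `w`; two of them are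
equal, and `π` is injective on it.
(2) the lift `σ'` of `{π w, π x, π y}` at `w` contains `x'` with `π x' = π x` and `{w, x'} ∈ Kt`, so
`x' = x` by (1); the same for `y`.
(3) `t` nonempty, `v ∈ t`: `t.image π` has all pairs in `sub K V`, so it is in `K` (flag); its lift at
`v` contains every `x ∈ t` by (1), so `t ⊆ σ'`.
(4) `simp`. -/
def S_U1 : Prop := ∀ (X : Cov),
  (∀ w, w ≠ X.zz → ∀ a, ({X.π w, a} : Finset ℕ) ∈ X.K →
    ∃! y, X.π y = a ∧ ({w, y} : Finset X.W) ∈ X.Kt) ∧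
  (∀ w x y, ({w, x} : Finset X.W) ∈ X.Kt → ({w, y} : Finset X.W) ∈ X.Kt →
    ({X.π w, X.π x, X.π y} : Finset ℕ) ∈ X.K → ({w, x, y} : Finset X.W) ∈ X.Kt) ∧
  (∀ t : Finset X.W, (∀ x ∈ t, X.π x ∈ X.V) → (∀ x ∈ t, ∀ y ∈ t, x ≠ y → X.Ad x y) → t ∈ X.Kt) ∧
  (∀ x y, X.Ad x y → X.π x ≠ X.π y ∧ ({X.π x, X.π y} : Finset ℕ) ∈ X.K ∧
    (X.π x ∈ X.V → X.π y ∈ X.V → Adj X.L (X.π x) (X.π y))) ∧
  verts X.L = X.V ∧ (∀ w, w ≠ X.zz → X.π w ∈ verts X.K) ∧ (∀ t ∈ X.Kt, X.zz ∉ t)

/-- U2: unique extension of good lifts of size `m + 1`, `m ≥ 3` odd.  May assume S_U1.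

PROOF. `s := insert a (t.image π)` is in `KK L` and has `m + 2` elements (odd), so it has an element
`v` which is adjacent (`Adj L`) to all other elements of `s` (otherwise the map which takes an
element to the other element which is not adjacent to it is a fixed point free involution of `s`).
Uniqueness in all cases: take `w ∈ t` with `Adj L (π w) a` (there is one, `t` has at least 2
elements and `a` has at most one nonadjacent element in `s`); `GL (insert x t)` gives `Ad w x`, so `x`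
is determined by U1 (1).
Existence.  Case `v = π w`, `w ∈ t`: let `x` be the lift of `a` at `w`; for `y ∈ t`, `y ≠ w` with
`Adj L a (π y)`: `{π w, π y, a}` is a clique, so in `L`, `Ad w y` since `GL t`, so `{w, y, x} ∈ Kt` by
U1 (2), so `Ad x y`.  Case `v = a`: choose any `w ∈ t`, `x` the lift of `a` at `w`.  For `y ∈ t` with
`Adj L (π w) (π y)` we get `Ad x y` as before.  There is at most one other `y ∈ t`, `y ≠ w`
(nonadjacent to `w`); choose `y' ∈ t` different from `w` and `y` (`t` has at least 4 elements); `y'`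
is adjacent to `w` and to `y` (each element of `s` has at most one nonadjacent element), so `Ad x y'`,
and then `Ad x y` from the triangle `{π y', π y, a}` at `y'`.
Then `GL (insert x t)`: injectivity because `a ∉ t.image π`. -/
def S_U2 : Prop := ∀ (X : Cov) (m : ℕ) (_ : 3 ≤ m) (_ : Odd m) (t : Finset X.W) (_ : X.GL t)
  (_ : t.card = m + 1) (a : ℕ) (_ : a ∉ t.image X.π) (_ : insert a (t.image X.π) ∈ KK X.L),
  ∃! x, X.π x = a ∧ X.GL (insert x t)

/-- U3: the boundary of the lift of `b`.  May assume S_U1, S_U2.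

PROOF. `x ↦ π x` is a bijection from `{x ∉ t | GL (insert x t)}` to the set of `a ∉ t.image π` with
`insert a (t.image π) ∈ KK L` (U2; `GL (insert x t)` implies `(insert x t).image π =
insert (π x) (t.image π) ∈ KK L` and `π x ∉ t.image π`), and `bt b (insert x t) =
b (insert (π x) (t.image π))`.  So the sum is `bdS L b (t.image π)` (`verts L = V`). -/
def S_U3 : Prop := ∀ (X : Cov) (m : ℕ) (_ : 3 ≤ m) (_ : Odd m) (o : (Fin (m + 1) → ℕ) → ℤ)
  (b : Finset ℕ → ℝ) (_ : ∀ s, b s ≠ 0 → s ∈ KK X.L ∧ s.card = m + 2) (_ : bdS X.L b = oF o)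
  (t : Finset X.W) (_ : X.GL t) (_ : t.card = m + 1),
  {x | x ∉ t ∧ X.bt b (insert x t) ≠ 0}.Finite ∧
  ∀ (S : Finset X.W), (∀ x, x ∉ t → X.bt b (insert x t) ≠ 0 → x ∈ S) →
    ∑ x ∈ S \ t, sg (X.π x) (t.image X.π) * X.bt b (insert x t) = oF o (t.image X.π)

/-! ## Families of pairs -/

/-- the vertices of a family of pairs -/
def vs {W : Type} [DecidableEq W] (α : Finset (W × W)) : Finset W :=
  α.image Prod.fst ∪ α.image Prod.snd

/-- orthogonal families of nonadjacent pairs with a common neighbour -/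
def Cov.Om (X : Cov) (α : Finset (X.W × X.W)) : Prop :=
  α.Nonempty ∧
  (∀ p ∈ α, X.π p.1 < X.π p.2 ∧ X.π p.1 ∈ X.V ∧ X.π p.2 ∈ X.V ∧ ¬ Adj X.L (X.π p.1) (X.π p.2)) ∧
  (∀ p ∈ α, ∀ q ∈ α, p ≠ q → X.Ad p.1 q.1 ∧ X.Ad p.1 q.2 ∧ X.Ad p.2 q.1 ∧ X.Ad p.2 q.2) ∧
  ∃ v, X.π v ∈ X.V ∧ ∀ p ∈ α, X.Ad v p.1 ∧ X.Ad v p.2

/-- families with one pair -/
def Cov.Om1 (X : Cov) (α : Finset (X.W × X.W)) : Prop := X.Om α ∧ α.card = 1

/-- the vertices of `α` and the common neighbours of all of them -/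
def Cov.nb (X : Cov) (α : Finset (X.W × X.W)) : Set X.W :=
  {x | X.π x ∈ X.V ∧ (x ∈ vs α ∨ ∀ y ∈ vs α, X.Ad x y)}

/-- faces of `Kt` with all vertices in `nb α` and exactly one vertex in every pair of `α` -/
def Cov.Cmp (X : Cov) (α : Finset (X.W × X.W)) (t : Finset X.W) : Prop :=
  t ∈ X.Kt ∧ (∀ x ∈ t, x ∈ X.nb α) ∧ ∀ p ∈ α, (p.1 ∈ t ∧ p.2 ∉ t) ∨ (p.1 ∉ t ∧ p.2 ∈ t)

/-- the element of the pair `p` which is not in `t` -/
def cc (t : Finset ℕ) (p : ℕ × ℕ) : ℕ := if p.1 ∈ t then p.2 else p.1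

/-- the sign of adding to `t` the missing elements of the pairs in `α`, in the order of the pairs -/
noncomputable def eps (α : Finset (ℕ × ℕ)) (t : Finset ℕ) : ℝ :=
  ∏ p ∈ α, sg (cc t p) (t ∪ (α.filter fun q => q.1 < p.1).image (cc t))

open Classical in
/-- the coefficients of the chain `T α` -/
noncomputable def Cov.Tc (X : Cov) (b : Finset ℕ → ℝ) (α : Finset (X.W × X.W))
    (t : Finset X.W) : ℝ :=
  if X.Cmp α t then
    eps (α.image (Prod.map X.π X.π)) (t.image X.π) * b ((t ∪ vs α).image X.π)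
  else 0

open Classical in
/-- the chain `T α` -/
noncomputable def Cov.T (X : Cov) (b : Finset ℕ → ℝ) (α : Finset (X.W × X.W)) :
    Finset X.W →₀ ℝ :=
  if h : (Function.support (X.Tc b α)).Finite then Finsupp.ofSupportFinite _ h else 0

open Classical in
/-- the families with one more pair -/
noncomputable def Cov.cov (X : Cov) (α : Finset (X.W × X.W)) : Finset (Finset (X.W × X.W)) :=
  if h : {β | X.Om β ∧ ∃ q, q ∉ α ∧ β = insert q α}.Finite then h.toFinset else ∅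

/-- incidence numbers -/
noncomputable def Cov.inc (X : Cov) (α β : Finset (X.W × X.W)) : ℝ :=
  ∑ q ∈ β \ α, sg (X.π q.1) (α.image fun p => X.π p.1)

/-- the action of `Γ` on families -/
def Cov.tA (X : Cov) (γ : X.Γ) (α : Finset (X.W × X.W)) : Finset (X.W × X.W) :=
  α.image fun p => (γ • p.1, γ • p.2)

/-- the action of `Γ` on finite sets of vertices -/
def Cov.tS (X : Cov) (γ : X.Γ) (t : Finset X.W) : Finset X.W := t.image fun w => γ • w

/-- a family of disjoint pairs of natural numbers -/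
def Fam (α : Finset (ℕ × ℕ)) : Prop :=
  (∀ p ∈ α, p.1 < p.2) ∧ ∀ p ∈ α, ∀ q ∈ α, p ≠ q → p.1 ≠ q.1 ∧ p.1 ≠ q.2 ∧ p.2 ≠ q.1 ∧ p.2 ≠ q.2

/-- `t` contains exactly one element of every pair -/
def Tr (α : Finset (ℕ × ℕ)) (t : Finset ℕ) : Prop :=
  ∀ p ∈ α, (p.1 ∈ t ∧ p.2 ∉ t) ∨ (p.1 ∉ t ∧ p.2 ∈ t)

/-- Sg: three sign identities.

PROOF. Write `c_p = cc t p`.  `sg a (insert x u) = sg a u * (if x < a then -1 else 1)`.
(1) `cc (insert x t) p = cc t p` (as `x` is not a vertex of `α`), so `eps α (insert x t) =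
eps α t * ∏ p, (-1)^[x < c_p]`; `t ∪ vs α = t ∪ {c_p | p ∈ α}` (disjoint union, the `c_p` are
different and not in `t`), so `sg x (t ∪ vs α) = sg x t * ∏ p, (-1)^[c_p < x]`; and
`[x < c_p] + [c_p < x] = 1`.
(2) the factor of `p ∈ α` with `q.1 < p.1` gets the additional element `c_q`:
`eps (insert q α) t = eps α t * ∏ (p, q.1 < p.1) (-1)^[c_q < c_p] * sg c_q t *
∏ (p, p.1 < q.1) (-1)^[c_p < c_q]`, `sg q.1 (α.image fst) = (-1)^#{p | p.1 < q.1}`, and
`sg c_q (t ∪ vs α) = sg c_q t * ∏ p, (-1)^[c_p < c_q]`.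
(3) apply (2) to `insert p (α.erase p)` and to `insert p.1 t` (then `c_p = p.2`) and
`insert p.2 t` (then `c_p = p.1`), and (1) to `α.erase p`: with `α' = α.erase p`, `r = |α'|`,
`sg p.1 (α'.image fst) * sg p.1 t * eps α (insert p.1 t) = (-1)^r * sg p.1 t *
eps α' (insert p.1 t) * sg p.2 (insert p.1 t ∪ vs α') = eps α' t * sg p.1 (t ∪ vs α') *
sg p.2 (insert p.1 (t ∪ vs α'))`, the same with `p.1`, `p.2` exchanged, and `sg_anti`. -/
def S_Sg : Prop :=
  (∀ (α : Finset (ℕ × ℕ)) (t : Finset ℕ) (x : ℕ), Fam α → Tr α t → x ∉ t → x ∉ vs α →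
    sg x t * eps α (insert x t) = (-1) ^ α.card * eps α t * sg x (t ∪ vs α)) ∧
  (∀ (α : Finset (ℕ × ℕ)) (q : ℕ × ℕ) (t : Finset ℕ), q ∉ α → Fam (insert q α) →
    Tr (insert q α) t →
    sg q.1 (α.image Prod.fst) * eps (insert q α) t =
      (-1) ^ α.card * eps α t * sg (cc t q) (t ∪ vs α)) ∧
  (∀ (α : Finset (ℕ × ℕ)) (p : ℕ × ℕ) (t : Finset ℕ), p ∈ α → Fam α → Tr (α.erase p) t →
    p.1 ∉ t → p.2 ∉ t →
    sg p.1 t * eps α (insert p.1 t) + sg p.2 t * eps α (insert p.2 t) = 0)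

/-- T5: structure of the families.  May assume S_U1.

PROOF. (1) `vs α` nonempty; every element of `nb α` is in `vs α` or adjacent to a fixed vertex `y` of
`vs α` (`y ≠ zz` since `z ∉ V`), and by U1 (1) `y` has finitely many neighbours (one for each label in
`verts K`).
(2) the set in the definition of `cov` is finite: `β = insert q α`, both vertices of `q` are adjacent to
all vertices of `α`, so they are in `nb α`.
(3) the first labels `π p.1`, `p ∈ α`, are different elements of `V` (adjacent vertices have different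
labels).
(4) `nb β ⊆ nb α` for `β = insert q α` with `Om β`: vertices of `q` are adjacent to the vertices of `α`.
(5) `π` is injective on `vs α`, `Fam (labels)`. -/
def S_T5 : Prop := ∀ (X : Cov) (α : Finset (X.W × X.W)) (_ : X.Om α),
  (X.nb α).Finite ∧
  (∀ β, β ∈ X.cov α ↔ X.Om β ∧ ∃ q, q ∉ α ∧ β = insert q α) ∧
  (∀ β ∈ X.cov α, β.card = α.card + 1 ∧ X.nb β ⊆ X.nb α) ∧
  α.card ≤ X.V.card ∧
  Set.InjOn X.π (vs α : Set X.W) ∧ Fam (α.image (Prod.map X.π X.π)) ∧
  (∀ t, X.Cmp α t → Set.InjOn X.π ((t ∪ vs α : Finset X.W) : Set X.W) ∧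
    Tr (α.image (Prod.map X.π X.π)) (t.image X.π) ∧ (t ∪ vs α).card = t.card + α.card)

/-- T6: the square of the incidence map is zero.  May assume S_U1, S_T5.

PROOF. The double sum runs over the ordered pairs `(q, q')` of different elements with
`β = insert q α`, `γ = insert q' β`, `Om γ`; subfamilies of a family in `Om` which are not empty are
in `Om`, so `(q', q)` also occurs, with the same `γ`; and
`inc α (insert q α) * inc (insert q α) γ = sg q.1 A * sg q'.1 (insert q.1 A)` (labels,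
`A = α.image (π p.1)`), which is antisymmetric by `sg_anti`. -/
def S_T6 : Prop := ∀ (X : Cov) (α : Finset (X.W × X.W)) (_ : X.Om α) (M : Type) [AddCommGroup M]
  [Module ℝ M] (h : Finset (X.W × X.W) → M),
  ∑ β ∈ X.cov α, X.inc α β • ∑ γ ∈ X.cov β, X.inc β γ • h γ = 0

/-- T8: finitely many orbits.  May assume S_U1, S_T5.

PROOF. Choose a lift `s v ∈ W` of every `v ∈ V`.  If `Om α` with common neighbour `v`, then
`γ • v = s (π v)` for some `γ`; `tA γ α` has the common neighbour `s (π v)`, so it is a subset of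
`N ×ˢ N`, `N` the finite set of all neighbours (U1 (1)) of the finitely many vertices `s v`.  Take `R` =
powerset of `N ×ˢ N`. -/
def S_T8 : Prop := ∀ (X : Cov), ∃ R : Finset (Finset (X.W × X.W)),
  ∀ α, X.Om α → ∃ γ, X.tA γ α ∈ R

/-- T4: equivariance.  May assume S_U1, S_T5.

PROOF. `w ↦ γ • w` is injective, preserves labels, `Kt` (also for the inverse), `Ad`.  Free: if
`tA γ α = α` take `p ∈ α`; `(γ • p.1, γ • p.2) ∈ α` has the same label as `p`, labels of
first elements are different on `α`, so `γ • p.1 = p.1` and `γ = 1` by `free` (`p.1 ≠ zz`). -/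
def S_T4 : Prop := ∀ (X : Cov) (γ : X.Γ) (α : Finset (X.W × X.W)) (_ : X.Om α),
  X.Om (X.tA γ α) ∧ (∀ x, γ • x ∈ X.nb (X.tA γ α) ↔ x ∈ X.nb α) ∧
  (∀ β, X.tA γ β ∈ X.cov (X.tA γ α) ↔ β ∈ X.cov α) ∧
  (∀ β, X.inc (X.tA γ α) (X.tA γ β) = X.inc α β) ∧
  (∀ b t, X.Tc b (X.tA γ α) (X.tS γ t) = X.Tc b α t) ∧
  (X.tA γ α = α → γ = 1) ∧ (X.tA γ α).card = α.card

/-- T9: the double sum over all pairs vanishes.  May assume S_U1, S_T5.

PROOF. Let `B` be the finite set of `β` with `Om β`, `|β| = 2` and `f β ≠ 0`.  Only `α = {p}` with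
`p ∈ β` for some `β ∈ B` contribute, so the support is finite, and the sum is
`∑ β ∈ B, (∑ p ∈ β, inc {p} β) • f β` (`{p}` is in `Om` for `p ∈ β`, and `β ∈ cov {p}`); for
`β = {p, q}` the inner sum is `sg q.1 {p.1} + sg p.1 {q.1} = 0` (labels, different). -/
def S_T9 : Prop := ∀ (X : Cov) (M : Type) [AddCommGroup M] [Module ℝ M]
  (f : Finset (X.W × X.W) → M) (_ : {β | X.Om β ∧ f β ≠ 0}.Finite),
  {α | X.Om1 α ∧ ∑ β ∈ X.cov α, X.inc α β • f β ≠ 0}.Finite ∧
  ∑ᶠ (α : Finset (X.W × X.W)) (_ : X.Om1 α), ∑ β ∈ X.cov α, X.inc α β • f β = 0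

/-- T2: support of `Tc`.  May assume S_U1, S_T5.

PROOF. `Tc b α t ≠ 0` gives `Cmp α t` and `(t ∪ vs α).image π ∈ KK L` of size `m + 2`; T5 gives
the size; the support is contained in the powerset of the finite set `nb α`. -/
def S_T2 : Prop := ∀ (X : Cov) (m : ℕ) (b : Finset ℕ → ℝ)
  (_ : ∀ s, b s ≠ 0 → s ∈ KK X.L ∧ s.card = m + 2) (α : Finset (X.W × X.W)) (_ : X.Om α),
  (Function.support (X.Tc b α)).Finite ∧ (∀ t, X.T b α t = X.Tc b α t) ∧
  ∀ t, X.Tc b α t ≠ 0 → t ∈ X.Kt ∧ (∀ x ∈ t, x ∈ X.nb α) ∧ t.card + α.card = m + 2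

/-- T1: the boundary of `T α`.  May assume S_U1, S_U2, S_U3, S_Sg, S_T5, S_T2.

PROOF. Let `r = |α|`, `A` the family of labels.
Case A: some `p ∈ α` has `p.1 ∉ t`, `p.2 ∉ t`.  Right side: `p ∈ β` for `β ∈ cov α`, so `Tc b β t = 0`.
Left side: only `x = p.1, p.2` can contribute; `Cmp α (insert p.1 t) ↔ Cmp α (insert p.2 t)` (all
elements of `t` in `nb α` are adjacent to both `p.1`, `p.2`; cliques with labels in `V` are faces, U1
(3)), `insert p.1 t ∪ vs α = insert p.2 t ∪ vs α = t ∪ vs α`, and the two signs cancel by Sg (3).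
Case B: not A, some `p ∈ α` has both vertices in `t`: both sides are 0.
Case C: `t` has exactly one vertex in every pair.  `x ∈ vs α` does not contribute.  If
`Cmp α t` fails, both sides are 0 (if `Cmp β t`, `β = insert q α`, then every vertex of `t` is in
`nb β ⊆ nb α`; if `Cmp α (insert x t)` then `Cmp α t`).  So let `Cmp α t`.  If
`|t| + r ≠ m + 1`, both sides are 0 by T2.  Let `s' = t ∪ vs α`, `|s'| = m + 1`, `GL s'` (in `s'` the only
nonadjacent labels are the pairs of `α`; to see `s'.image π ∈ KK L`; if `s'.image π` is not in `KK L`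
nothing can contribute -- but it always is).  U3 for `s'`, and `oF o (s'.image π) = 0` since `s'.image π`
contains the nonadjacent pair `π p.1, π p.2` and `o` is supported on faces of `L`, so
(*) `∑ x, sg (π x) (s'.image π) * bt b (insert x s') = 0`.  The `x ∉ s'` with `GL (insert x s')` are of two
types: (i) `x` is adjacent to all of `s'`: these are exactly the `x ∉ vs α`, `x ∉ t` with
`Cmp α (insert x t)` (and `bt b (insert x s') = b ((insert x t ∪ vs α).image π)`; if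
`b` of it is not 0 it is in `KK L`, so it is `GL`); (ii) `x` is nonadjacent to
exactly one `y ∈ s'`; `y ∉ vs α` (the vertices of `α` already have a nonadjacent one), so `y ∈ t`, and with
`q = (x, y)` or `(y, x)` (ordered by labels) `β = insert q α` is in `cov α`, `Cmp β t`, provided that
`insert x s'` has a vertex adjacent to all others (true since `m + 2` is odd, as in U2);
conversely for `β ∈ cov α` with `Tc b β t ≠ 0` exactly one vertex `y` of `q` is in `t`, and the other is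
such an `x`.  By Sg (1) the term of type (i) on the left side is `(-1)^r * eps A t * sg x s' * bt`, and
by Sg (2) `inc α β * Tc b β t = (-1)^r * eps A t * sg x s' * bt` for type (ii).  So (*) times
`(-1)^r * eps A t` is the claim. -/
def S_T1 : Prop := ∀ (X : Cov) (m : ℕ) (_ : 3 ≤ m) (_ : Odd m) (o : (Fin (m + 1) → ℕ) → ℤ)
  (_ : IsOrient X.L (m + 1) o) (b : Finset ℕ → ℝ)
  (_ : ∀ s, b s ≠ 0 → s ∈ KK X.L ∧ s.card = m + 2) (_ : bdS X.L b = oF o)
  (α : Finset (X.W × X.W)) (_ : X.Om α) (t : Finset X.W) (S : Finset X.W)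
  (_ : ∀ x, x ∉ t → X.Tc b α (insert x t) ≠ 0 → x ∈ S),
  ∑ x ∈ S \ t, sg (X.π x) (t.image X.π) * X.Tc b α (insert x t) =
    - ∑ β ∈ X.cov α, X.inc α β * X.Tc b β t

/-- T3: the sum of the `T α` over all pairs is the lift of `o`.  May assume S_U1, S_U2, S_U3, S_T5,
S_T2.

PROOF. `t` is a face with labels in `V`, so `GL t`, and U3 gives
`∑ x, sg (π x) (t.image π) * bt b (insert x t) = oF o (t.image π)`.  For `x ∉ t` with
`bt b (insert x t) ≠ 0` the set `insert x t` has `m + 2` vertices, so it is not a clique (no face of `L` has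
more than `m + 1` vertices), so `x` is nonadjacent to exactly one `y ∈ t`; `α = {q}`, `q` the pair
`x, y` ordered by labels, is in `Om1` (`insert x t` has an odd number `m + 2 ≥ 5` of vertices, so one
is adjacent to all others), `Cmp α t`, and `Tc b α t = sg (π x) (t.image π) * b ((insert x t).image π)`
(`eps` of one pair, `t ∪ vs α = insert x t`).  Conversely if `Om1 {q}` and `Tc b {q} t ≠ 0`, exactly one
vertex of `q` is in `t` and the other is such an `x`. -/
def S_T3 : Prop := ∀ (X : Cov) (m : ℕ) (_ : 3 ≤ m) (_ : Odd m) (o : (Fin (m + 1) → ℕ) → ℤ)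
  (_ : IsOrient X.L (m + 1) o) (b : Finset ℕ → ℝ)
  (_ : ∀ s, b s ≠ 0 → s ∈ KK X.L ∧ s.card = m + 2) (_ : bdS X.L b = oF o)
  (_ : ∀ s ∈ X.L, s.card ≤ m + 1) (t : Finset X.W) (_ : t ∈ X.Kt) (_ : ∀ x ∈ t, X.π x ∈ X.V)
  (_ : t.card = m + 1),
  {α | X.Om1 α ∧ X.Tc b α t ≠ 0}.Finite ∧
  ∑ᶠ (α : Finset (X.W × X.W)) (_ : X.Om1 α), X.Tc b α t = oF o (t.image X.π)

/-! ## E. Two abstract lemmas -/

/-- E1: descending induction.

PROOF. Show by induction on `j`: there is an equivariant `x` with `x a ∈ S a` for all `a` in `Om`, which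
satisfies the equation for all `a` in `Om` with `R < deg a + j`.  `j = 0`: nothing to satisfy, `x = 0`.
Step: given `x` for `j`, let `a` be in `Om` with `deg a + j = R` and
`w a := y a - ε • ∑ b ∈ cov a, inc a b • x b ∈ S' a`.  Then `∂ (w a) = ε • ∑ b, inc a b • y b -
ε • ∑ b, inc a b • (y b - ε • ∑ c, inc b c • x c) = ε ^ 2 • ∑∑ = 0` (the equation holds for `b`).  So
`acyc` gives an element of `S a` with boundary `w a`.  Choose it for one representative `a0` of every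
`G`-orbit (`Quotient.out` for the relation `∃ g, act g a = a'`) and put `x' (act g a0) := τ g (x' a0)`
(well defined: `g` is unique by `free`); `x' := x` in all other degrees.  The equation for `x'` in degree
`deg a = R - j` holds for all `a` by equivariance of `w`; in higher degrees nothing has changed. -/
def S_E1 : Prop := ∀ (A M G : Type) [Group G] [AddCommGroup M] [Module ℝ M]
  (act : G → A → A) (_ : ∀ a, act 1 a = a) (_ : ∀ g h a, act (g * h) a = act g (act h a))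
  (τ : G → M →ₗ[ℝ] M) (_ : ∀ x, τ 1 x = x) (_ : ∀ g h x, τ (g * h) x = τ g (τ h x))
  (Om : A → Prop) (_ : ∀ g a, Om a → Om (act g a)) (_ : ∀ g a, Om a → act g a = a → g = 1)
  (deg : A → ℕ) (_ : ∀ g a, Om a → deg (act g a) = deg a) (R : ℕ) (_ : ∀ a, Om a → deg a ≤ R)
  (cov : A → Finset A) (_ : ∀ a, Om a → ∀ b ∈ cov a, Om b ∧ deg b = deg a + 1)
  (_ : ∀ g a b, Om a → (act g b ∈ cov (act g a) ↔ b ∈ cov a))
  (inc : A → A → ℝ) (_ : ∀ g a b, Om a → inc (act g a) (act g b) = inc a b)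
  (_ : ∀ a, Om a → ∀ h : A → M, ∑ b ∈ cov a, inc a b • ∑ c ∈ cov b, inc b c • h c = 0)
  (D : M →ₗ[ℝ] M) (_ : ∀ g x, D (τ g x) = τ g (D x))
  (S S' : A → Submodule ℝ M) (_ : ∀ g a x, Om a → x ∈ S a → τ g x ∈ S (act g a))
  (_ : ∀ a, Om a → ∀ b ∈ cov a, S b ≤ S' a)
  (_ : ∀ a, Om a → ∀ x ∈ S' a, D x = 0 → ∃ y ∈ S a, D y = x)
  (ε : ℝ) (y : A → M) (_ : ∀ g a, Om a → y (act g a) = τ g (y a)) (_ : ∀ a, Om a → y a ∈ S' a)
  (_ : ∀ a, Om a → D (y a) = ε • ∑ b ∈ cov a, inc a b • y b),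
  ∃ x : A → M, (∀ g a, Om a → x (act g a) = τ g (x a)) ∧ (∀ a, Om a → x a ∈ S a) ∧
    ∀ a, Om a → D (x a) = y a - ε • ∑ b ∈ cov a, inc a b • x b

/-- E2: local finiteness.  May assume S_T8.

PROOF. Let `R` be as in T8.  If `Om α` and `x α p ≠ 0`, choose `γ` with `r := tA γ α ∈ R`; then
`Om r`, `x r (sm γ p) ≠ 0`, so `sm γ p` is in the finite union of the supports of `x r`, `r ∈ R`,
`Om r`; by freeness `γ` is determined by `sm γ p` (`sm γ p = sm γ' p` gives `sm (γ'⁻¹ γ) p = p`), and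
`α = tA γ⁻¹ r` is determined by `γ` and `r`.  (S_T4 gives `Om (tA γ α)`.) -/
def S_E2 : Prop := ∀ (X : Cov) (M P : Type) [AddCommGroup M] (sm : X.Γ → P → P)
  (_ : ∀ p, sm 1 p = p) (_ : ∀ g h p, sm (g * h) p = sm g (sm h p))
  (x : Finset (X.W × X.W) → P → M) (_ : ∀ γ α p, X.Om α → (x (X.tA γ α) (sm γ p) ≠ 0 ↔ x α p ≠ 0))
  (_ : ∀ α, X.Om α → {p | x α p ≠ 0}.Finite) (p : P) (_ : ∀ γ, sm γ p = p → γ = 1),
  {α | X.Om α ∧ x α p ≠ 0}.Finite

/-! ## A. Chains upstairs -/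

/-- A1: coefficients of the boundary, and its square.

PROOF. Both sides of (1) are additive in `c`; for `c = single s r` both sides are
`sg (π a) (π t) • r` if `s = insert a t` with `a ∉ t`, and `0` otherwise (on the right: at most one such
`a`, and it is in `S`); do the induction with the support of `c` fixed, e.g. write `c` as
`∑ s ∈ c.support, single s (c s)` and exchange the sums.
(2) for `single s r` with `π` injective on `s`: double sum over ordered pairs of different `a, b ∈ s`,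
antisymmetric by `sg_anti` for the labels. -/
def S_A1 : Prop :=
  (∀ (W : Type) [DecidableEq W] (π : W → ℕ) (M : Type) [AddCommGroup M] [Module ℝ M]
    (c : Finset W →₀ M) (t S : Finset W), (∀ a, a ∉ t → c (insert a t) ≠ 0 → a ∈ S) →
    bdl π c t = ∑ a ∈ S \ t, sg (π a) (t.image π) • c (insert a t)) ∧
  (∀ (W : Type) [DecidableEq W] (π : W → ℕ) (M : Type) [AddCommGroup M] [Module ℝ M]
    (c : Finset W →₀ M), (∀ t, c t ≠ 0 → Set.InjOn π (t : Set W)) → bdl π (bdl π c) = 0)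

/-- the boundary operator on pairs of sets with coefficients: an element of `u` is moved to `s` (the
coefficient is mapped by `ρ`) or removed from `u` -/
noncomputable def dT {W : Type} [DecidableEq W] (π : W → ℕ) {N : Type} [AddCommGroup N]
    [Module ℝ N] (ρ : ℕ → Finset ℕ → N →ₗ[ℝ] N) :
    ((Finset W × Finset W) →₀ N) →ₗ[ℝ] ((Finset W × Finset W) →₀ N) :=
  Finsupp.lsum ℝ fun p => ∑ a ∈ p.2, sg (π a) ((p.2.erase a).image π) •
    ((Finsupp.lsingle (insert a p.1, p.2.erase a)).comp (ρ (π a) (p.1.image π)) -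
      Finsupp.lsingle (p.1, p.2.erase a))

/-- coefficient systems on the complex `Y` -/
structure IsCS (Y : Finset (Finset ℕ)) {N : Type} [AddCommGroup N] [Module ℝ N]
    (F : Finset ℕ → Submodule ℝ N) (ρ : ℕ → Finset ℕ → N →ₗ[ℝ] N) : Prop where
  map : ∀ a s, a ∉ s → insert a s ∈ Y → ∀ x ∈ F s, ρ a s x ∈ F (insert a s)
  comm : ∀ a b s, a ≠ b → a ∉ s → b ∉ s → insert a (insert b s) ∈ Y → ∀ x ∈ F s,
    ρ b (insert a s) (ρ a s x) = ρ a (insert b s) (ρ b s x)

/-- complexes over `Y` -/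
structure IsLab (Y : Finset (Finset ℕ)) {W : Type} [DecidableEq W] (π : W → ℕ)
    (Yt : Set (Finset W)) : Prop where
  simp : ∀ t ∈ Yt, t.image π ∈ Y ∧ Set.InjOn π (t : Set W)
  down : ∀ t ∈ Yt, ∀ s ⊆ t, s ∈ Yt

/-- the chains of pairs of `Yt` with coefficients in `F` -/
def IsDt {W : Type} [DecidableEq W] (Yt : Set (Finset W)) (π : W → ℕ) {N : Type}
    [AddCommGroup N] [Module ℝ N] (F : Finset ℕ → Submodule ℝ N)
    (x : (Finset W × Finset W) →₀ N) : Prop :=
  ∀ p, (x p ≠ 0 → Disjoint p.1 p.2 ∧ p.1 ∪ p.2 ∈ Yt) ∧ x p ∈ F (p.1.image π)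

/-- A3: coefficients of `dT x`.

PROOF. as for A1: for `x = single (s0, u0) n`, `Disjoint s0 u0`, the element `a ∈ u0` contributes
at `(insert a s0, u0.erase a)` and at `(s0, u0.erase a)`. -/
def S_A3 : Prop := ∀ (W : Type) [DecidableEq W] (π : W → ℕ) (N : Type) [AddCommGroup N]
  [Module ℝ N] (ρ : ℕ → Finset ℕ → N →ₗ[ℝ] N) (x : (Finset W × Finset W) →₀ N)
  (_ : ∀ p, x p ≠ 0 → Disjoint p.1 p.2) (s u : Finset W),
  (¬ Disjoint s u → dT π ρ x (s, u) = 0) ∧
  (Disjoint s u → ∀ S : Finset W, (∀ a, a ∉ s ∪ u → x (s, insert a u) ≠ 0 → a ∈ S) →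
    dT π ρ x (s, u) =
      ∑ a ∈ s, sg (π a) (u.image π) •
        ρ (π a) ((s.erase a).image π) (x (s.erase a, insert a u)) -
      ∑ a ∈ S \ (s ∪ u), sg (π a) (u.image π) • x (s, insert a u))

/-- A4: `dT` maps chains of pairs to chains of pairs, and `dT ∘ dT = 0`.

PROOF. For `single (s, u) n`, `s ∪ u ∈ Yt` disjoint, `n ∈ F (π s)`: `dT` is a combination of
`single (insert a s, u.erase a) (ρ n)` and `single (s, u.erase a) n`, `a ∈ u`: `IsCS.map`, `down`.
`dT (dT (single (s,u) n))` is a double sum over ordered pairs of different `a, b ∈ u`: both moved: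
antisymmetric by `IsCS.comm` and `sg_anti` (labels, `π` injective on `u`); both removed: `sg_anti`; one
moved, one removed: the two orders cancel by `sg_anti`. -/
def S_A4 : Prop := ∀ (Y : Finset (Finset ℕ)) (W : Type) [DecidableEq W] (π : W → ℕ)
  (Yt : Set (Finset W)) (_ : IsLab Y π Yt) (N : Type) [AddCommGroup N] [Module ℝ N]
  (F : Finset ℕ → Submodule ℝ N) (ρ : ℕ → Finset ℕ → N →ₗ[ℝ] N) (_ : IsCS Y F ρ)
  (x : (Finset W × Finset W) →₀ N) (_ : IsDt Yt π F x),
  IsDt Yt π F (dT π ρ x) ∧ dT π ρ (dT π ρ x) = 0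

/-- cap product upstairs -/
noncomputable def capT {W : Type} [DecidableEq W] (π : W → ℕ) {N : Type} [AddCommGroup N]
    [Module ℝ N] (φ : Finset ℕ → N) :
    (Finset W →₀ ℝ) →ₗ[ℝ] ((Finset W × Finset W) →₀ N) :=
  Finsupp.linearCombination ℝ fun t => ∑ s ∈ t.powerset,
    Finsupp.single (s, t \ s) (((-1 : ℝ) ^ ((s.card + 1) * (t \ s).card) *
      sgg (s.image π) ((t \ s).image π)) • φ (s.image π))

/-- cochains of `Y` with coefficients in `F` -/
def IsCF (Y : Finset (Finset ℕ)) {N : Type} [AddCommGroup N] [Module ℝ N]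
    (F : Finset ℕ → Submodule ℝ N) (φ : Finset ℕ → N) : Prop :=
  ∀ s, (φ s ≠ 0 → s ∈ Y) ∧ φ s ∈ F s

/-- the coboundary -/
def dF (Y : Finset (Finset ℕ)) {N : Type} [AddCommGroup N] [Module ℝ N]
    (ρ : ℕ → Finset ℕ → N →ₗ[ℝ] N) (φ : Finset ℕ → N) (s : Finset ℕ) : N :=
  if s ∈ Y then ∑ a ∈ s, sg a (s.erase a) • ρ a (s.erase a) (φ (s.erase a)) else 0

/-- A5: cap product with a cocycle.

PROOF. (1) unfold.  (2), (3): enough for `c = single t 1`, `t ∈ Yt`.  The formula is item B3 of the block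
R (`RA.S_B3`, `dD (capU φ c) = capU φ (bdS c)`) for the full simplex on the labels of `t`, with general
coefficients; direct proof: at the pair `(s, u)`, `s ∪ u = t`: `∑ a ∈ s, sg a u • ρ a (φ (s.erase a)) *
sign(s.erase a, insert a u)` is a multiple of `dF φ s = 0`, and at `(s, u)` with `s ∪ u = t.erase a` there
is only the term which removes `a`, it agrees with the right side.  Compare `RA` item B3
(search `S_B3` in `Bd/`) for the sign computation. -/
def S_A5 : Prop := ∀ (W : Type) [DecidableEq W] (π : W → ℕ) (N : Type) [AddCommGroup N]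
  [Module ℝ N] (φ : Finset ℕ → N) (c : Finset W →₀ ℝ),
  (∀ s u : Finset W, capT π φ c (s, u) = if Disjoint s u then
    ((-1 : ℝ) ^ ((s.card + 1) * u.card) * sgg (s.image π) (u.image π) * c (s ∪ u)) •
      φ (s.image π) else 0) ∧
  ∀ (Y : Finset (Finset ℕ)) (Yt : Set (Finset W)), IsLab Y π Yt →
    ∀ (F : Finset ℕ → Submodule ℝ N) (ρ : ℕ → Finset ℕ → N →ₗ[ℝ] N), IsCS Y F ρ →
    IsCF Y F φ → dF Y ρ φ = 0 → (∀ t, c t ≠ 0 → t ∈ Yt) →
    IsDt Yt π F (capT π φ c) ∧ dT π ρ (capT π φ c) = capT π φ (bdl π c)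

/-- the cone with apex `zz` -/
noncomputable def coneT {W : Type} [DecidableEq W] (π : W → ℕ) (zz : W) {M : Type}
    [AddCommGroup M] [Module ℝ M] : (Finset W →₀ M) →ₗ[ℝ] (Finset W →₀ M) :=
  Finsupp.lsum ℝ fun t => sg (π zz) (t.image π) • Finsupp.lsingle (insert zz t)

/-- A7: boundary of a cone.

PROOF. For `single t r`: `bdl (sg z t • single (insert zz t) r)`: removing `zz` gives `single t r`
(`sg_sq`), removing `a ∈ t` gives `sg z t * sg a (insert z (t.erase a)) • single (insert zz (t.erase a))`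
`= - sg a (t.erase a) * sg z (t.erase a) • ...` (`sg_anti'`). -/
def S_A7 : Prop := ∀ (W : Type) [DecidableEq W] (π : W → ℕ) (zz : W) (M : Type) [AddCommGroup M]
  [Module ℝ M] (c : Finset W →₀ M)
  (_ : ∀ t, c t ≠ 0 → zz ∉ t ∧ Set.InjOn π ((insert zz t : Finset W) : Set W)),
  bdl π (coneT π zz c) = c - coneT π zz (bdl π c) ∧
  (∀ t, zz ∉ t → coneT π zz c (insert zz t) = sg (π zz) (t.image π) • c t) ∧
  (∀ t, zz ∉ t → coneT π zz c t = 0)

/-- A6: naturality for injective maps which preserve the labels.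

PROOF. Check on `single`; `(s.erase a).image g = (s.image g).erase (g a)`, `image_image`,
`(t \ s).image g = t.image g \ s.image g`; the powerset of `t.image g` is the image of the powerset. -/
def S_A6 : Prop := ∀ (W : Type) [DecidableEq W] (π : W → ℕ) (g : W → W)
  (_ : Function.Injective g) (_ : ∀ w, π (g w) = π w) (M : Type) [AddCommGroup M] [Module ℝ M],
  (∀ c : Finset W →₀ M, bdl π (c.mapDomain fun t => t.image g) =
    (bdl π c).mapDomain fun t => t.image g) ∧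
  (∀ (ρ : ℕ → Finset ℕ → M →ₗ[ℝ] M) (x : (Finset W × Finset W) →₀ M),
    dT π ρ (x.mapDomain fun p => (p.1.image g, p.2.image g)) =
      (dT π ρ x).mapDomain fun p => (p.1.image g, p.2.image g)) ∧
  (∀ (φ : Finset ℕ → M) (c : Finset W →₀ ℝ), capT π φ (c.mapDomain fun t => t.image g) =
    (capT π φ c).mapDomain fun p => (p.1.image g, p.2.image g)) ∧
  (∀ (zz : W), g zz = zz → ∀ c : Finset W →₀ M,
    coneT π zz (c.mapDomain fun t => t.image g) = (coneT π zz c).mapDomain fun t => t.image g)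

/-! ## C. The coefficient system -/

/-- the complex `K` with a cone attached along the boundary -/
def Kp (K : Finset (Finset ℕ)) (V : Finset ℕ) (z : ℕ) : Finset (Finset ℕ) :=
  K ∪ (sub K V).image (insert z)

/-- the product of the idempotents `e a`, `a ∈ s` -/
noncomputable def eP {N : Type} [AddCommGroup N] [Module ℝ N] (e : ℕ → N →ₗ[ℝ] N)
    (s : Finset ℕ) : N →ₗ[ℝ] N :=
  (s.sort (· ≤ ·)).foldr (fun a f => (e a).comp f) LinearMap.id

/-- C1: properties of the product.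

PROOF. The `e a`, `a ∈ s`, commute (`IdemSys.comm`, all pairs in `s ∈ L` are adjacent), so the
product can be taken in any order.  E.g. show for lists `l` without repetition whose set is a face:
`l.foldr` only depends on the set (`List.Perm.foldr_eq` with commutation), then `insert a s` is sorted as
a permutation of `a :: sort s`. -/
def S_C1 : Prop := ∀ (L : Finset (Finset ℕ)) (_ : FlagC L) (N : Type) [AddCommGroup N]
  [Module ℝ N] (e : ℕ → N →ₗ[ℝ] N) (_ : IdemSys L N e) (s : Finset ℕ) (_ : s ∈ L),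
  (∀ x, eP e s x ∈ Es e s) ∧ (∀ x ∈ Es e s, eP e s x = x) ∧
  ∀ a, a ∉ s → insert a s ∈ L → ∀ x, eP e (insert a s) x = e a (eP e s x) ∧
    e a (eP e s x) = eP e s (e a x)

/-- the coefficients over the faces of `Kp K V z` -/
noncomputable def FF (z : ℕ) {N : Type} [AddCommGroup N] [Module ℝ N] (e : ℕ → N →ₗ[ℝ] N)
    (s : Finset ℕ) : Submodule ℝ N :=
  if s = ∅ ∨ s = {z} then ⊥ else if z ∈ s then Es e (s.erase z) else ⊤

/-- the maps between the coefficients -/
noncomputable def rr (z : ℕ) {N : Type} [AddCommGroup N] [Module ℝ N] (e : ℕ → N →ₗ[ℝ] N)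
    (a : ℕ) (s : Finset ℕ) : N →ₗ[ℝ] N :=
  if s = ∅ ∨ s = {z} then 0 else if a = z then eP e s else if z ∈ s then e a else LinearMap.id

/-- C2: `FF`, `rr` is a coefficient system.  May assume S_C1.

PROOF. `insert a s ∈ Kp` with `z ∉ s`, `a = z` means `s ∈ sub K V` (as `z ∉ verts K`); with `z ∈ s`
it means `insert a (s.erase z) ∈ sub K V`.  `s = ∅` or `{z}`: `F s = ⊥`, everything is 0.  The only
nontrivial case of `comm` is `a = z`, `z ∉ s`, `b ≠ z`: `e b (eP e s x) = eP e (insert b s) x` (C1). -/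
def S_C2 : Prop := ∀ (K : Finset (Finset ℕ)) (V : Finset ℕ) (z : ℕ) (_ : IsCx K)
  (_ : V ⊆ verts K) (_ : FlagC (sub K V)) (_ : z ∉ verts K) (N : Type) [AddCommGroup N]
  [Module ℝ N] (e : ℕ → N →ₗ[ℝ] N) (_ : IdemSys (sub K V) N e),
  IsCS (Kp K V z) (FF z e) (rr z e)

/-! ## Q. Acyclicity -/

/-- the faces over `K` together with the cone over the faces of `Kt` with all vertices in `B` -/
def Cov.Xf (X : Cov) (B : Set X.W) : Set (Finset X.W) :=
  {t | t ∈ X.Kt ∨ ∃ s ∈ X.Kt, (∀ x ∈ s, x ∈ B) ∧ t = insert X.zz s}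

/-- Q1: the complex of a suspension is acyclic.  May assume S_U1, S_A3, S_A4, RA.S_B4.

PROOF. Either by transport to `RA.S_B4`: `π` is injective on `B` (all elements of `B` except `b` are in the
star of `a`, all except `a` in the star of `b`; `π a ≠ π b`), and a set `t ⊆ B` is in `Kt` if and only if
`t.image π ∈ L` (triangles `{a, x, y}` lift at `a`); so `x ↦ (s, u) ↦ x (lifts)` identifies the
complex with the complex `IsDD L e (π B)`, `B` finite.
Or by the explicit contraction: let `P_a n` be the component of `n` in `ker e_a` for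
`N = ker e_a ⊕ ker e_b` (`IdemSys.iso`), `P_b n = n - P_a n`; for `(s, u)` with `a, b ∉ u`:
`a, b ∉ s`: `(s, u; n) ↦ - (s, a ∧ u; P_a n) - (s, b ∧ u; P_b n)`; `s = s' + a`: `(s, u; m) ↦
(s', a ∧ u; g) - (s', b ∧ u; g)` with `e_a g = m`, `e_b g = 0`, the same with `a, b` exchanged
(`a ∧ u` = `sg a u` times `insert a u`), and `0` if `a ∈ u` or `b ∈ u`. -/
def S_Q1 : Prop := ∀ (X : Cov) (N : Type) [AddCommGroup N] [Module ℝ N] (e : ℕ → N →ₗ[ℝ] N)
  (_ : IdemSys X.L N e) (B : Set X.W) (_ : ∀ x ∈ B, X.π x ∈ X.V) (a b : X.W) (_ : a ∈ B)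
  (_ : b ∈ B) (_ : X.π a ≠ X.π b) (_ : ¬ Adj X.L (X.π a) (X.π b))
  (_ : ∀ c ∈ B, c ≠ a → c ≠ b → X.Ad c a ∧ X.Ad c b) (x : (Finset X.W × Finset X.W) →₀ N)
  (_ : IsDt {t | t ∈ X.Kt ∧ ∀ y ∈ t, y ∈ B} X.π (Es e) x) (_ : dT X.π (fun a _ => e a) x = 0),
  ∃ y, IsDt {t | t ∈ X.Kt ∧ ∀ y ∈ t, y ∈ B} X.π (Es e) y ∧ dT X.π (fun a _ => e a) y = x

/-- Q2: acyclicity with coefficients.

PROOF. The values of `c` span a finite dimensional subspace `E` of `N`; choose a basis `n_i` of `E`;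
`c = ∑ i, c_i n_i` with real chains `c_i` (same support), `bdl c = ∑ (bdl c_i) n_i`, so all `c_i` are
closed. -/
def S_Q2 : Prop := ∀ (W : Type) [DecidableEq W] (π : W → ℕ) (Kt : Set (Finset W))
  (_ : IsAcyclic π Kt) (N : Type) [AddCommGroup N] [Module ℝ N] (c : Finset W →₀ N)
  (_ : ∀ σ, c σ ≠ 0 → σ ∈ Kt) (_ : bdl π c = 0),
  ∃ c' : Finset W →₀ N, (∀ σ, c' σ ≠ 0 → σ ∈ Kt) ∧ bdl π c' = c

/-- constant coefficients on the nonempty faces -/
noncomputable def Fc (N : Type) [AddCommGroup N] [Module ℝ N] (s : Finset ℕ) : Submodule ℝ N :=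
  if s = ∅ then ⊥ else ⊤

/-- the maps of the constant coefficients -/
noncomputable def rc (N : Type) [AddCommGroup N] [Module ℝ N] (_a : ℕ) (s : Finset ℕ) :
    N →ₗ[ℝ] N :=
  if s = ∅ then 0 else LinearMap.id

/-- chains as chains of pairs -/
noncomputable def rT {W : Type} [DecidableEq W] (π : W → ℕ) {N : Type} [AddCommGroup N]
    [Module ℝ N] : (Finset W →₀ N) →ₗ[ℝ] ((Finset W × Finset W) →₀ N) :=
  Finsupp.lsum ℝ fun w => ∑ v ∈ w, sg (π v) ((w.erase v).image π) •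
    Finsupp.lsingle (({v} : Finset W), w.erase v)

/-- Q3: constant coefficients: every element whose boundary is in the image of `rT` is
homologous to an element in the image of `rT`.  May assume S_A3, S_A4.

PROOF. (1) for `single w n`: the terms which move a second element cancel in pairs, the terms which
remove an element give `rT (bdl (single w n))` (`sg_anti`).  (2) evaluate at `({v}, w.erase v)`.
(3) Induction on the maximal size `k` of `s` in the support of `x`.  `k ≤ 1` (so `|s| = 1` on the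
support, as `Fc ∅ = ⊥`): the component of `dT x = rT c` at `(s, u)`, `|s| = 2`, says that
`sg v (w.erase v) • x ({v}, w.erase v)` does not depend on `v ∈ w`; call it `c1 w`; `x = rT c1`.
`k ≥ 2`: let `x_k` be the part of `x` with `|s| = k`, `∂'` the part of `dT` which moves an element; the
component of `dT x` with `|s| = k + 1` is `∂' x_k = 0`.  Let `H (single (s, u) n) :=
sg v u • single (s.erase v, insert v u) n` if the vertex `v` with the smallest label of `s ∪ u` is in `s`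
and `|s| ≥ 2`, and `0` otherwise (`sg (π v) (u.image π) = 1` in fact, as `v` has the smallest label).
Then `∂' H + H ∂' = id` on elements with `|s| ≥ 2`; so `x_k = ∂' (H x_k)` and `x - dT (H x_k)` has all
`|s| ≤ k - 1`, and the same boundary (A4 with `IsCS Y Fc rc`, `Y` any complex containing the labels). -/
def S_Q3 : Prop := ∀ (W : Type) [DecidableEq W] (π : W → ℕ) (N : Type) [AddCommGroup N]
  [Module ℝ N],
  (∀ c : Finset W →₀ N, (∀ t, c t ≠ 0 → Set.InjOn π (t : Set W)) →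
    dT π (rc N) (rT π c) = rT π (bdl π c)) ∧
  (∀ (c : Finset W →₀ N) (w : Finset W) (v : W), v ∈ w →
    rT π c ({v}, w.erase v) = sg (π v) ((w.erase v).image π) • c w) ∧
  (∀ (Y : Finset (Finset ℕ)) (Yt : Set (Finset W)), IsLab Y π Yt →
    ∀ (x : (Finset W × Finset W) →₀ N) (c : Finset W →₀ N), IsDt Yt π (Fc N) x →
    (∀ w, c w ≠ 0 → w ∈ Yt ∧ w.Nonempty) → dT π (rc N) x = rT π c →
    ∃ (y : (Finset W × Finset W) →₀ N) (c1 : Finset W →₀ N), IsDt Yt π (Fc N) y ∧
      (∀ w, c1 w ≠ 0 → w ∈ Yt ∧ w.Nonempty) ∧ x - dT π (rc N) y = rT π c1)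

/-- add the cone point to `u` -/
noncomputable def iT {W : Type} [DecidableEq W] (π : W → ℕ) (zz : W) {N : Type}
    [AddCommGroup N] [Module ℝ N] :
    ((Finset W × Finset W) →₀ N) →ₗ[ℝ] ((Finset W × Finset W) →₀ N) :=
  Finsupp.lsum ℝ fun p => sg (π zz) (p.2.image π) • Finsupp.lsingle (p.1, insert zz p.2)

/-- add the cone point to `s` -/
noncomputable def jT {W : Type} [DecidableEq W] (zz : W) {N : Type}
    [AddCommGroup N] [Module ℝ N] :
    ((Finset W × Finset W) →₀ N) →ₗ[ℝ] ((Finset W × Finset W) →₀ N) :=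
  Finsupp.lsum ℝ fun p => Finsupp.lsingle (insert zz p.1, p.2)

/-- apply the product of the idempotents -/
noncomputable def eT {W : Type} [DecidableEq W] (π : W → ℕ) {N : Type}
    [AddCommGroup N] [Module ℝ N] (e : ℕ → N →ₗ[ℝ] N) :
    ((Finset W × Finset W) →₀ N) →ₗ[ℝ] ((Finset W × Finset W) →₀ N) :=
  Finsupp.lsum ℝ fun p => (Finsupp.lsingle (p.1, p.2)).comp (eP e (p.1.image π))

/-- Q4: the pieces of the complex with the cone point.  May assume S_U1, S_C1, S_A3, S_A4.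

PROOF. All on `single` elements.  (1) labels without `z`, `s ≠ ∅`: `rr = id`.  (2) from
`(insert zz s, u)`, `s ≠ ∅`, moving `a`: `e a`.  (3) from `(s, insert zz u)`: moving `zz` gives
`(insert zz s, u)` with coefficient `eP e (π s) n`, sign `sg z u * sg z u = 1`; removing `zz` gives
`- (s, u; n)`; moving or removing `a ∈ u`: sign `sg z u * sg a (insert z (u.erase a)) =
- sg a (u.erase a) * sg z (u.erase a)`.  (4) `xK`, `p`, `q` are the parts of `x` with
`zz ∉ s ∪ u`, `zz ∈ u`, `zz ∈ s` (remove `zz`, for `p` multiply by `sg z u`). -/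
def S_Q4 : Prop := ∀ (X : Cov) (N : Type) [AddCommGroup N] [Module ℝ N] (e : ℕ → N →ₗ[ℝ] N)
  (_ : IdemSys X.L N e) (B : Set X.W) (_ : ∀ x ∈ B, X.π x ∈ X.V),
  (∀ x, IsDt X.Kt X.π (Fc N) x → IsDt (X.Xf B) X.π (FF X.z e) x ∧
    dT X.π (rr X.z e) x = dT X.π (rc N) x) ∧
  (∀ q, IsDt {t | t ∈ X.Kt ∧ ∀ y ∈ t, y ∈ B} X.π (Es e) q → (∀ u, q (∅, u) = 0) →
    IsDt (X.Xf B) X.π (FF X.z e) (jT X.zz q) ∧
    dT X.π (rr X.z e) (jT X.zz q) = jT X.zz (dT X.π (fun a _ => e a) q)) ∧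
  (∀ p, IsDt {t | t ∈ X.Kt ∧ ∀ y ∈ t, y ∈ B} X.π (Fc N) p →
    IsDt (X.Xf B) X.π (FF X.z e) (iT X.π X.zz p) ∧
    dT X.π (rr X.z e) (iT X.π X.zz p) =
      - iT X.π X.zz (dT X.π (rc N) p) + jT X.zz (eT X.π e p) - p) ∧
  (∀ x, IsDt (X.Xf B) X.π (FF X.z e) x → ∃ xK p q, IsDt X.Kt X.π (Fc N) xK ∧
    IsDt {t | t ∈ X.Kt ∧ ∀ y ∈ t, y ∈ B} X.π (Fc N) p ∧
    IsDt {t | t ∈ X.Kt ∧ ∀ y ∈ t, y ∈ B} X.π (Es e) q ∧ (∀ u, q (∅, u) = 0) ∧
    x = xK + iT X.π X.zz p + jT X.zz q) ∧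
  (∀ xK p q : (Finset X.W × Finset X.W) →₀ N, (∀ r, xK r ≠ 0 → X.zz ∉ r.1 ∧ X.zz ∉ r.2) →
    (∀ r, p r ≠ 0 → X.zz ∉ r.1 ∧ X.zz ∉ r.2) → (∀ r, q r ≠ 0 → X.zz ∉ r.1 ∧ X.zz ∉ r.2) →
    xK + iT X.π X.zz p + jT X.zz q = 0 → xK = 0 ∧ p = 0 ∧ q = 0)

/-- Q5: `D (X_B; F)` is acyclic.  May assume S_U1, S_A1, S_A3, S_A4, S_C1, S_C2, S_Q1, S_Q2, S_Q3,
S_Q4.

PROOF. Write `x = xK + iT p + jT q` (Q4 (4)).  `dT x = 0` means (Q4 (1)-(3), (5)):
`dT rc p = 0`, `dT rc xK = p`, `dT e q = - eT p` (on `s ≠ ∅`; the `s = ∅` part is `0`).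
(a) Q3 for `p` (with `c = 0`): `p - dT rc p1 = rT c1`; replace `x` by `x + dT (iT p1)`, then
`p = rT c1` (and `xK`, `q` change).  (b) Q3 for `xK` (`c = c1`, `Yt = Kt`): `xK - dT rc x1 = rT c2`;
replace `x` by `x - dT x1`.  Now `xK = rT c2`, `p = rT c1`, `rT (bdl c2) = dT rc xK = rT c1`, so
`bdl c2 = c1 + single ∅ lam` (Q3 (2); `c1 ∅ = 0`), so `bdl c1 = - bdl (single ∅ lam) = 0` (A1 (2)).
(c) Let `em c := c.mapDomain (fun w => (∅, w))`.  `dT e (em c) = eT' (rT c) - em (bdl c)` where the first term is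
`∑ single ({v}, w.erase v) (sg v • e v (c w))` `= eT (rT c)` (`eP e {v} = e v`).  Since
`dT e q = - eT (rT c1)`, the element `q + em c1 + single (∅, ∅) lam` of `D(J; Es e)` is closed
(`bdl c1 = 0`).  Q1: it is `dT e η`.  Write `η = η' + em c3`, `η'` the part with `s ≠ ∅`; comparing the
parts `s = ∅` and `s ≠ ∅`: `- bdl c3 = c1 + single ∅ lam`, and `dT e η' + eT (rT c3) = q`.  (d) Let
`y := jT η' + iT (rT c3')`, `c3'` = `c3` without the empty face (`rT c3' = rT c3`).  By Q4: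
`dT (rr) y = jT (dT e η') - iT (rT (bdl c3)) + jT (eT (rT c3)) - rT c3 = jT q + iT (rT c1) - rT c3`
(`rT (single ∅ _) = 0`).  So `x - dT y = rT (c2 + c3)`, and `bdl (c2 + c3) = 0`.  (e) Q2:
`c2 + c3 = bdl c4`, `c4` supported in `Kt`, and `rT (c2 + c3) = dT rc (rT c4)`. -/
def S_Q5 : Prop := ∀ (X : Cov) (_ : IsAcyclic X.π X.Kt) (N : Type) [AddCommGroup N]
  [Module ℝ N] (e : ℕ → N →ₗ[ℝ] N) (_ : IdemSys X.L N e) (B : Set X.W)
  (_ : ∀ x ∈ B, X.π x ∈ X.V) (a b : X.W) (_ : a ∈ B)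
  (_ : b ∈ B) (_ : X.π a ≠ X.π b) (_ : ¬ Adj X.L (X.π a) (X.π b))
  (_ : ∀ c ∈ B, c ≠ a → c ≠ b → X.Ad c a ∧ X.Ad c b) (x : (Finset X.W × Finset X.W) →₀ N)
  (_ : IsDt (X.Xf B) X.π (FF X.z e) x) (_ : dT X.π (rr X.z e) x = 0),
  ∃ y, IsDt (X.Xf B) X.π (FF X.z e) y ∧ dT X.π (rr X.z e) y = x

end MP8a95ee.Rk
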