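import Pool.Agent.Work.MP_8a95ee_gt.Rk.Stmts

/-!
# Statements of the items of the block Rk, second part (helper39)
-/

set_option autoImplicit false

namespace MP8a95ee.Rk

open Ref RA

/-! ## D. Duality downstairs -/

/-- the link of `s` in `Y` has the reduced real homology of a sphere; `n` is the number of vertices
of the facets of `Y` -/
def IsSph (Y : Finset (Finset ℕ)) (n : ℕ) (s : Finset ℕ) : Prop :=
  (∀ k, s.card + k ≠ n → ∀ c, LkChain Y s k c → bdS Y c = 0 →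
    ∃ c', LkChain Y s (k + 1) c' ∧ bdS Y c' = c) ∧
  (∀ k, s.card + k = n → ∃ z, LkChain Y s k z ∧ bdS Y z = 0 ∧
    (¬ ∃ c', LkChain Y s (k + 1) c' ∧ bdS Y c' = z) ∧
    ∀ c, LkChain Y s k c → bdS Y c = 0 →
      ∃ (lam : ℝ) (c' : Finset ℕ → ℝ), LkChain Y s (k + 1) c' ∧ c = lam • z + bdS Y c')

/-- D1: the links of `Kp K V z`.  May assume S_D2 (for `Y = sub K V`: `IsHMfd` says that `IsSph` holds for all
nonempty faces, so faces of the boundary have at most `n` elements).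

PROOF. Let `Y = Kp K V z`, `L = sub K V`; `verts Y = insert z (verts K)`.
(i) `s ∈ K`, not `s ⊆ V`: faces of `Y` which contain `s` are faces of `K`, so `LkChain Y s k c ↔
LkChain K s k c` and `bdS Y c = bdS K c` (the term `a = z` is 0).
(ii) `z ∈ s`, `s = insert z s'`, `s' ∈ L` nonempty: `LkChain Y s k c ↔ LkChain L s' k c`, and
`bdS Y c = bdS L c`; use `IsHMfdB.bd`.
(iii) `s ∈ K`, `s ⊆ V`: a chain `c` of the link of size `k` is `c0 + z ∧ c1`, `c0` a chain of the link in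
`K`, `c1` of size `k - 1` of the link in `L` (`(z ∧ c1) (insert z t) = sg z t * c1 t`, this is
`coneS z c1` on sets not containing `z`); `bdS Y (coneS z c1) = c1 - coneS z (bdS c1)` (`bdS_coneS`).
`bdS c = 0` iff `bdS L c1 = 0` and `bdS K c0 + c1 = 0`.  If `|s| + k ≠ n + 1`: `c1 = bdS L d`
(`|s| + (k - 1) ≠ n`; for `k = 0` there is no `c1`), `c + bdS (coneS z d) = c0 + d`, a closed chain of the
link in `K`, so it is a boundary by `IsHMfdB.bdy`.  If `|s| + k = n + 1` (so `k ≥ 1`, because `|s| ≤ n` by D2): let `z1` be the generator for the link in `L`, size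
`k - 1`; by `bdy` `z1 = - bdS K g`; the generator is `g + coneS z z1`; it is not a boundary by comparison
of the `z`-parts; and every closed `c0 + coneS z c1` has `c1 = lam z1 + bdS L d`, so
`c - lam (g + coneS z z1) + bdS (coneS z d)` is a closed chain of the link in `K`. -/
def S_D1 : Prop := ∀ (K : Finset (Finset ℕ)) (_ : IsCx K) (V : Finset ℕ) (_ : V ⊆ verts K)
  (z : ℕ) (_ : z ∉ verts K) (n : ℕ) (_ : IsHMfdB K V n) (s : Finset ℕ) (_ : s ∈ Kp K V z)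
  (_ : s.Nonempty) (_ : s ≠ {z}), IsSph (Kp K V z) (n + 1) s

/-- D2: purity.

PROOF. Let `t` be a face which contains `s`, with the maximal number of elements.  If `t.card ≠ n`, the
indicator `c` of `∅` is a closed chain of size `0` of the link of `t`, so it is `bdS Y c'` with
`LkChain Y t 1 c'`; but the link of `t` has no vertex (maximality), so `c' = 0`, contradiction.  (Compare
`MP8a95ee.Ref.A1P` in `Bd/B12.lean`.)  The same for every maximal face which contains `s`. -/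
def S_D2 : Prop := ∀ (Y : Finset (Finset ℕ)) (_ : IsCx Y) (n : ℕ) (s : Finset ℕ) (_ : s ∈ Y)
  (_ : ∀ t ∈ Y, s ⊆ t → IsSph Y n t), s.card ≤ n ∧ ∃ t ∈ Y, s ⊆ t ∧ t.card = n

/-- the cycle of `Kp K V z`: `c` minus the cone over `o` -/
noncomputable def cp (z : ℕ) {m : ℕ} (o : (Fin (m + 1) → ℕ) → ℤ) (c : (Fin (m + 2) → ℕ) → ℤ)
    (t : Finset ℕ) : ℝ :=
  if z ∈ t then - (sg z (t.erase z) * oF o (t.erase z)) else oF c t

/-- D3: properties of the cycle `cp`.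

PROOF. For `a ∉ t`, `|t| = m + 1`, `s` the increasing enumeration of `t`:
`c (snoc s a) = (-1)^#{b ∈ t | a < b} * oF c (insert a t)`, and `sg a t = (-1)^#{b ∈ t | b < a}
= (-1)^(m+1) (-1)^#{b ∈ t | a < b}`, `m` odd; `c (snoc s a) = 0` for `a ∈ t` (alternating).  So
`bdS K (oF c) = oF o`.  In the same way `bdS L (oF o) = 0` (compare `Bd/` item B7 of the block R, or
`h61_...` lemmas).  For `z ∉ t`: `bdS Y cp t = bdS K (oF c) t - sg z t * sg z t * oF o t = 0`; for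
`t = insert z s`: `bdS Y cp t = - ∑ a, sg a (insert z s) * sg z (insert a s) * oF o (insert a s) =
sg z s * bdS L (oF o) s = 0` (`sg_anti'`). -/
def S_D3 : Prop := ∀ (K : Finset (Finset ℕ)) (_ : IsCx K) (V : Finset ℕ) (_ : V ⊆ verts K)
  (z : ℕ) (_ : z ∉ verts K) (m : ℕ) (_ : Odd m) (o : (Fin (m + 1) → ℕ) → ℤ)
  (_ : IsOrient (sub K V) (m + 1) o) (c : (Fin (m + 2) → ℕ) → ℤ)
  (_ : IsRelCycle K (m + 1) o c)
  (_ : ∀ t : Fin (m + 2) → ℕ, Function.Injective t → Finset.univ.image t ∈ K → c t ≠ 0),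
  bdS K (oF c) = oF o ∧ bdS (Kp K V z) (cp z o c) = 0 ∧
  (∀ t, cp z o c t ≠ 0 → t ∈ Kp K V z ∧ t.card = m + 2) ∧
  (∀ t ∈ Kp K V z, t.card = m + 2 → cp z o c t ≠ 0) ∧
  (∀ t, oF c t ≠ 0 → t ∈ K ∧ t.card = m + 2) ∧
  (∀ t ∈ K, t.card = m + 2 → oF c t ≠ 0) ∧
  (∀ t, oF o t ≠ 0 → t ∈ sub K V ∧ t.card = m + 1)

/-- D4: exactness with coefficients.

PROOF. As `MP8a95ee.Ref.A2P` in `Bd/B12.lean`: the values of `x` span a finite dimensional subspace `E'`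
of `E`; write `x = ∑ i, x_i • n_i` for a basis `n_i` of `E'`; the `x_i` are real chains of the link
with boundary 0 (`bdN` is `bdS` on chains of the link: the terms `a ∈ s` vanish). -/
def S_D4 : Prop := ∀ (Y : Finset (Finset ℕ)) (_ : IsCx Y) (s : Finset ℕ) (_ : s ∈ Y) (k : ℕ)
  (_ : ∀ c, LkChain Y s k c → bdS Y c = 0 → ∃ c', LkChain Y s (k + 1) c' ∧ bdS Y c' = c)
  (N : Type) [AddCommGroup N] [Module ℝ N] (E : Submodule ℝ N) (x : Finset ℕ → N),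
  LkN Y E s k x → bdN Y s x = 0 → ∃ y, LkN Y E s (k + 1) y ∧ bdN Y s y = x

/-- the restriction of a chain to the link of `s` -/
noncomputable def cLk (cpt : Finset ℕ → ℝ) (s u : Finset ℕ) : ℝ :=
  if Disjoint s u then sgg s u * cpt (s ∪ u) else 0

/-- D5: the top cycles of the links.

PROOF. As `MP8a95ee.Ref.A3P` in `Bd/B12.lean` (there `cpt = oF o`): `cLk cpt s` is a closed chain of the
link of size `k` (from `bdS Y cpt (s ∪ u) = 0`), not zero at `t \ s` for a facet `t ⊇ s`.  There are no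
chains of size `k + 1` in the link (`|t| ≤ n`), so by `IsSph` the space of closed chains of size `k` is
one dimensional, spanned by `cLk cpt s`.  For `N`-valued `x` apply this to `f ∘ x` for all linear forms
`f`, with `y := (cLk cpt s u0)⁻¹ • x u0`. -/
def S_D5 : Prop := ∀ (Y : Finset (Finset ℕ)) (_ : IsCx Y) (n : ℕ) (cpt : Finset ℕ → ℝ)
  (_ : bdS Y cpt = 0) (_ : ∀ t, cpt t ≠ 0 → t ∈ Y ∧ t.card = n)
  (_ : ∀ t ∈ Y, t.card = n → cpt t ≠ 0) (_ : ∀ t ∈ Y, t.card ≤ n) (s : Finset ℕ) (_ : s ∈ Y)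
  (_ : IsSph Y n s) (_ : ∃ t ∈ Y, s ⊆ t ∧ t.card = n) (N : Type) [AddCommGroup N] [Module ℝ N]
  (E : Submodule ℝ N) (k : ℕ) (_ : s.card + k = n) (x : Finset ℕ → N), LkN Y E s k x →
  bdN Y s x = 0 → ∃ y ∈ E, ∀ u, x u = cLk cpt s u • y

/-- the complex of pairs downstairs -/
def IsDF (Y : Finset (Finset ℕ)) {N : Type} [AddCommGroup N] [Module ℝ N]
    (F : Finset ℕ → Submodule ℝ N) (x : Finset ℕ → Finset ℕ → N) : Prop :=
  ∀ s u, (x s u ≠ 0 → Disjoint s u ∧ s ∪ u ∈ Y) ∧ x s u ∈ F s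

/-- its boundary operator -/
def dDF (Y : Finset (Finset ℕ)) {N : Type} [AddCommGroup N] [Module ℝ N]
    (ρ : ℕ → Finset ℕ → N →ₗ[ℝ] N) (x : Finset ℕ → Finset ℕ → N) (s u : Finset ℕ) : N :=
  if Disjoint s u then
    (∑ a ∈ s, sg a u • ρ a (s.erase a) (x (s.erase a) (insert a u)))
      - ∑ a ∈ verts Y \ (s ∪ u), sg a u • x s (insert a u)
  else 0

/-- D6a: the square of `dDF` is zero.

PROOF. As `RA.S_B1` (find its proof in `Bd/`), with `ρ a s` instead of `e a`, `IsCS.comm` instead of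
`IdemSys.comm`. -/
def S_D6a : Prop := ∀ (Y : Finset (Finset ℕ)) (_ : IsCx Y) (N : Type) [AddCommGroup N]
  [Module ℝ N] (F : Finset ℕ → Submodule ℝ N) (ρ : ℕ → Finset ℕ → N →ₗ[ℝ] N)
  (_ : IsCS Y F ρ) (x : Finset ℕ → Finset ℕ → N) (_ : IsDF Y F x),
  IsDF Y F (dDF Y ρ x) ∧ dDF Y ρ (dDF Y ρ x) = 0

/-- D6: moving a filling to the top size.  May assume S_D4, S_D6a.

PROOF. As `MP8a95ee.Ref.A4P` in `Bd/B12.lean` (about 190 lines; there `s ≠ ∅` on the support of `x`,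
here it follows from `F ∅ = ⊥`; sets `s` with `F s = ⊥` do not occur in the support of `x`). -/
def S_D6 : Prop := ∀ (Y : Finset (Finset ℕ)) (_ : IsCx Y) (n : ℕ) (N : Type) [AddCommGroup N]
  [Module ℝ N] (F : Finset ℕ → Submodule ℝ N) (ρ : ℕ → Finset ℕ → N →ₗ[ℝ] N)
  (_ : IsCS Y F ρ) (_ : F ∅ = ⊥) (_ : ∀ s ∈ Y, F s ≠ ⊥ → IsSph Y n s)
  (_ : ∀ t ∈ Y, t.card ≤ n) (x : Finset ℕ → Finset ℕ → N) (_ : IsDF Y F x)
  (_ : ∀ s u, dDF Y ρ x s u ≠ 0 → (s ∪ u).card = n),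
  ∃ x', IsDF Y F x' ∧ dDF Y ρ x' = dDF Y ρ x ∧ ∀ s u, x' s u ≠ 0 → (s ∪ u).card = n

/-- D7: duality.  May assume S_D5, S_D6.

PROOF. As `MP8a95ee.Ref.A5P` in `Bd/B12.lean` (about 160 lines), with `cpt` instead of `oF o`, `cLk cpt`
instead of `oLk o`, `ρ a (s.erase a)` instead of `e a`, `F s` instead of `Es e s`.  For `s` with
`F s = ⊥` take `ψ0 s = 0`. -/
def S_D7 : Prop := ∀ (Y : Finset (Finset ℕ)) (_ : IsCx Y) (n : ℕ) (cpt : Finset ℕ → ℝ)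
  (_ : bdS Y cpt = 0) (_ : ∀ t, cpt t ≠ 0 → t ∈ Y ∧ t.card = n)
  (_ : ∀ t ∈ Y, t.card = n → cpt t ≠ 0) (_ : ∀ t ∈ Y, t.card ≤ n)
  (_ : ∀ s ∈ Y, ∃ t ∈ Y, s ⊆ t ∧ t.card = n) (N : Type) [AddCommGroup N]
  [Module ℝ N] (F : Finset ℕ → Submodule ℝ N) (ρ : ℕ → Finset ℕ → N →ₗ[ℝ] N)
  (_ : IsCS Y F ρ) (_ : F ∅ = ⊥) (_ : ∀ s ∈ Y, F s ≠ ⊥ → IsSph Y n s)
  (φ : Finset ℕ → N) (_ : IsCF Y F φ) (_ : dF Y ρ φ = 0)
  (x : Finset ℕ → Finset ℕ → N) (_ : IsDF Y F x) (_ : dDF Y ρ x = capU φ cpt),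
  ∃ ψ, IsCF Y F ψ ∧ dF Y ρ ψ = φ

/-- D8: Euler characteristic of an exact complex.

PROOF. As `RA.B11` in `Bd/B06.lean` (beginning of the file): `dF ∘ dF = 0` by `IsCS.comm`, the complex
splits into even and odd parts, `∑ (-1)^|s| dim F s = dim C_even - dim C_odd`, and exactness gives
`dim C_even = dim Z_even + dim B_odd = dim B_even + dim B_odd = dim C_odd`. -/
def S_D8 : Prop := ∀ (Y : Finset (Finset ℕ)) (_ : IsCx Y) (N : Type) [AddCommGroup N]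
  [Module ℝ N] [FiniteDimensional ℝ N] (F : Finset ℕ → Submodule ℝ N)
  (ρ : ℕ → Finset ℕ → N →ₗ[ℝ] N) (_ : IsCS Y F ρ),
  (∀ φ : Finset ℕ → N, IsCF Y F φ → dF Y ρ φ = 0 → ∃ ψ, IsCF Y F ψ ∧ dF Y ρ ψ = φ) →
  ∑ s ∈ Y, (-1 : ℤ) ^ s.card * (Module.finrank ℝ (F s) : ℤ) = 0

/-- D9: the Euler characteristic of the coefficient system.  May assume Ref.S_B6'.

PROOF. `Kp K V z` is the disjoint union of `K` and `(sub K V).image (insert z)`, `insert z` is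
injective on `sub K V`.  `FF z e ∅ = FF z e {z} = ⊥`; `finrank ⊤ = finrank N = finrank (Es e ∅) = 2^|V|`.
The sum is `∑ s ∈ K, s ≠ ∅, (-1)^|s| 2^|V| + ∑ s ∈ sub K V, s ≠ ∅, (-1)^(|s|+1) 2^(|V|-|s|)
= - 2^|V| (chiK K + (∑ s ∈ sub K V, (-1/2)^|s|) - 1) = - chiM K V`. -/
def S_D9 : Prop := ∀ (K : Finset (Finset ℕ)) (_ : IsCx K) (V : Finset ℕ) (_ : V ⊆ verts K)
  (z : ℕ) (_ : z ∉ verts K) (N : Type) [AddCommGroup N] [Module ℝ N] [FiniteDimensional ℝ N]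
  (e : ℕ → N →ₗ[ℝ] N)
  (_ : ∀ s ∈ sub K V, Module.finrank ℝ (Es e s) = 2 ^ (V.card - s.card)),
  ∑ s ∈ Kp K V z, (-1 : ℤ) ^ s.card * (Module.finrank ℝ (FF z e s) : ℤ) = - chiM K V

/-! ## F. The families of chains -/

/-- the data -/
structure Dat (X : Cov) (m : ℕ) (o : (Fin (m + 1) → ℕ) → ℤ) (c : (Fin (m + 2) → ℕ) → ℤ)
    (b : Finset ℕ → ℝ) : Prop where
  hm : 3 ≤ m
  odd : Odd m
  mfd : IsHMfdB X.K X.V (m + 1)
  ori : IsOrient X.L (m + 1) o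
  rel : IsRelCycle X.K (m + 1) o c
  nz : ∀ t : Fin (m + 2) → ℕ, Function.Injective t → Finset.univ.image t ∈ X.K → c t ≠ 0
  supp : ∀ s, b s ≠ 0 → s ∈ KK X.L ∧ s.card = m + 2
  bdb : bdS X.L b = oF o
  acy : IsAcyclic X.π X.Kt

/-- F1: the chains `T α`.  May assume S_T1, S_T2, S_T4, S_T5, S_A1.

PROOF. (1) evaluate at `t`: A1 (1) with the finite set `S` of vertices of the support of `T b α`, T1,
T2.  (2) T4: `Tc b (tA γ α) (tS γ t) = Tc b α t`, `tS γ` is a bijection (inverse `tS γ⁻¹`). -/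
def S_F1 : Prop := ∀ (X : Cov) (m : ℕ) (o : (Fin (m + 1) → ℕ) → ℤ)
  (c : (Fin (m + 2) → ℕ) → ℤ) (b : Finset ℕ → ℝ) (_ : Dat X m o c b)
  (α : Finset (X.W × X.W)) (_ : X.Om α),
  bdl X.π (X.T b α) = - ∑ β ∈ X.cov α, X.inc α β • X.T b β ∧
  ∀ γ, X.T b (X.tA γ α) = (X.T b α).mapDomain (X.tS γ)

/-- `Th` is a family of chains with boundary `T + δ Th` -/
def IsTh (X : Cov) (m : ℕ) (b : Finset ℕ → ℝ)
    (Th : Finset (X.W × X.W) → (Finset X.W →₀ ℝ)) : Prop :=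
  (∀ γ α, X.Om α → Th (X.tA γ α) = (Th α).mapDomain (X.tS γ)) ∧
  (∀ α, X.Om α → ∀ t, Th α t ≠ 0 → t ∈ X.Kt ∧ t.card + α.card = m + 3) ∧
  (∀ α, X.Om α → bdl X.π (Th α) = X.T b α + ∑ β ∈ X.cov α, X.inc α β • Th β)

/-- F2: existence of the family `Th`.  May assume S_E1, S_T2, S_T4, S_T5, S_T6, S_A1, S_A6, S_F1.

PROOF. E1 with `A = Finset (W × W)`, `M = Finset W →₀ ℝ`, `act = tA`, `τ γ = lmapDomain (tS γ)`,
`deg = card`, `R = V.card`, `D = bdl π`, `S α` = chains supported on faces of `Kt` with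
`|t| + |α| = m + 3`, `S' α` the same with `m + 2`, `ε = -1`, `y = T b`.  Acyclicity: `x ∈ S' α` closed is
`bdl y` with `y` supported in `Kt`; the part of `y` on the sets with `|t| + |α| = m + 3` has the same
boundary (`bdl` lowers the size by one). -/
def S_F2 : Prop := ∀ (X : Cov) (m : ℕ) (o : (Fin (m + 1) → ℕ) → ℤ)
  (c : (Fin (m + 2) → ℕ) → ℤ) (b : Finset ℕ → ℝ) (_ : Dat X m o c b),
  ∃ Th : Finset (X.W × X.W) → (Finset X.W →₀ ℝ), IsTh X m b Th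

/-- F3a: `K` has no top cycles.  May assume S_D1, S_D2, S_D3, S_D5.

PROOF. Let `Y = Kp K V z`.  `K` is connected: if `P : W → Prop` is such that `P w` and `{w, w'} ∈ Kt`
imply `P w'`, then `P` holds for all `w ≠ zz` or for none: for `P w0` and not `P w1` the chain
`single {w1} 1 - single {w0} 1` is closed, so it is `bdl c'`; the linear form which sends `single {w} 1` to
`1` if `P w` (and all other `single t 1` to `0`) vanishes on `bdl (single {w, w'} 1)`, contradiction.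
Let `w` be closed of size `m + 2` on `K`.  For a vertex `v ∈ V`: the restriction `cLk w {v}` of `w` to the
link of `v` in `K` is closed of size `m + 1`; by `IsHMfdB.bdy` it is the boundary of a chain of size
`m + 2` of the link, i.e. of faces of `K` with `m + 3` elements; there are none (`D1`, `D2`), so `w` is 0 on
all faces which contain `v`.  For `v ∉ V`: `w` is closed as a chain of `Y` near `v`: by D5 (for
`s = {v}`, `cpt = cp`, `N = ℝ`, `x = cLk w {v}`) there is `lam v` with `w t = lam v * oF c t` for all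
`t ∋ v` of size `m + 2`.  Put `lam v = 0` for `v ∈ V`.  If `{v, v'} ∈ K`, it is contained in a face of size
`m + 2` of `K` (D2 in `Y` if one of `v, v'` is not in `V`; if both are in `V` nothing to show), where
`oF c ≠ 0`, so `lam v = lam v'`.  Connectedness (apply to `P w := lam (π w) = 0`) and `V ≠ ∅` give
`lam = 0`. -/
def S_F3a : Prop := ∀ (X : Cov) (m : ℕ) (o : (Fin (m + 1) → ℕ) → ℤ)
  (c : (Fin (m + 2) → ℕ) → ℤ) (b : Finset ℕ → ℝ) (_ : Dat X m o c b) (w : Finset ℕ → ℝ)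
  (_ : ∀ t, w t ≠ 0 → t ∈ X.K ∧ t.card = m + 2) (_ : bdS X.K w = 0), w = 0

/-- L1: lifts of the faces of `Kp K V z`; here `Xf` is `X.Xf {x | X.π x ∈ X.V}`.  May assume S_U1.

PROOF. (1) for `w ∈ K` nonempty: `v ∈ w`, `x` with `π x = v` (`surj`), lift at `x`; for
`w = insert z s`: `insert zz` of a lift of `s`.  (2) `v ∈ t.image π`, `v ≠ z`, `x ∈ t`, `x' ∈ t'` with label
`v`; `γ • x = x'`; then `tS γ (t \ zz)` and `t' \ zz` are lifts of the same face at `x'`.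
(3) `a = z`: `y = zz` (only `zz` has the label `z`); `a ≠ z`: lift of `insert a (π (t \ zz))` at a vertex
of `t`.  (4), (5), (6): `free`, `smK`, `smz`, (3). -/
def S_L1 : Prop := ∀ (X : Cov),
  (∀ w ∈ Kp X.K X.V X.z, ∃ t ∈ X.Xf {x | X.π x ∈ X.V}, t.image X.π = w) ∧
  (∀ t ∈ X.Xf {x | X.π x ∈ X.V}, ∀ t' ∈ X.Xf {x | X.π x ∈ X.V}, t ≠ ∅ → t ≠ {X.zz} →
    t.image X.π = t'.image X.π → ∃ γ, X.tS γ t = t') ∧
  (∀ t ∈ X.Xf {x | X.π x ∈ X.V}, t ≠ ∅ → t ≠ {X.zz} → ∀ a, a ∉ t.image X.π →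
    insert a (t.image X.π) ∈ Kp X.K X.V X.z →
    ∃! y, X.π y = a ∧ insert y t ∈ X.Xf {x | X.π x ∈ X.V}) ∧
  (∀ t ∈ X.Xf {x | X.π x ∈ X.V}, t ≠ ∅ → t ≠ {X.zz} → ∀ γ, X.tS γ t = t → γ = 1) ∧
  (∀ t ∈ X.Xf {x | X.π x ∈ X.V}, ∀ γ, X.tS γ t ∈ X.Xf {x | X.π x ∈ X.V}) ∧
  (∀ t ∈ X.Xf {x | X.π x ∈ X.V}, t ≠ ∅ → t ≠ {X.zz} →
    {y | y ∉ t ∧ insert y t ∈ X.Xf {x | X.π x ∈ X.V}}.Finite) ∧
  (∀ B : Set X.W, (∀ x ∈ B, X.π x ∈ X.V) → IsLab (Kp X.K X.V X.z) X.π (X.Xf B)) ∧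
  (∀ B : Set X.W, (∀ x ∈ B, X.π x ∈ X.V) → X.Xf B ⊆ X.Xf {x | X.π x ∈ X.V})

/-- F3: the sum of the `Th α` over all pairs is the lift of `c`.  May assume S_U1, S_E2, S_T2, S_T3,
S_T4, S_T5, S_T8, S_T9, S_A1, S_D1, S_D2, S_D3, S_F1, S_F3a, S_L1.

PROOF. For a nonempty `t ∈ Kt` let `C t := ∑ᶠ α (Om1), Th α t`, finite sums by E2 (`P = Finset W`,
`sm = tS`, `tS γ t = t → γ = 1` by L1 (4)).  `C (tS γ t) = C t` (reindex by `tA γ`).  For `t ∈ Kt` with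
`|t| = m + 1` and the finite set `S = {x ∉ t | insert x t ∈ Kt}`: by A1 (1) and linearity
`∑ x ∈ S, sg x t * C (insert x t) = ∑ᶠ α, bdl (Th α) t = ∑ᶠ α, T b α t + ∑ᶠ α ∑ β, inc α β * Th β t =
oF o (π t) + 0` by T3 (if the labels of `t` are in `V`; otherwise all `T b α t = 0` by T2, `nb α` has labels
in `V`, and `oF o (π t) = 0`) and T9 (finiteness of `{β | Om β ∧ Th β t ≠ 0}` by E2).  So the function
`w τ := C (τ~) - oF c τ` for `τ ∈ K`, `|τ| = m + 2`, `τ~` any lift, `0` otherwise, satisfies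
`bdS K w = 0` (lift `ρ ∈ K`, `|ρ| = m + 1`; `insert a ρ ∈ K` corresponds to a unique `insert x ρ~ ∈ Kt`;
`bdS K (oF c) = oF o` by D3); F3a: `w = 0`. -/
def S_F3 : Prop := ∀ (X : Cov) (m : ℕ) (o : (Fin (m + 1) → ℕ) → ℤ)
  (c : (Fin (m + 2) → ℕ) → ℤ) (b : Finset ℕ → ℝ) (_ : Dat X m o c b)
  (Th : Finset (X.W × X.W) → (Finset X.W →₀ ℝ)) (_ : IsTh X m b Th) (t : Finset X.W)
  (_ : t ∈ X.Kt) (_ : t.card = m + 2),
  {α | X.Om1 α ∧ Th α t ≠ 0}.Finite ∧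
  ∑ᶠ (α : Finset (X.W × X.W)) (_ : X.Om1 α), Th α t = oF c (t.image X.π)

/-- the families with the cone point -/
def IsTp (X : Cov) (m : ℕ) (o : (Fin (m + 1) → ℕ) → ℤ) (c : (Fin (m + 2) → ℕ) → ℤ)
    (Tp : Finset (X.W × X.W) → (Finset X.W →₀ ℝ)) : Prop :=
  (∀ γ α, X.Om α → Tp (X.tA γ α) = (Tp α).mapDomain (X.tS γ)) ∧
  (∀ α, X.Om α → ∀ t, Tp α t ≠ 0 → t ∈ X.Xf (X.nb α)) ∧
  (∀ α, X.Om α → bdl X.π (Tp α) = ∑ β ∈ X.cov α, X.inc α β • Tp β) ∧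
  (∀ t ∈ X.Xf {x | X.π x ∈ X.V}, {α | X.Om1 α ∧ Tp α t ≠ 0}.Finite ∧
    ∑ᶠ (α : Finset (X.W × X.W)) (_ : X.Om1 α), Tp α t = cp X.z o c (t.image X.π))

/-- F4: the family with the cone point.  May assume S_U1, S_T2, S_T3, S_T5, S_A1, S_A6, S_A7, S_D1, S_D2,
S_F1, S_F2, S_F3, S_L1.

PROOF. `Tp α := Th α - coneT π zz (T b α)`.  `bdl (Tp α) = T α + δ Th - (T α - coneT (bdl (T α))) =
δ Th - coneT (δ T) = δ Tp` (A7, F1).  Sum: for `t ∈ Kt`: `coneT _ t = 0` (A7), F3 if `|t| = m + 2`,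
otherwise `Th α t = 0` and `oF c (π t) = 0`.  For `t = insert zz s`: `Th α t = 0`, `coneT (T α) t =
sg z (π s) * T α s`, T3 if `|s| = m + 1`, otherwise both sides 0 (T2).  Equivariance: F1, A6
(`γ • zz = zz`). -/
def S_F4 : Prop := ∀ (X : Cov) (m : ℕ) (o : (Fin (m + 1) → ℕ) → ℤ)
  (c : (Fin (m + 2) → ℕ) → ℤ) (b : Finset ℕ → ℝ) (_ : Dat X m o c b),
  ∃ Tp : Finset (X.W × X.W) → (Finset X.W →₀ ℝ), IsTp X m o c Tp

/-- F5: the fillings `x α`.  May assume S_U1, S_E1, S_Q5, S_A4, S_A5, S_A6, S_C2, S_T4, S_T5, S_T6,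
S_L1.

PROOF. E1 with `M = (Finset W × Finset W) →₀ N`, `τ γ = lmapDomain (fun p => (tS γ p.1, tS γ p.2))`,
`D = dT π (rr z e)`, `S α = S' α` = the submodule of the `x` with
`IsDt (Xf (nb α)) π (FF z e) x`, `ε = 1`, `y α = capT π φ (Tp α)` (`D (y α) = capT φ (bdl (Tp α)) =
∑ inc α β • y β` by A5).  Acyclicity: Q5 with `B = nb α`, `a = p.1`, `b = p.2` for some `p ∈ α`: every
element of `nb α` other than `p.1`, `p.2` is adjacent to both.  `nb β ⊆ nb α` for `β ∈ cov α` (T5). -/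
def S_F5 : Prop := ∀ (X : Cov) (m : ℕ) (o : (Fin (m + 1) → ℕ) → ℤ)
  (c : (Fin (m + 2) → ℕ) → ℤ) (_ : IsAcyclic X.π X.Kt)
  (Tp : Finset (X.W × X.W) → (Finset X.W →₀ ℝ)) (_ : IsTp X m o c Tp)
  (N : Type) [AddCommGroup N] [Module ℝ N] (e : ℕ → N →ₗ[ℝ] N) (_ : IdemSys X.L N e)
  (φ : Finset ℕ → N) (_ : IsCF (Kp X.K X.V X.z) (FF X.z e) φ)
  (_ : dF (Kp X.K X.V X.z) (rr X.z e) φ = 0),
  ∃ x : Finset (X.W × X.W) → ((Finset X.W × Finset X.W) →₀ N),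
    (∀ γ α, X.Om α → x (X.tA γ α) =
      (x α).mapDomain fun p => (X.tS γ p.1, X.tS γ p.2)) ∧
    (∀ α, X.Om α → IsDt (X.Xf (X.nb α)) X.π (FF X.z e) (x α)) ∧
    (∀ α, X.Om α → dT X.π (rr X.z e) (x α) =
      capT X.π φ (Tp α) - ∑ β ∈ X.cov α, X.inc α β • x β)

/-- F6: the filling of `cp ∩ φ` downstairs.  May assume S_U1, S_E2, S_T4, S_T5, S_T8, S_T9, S_A3, S_A5,
S_L1.

PROOF. For a pair `q = (s, u)` of disjoint subsets with `s ∪ u ∈ Xf := Xf {π x ∈ V}`, `s ∪ u ≠ ∅, {zz}`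
let `C q := ∑ᶠ α (Om1), x α q` (finite by E2 with `P` = pairs, `sm γ q = (tS γ q.1, tS γ q.2)`, free at `q`
by L1 (4)); `C (sm γ q) = C q`.  For `(s, u)` downstairs, disjoint, `w := s ∪ u ∈ Kp`, `w ≠ ∅, {z}`,
choose a lift `t ∈ Xf` of `w` and put `xK s u := C (t.filter (π · ∈ s), t.filter (π · ∈ u))`, independent
of the lift by L1 (2); `xK s u := 0` otherwise.  `IsDF`: values in `F s` since all `x α q` are.
`dDF xK = capU φ cp`: at `(s, u)` with `w` as above and `t` a lift: the terms `(s.erase a, insert a u)` have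
the same union `w` and the same lift; the terms `(s, insert a u)` with `insert a w ∈ Kp` correspond to
`insert y t ∈ Xf` (L1 (3)); so by A3 (with the finite set `S` of L1 (6)) and linearity
`dDF xK s u = ∑ᶠ α, (dT (x α)) (s~, u~) = ∑ᶠ α, capT φ (Tp α) (s~, u~) - ∑ᶠ α ∑ β, inc α β • x β (s~, u~)`,
the last sum is 0 (T9), and by A5 (1) the first is `sign • (∑ᶠ α, Tp α t) • φ s = capU φ cp s u`.  In all
other cases both sides are 0: (`w ∉ Kp` or not disjoint: clear; `w ⊆ {z}`: `xK` vanishes for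
`s = ∅` and `s = {z}` because `FF = ⊥`, and `cp` vanishes on sets with at most one element). -/
def S_F6 : Prop := ∀ (X : Cov) (m : ℕ) (o : (Fin (m + 1) → ℕ) → ℤ)
  (c : (Fin (m + 2) → ℕ) → ℤ)
  (Tp : Finset (X.W × X.W) → (Finset X.W →₀ ℝ)) (_ : IsTp X m o c Tp)
  (_ : ∀ t, cp X.z o c t ≠ 0 → t ∈ Kp X.K X.V X.z)
  (N : Type) [AddCommGroup N] [Module ℝ N] (e : ℕ → N →ₗ[ℝ] N) (_ : IdemSys X.L N e)
  (φ : Finset ℕ → N) (_ : IsCF (Kp X.K X.V X.z) (FF X.z e) φ)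
  (x : Finset (X.W × X.W) → ((Finset X.W × Finset X.W) →₀ N))
  (_ : ∀ γ α, X.Om α → x (X.tA γ α) = (x α).mapDomain fun p => (X.tS γ p.1, X.tS γ p.2))
  (_ : ∀ α, X.Om α → IsDt (X.Xf (X.nb α)) X.π (FF X.z e) (x α))
  (_ : ∀ α, X.Om α → dT X.π (rr X.z e) (x α) =
      capT X.π φ (Tp α) - ∑ β ∈ X.cov α, X.inc α β • x β),
  ∃ xK : Finset ℕ → Finset ℕ → N, IsDF (Kp X.K X.V X.z) (FF X.z e) xK ∧
    dDF (Kp X.K X.V X.z) (rr X.z e) xK = capU φ (cp X.z o c)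

/-- O1: adding the cone point to a regular covering.

PROOF. `z := (verts K).sup id + 1`, `W' = Option W`, `π' = Option.elim · z π`, `zz = none`, the action of
`Γ` on `Option W`, `Kt' = {σ | ∃ τ ∈ Kt, σ = τ.image some}`.  Acyclicity: chains supported on `Kt'` are
images of chains on `Kt` under `mapDomain (image some)`, which commutes with `bdl`. -/
def S_O1 : Prop := ∀ (K : Finset (Finset ℕ)) (_ : IsCx K) (V : Finset ℕ) (_ : V.Nonempty)
  (_ : V ⊆ verts K) (_ : FlagC (sub K V)) (W Γ : Type) [DecidableEq W] [Group Γ]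
  [MulAction Γ W] (π : W → ℕ) (Kt : Set (Finset W)) (_ : IsRegCover K W Γ π Kt)
  (_ : IsAcyclic π Kt), ∃ X : Cov, X.K = K ∧ X.V = V ∧ IsAcyclic X.π X.Kt

end MP8a95ee.Rk
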